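import Pool.Agent.Lib.MP_deca50_lc.CES.Round

/-!
Choice of the template rows of the absorbers.
-/

open Finset Function

set_option linter.unusedSectionVars false

namespace Pool.Agent.Lib.MP_deca50_lc.CES

variable {K F ι : Type} [Field K] [Fintype K] [DecidableEq K] [AddCommGroup F] [Module K F]
  [Fintype F] [DecidableEq F] [Fintype ι] [DecidableEq ι] {t : ℕ}

/-- Few nonzero vectors are not killed by some functional. -/
private theorem absA_dual {α : Type} [Fintype α] (v : α → F) (hv : ∀ a, v a ≠ 0)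
    (hc : Fintype.card α < Fintype.card K) : ∃ θ : F →ₗ[K] K, ∀ a, θ (v a) ≠ 0 := by
  have h := Submodule.iUnion_ssubset_of_forall_ne_top_of_card_lt (K := K)
    (M := Module.Dual K F) (univ : Finset α)
    (fun a => LinearMap.ker (Module.Dual.eval K F (v a))) (fun a ha => by
      obtain ⟨f, hf⟩ := Module.Projective.exists_dual_ne_zero K (hv a)
      have : f ∈ LinearMap.ker (Module.Dual.eval K F (v a)) := by rw [ha]; trivial
      exact hf (by simpa using this)) (by
      rw [ENat.card_eq_coe_fintype_card, card_univ]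
      exact_mod_cast hc)
  obtain ⟨θ, -, hθ⟩ := Set.exists_of_ssubset h
  refine ⟨θ, fun a h0 => hθ ?_⟩
  simp only [Set.mem_iUnion]
  exact ⟨a, mem_univ a, by simpa using h0⟩

/-- A projection of the row `g` to `K` that is far from the code. -/
theorem exists_far (ht : 1 ≤ t) {s : ι → K} (hs : Injective s)
    (hp : (Fintype.card ι).choose (t + 1) < Fintype.card K) (g : ι → F)
    (ψ : Finset ι → Fin t → F) (hψ : ∀ J : Finset ι, J.card = t → ∀ i ∈ J, ev s (ψ J) i = g i)
    (hinj : ∀ J J' : Finset ι, J.card = t → J'.card = t → ψ J = ψ J' → J = J') :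
    ∃ θ : F →ₗ[K] K, ∀ h : Fin t → K, (univ.filter fun i => ev s h i = θ (g i)).card ≤ t := by
  have hne : ∀ I : Ed ι (t + 1), ∃ i, i ∈ I.1 := fun I =>
    card_pos.1 (by rw [I.2]; omega)
  choose p hpI using hne
  have hc : ∀ (I : Ed ι (t + 1)) i, i ∈ I.1 → (I.1.erase i).card = t := fun I i hi => by
    rw [card_erase_of_mem hi, I.2]; rfl
  obtain ⟨θ, hθ⟩ := absA_dual (K := K)
    (fun I : Ed ι (t + 1) => g (p I) - ev s (ψ (I.1.erase (p I))) (p I)) (fun I h0 => by
      obtain ⟨i, hi⟩ : (I.1.erase (p I)).Nonempty := card_pos.1 (by rw [hc I _ (hpI I)]; omega)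
      have hi' := mem_of_mem_erase hi
      have he : ψ (I.1.erase i) = ψ (I.1.erase (p I)) := by
        refine ev_ext hs (hc I i hi') fun j hj => ?_
        rw [hψ _ (hc I i hi') j hj]
        by_cases hjp : j = p I
        · rw [hjp]
          exact sub_eq_zero.1 h0
        · rw [hψ _ (hc I _ (hpI I)) j (mem_erase.2 ⟨hjp, mem_of_mem_erase hj⟩)]
      have := hinj _ _ (hc I i hi') (hc I _ (hpI I)) he
      have h2 : i ∈ I.1.erase i := this ▸ hi
      simp at h2) (by
      rw [Fintype.card_finset_len]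
      exact hp)
  refine ⟨θ, fun h => ?_⟩
  by_contra hlt
  obtain ⟨I, hI, hIc⟩ := exists_subset_card_eq (n := t + 1) (Nat.lt_of_not_le hlt)
  let E : Ed ι (t + 1) := ⟨I, hIc⟩
  have hag : ∀ i ∈ I, ev s h i = θ (g i) := fun i hi => (mem_filter.1 (hI hi)).2
  have he : h = fun j => θ (ψ (I.erase (p E)) j) := by
    refine ev_ext hs (hc E _ (hpI E)) fun i hi => ?_
    rw [ev_map, hψ _ (hc E _ (hpI E)) i hi, hag i (mem_of_mem_erase hi)]
  refine hθ E ?_
  rw [map_sub, ← hag _ (hpI E), ← ev_map, ← he, sub_self]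

private def absA_mv (M : Fin t → Fin t → K) (φ : Fin t → F) : Fin t → F :=
  fun l => ∑ l', M l l' • φ l'

private def absA_mx (s : ι → K) (π : ι → Fin t → K) : Fin t → Fin t → K :=
  fun l l' => (if l = l' then 1 else 0) - ∑ j, π j l * s j ^ (l' : ℕ)

private theorem absA_mv_mx {M : Type} [AddCommGroup M] [Module K M] (s : ι → K)
    (π : ι → Fin t → K) (φ : Fin t → M) (l : Fin t) :
    ∑ l', absA_mx s π l l' • φ l' = φ l - ∑ j, π j l • ev s φ j := by
  simp only [absA_mx, sub_smul, sum_sub_distrib, ite_smul, one_smul, zero_smul, sum_ite_eq,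
    mem_univ, if_true, ev, sum_smul, smul_sum, mul_smul]
  rw [sum_comm]

private theorem absA_foot (s : ι → K) (g : ι → F) (P ψ : Fin t → F) (π : ι → Fin t → K)
    (h : ∀ j, π j ≠ 0 → ev s ψ j = g j) :
    foot s g P π = ψ + absA_mv (absA_mx s π) (P - ψ) := by
  funext l
  have h1 : ∀ j, π j l • (g j - ev s P j) = -(π j l • ev s (P - ψ) j) := fun j => by
    by_cases h0 : π j = 0
    · simp [h0]
    · rw [ev_sub, h j h0, ← smul_neg, neg_sub]
  simp only [foot, absA_mv, absA_mv_mx, Pi.add_apply, Pi.sub_apply, h1, sum_neg_distrib]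
  abel

private theorem absA_mv_upd (M : Fin t → Fin t → K) (c : F → Fin t → F)
    (ω : Option (Fin t) → F) (l' : Fin t) (x : F) (l : Fin t) :
    absA_mv M (fun m => update ω (some l') x (some m) + c (update ω (some l') x none) m) l =
      absA_mv M (fun m => update ω (some l') 0 (some m) + c (update ω (some l') 0 none) m) l +
        M l l' • x := by
  have h1 : ∀ m, update ω (some l') x (some m) =
      update ω (some l') 0 (some m) + if m = l' then x else 0 := fun m => by
    by_cases hm : m = l'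
    · subst hm
      simp
    · simp [hm]
  have h2 : ∀ y, update ω (some l') y none = ω none := fun y => by simp
  simp only [absA_mv, h2]
  have h3 : M l l' • x = ∑ m, M l m • (if m = l' then x else 0) := by simp
  rw [h3, ← sum_add_distrib]
  refine sum_congr rfl fun m _ => ?_
  rw [h1 m, ← smul_add]
  congr 1
  abel

/-- An affine function of one coordinate hits a small set rarely. -/
private theorem absA_lin {L : Type} [Fintype L] [DecidableEq L] (u : (L → F) → F) (l : L) (c : K)
    (hc : c ≠ 0) (hu : ∀ ω x, u (update ω l x) = u (update ω l 0) + c • x) (T : Finset F) :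
    (univ.filter fun ω => u ω ∈ T).card * Fintype.card F ≤ T.card * Fintype.card (L → F) := by
  refine fib _ l _ fun ω => ?_
  refine card_le_card_of_injOn (fun x => u (update ω l x)) (fun x hx => ?_) fun x _ y _ hxy => ?_
  · simpa using hx
  · have h1 : c • x = c • y := by
      have h2 : u (update ω l x) = u (update ω l y) := hxy
      rw [hu ω x, hu ω y] at h2
      exact add_left_cancel h2
    exact smul_right_injective F hc h1

/-- A row that moves along a rational line hits a line bounded set rarely. -/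
private theorem absA_line (M : Fin t → Fin t → K) (hM : M ≠ 0) (b : Fin t → F)
    (c : F → Fin t → F) (T : Finset (Fin t → F)) (q : ℕ) (hT : LB K T q) :
    (univ.filter fun ω : Option (Fin t) → F =>
      b + absA_mv M (fun m => ω (some m) + c (ω none) m) ∈ T).card * Fintype.card F ≤
      q * Fintype.card (Option (Fin t) → F) := by
  obtain ⟨l, l', hl⟩ : ∃ l l', M l l' ≠ 0 := by
    by_contra hn
    push Not at hn
    exact hM (funext fun l => funext fun l' => hn l l')
  refine fib _ (some l') _ fun ω => ?_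
  have h1 := hT (b + absA_mv M (fun m => update ω (some l') 0 (some m) +
    c (update ω (some l') 0 none) m)) (fun m => M m l') fun h0 => hl (congrFun h0 l)
  refine le_trans (le_of_eq (congrArg card (filter_congr fun x _ => ?_))) h1
  refine iff_of_eq (congrArg (· ∈ T) (funext fun m => ?_))
  simp only [ln, Pi.add_apply]
  rw [absA_mv_upd, add_assoc]

/-- The row of the slot `(h, π)` for the choice `ω`. -/
private def absA_row (s : ι → K) (g : ι → F) (h : Fin t → K) (π : ι → Fin t → K)
    (ω : Option (Fin t) → F) : Fin t → F :=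
  foot s g (ln (fun l => ω (some l)) h (ω none)) π

private theorem absA_row_eq (s : ι → K) (g : ι → F) (ψ : Fin t → F) (h : Fin t → K)
    (π : ι → Fin t → K) (hψ : ∀ j, π j ≠ 0 → ev s ψ j = g j) (ω : Option (Fin t) → F) :
    absA_row s g h π ω =
      ψ + absA_mv (absA_mx s π) (fun m => ω (some m) + (h m • ω none - ψ m)) := by
  rw [absA_row, absA_foot s g _ ψ π hψ]
  congr 2
  funext m
  simp only [ln, Pi.sub_apply]
  abel

private theorem absA_entry {s : ι → K} (hs : Injective s) (g : ι → F) (ψ : Fin t → F)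
    {J : Finset ι} (hJ : J.card = t) (h1 : ∀ i ∈ J, ev s ψ i = g i) (h : Fin t → K)
    (π : ι → Fin t → K) (hπ : ∀ j, π j ≠ 0 → j ∈ J) (β : ℕ) (i : ι) (A : Finset F)
    (h2 : i ∉ J → ev s ψ i ∈ A) (hA : Fintype.card F ≤ A.card + β) :
    ∃ T : Finset (Option (Fin t) → F),
      T.card * Fintype.card F ≤ β * Fintype.card (Option (Fin t) → F) ∧
      ∀ ω, ω ∉ T → ev s (absA_row s g h π ω) i ∈ A ∨
        (π i ≠ 0 ∧ ev s (absA_row s g h π ω) i = g i) := by
  have hψ : ∀ j, π j ≠ 0 → ev s ψ j = g j := fun j hj => h1 j (hπ j hj)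
  by_cases hr : ∀ l', ∑ l : Fin t, s i ^ (l : ℕ) * absA_mx s π l l' = 0
  · refine ⟨∅, by simp, fun ω _ => ?_⟩
    have h3 : ev s (absA_row s g h π ω) i = ev s ψ i := by
      rw [absA_row_eq s g ψ h π hψ, ev_add, add_eq_left]
      simp only [ev, absA_mv, smul_sum, ← mul_smul]
      rw [sum_comm]
      refine sum_eq_zero fun l' _ => ?_
      rw [← sum_smul, hr, zero_smul]
    rw [h3]
    by_cases hi : i ∈ J
    · refine Or.inr ⟨fun h0 => ?_, h1 i hi⟩
      obtain ⟨lam, -, hl1, hl2, -⟩ := exists_lag hs hJ hi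
      have h4 : ∀ l, ∑ l', absA_mx s π l l' • lam l' = lam l := fun l => by
        rw [absA_mv_mx, sub_eq_self]
        refine sum_eq_zero fun j _ => ?_
        by_cases hj : π j = 0
        · simp [hj]
        · rw [hl2 j (hπ j hj) fun hji => hj (hji ▸ h0), smul_zero]
      have h5 : ev s lam i = 0 := by
        have h6 : ev s lam i = ∑ l : Fin t, ∑ l', s i ^ (l : ℕ) • absA_mx s π l l' • lam l' :=
          sum_congr rfl fun l _ => by rw [← smul_sum, h4]
        rw [h6, sum_comm]
        refine sum_eq_zero fun l' _ => ?_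
        simp only [← mul_smul]
        rw [← sum_smul, hr, zero_smul]
      exact one_ne_zero (hl1.symm.trans h5)
    · exact Or.inl (h2 hi)
  · push Not at hr
    obtain ⟨l', hl'⟩ := hr
    refine ⟨univ.filter fun ω => ev s (absA_row s g h π ω) i ∈ Aᶜ, ?_, fun ω hω => Or.inl ?_⟩
    · refine (absA_lin (fun ω => ev s (absA_row s g h π ω) i) (some l') _ hl'
        (fun ω x => ?_) Aᶜ).trans (Nat.mul_le_mul_right _ ?_)
      · simp only [absA_row_eq s g ψ h π hψ, ev_add]
        rw [add_assoc, add_right_inj, sum_smul, ev, ev, ← sum_add_distrib]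
        refine sum_congr rfl fun l _ => ?_
        rw [absA_mv_upd (absA_mx s π) (fun z m => h m • z - ψ m), smul_add, mul_smul]
      · rw [card_compl]
        omega
    · simpa using hω

private theorem absA_aff {L : Type} [Fintype L] [DecidableEq L] (cf : L → K) (b : F) (l : L)
    (hc : cf l ≠ 0) :
    (univ.filter fun ω : L → F => ∑ o, cf o • ω o + b = 0).card * Fintype.card F ≤
      Fintype.card (L → F) := by
  have h := absA_lin (fun ω : L → F => ∑ o, cf o • ω o + b) l (cf l) hc (fun ω x => by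
    have h3 : cf l • x = ∑ o, cf o • (if o = l then x else 0) := by simp
    rw [h3, add_right_comm, ← sum_add_distrib]
    congr 1
    refine sum_congr rfl fun o _ => ?_
    rw [← smul_add]
    by_cases ho : o = l
    · subst ho
      simp
    · simp [ho]) {0}
  simpa using h

private theorem absA_row_val (s : ι → K) (g : ι → F) (w : ι → K) (h : Fin t → K)
    (π : ι → Fin t → K) (hv : ∀ j, π j ≠ 0 → ev s h j = w j) (ω : Option (Fin t) → F)
    (l : Fin t) :
    absA_row s g h π ω l = (h l - ∑ j, π j l * w j) • ω none +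
      ∑ l', absA_mx s π l l' • ω (some l') + ∑ j, π j l • g j := by
  have h1 : ∀ j, π j l • (g j - ev s (ln (fun l => ω (some l)) h (ω none)) j) =
      π j l • g j - π j l • ev s (fun l => ω (some l)) j - (π j l * w j) • ω none := fun j => by
    by_cases h0 : π j = 0
    · simp [h0]
    · rw [ev_ln, hv j h0, mul_smul, smul_sub, smul_add]
      abel
  rw [absA_mv_mx s π (fun l => ω (some l))]
  simp only [absA_row, foot, h1, sum_sub_distrib, sub_smul, sum_smul, ln]
  abel

private theorem absA_coll {s : ι → K} (hs : Injective s) (hk : t ≤ Fintype.card ι) (g : ι → F)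
    (θ : F →ₗ[K] K)
    (hθ : ∀ h : Fin t → K, (univ.filter fun i => ev s h i = θ (g i)).card ≤ t)
    (h h' : Fin t → K) (π π' : ι → Fin t → K) (hv : ∀ j, π j ≠ 0 → ev s h j = θ (g j))
    (hv' : ∀ j, π' j ≠ 0 → ev s h' j = θ (g j)) :
    ∃ T : Finset (Option (Fin t) → F),
      T.card * Fintype.card F ≤ Fintype.card (Option (Fin t) → F) ∧
      ∀ ω, ω ∉ T → absA_row s g h π ω = absA_row s g h' π' ω → h = h' ∧ π = π' := by
  let cf : Fin t → Option (Fin t) → K := fun l o =>
    o.elim ((h l - ∑ j, π j l * θ (g j)) - (h' l - ∑ j, π' j l * θ (g j)))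
      fun l' => absA_mx s π l l' - absA_mx s π' l l'
  have hd : ∀ ω l, absA_row s g h π ω l - absA_row s g h' π' ω l =
      ∑ o, cf l o • ω o + (∑ j, π j l • g j - ∑ j, π' j l • g j) := fun ω l => by
    rw [absA_row_val s g _ h π hv, absA_row_val s g _ h' π' hv', Fintype.sum_option]
    simp only [cf, Option.elim, sub_smul, sum_sub_distrib]
    abel
  by_cases hc : ∀ l o, cf l o = 0
  · refine ⟨∅, by simp, fun ω _ he => ?_⟩
    have h1 : ∀ l, ∑ j, π j l * θ (g j) = ∑ j, π' j l * θ (g j) := fun l => by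
      have h2 := hd ω l
      rw [he, sub_self] at h2
      simp only [hc, zero_smul, sum_const_zero, zero_add] at h2
      have h3 := congrArg θ (sub_eq_zero.1 h2.symm)
      simpa only [map_sum, map_smul, smul_eq_mul] using h3
    have h2 : h = h' := funext fun l => by
      have h3 : (h l - ∑ j, π j l * θ (g j)) - (h' l - ∑ j, π' j l * θ (g j)) = 0 := hc l none
      rw [h1 l] at h3
      linear_combination h3
    subst h2
    refine ⟨rfl, ?_⟩
    obtain ⟨J, hJ1, -, hJ⟩ := exists_subsuperset_card_eq (subset_univ _) (hθ h)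
      (by rwa [card_univ])
    have hin : ∀ (p : ι → Fin t → K), (∀ j, p j ≠ 0 → ev s h j = θ (g j)) → ∀ j, j ∉ J →
        p j = 0 := fun p hp j hj => by
      by_contra h0
      exact hj (hJ1 (mem_filter.2 ⟨mem_univ _, hp j h0⟩))
    funext i
    by_cases hi : i ∈ J
    · obtain ⟨lam, -, hl1, hl2, -⟩ := exists_lag hs hJ hi
      have h4 : ∀ (p : ι → Fin t → K), (∀ j, p j ≠ 0 → ev s h j = θ (g j)) → ∀ l,
          ∑ l', absA_mx s p l l' • lam l' = lam l - p i l := fun p hp l => by
        rw [absA_mv_mx, sum_eq_single i, hl1, smul_eq_mul, mul_one]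
        · intro j _ hji
          by_cases hj : j ∈ J
          · rw [hl2 j hj hji, smul_zero]
          · simp [hin p hp j hj]
        · simp
      funext l
      have h5 : ∑ l', absA_mx s π l l' • lam l' = ∑ l', absA_mx s π' l l' • lam l' :=
        sum_congr rfl fun l' _ => by
          have h6 : absA_mx s π l l' - absA_mx s π' l l' = 0 := hc l (some l')
          rw [sub_eq_zero.1 h6]
      rw [h4 π hv, h4 π' hv'] at h5
      exact sub_right_injective h5
    · rw [hin π hv i hi, hin π' hv' i hi]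
  · push Not at hc
    obtain ⟨l, o, ho⟩ := hc
    refine ⟨_, absA_aff (cf l) (∑ j, π j l • g j - ∑ j, π' j l • g j) o ho, fun ω hω he => ?_⟩
    refine absurd (mem_filter.2 ⟨mem_univ _, ?_⟩) hω
    rw [← hd, he, sub_self]

/-- Coefficient families with at most `t` nonzero columns. -/
private abbrev absA_Sp (K ι : Type) [Field K] [DecidableEq K] [Fintype ι] (t : ℕ) : Type :=
  {π : ι → Fin t → K // (univ.filter fun j => π j ≠ 0).card ≤ t}

private theorem absA_exJ (hk : t ≤ Fintype.card ι) (π : absA_Sp K ι t) :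
    ∃ J : Finset ι, J.card = t ∧ ∀ j, π.1 j ≠ 0 → j ∈ J := by
  obtain ⟨J, hJ1, -, hJ⟩ := exists_subsuperset_card_eq (subset_univ _) π.2 (by rwa [card_univ])
  exact ⟨J, hJ, fun j hj => hJ1 (mem_filter.2 ⟨mem_univ _, hj⟩)⟩

private theorem absA_card (hk : t ≤ Fintype.card ι) :
    Fintype.card (absA_Sp K ι t) ≤ Fintype.card ι ^ t * Fintype.card K ^ (t * t) := by
  have h1 : ∀ π : absA_Sp K ι t, ∃ e : Fin t → ι, ∀ j, π.1 j ≠ 0 → ∃ m, e m = j := fun π => by
    obtain ⟨J, hJ, hπ⟩ := absA_exJ hk π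
    exact ⟨fun m => ((J.equivFinOfCardEq hJ).symm m).1, fun j hj =>
      ⟨J.equivFinOfCardEq hJ ⟨j, hπ j hj⟩, by simp⟩⟩
  choose e he using h1
  have h2 : Injective fun π : absA_Sp K ι t => (e π, fun m => π.1 (e π m)) := by
    intro π π' h
    obtain ⟨h3, h4⟩ := Prod.mk.inj h
    refine Subtype.ext (funext fun j => ?_)
    by_cases hj : ∃ m, e π m = j
    · obtain ⟨m, rfl⟩ := hj
      have h5 : π.1 (e π m) = π'.1 (e π' m) := congrFun h4 m
      rw [h5, h3]
    · have h5 : π.1 j = 0 := by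
        by_contra h0
        exact hj (he π j h0)
      have h6 : π'.1 j = 0 := by
        by_contra h0
        exact hj (h3 ▸ he π' j h0)
      rw [h5, h6]
  refine (Fintype.card_le_of_injective _ h2).trans (le_of_eq ?_)
  simp [pow_mul]

/-- Union bound. -/
private theorem absA_union {α Ω : Type} [Fintype α] [DecidableEq Ω] (T : α → Finset Ω) (N c : ℕ)
    (h : ∀ a, (T a).card * N ≤ c) : (univ.biUnion T).card * N ≤ Fintype.card α * c := by
  refine (Nat.mul_le_mul_right N card_biUnion_le).trans ?_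
  rw [sum_mul]
  refine (sum_le_sum fun a _ => h a).trans (le_of_eq ?_)
  simp

/-- The expected number of tasks whose row in a fixed slot equals a given row. -/
private theorem absA_exp {τ : Type} [Fintype τ] (s : ι → K) (g : τ → ι → F) (ψ : τ → Fin t → F)
    (hinj : Injective ψ) (R : Finset (Fin t → F)) (q : ℕ) (hR : LB K R q) (hψR : ∀ a, ψ a ∈ R)
    (h : Fin t → K) (π : ι → Fin t → K) (hψ : ∀ a j, π j ≠ 0 → ev s (ψ a) j = g a j)
    (hM : absA_mx s π ≠ 0) (φ : Fin t → F) :
    (∑ a, (univ.filter fun ω => absA_row s (g a) h π ω = φ).card) * Fintype.card F ≤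
      q * Fintype.card (Option (Fin t) → F) := by
  refine le_trans (Nat.mul_le_mul_right _ ?_)
    (absA_line (-absA_mx s π) (neg_ne_zero.2 hM) φ (fun _ _ => 0) R q hR)
  rw [← card_sigma]
  have hneg : ∀ x : Fin t → F, absA_mv (-absA_mx s π) x = -absA_mv (absA_mx s π) x := fun x => by
    funext l
    simp [absA_mv]
  have key : ∀ a ω, absA_row s (g a) h π ω = φ → φ + absA_mv (-absA_mx s π)
      (fun m => ω (some m) + (h m • ω none - ψ a m) + 0) = ψ a := fun a ω hω => by
    rw [← hω, absA_row_eq s (g a) (ψ a) h π (hψ a), hneg]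
    simp
  refine card_le_card_of_injOn (fun p o => o.elim (p.2 none)
    fun m => p.2 (some m) + (h m • p.2 none - ψ p.1 m)) (fun p hp => ?_) fun p hp p' hp' he => ?_
  · have h1 := key p.1 p.2 (mem_filter.1 (mem_sigma.1 (mem_coe.1 hp)).2).2
    refine mem_coe.2 (mem_filter.2 ⟨mem_univ _, ?_⟩)
    simp only [Option.elim]
    rw [h1]
    exact hψR _
  · obtain ⟨a, ω⟩ := p
    obtain ⟨a', ω'⟩ := p'
    have h1 := key a ω (mem_filter.1 (mem_sigma.1 (mem_coe.1 hp)).2).2
    have h2 := key a' ω' (mem_filter.1 (mem_sigma.1 (mem_coe.1 hp')).2).2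
    have h3 : ω none = ω' none := congrFun he none
    have h4 : ∀ m, ω (some m) + (h m • ω none - ψ a m) = ω' (some m) + (h m • ω' none - ψ a' m) :=
      fun m => congrFun he (some m)
    simp only [h4] at h1
    obtain rfl : a = a' := hinj (h1.symm.trans h2)
    congr 1
    funext o
    rcases o with _ | m
    · exact h3
    · have h5 := h4 m
      rw [h3] at h5
      exact add_right_cancel h5

theorem abs_slots (ht : 1 ≤ t) {τ : Type} [Fintype τ] {s : ι → K} (hs : Injective s)
    (hk : t ≤ Fintype.card ι) (hp : (Fintype.card ι).choose (t + 1) < Fintype.card K)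
    (g : τ → ι → F) (ψ : τ → Finset ι → Fin t → F) (A : ι → Finset F)
    (B R : Finset (Fin t → F)) (β q Λ G : ℕ) (hA : ∀ i, Fintype.card F ≤ (A i).card + β)
    (hB : LB K B β) (hR : LB K R q) (hψ : ∀ a J, J.card = t → Slot s A B R J (g a) (ψ a J))
    (hinj : ∀ a J a' J', J.card = t → J'.card = t → ψ a J = ψ a' J' → a = a' ∧ J = J')
    (hΛ : (Fintype.card F * Fintype.card K) ^ t ≤ 2 ^ Λ)
    (hS : Fintype.card K ^ t * (Fintype.card ι ^ t * Fintype.card K ^ (t * t)) ≤ G)
    (hι : Fintype.card ι ≤ G) (hN : 16 * G ^ 2 * (β + q + Λ + 1) ≤ Fintype.card F) :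
    ∃ (w : τ → ι → K) (f : τ → Fin t → F) (z : τ → F) (R' : Finset (Fin t → F)),
      LB K R' (4 * G * (q + Λ)) ∧
      (∀ a (h : Fin t → K) (π : ι → Fin t → K), (∀ j, π j ≠ 0 → ev s h j = w a j) →
        foot s (g a) (ln (f a) h (z a)) π ∈ R' ∧ foot s (g a) (ln (f a) h (z a)) π ∉ B ∧
        ∀ i, ev s (foot s (g a) (ln (f a) h (z a)) π) i ∈ A i ∨
          (π i ≠ 0 ∧ ev s (foot s (g a) (ln (f a) h (z a)) π) i = g a i)) ∧
      ∀ a (h : Fin t → K) (π : ι → Fin t → K) a' (h' : Fin t → K) (π' : ι → Fin t → K),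
        (∀ j, π j ≠ 0 → ev s h j = w a j) → (∀ j, π' j ≠ 0 → ev s h' j = w a' j) →
        foot s (g a) (ln (f a) h (z a)) π = foot s (g a') (ln (f a') h' (z a')) π' →
        a = a' ∧ h = h' ∧ π = π' := by
  classical
  have hG1 : 1 ≤ G := ht.trans (hk.trans hι)
  have hfar := fun a => exists_far ht hs hp (g a) (ψ a) (fun J hJ => (hψ a J hJ).1)
    fun J J' hJ hJ' he => (hinj a J a J' hJ hJ' he).2
  choose θ hθ using hfar
  choose J hJ hπJ using absA_exJ (K := K) hk
  have hcS : Fintype.card ((Fin t → K) × absA_Sp K ι t) ≤ G := by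
    rw [Fintype.card_prod, Fintype.card_fun, Fintype.card_fin]
    exact (Nat.mul_le_mul_left _ (absA_card hk)).trans hS
  let val : τ → (Fin t → K) × absA_Sp K ι t → Prop := fun a σ =>
    ∀ j, σ.2.1 j ≠ 0 → ev s σ.1 j = θ a (g a j)
  let row : τ → (Fin t → K) × absA_Sp K ι t → (Option (Fin t) → F) → Fin t → F := fun a σ ω =>
    absA_row s (g a) σ.1 σ.2.1 ω
  let act : τ → Finset ((Fin t → K) × absA_Sp K ι t) := fun a =>
    univ.filter fun σ => val a σ ∧ absA_mx s σ.2.1 ≠ 0
  let ok : τ → (Option (Fin t) → F) → Prop := fun a ω =>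
    (∀ σ i, ev s (row a σ ω) i ∈ A i ∨ (σ.2.1 i ≠ 0 ∧ ev s (row a σ ω) i = g a i)) ∧
      ∀ σ σ', val a σ → val a σ' → row a σ ω = row a σ' ω → σ = σ'
  have hψJ : ∀ a (π : absA_Sp K ι t) j, π.1 j ≠ 0 → ev s (ψ a (J π)) j = g a j := fun a π j hj =>
    (hψ a _ (hJ π)).1 j (hπJ π j hj)
  have hNpos : 0 < Fintype.card F := Fintype.card_pos
  obtain ⟨w₀, R₁, hR₁, hok, hrow, hdis⟩ := round (K := K) act row ok (B ∪ R) (β + q) (G * q) Λ G
    hG1 hcS hΛ (hB.union hR)
    (fun a σ hσ T q' hT => by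
      have h1 := absA_line (absA_mx s σ.2.1) (mem_filter.1 hσ).2.2 (ψ a (J σ.2))
        (fun z m => σ.1 m • z - ψ a (J σ.2) m) T q' hT
      refine le_trans (le_of_eq ?_) h1
      congr 2
      refine filter_congr fun ω _ => ?_
      simp only [row]
      rw [absA_row_eq s (g a) (ψ a (J σ.2)) σ.1 σ.2.1 (hψJ a σ.2)])
    (fun φ => by
      have h1 : ∑ a, ∑ σ ∈ act a, (univ.filter fun ω => row a σ ω = φ).card ≤
          ∑ σ ∈ univ.filter (fun σ : (Fin t → K) × absA_Sp K ι t => absA_mx s σ.2.1 ≠ 0),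
            ∑ a, (univ.filter fun ω => row a σ ω = φ).card := by
        rw [sum_comm]
        refine sum_le_sum fun a _ => sum_le_sum_of_subset fun σ hσ => ?_
        exact mem_filter.2 ⟨mem_univ _, (mem_filter.1 hσ).2.2⟩
      refine (Nat.mul_le_mul_right _ h1).trans ?_
      rw [sum_mul]
      refine (sum_le_card_nsmul _ _ (q * Fintype.card (Option (Fin t) → F)) fun σ hσ => ?_).trans ?_
      · exact absA_exp s g (fun a => ψ a (J σ.2))
          (fun a a' he => (hinj a _ a' _ (hJ σ.2) (hJ σ.2) he).1) R q hR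
          (fun a => (hψ a _ (hJ σ.2)).2.1) σ.1 σ.2.1 (fun a => hψJ a σ.2) (mem_filter.1 hσ).2 φ
      · rw [smul_eq_mul, mul_assoc]
        exact Nat.mul_le_mul_right _ ((card_le_univ _).trans hcS))
    (fun a => by
      have h1 := fun p : ((Fin t → K) × absA_Sp K ι t) × ι =>
        absA_entry hs (g a) (ψ a (J p.1.2)) (hJ p.1.2) (hψ a _ (hJ p.1.2)).1 p.1.1 p.1.2.1
          (hπJ p.1.2) β p.2 (A p.2) ((hψ a _ (hJ p.1.2)).2.2.2 p.2) (hA p.2)
      choose T₁ hT₁ hT₁' using h1
      have h2 : ∀ p : ((Fin t → K) × absA_Sp K ι t) × ((Fin t → K) × absA_Sp K ι t),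
          ∃ T : Finset (Option (Fin t) → F),
            T.card * Fintype.card F ≤ Fintype.card (Option (Fin t) → F) ∧ ∀ ω, ω ∉ T →
              val a p.1 → val a p.2 → row a p.1 ω = row a p.2 ω → p.1 = p.2 := fun p => by
        by_cases hv : val a p.1 ∧ val a p.2
        · obtain ⟨T, hT, hT'⟩ := absA_coll hs hk (g a) (θ a) (hθ a) p.1.1 p.2.1 p.1.2.1 p.2.2.1
            hv.1 hv.2
          exact ⟨T, hT, fun ω hω _ _ he =>
            Prod.ext (hT' ω hω he).1 (Subtype.ext (hT' ω hω he).2)⟩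
        · exact ⟨∅, by simp, fun ω _ h1 h2 => absurd ⟨h1, h2⟩ hv⟩
      choose T₂ hT₂ hT₂' using h2
      have h3 := absA_union T₁ _ _ hT₁
      have h4 := absA_union T₂ _ _ hT₂
      rw [Fintype.card_prod] at h3 h4
      refine ⟨univ.biUnion T₁ ∪ univ.biUnion T₂, ?_, fun ω hω => ?_⟩
      · refine Nat.le_of_mul_le_mul_right ?_ hNpos
        have h5 := Nat.mul_le_mul_right (Fintype.card F)
          (card_union_le (univ.biUnion T₁) (univ.biUnion T₂))
        have h6 := Nat.mul_le_mul_right (β * Fintype.card (Option (Fin t) → F))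
          (Nat.mul_le_mul hcS hι)
        have h7 := Nat.mul_le_mul_right (Fintype.card (Option (Fin t) → F))
          (Nat.mul_le_mul hcS hcS)
        have h8 : 4 * (G * G * (β + 1)) ≤ Fintype.card F := by
          refine le_trans ?_ hN
          nlinarith [Nat.zero_le (G * G * β), Nat.zero_le (G * G * q), Nat.zero_le (G * G * Λ),
            Nat.zero_le (G * G)]
        have h9 := Nat.mul_le_mul_left (Fintype.card (Option (Fin t) → F)) h8
        nlinarith
      · rw [mem_union, not_or] at hω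
        exact ⟨fun σ i => hT₁' (σ, i) ω fun h0 => hω.1 (mem_biUnion.2 ⟨_, mem_univ _, h0⟩),
          fun σ σ' => hT₂' (σ, σ') ω fun h0 => hω.2 (mem_biUnion.2 ⟨_, mem_univ _, h0⟩)⟩)
    (by
      refine le_trans ?_ hN
      have h1 : G ≤ G * G := Nat.le_mul_of_pos_left G hG1
      have h2 := Nat.mul_le_mul_right β h1
      have h3 := Nat.mul_le_mul_right q h1
      nlinarith [Nat.zero_le (G * G * β), Nat.zero_le (G * G * q), Nat.zero_le (G * G * Λ),
        Nat.zero_le (G * G)])
  have hsp : ∀ a (h : Fin t → K) (π : ι → Fin t → K), (∀ j, π j ≠ 0 → ev s h j = θ a (g a j)) →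
      (univ.filter fun j => π j ≠ 0).card ≤ t := fun a h π hv =>
    (card_le_card fun j hj => mem_filter.2 ⟨mem_univ _, hv j (mem_filter.1 hj).2⟩).trans (hθ a h)
  have hforced : ∀ a σ ω, absA_mx s σ.2.1 = 0 → row a σ ω = ψ a (J σ.2) := fun a σ ω h0 => by
    simp only [row]
    rw [absA_row_eq s (g a) (ψ a (J σ.2)) σ.1 σ.2.1 (hψJ a σ.2), h0, add_eq_left]
    funext l
    simp [absA_mv]
  have hact : ∀ a σ, val a σ → absA_mx s σ.2.1 ≠ 0 → σ ∈ act a := fun a σ h1 h2 =>
    mem_filter.2 ⟨mem_univ _, h1, h2⟩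
  refine ⟨fun a i => θ a (g a i), fun a l => w₀ a (some l), fun a => w₀ a none, R ∪ R₁,
    (hR.union hR₁).mono ?_, fun a h π hv => ?_, fun a h π a' h' π' hv hv' he => ?_⟩
  · have h1 : q ≤ G * q := Nat.le_mul_of_pos_left q hG1
    nlinarith [Nat.zero_le (G * Λ)]
  · let σ : (Fin t → K) × absA_Sp K ι t := (h, ⟨π, hsp a h π hv⟩)
    change row a σ (w₀ a) ∈ R ∪ R₁ ∧ row a σ (w₀ a) ∉ B ∧ _
    refine and_assoc.1 ⟨?_, (hok a).1 σ⟩
    by_cases h0 : absA_mx s σ.2.1 = 0
    · rw [hforced a σ _ h0]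
      exact ⟨mem_union_left _ (hψ a _ (hJ σ.2)).2.1, (hψ a _ (hJ σ.2)).2.2.1⟩
    · have h1 := hrow a σ (hact a σ hv h0)
      exact ⟨mem_union_right _ h1.1, fun h2 => h1.2 (mem_union_left _ h2)⟩
  · let σ : (Fin t → K) × absA_Sp K ι t := (h, ⟨π, hsp a h π hv⟩)
    let σ' : (Fin t → K) × absA_Sp K ι t := (h', ⟨π', hsp a' h' π' hv'⟩)
    have he' : row a σ (w₀ a) = row a' σ' (w₀ a') := he
    have haa : a = a' := by
      by_contra hne
      by_cases h0 : absA_mx s σ.2.1 = 0
      · by_cases h0' : absA_mx s σ'.2.1 = 0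
        · rw [hforced a σ _ h0, hforced a' σ' _ h0'] at he'
          exact hne (hinj _ _ _ _ (hJ σ.2) (hJ σ'.2) he').1
        · refine (hrow a' σ' (hact a' σ' hv' h0')).2 (mem_union_right _ ?_)
          rw [← he', hforced a σ _ h0]
          exact (hψ a _ (hJ σ.2)).2.1
      · by_cases h0' : absA_mx s σ'.2.1 = 0
        · refine (hrow a σ (hact a σ hv h0)).2 (mem_union_right _ ?_)
          rw [he', hforced a' σ' _ h0']
          exact (hψ a' _ (hJ σ'.2)).2.1
        · exact hdis a a' hne σ (hact a σ hv h0) σ' (hact a' σ' hv' h0') he'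
    subst haa
    have h1 := (hok a).2 σ σ' hv hv' he'
    exact ⟨rfl, congrArg Prod.fst h1, congrArg (fun p => p.2.1) h1⟩

end Pool.Agent.Lib.MP_deca50_lc.CES
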