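import Pool.Agent.Lib.MP_deca50_lc.CES.Defs

/-!
Polynomial evaluation codes, rational lines and counting by fibres.
-/

open Finset Function

set_option linter.unusedSectionVars false

namespace Pool.Agent.Lib.MP_deca50_lc.CES

section Ring

variable {K M ι : Type} [CommRing K] [AddCommGroup M] [Module K M] {t : ℕ} {s : ι → K}

theorem ev_zero (i : ι) : ev s (0 : Fin t → M) i = 0 := by
  simp [ev]

theorem ev_add (φ ψ : Fin t → M) (i : ι) : ev s (φ + ψ) i = ev s φ i + ev s ψ i := by
  simp [ev, sum_add_distrib]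

theorem ev_sub (φ ψ : Fin t → M) (i : ι) : ev s (φ - ψ) i = ev s φ i - ev s ψ i := by
  simp [ev, smul_sub, sum_sub_distrib]

theorem ev_ln (φ : Fin t → M) (π : Fin t → K) (z : M) (i : ι) :
    ev s (ln φ π z) i = ev s φ i + ev s π i • z := by
  simp [ev, ln, sum_add_distrib, sum_smul, mul_smul]

theorem ev_foot [Fintype ι] (g : ι → M) (P : Fin t → M) (π : ι → Fin t → K) (i : ι) :
    ev s (foot s g P π) i = ev s P i + ∑ j, ev s (π j) i • (g j - ev s P j) := by
  simp only [ev, foot, smul_add, sum_add_distrib, smul_sum, sum_smul, smul_smul, smul_eq_mul]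
  rw [sum_comm]

theorem ev_map {M' : Type} [AddCommGroup M'] [Module K M'] (θ : M →ₗ[K] M') (φ : Fin t → M)
    (i : ι) : ev s (fun j => θ (φ j)) i = θ (ev s φ i) := by
  simp [ev]

/-- Interpolation over a ring in which the differences of the nodes are units. -/
theorem ev_exu (hs : ∀ i j, i ≠ j → IsUnit (s i - s j)) {I : Finset ι} (hI : I.card = t)
    (y : ι → M) : ∃! φ : Fin t → M, ∀ i ∈ I, ev s φ i = y i := by
  classical
  obtain ⟨e⟩ : Nonempty (Fin t ≃ I) := ⟨(I.equivFinOfCardEq hI).symm⟩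
  set V : Matrix (Fin t) (Fin t) K := Matrix.vandermonde fun a => s (e a) with hV
  have hdet : IsUnit V.det := by
    rw [hV, Matrix.det_vandermonde]
    refine IsUnit.prod_univ_iff.2 fun a => IsUnit.prod_iff.2 fun b hb => hs _ _ fun h => ?_
    exact (mem_Ioi.1 hb).ne' (e.injective (Subtype.ext h))
  have hev : ∀ (φ : Fin t → M) a, ev s φ (e a) = ∑ j, V a j • φ j := fun φ a => by
    simp [ev, hV, Matrix.vandermonde_apply]
  have key : ∀ (A B : Matrix (Fin t) (Fin t) K), A * B = 1 → ∀ (v : Fin t → M) a,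
      ∑ j, A a j • ∑ b, B j b • v b = v a := by
    intro A B hAB v a
    simp only [smul_sum, smul_smul]
    rw [sum_comm]
    simp only [← sum_smul, ← Matrix.mul_apply, hAB, Matrix.one_apply, ite_smul, one_smul,
      zero_smul, sum_ite_eq, mem_univ, if_true]
  refine ⟨fun j => ∑ a, V⁻¹ j a • y (e a), fun i hi => ?_, fun φ hφ => funext fun j => ?_⟩
  · obtain ⟨a, ha⟩ := e.surjective ⟨i, hi⟩
    have hi' : i = e a := by rw [ha]
    rw [hi', hev]
    exact key _ _ (Matrix.mul_nonsing_inv V hdet) (fun a => y (e a)) a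
  · rw [← key _ _ (Matrix.nonsing_inv_mul V hdet) φ j]
    refine sum_congr rfl fun a _ => ?_
    rw [← hev, hφ _ (e a).2]

theorem ev_fam (hs : ∀ i j, i ≠ j → IsUnit (s i - s j)) (w : ι → M) :
    IsFam t fun (φ : Fin t → M) i => ev s φ i + w i := by
  intro I hI y
  have h := ev_exu (M := M) hs hI fun i => y i - w i
  simpa only [Ag, eq_sub_iff_add_eq] using h

theorem isOA_ev [Fintype ι] [DecidableEq ι] [Fintype M] [DecidableEq M]
    (hs : ∀ i j, i ≠ j → IsUnit (s i - s j)) :
    IsOA t (fun _ => univ) (univ.image fun φ : Fin t → M => ev s φ) := by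
  refine ⟨fun _ _ _ => mem_univ _, fun I hI y _ => ?_⟩
  obtain ⟨φ, h1, h2⟩ := ev_exu (M := M) hs hI y
  refine ⟨ev s φ, ⟨mem_image.2 ⟨φ, mem_univ _, rfl⟩, h1⟩, ?_⟩
  rintro z ⟨hz, hz'⟩
  obtain ⟨ψ, -, rfl⟩ := mem_image.1 hz
  rw [h2 ψ hz']

end Ring

section Field

variable {K F ι : Type} [Field K] [AddCommGroup F] [Module K F] {t : ℕ} {s : ι → K}

theorem unit_of_inj (hs : Injective s) : ∀ i j, i ≠ j → IsUnit (s i - s j) :=
  fun _ _ h => (sub_ne_zero.2 (hs.ne h)).isUnit

theorem ev_ext (hs : Injective s) {I : Finset ι} (hI : I.card = t) {φ ψ : Fin t → F}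
    (h : ∀ i ∈ I, ev s φ i = ev s ψ i) : φ = ψ :=
  (ev_exu (unit_of_inj hs) hI (ev s ψ)).unique h fun _ _ => rfl

/-- The Lagrange basis element: one at `i₀`, zero on the rest of `I`, nonzero outside `I`. -/
theorem exists_lag (hs : Injective s) {I : Finset ι} (hI : I.card = t) {i₀ : ι} (hi : i₀ ∈ I) :
    ∃ π : Fin t → K, π ≠ 0 ∧ ev s π i₀ = 1 ∧ (∀ i ∈ I, i ≠ i₀ → ev s π i = 0) ∧
      ∀ i, i ∉ I → ev s π i ≠ 0 := by
  classical
  obtain ⟨π, h1, -⟩ := ev_exu (M := K) (unit_of_inj hs) hI fun i => if i = i₀ then 1 else 0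
  have h2 : ev s π i₀ = 1 := by simpa using h1 i₀ hi
  have h3 : ∀ i ∈ I, i ≠ i₀ → ev s π i = 0 := fun i hi' hne => by simpa [hne] using h1 i hi'
  have h4 : π ≠ 0 := fun e => by
    rw [e, ev_zero] at h2
    exact zero_ne_one h2
  refine ⟨π, h4, h2, h3, fun i hi' h0 => h4 ?_⟩
  have hc : (insert i (I.erase i₀)).card = t := by
    rw [card_insert_of_notMem fun h => hi' (mem_of_mem_erase h), card_erase_add_one hi, hI]
  refine ev_ext hs hc fun j hj => ?_
  rw [ev_zero]
  rcases mem_insert.1 hj with rfl | hj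
  · exact h0
  · exact h3 j (mem_of_mem_erase hj) (ne_of_mem_erase hj)

/-- A monic polynomial of degree `t` has at most `t` roots. -/
theorem sh_zero (hs : Injective s) (h : Fin t → K) {I : Finset ι} (hI : ∀ i ∈ I, sh s h i = 0) :
    I.card ≤ t := by
  by_contra hc
  obtain ⟨I', hI', hc'⟩ := exists_subset_card_eq (s := I) (n := t + 1) (by omega)
  have h0 : (Fin.snoc h 1 : Fin (t + 1) → K) = 0 := by
    refine ev_ext hs hc' fun i hi => ?_
    rw [ev_zero, ← hI i (hI' hi)]
    simp [ev, sh, Fin.sum_univ_castSucc]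
  have := congrFun h0 (Fin.last t)
  simp at this

theorem exists_sp (hs : Injective s) :
    ∃ sp : Ed ι t → Fin t → K, ∀ (I : Ed ι t) i, sh s (sp I) i = 0 ↔ i ∈ I.1 := by
  classical
  have h : ∀ I : Ed ι t, ∃ h : Fin t → K, ∀ i, sh s h i = 0 ↔ i ∈ I.1 := by
    intro I
    obtain ⟨h, h1, -⟩ := ev_exu (M := K) (unit_of_inj hs) I.2 fun i => -s i ^ t
    have h2 : ∀ i ∈ I.1, sh s h i = 0 := fun i hi => by rw [sh, h1 i hi, neg_add_cancel]
    refine ⟨h, fun i => ⟨fun h0 => ?_, h2 i⟩⟩
    by_contra hi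
    have := sh_zero hs h (I := insert i I.1) fun j hj => by
      rcases mem_insert.1 hj with rfl | hj
      · exact h0
      · exact h2 j hj
    rw [card_insert_of_notMem hi, I.2] at this
    omega
  choose sp hsp using h
  exact ⟨sp, hsp⟩

theorem ln_inj (φ : Fin t → F) {π : Fin t → K} (hπ : π ≠ 0) : Injective (ln φ π) := by
  obtain ⟨j, hj⟩ := Function.ne_iff.1 hπ
  intro z z' e
  exact smul_right_injective F hj (add_left_cancel (congrFun e j))

variable [Fintype F] [DecidableEq F]

theorem LB.mono {S : Finset (Fin t → F)} {q q' : ℕ} (h : LB K S q) (hq : q ≤ q') : LB K S q' :=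
  fun φ π hπ => (h φ π hπ).trans hq

theorem LB.union {S S' : Finset (Fin t → F)} {q q' : ℕ} (h : LB K S q) (h' : LB K S' q') :
    LB K (S ∪ S') (q + q') := by
  intro φ π hπ
  refine le_trans ?_ (add_le_add (h φ π hπ) (h' φ π hπ))
  refine le_trans (card_le_card fun z hz => ?_) (card_union_le _ _)
  simpa using hz

theorem LB.empty : LB K (∅ : Finset (Fin t → F)) 0 := fun _ _ _ => by simp

/-- The rows through `t - 1` given entries lie on a rational line. -/
theorem LB.card_agree [Fintype ι] (hs : Injective s) (hk : t ≤ Fintype.card ι)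
    {S : Finset (Fin t → F)} {q : ℕ} (h : LB K S q) {J : Finset ι} (hJ : J.card + 1 = t)
    (y : ι → F) : (S.filter fun φ => Ag J (ev s φ) y).card ≤ q := by
  classical
  obtain ⟨i₀, -, hi₀⟩ := exists_mem_notMem_of_card_lt_card (s := J) (t := univ)
    (by rw [card_univ]; omega)
  have hI : (insert i₀ J).card = t := by rw [card_insert_of_notMem hi₀, hJ]
  obtain ⟨π, h1, h2, h3, -⟩ := exists_lag hs hI (mem_insert_self _ _)
  obtain ⟨φ₀, h4, -⟩ := ev_exu (M := F) (unit_of_inj hs) hI fun i => if i = i₀ then 0 else y i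
  have key : ∀ φ : Fin t → F, Ag J (ev s φ) y → φ = ln φ₀ π (ev s φ i₀) := by
    intro φ hφ
    refine ev_ext hs hI fun i hi => ?_
    rw [ev_ln, h4 i hi]
    rcases mem_insert.1 hi with rfl | hi'
    · simp [h2]
    · have hne : i ≠ i₀ := fun e => hi₀ (e ▸ hi')
      simp [hne, h3 i hi hne, hφ i hi']
  refine le_trans (card_le_card_of_injOn (fun φ => ev s φ i₀) (fun φ hφ => ?_)
    fun φ hφ ψ hψ e => ?_) (h φ₀ π h1)
  · obtain ⟨k1, k2⟩ := mem_filter.1 (mem_coe.1 hφ)
    refine mem_coe.2 (mem_filter.2 ⟨mem_univ _, ?_⟩)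
    rwa [← key φ k2]
  · rw [key φ (mem_filter.1 (mem_coe.1 hφ)).2, key ψ (mem_filter.1 (mem_coe.1 hψ)).2]
    exact congrArg _ e

end Field

/-- Counting along the fibres of one coordinate. -/
theorem fib {L F : Type} [Fintype L] [DecidableEq L] [Fintype F] (P : (L → F) → Prop)
    [DecidablePred P] (l : L) (q : ℕ)
    (h : ∀ ω, (univ.filter fun z => P (update ω l z)).card ≤ q) :
    (univ.filter P).card * Fintype.card F ≤ q * Fintype.card (L → F) := by
  have h1 : ((univ : Finset ((L → F) × F)).filter fun p => P (update p.1 l p.2)).card =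
      ((univ.filter P) ×ˢ (univ : Finset F)).card := by
    refine card_nbij' (fun p => (update p.1 l p.2, p.1 l)) (fun p => (update p.1 l p.2, p.1 l))
      (fun p hp => ?_) (fun p hp => ?_) (fun p _ => ?_) fun p _ => ?_
    · simpa using hp
    · simpa using hp
    · simp
    · simp
  rw [card_product, card_univ] at h1
  rw [← h1, card_filter, Fintype.sum_prod_type, mul_comm, ← card_univ, ← smul_eq_mul,
    ← sum_const]
  refine sum_le_sum fun ω _ => ?_
  rw [← card_filter]
  exact h ω

/-- Functions with prescribed values on a set. -/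
theorem card_agree_mul {L F : Type} [Fintype L] [DecidableEq L] [Fintype F] [DecidableEq F]
    (T : Finset L) (y : L → F) :
    (univ.filter fun ω : L → F => Ag T ω y).card * Fintype.card F ^ T.card =
      Fintype.card (L → F) := by
  have h1 : (univ.filter fun ω : L → F => Ag T ω y) =
      Fintype.piFinset fun i => if i ∈ T then {y i} else univ := by
    ext ω
    rw [mem_filter, Fintype.mem_piFinset, and_iff_right (mem_univ _)]
    refine forall_congr' fun i => ?_
    by_cases hi : i ∈ T <;> simp [hi]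
  have h2 : Fintype.card F ^ T.card = ∏ i, if i ∈ T then Fintype.card F else 1 := by
    rw [prod_ite_mem, univ_inter, prod_const]
  rw [h1, Fintype.card_piFinset, h2, ← prod_mul_distrib, Fintype.card_fun, ← card_univ (α := L),
    ← prod_const]
  refine prod_congr rfl fun i _ => ?_
  by_cases hi : i ∈ T <;> simp [hi]

theorem card_small_sets (ι : Type) [Fintype ι] [DecidableEq ι] (t : ℕ) :
    (univ.filter fun Z : Finset ι => Z.card < t).card ≤ (Fintype.card ι + 1) ^ t := by
  have h1 : (univ.filter fun Z : Finset ι => Z.card < t) ⊆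
      (range t).biUnion fun j => powersetCard j univ := by
    intro Z hZ
    exact mem_biUnion.2 ⟨Z.card, mem_range.2 (mem_filter.1 hZ).2,
      mem_powersetCard.2 ⟨subset_univ _, rfl⟩⟩
  refine (card_le_card h1).trans (card_biUnion_le.trans ?_)
  have h2 : ∀ k t : ℕ, ∑ j ∈ range t, k ^ j ≤ (k + 1) ^ t := by
    intro k t
    induction t with
    | zero => simp
    | succ t ih =>
      rw [sum_range_succ', pow_succ (k + 1), mul_add, mul_one]
      simp only [pow_succ, ← sum_mul, pow_zero]
      exact add_le_add (Nat.mul_le_mul_right _ ih) (Nat.one_le_pow _ _ (Nat.succ_pos k))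
  refine le_trans (sum_le_sum fun j _ => ?_) (h2 _ t)
  rw [card_powersetCard, card_univ]
  exact Nat.choose_le_pow _ _

theorem card_ed (ι : Type) [Fintype ι] [DecidableEq ι] (t : ℕ) :
    Fintype.card (Ed ι t) ≤ Fintype.card ι ^ t := by
  rw [Fintype.card_finset_len]
  exact Nat.choose_le_pow _ _

/-- A bound for agreement on `t - 1` columns gives a bound for fewer columns. -/
theorem count_agree {ι F τ : Type} [Fintype ι] [DecidableEq ι] [Fintype F] [DecidableEq F]
    [Fintype τ] {t D : ℕ} (hk : t ≤ Fintype.card ι) (x : τ → ι → F)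
    (h : ∀ J : Finset ι, J.card + 1 = t → ∀ y, (univ.filter fun a => Ag J (x a) y).card ≤ D)
    {Z : Finset ι} (hZ : Z.card < t) (y : ι → F) :
    (univ.filter fun a => Ag Z (x a) y).card ≤ D * Fintype.card F ^ (t - 1 - Z.card) := by
  classical
  obtain ⟨d, hd⟩ : ∃ d, t - 1 - Z.card = d := ⟨_, rfl⟩
  rw [hd]
  induction d generalizing Z y with
  | zero => simpa using h Z (by omega) y
  | succ d ih =>
    obtain ⟨i, -, hi⟩ := exists_mem_notMem_of_card_lt_card (s := Z) (t := univ)
      (by rw [card_univ]; omega)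
    have hc : (insert i Z).card = Z.card + 1 := card_insert_of_notMem hi
    have h1 : (univ.filter fun a => Ag Z (x a) y) ⊆ univ.biUnion fun v : F =>
        univ.filter fun a => Ag (insert i Z) (x a) (update y i v) := by
      intro a ha
      refine mem_biUnion.2 ⟨x a i, mem_univ _, mem_filter.2 ⟨mem_univ _, fun j hj => ?_⟩⟩
      rcases mem_insert.1 hj with rfl | hj
      · simp
      · rw [update_of_ne (fun e : j = i => hi (e ▸ hj))]
        exact (mem_filter.1 ha).2 j hj
    refine (card_le_card h1).trans (card_biUnion_le.trans ?_)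
    refine (sum_le_sum fun v _ => ih (Z := insert i Z) (by omega) (update y i v)
      (by omega)).trans ?_
    rw [sum_const, card_univ, smul_eq_mul, pow_succ]
    exact le_of_eq (by ring)

end Pool.Agent.Lib.MP_deca50_lc.CES
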