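import Pool.Agent.Lib.MP_deca50_lc.CES.Basic
import Pool.Agent.Lib.MP_deca50_lc.CES.RS

/-!
The trades of the absorbers.
-/

open Finset Function

set_option linter.unusedSectionVars false

namespace Pool.Agent.Lib.MP_deca50_lc.CES

variable {K F ι : Type} [Field K] [Fintype K] [DecidableEq K] [AddCommGroup F] [Module K F]
  [Fintype F] [DecidableEq F] [Fintype ι] [DecidableEq ι] {t : ℕ}

/-- Removing one row of a renamed array gives a trade with a second array. -/
private theorem absB_trade {Y L H H' : Type} [Fintype Y] [DecidableEq Y] [Fintype H] [Fintype H']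
    {x : H → ι → L} {x' : H' → ι → L} (hx : IsFam t x) (hx' : IsFam t x') (e : ι → L → Y)
    (As : ι → Finset Y) (he : ∀ i l, e i l ∈ As i) (h₀ : H) :
    ∃ Pos : (ι → Y) → ℤ, (∀ y, 0 ≤ Pos y) ∧ Supp As Pos ∧ ∀ I : Finset ι, I.card = t → ∀ y,
      marg I Pos y + marg I (dl fun i => e i (x h₀ i)) y =
        ∑ h, marg I (dl fun i => e i (x' h i)) y := by
  classical
  refine ⟨∑ h ∈ univ.erase h₀, dl fun i => e i (x h i), fun y => ?_,
    Supp.sum fun h _ => supp_dl fun i => he i _, fun I hI y => ?_⟩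
  · rw [Finset.sum_apply]
    exact sum_nonneg fun h _ => dl_nonneg _ _
  · rw [← marg_add, sum_erase_add univ (fun h => dl fun i => e i (x h i)) (mem_univ h₀),
      marg_fam hx hx' e hI y, marg_sum]

private theorem absB_prod {L L' H H' : Type} {x : H → ι → L} {x' : H' → ι → L'}
    (hx : IsFam t x) (hx' : IsFam t x') :
    IsFam t fun (p : H × H') i => (x p.1 i, x' p.2 i) := by
  intro I hI y
  obtain ⟨h, h1, h2⟩ := hx I hI fun i => (y i).1
  obtain ⟨h', h1', h2'⟩ := hx' I hI fun i => (y i).2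
  refine ⟨(h, h'), fun i hi => Prod.ext (h1 i hi) (h1' i hi), fun p hp => ?_⟩
  exact Prod.ext (h2 p.1 fun i hi => congrArg Prod.fst (hp i hi))
    (h2' p.2 fun i hi => congrArg Prod.snd (hp i hi))

private theorem absB_oa {R : Type} [Fintype R] {TR : Finset (ι → R)}
    (hTR : IsOA t (fun _ => univ) TR) (σ : ι → R ≃ R) :
    IsFam t fun (ρ : {ρ // ρ ∈ TR}) i => σ i (ρ.1 i) := by
  intro I hI y
  obtain ⟨ρ, ⟨h1, h2⟩, h3⟩ := hTR.2 I hI (fun i => (σ i).symm (y i)) fun _ _ => mem_univ _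
  refine ⟨⟨ρ, h1⟩, fun i hi => ?_, fun ρ' h' => Subtype.ext (h3 ρ'.1 ⟨ρ'.2, fun i hi => ?_⟩)⟩
  · show σ i (ρ i) = y i
    rw [h2 i hi, Equiv.apply_symm_apply]
  · show ρ'.1 i = (σ i).symm (y i)
    rw [← h' i hi, Equiv.symm_apply_apply]

private theorem absB_ev0 {M : Type} [AddCommGroup M] [Module K M] {s : ι → K}
    (hs : Injective s) : IsFam t fun (φ : Fin t → M) i => ev s φ i := by
  have h := ev_fam (t := t) (unit_of_inj hs) (fun _ : ι => (0 : M))
  simpa only [add_zero] using h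

private theorem absB_const (ht : 1 ≤ t) (s : ι → K) (c : K) (i : ι) :
    ev s (Pi.single (⟨0, ht⟩ : Fin t) c : Fin t → K) i = c := by
  rw [ev, sum_eq_single (⟨0, ht⟩ : Fin t)]
  · simp
  · intro j _ hj
    simp [Pi.single_eq_of_ne hj]
  · simp

private theorem absB_foot0 (s : ι → K) (g : ι → F) (P : Fin t → F) :
    foot s g P (0 : ι → Fin t → K) = P := by
  funext l
  simp [foot]

/-- The first exchange: the row `g` is traded for the rows of a product array. -/
private theorem absB_stageA {R : Type} [Fintype R] [DecidableEq R] [Nonempty R]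
    {s : ι → K} (hs : Injective s) (hk : t ≤ Fintype.card ι) (TR : Finset (ι → R))
    (hTR : IsOA t (fun _ => univ) TR) (g : ι → R × F) (As : ι → Finset (R × F))
    (hg : ∀ i, g i ∈ As i) (w : ι → K) (b : ι → K → F) (hb : ∀ i ρ c, (ρ, b i c) ∈ As i) :
    ∃ Pos : (ι → R × F) → ℤ, (∀ y, 0 ≤ Pos y) ∧ Supp As Pos ∧ ∀ I : Finset ι, I.card = t → ∀ y,
      marg I Pos y + marg I (dl g) y =
        ∑ p : {ρ // ρ ∈ TR} × (Fin t → K), marg I (dl fun i => (p.1.1 i,
          if p.1.1 i = (g i).1 ∧ ev s p.2 i = w i then (g i).2 else b i (ev s p.2 i))) y := by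
  classical
  obtain ⟨I₀, -, hI₀⟩ := exists_subset_card_eq (s := (univ : Finset ι)) (n := t) (by simpa using hk)
  obtain ⟨ρ₀, ⟨hρ₀, -⟩, -⟩ := hTR.2 I₀ hI₀ (fun _ => Classical.arbitrary R) fun _ _ => mem_univ _
  obtain ⟨Pos, p1, p2, p3⟩ := absB_trade
    (absB_prod (absB_oa hTR fun i => Equiv.swap (ρ₀ i) (g i).1) (ev_fam (unit_of_inj hs) w))
    (absB_prod (absB_oa hTR fun _ => Equiv.refl R) (absB_ev0 (M := K) hs))
    (fun i (l : R × K) => (l.1, if l.1 = (g i).1 ∧ l.2 = w i then (g i).2 else b i l.2)) As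
    (fun i l => by
      split_ifs with h
      · rw [h.1]
        exact hg i
      · exact hb i _ _) (⟨ρ₀, hρ₀⟩, 0)
  refine ⟨Pos, p1, p2, fun I hI y => ?_⟩
  have h := p3 I hI y
  simp only [Equiv.swap_apply_left, ev_zero, zero_add, and_self, if_true, Prod.mk.eta,
    Equiv.refl_apply] at h
  exact h

/-- The second exchange: a row with some foreign entries is traded for template rows. -/
private theorem absB_stageB (ht : 1 ≤ t) {R : Type} [Fintype R] [DecidableEq R]
    {s : ι → K} (hs : Injective s) (ρ : ι → R) (g : ι → F) (P : Fin t → F) (J : ι → Prop)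
    [DecidablePred J] (As : ι → Finset (R × F))
    (hA : ∀ π : ι → Fin t → K, (∀ j, π j ≠ 0 → J j) → ∀ i, (ρ i, ev s (foot s g P π) i) ∈ As i) :
    ∃ Pos : (ι → R × F) → ℤ, (∀ y, 0 ≤ Pos y) ∧ Supp As Pos ∧ ∀ I : Finset ι, I.card = t → ∀ y,
      marg I Pos y + marg I (dl fun i => (ρ i, if J i then g i else ev s P i)) y =
        ∑ π : {π : ι → Fin t → K // ∀ j, π j ≠ 0 → J j},
          marg I (dl fun i => (ρ i, ev s (foot s g P π.1) i)) y := by
  classical
  have key : ∀ (φ : Fin t → {j // J j} → K) i,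
      ev s (foot s g P fun j l => if hj : J j then φ l ⟨j, hj⟩ else 0) i =
        ev s P i + ∑ j : {j // J j}, ev s φ i j • (g j - ev s P j) := by
    intro φ i
    rw [ev_foot]
    congr 1
    rw [← sum_filter_add_sum_filter_not univ J, sum_eq_zero (s := univ.filter fun j => ¬ J j),
      add_zero, sum_subtype (p := J) _ (by simp)]
    · refine sum_congr rfl fun j _ => ?_
      congr 1
      simp [ev, j.2, Finset.sum_apply]
    · intro j hj
      have hj' : ¬ J j := (mem_filter.1 hj).2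
      simp [ev, hj']
  have val : ∀ φ : Fin t → {j // J j} → K, ∀ j,
      (fun l => if hj : J j then φ l ⟨j, hj⟩ else 0) ≠ (0 : Fin t → K) → J j := by
    intro φ j hj
    by_contra h
    exact hj (funext fun l => by simp [h])
  obtain ⟨Pos, p1, p2, p3⟩ := absB_trade
    (ev_fam (t := t) (unit_of_inj hs) fun (i : ι) (j : {j // J j}) => if i = j.1 then (1 : K) else 0)
    (absB_ev0 (t := t) (M := {j // J j} → K) hs)
    (fun i (c : {j // J j} → K) => (ρ i, ev s P i + ∑ j : {j // J j}, c j • (g j - ev s P j))) As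
    (fun i c => by
      have h := hA _ (val (Pi.single ⟨0, ht⟩ c)) i
      rw [key] at h
      have h2 : ev s (Pi.single (⟨0, ht⟩ : Fin t) c : Fin t → {j // J j} → K) i = c := by
        rw [ev, sum_eq_single (⟨0, ht⟩ : Fin t)]
        · simp
        · intro j _ hj
          simp [Pi.single_eq_of_ne hj]
        · simp
      rwa [h2] at h) 0
  refine ⟨Pos, p1, p2, fun I hI y => ?_⟩
  have h := p3 I hI y
  have e1 : (fun i => (ρ i, ev s P i + ∑ j : {j // J j},
      (ev s (0 : Fin t → {j // J j} → K) i +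
        fun j : {j // J j} => if i = j.1 then (1 : K) else 0) j • (g j - ev s P j))) =
      fun i => (ρ i, if J i then g i else ev s P i) := by
    funext i
    rw [ev_zero, zero_add]
    congr 1
    split_ifs with hi
    · rw [sum_eq_single (⟨i, hi⟩ : {j // J j})]
      · simp
      · intro j _ hj
        rw [if_neg fun e => hj (Subtype.ext e.symm), zero_smul]
      · simp
    · rw [sum_eq_zero, add_zero]
      intro j _
      rw [if_neg fun e => hi (by rw [e]; exact j.2), zero_smul]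
  rw [e1] at h
  rw [h]
  refine Fintype.sum_bijective
    (fun φ => ⟨fun j l => if hj : J j then φ l ⟨j, hj⟩ else 0, val φ⟩) ⟨?_, ?_⟩ _ _ fun φ => ?_
  · intro φ φ' e
    funext l j
    have := congrFun (congrFun (congrArg Subtype.val e) j.1) l
    simpa [j.2] using this
  · rintro ⟨π, hπ⟩
    refine ⟨fun l j => π j.1 l, Subtype.ext (funext fun j => funext fun l => ?_)⟩
    by_cases hj : J j
    · simp [hj]
    · have : π j = 0 := by
        by_contra h0
        exact hj (hπ j h0)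
      simp [hj, this]
  · simp only [key]

theorem abs_id (ht : 1 ≤ t) {τ R : Type} [Fintype τ] [Fintype R] [DecidableEq R] [Nonempty R]
    {s : ι → K} (hs : Injective s) (hk : t ≤ Fintype.card ι) (TR : Finset (ι → R))
    (hTR : IsOA t (fun _ => univ) TR) (g : τ → ι → R × F) (A : ι → Finset F)
    (As : ι → Finset (R × F)) (hAs : ∀ i ρ x, x ∈ A i → (ρ, x) ∈ As i) (hg : ∀ a i, g a i ∈ As i)
    (w : τ → ι → K) (f : τ → Fin t → F) (z : τ → F) (Gd : (Fin t → F) → Prop)
    (h1 : ∀ a (h : Fin t → K) (π : ι → Fin t → K), (∀ j, π j ≠ 0 → ev s h j = w a j) →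
      Gd (foot s (fun i => (g a i).2) (ln (f a) h (z a)) π) ∧
      ∀ i, ev s (foot s (fun i => (g a i).2) (ln (f a) h (z a)) π) i ∈ A i ∨
        (π i ≠ 0 ∧ ev s (foot s (fun i => (g a i).2) (ln (f a) h (z a)) π) i = (g a i).2))
    (h2 : ∀ a (h : Fin t → K) (π : ι → Fin t → K) a' (h' : Fin t → K) (π' : ι → Fin t → K),
      (∀ j, π j ≠ 0 → ev s h j = w a j) → (∀ j, π' j ≠ 0 → ev s h' j = w a' j) →
      foot s (fun i => (g a i).2) (ln (f a) h (z a)) π =
        foot s (fun i => (g a' i).2) (ln (f a') h' (z a')) π' → a = a' ∧ h = h' ∧ π = π') :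
    ∃ (Pos : (ι → R × F) → ℤ) (κ : Type) (_ : Fintype κ) (x : κ → ι → R × F),
      (∀ y, 0 ≤ Pos y) ∧ Supp As Pos ∧ Injective x ∧
      (∀ c, (fun i => (x c i).1) ∈ TR ∧ (∀ i, x c i ∈ As i) ∧
        ∃ φ, Gd φ ∧ ∀ i, (x c i).2 = ev s φ i) ∧
      ∀ I : Finset ι, I.card = t → ∀ y, marg I (Pos + ∑ a, dl (g a) - ∑ c, dl (x c)) y = 0 := by
  classical
  have hb : ∀ a i (ρ : R) (c : K), (ρ, ev s (f a) i + c • z a) ∈ As i := by
    intro a i ρ c
    refine hAs i ρ _ ?_
    rcases (h1 a (Pi.single ⟨0, ht⟩ c) 0 (fun j hj => absurd rfl hj)).2 i with h | h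
    · rwa [absB_foot0, ev_ln, absB_const] at h
    · exact absurd rfl h.1
  have hA : ∀ a (ρ : ι → R) (h : Fin t → K) (π : ι → Fin t → K),
      (∀ j, π j ≠ 0 → ρ j = (g a j).1 ∧ ev s h j = w a j) →
      ∀ i, (ρ i, ev s (foot s (fun i => (g a i).2) (ln (f a) h (z a)) π) i) ∈ As i := by
    intro a ρ h π hπ i
    rcases (h1 a h π fun j hj => (hπ j hj).2).2 i with h' | h'
    · exact hAs i _ _ h'
    · rw [h'.2, (hπ i h'.1).1]
      exact hg a i
  choose PA a1 a2 a3 using fun a => absB_stageA hs hk TR hTR (g a) As (hg a) (w a)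
    (fun i c => ev s (f a) i + c • z a) (hb a)
  choose PB b1 b2 b3 using fun (q : τ × {ρ // ρ ∈ TR} × (Fin t → K)) =>
    absB_stageB ht hs q.2.1.1 (fun i => (g q.1 i).2) (ln (f q.1) q.2.2 (z q.1))
      (fun j => q.2.1.1 j = (g q.1 j).1 ∧ ev s q.2.2 j = w q.1 j) As (hA q.1 q.2.1.1 q.2.2)
  refine ⟨∑ a, PA a + ∑ q, PB q,
    (Σ q : τ × {ρ // ρ ∈ TR} × (Fin t → K), {π : ι → Fin t → K //
      ∀ j, π j ≠ 0 → q.2.1.1 j = (g q.1 j).1 ∧ ev s q.2.2 j = w q.1 j}), inferInstance,
    fun c i => (c.1.2.1.1 i,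
      ev s (foot s (fun i => (g c.1.1 i).2) (ln (f c.1.1) c.1.2.2 (z c.1.1)) c.2.1) i),
    fun y => ?_, (Supp.sum fun a _ => a2 a).add (Supp.sum fun q _ => b2 q), ?_, fun c => ?_,
    fun I hI y => ?_⟩
  · rw [Pi.add_apply, Finset.sum_apply, Finset.sum_apply]
    exact add_nonneg (sum_nonneg fun a _ => a1 a y) (sum_nonneg fun q _ => b1 q y)
  · rintro ⟨⟨a, ⟨ρ, hρ⟩, h⟩, π, hπ⟩ ⟨⟨a', ⟨ρ', hρ'⟩, h'⟩, π', hπ'⟩ e
    obtain ⟨I₀, -, hI₀⟩ :=
      exists_subset_card_eq (s := (univ : Finset ι)) (n := t) (by simpa using hk)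
    obtain rfl : ρ = ρ' := funext fun i => congrArg Prod.fst (congrFun e i)
    obtain ⟨rfl, rfl, rfl⟩ := h2 a h π a' h' π' (fun j hj => (hπ j hj).2)
      (fun j hj => (hπ' j hj).2) (ev_ext hs hI₀ fun i _ => congrArg Prod.snd (congrFun e i))
    rfl
  · exact ⟨c.1.2.1.2, hA _ _ _ _ c.2.2, _, (h1 _ _ _ fun j hj => (c.2.2 j hj).2).1, fun _ => rfl⟩
  · rw [marg_sub, marg_add, marg_add, marg_sum, marg_sum, marg_sum, marg_sum, Fintype.sum_sigma,
      ← sum_congr rfl fun q _ => b3 q I hI y, sum_add_distrib, add_right_comm, ← sum_add_distrib,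
      sum_congr rfl fun a _ => a3 a I hI y, add_comm, add_sub_add_left_eq_sub, sub_eq_zero,
      Fintype.sum_prod_type]
    simp only [ev_ln]

end Pool.Agent.Lib.MP_deca50_lc.CES
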