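import Pool.Agent.Lib.MP_deca50_lc.CES.Defs

/-!
Elementary facts on marginals, supports and decompositions.
-/

open Finset Function

set_option linter.unusedSectionVars false

namespace Pool.Agent.Lib.MP_deca50_lc.CES

variable {ι Y : Type} [Fintype ι] [DecidableEq ι] [Fintype Y] [DecidableEq Y]

theorem marg_add (I : Finset ι) (Φ Ψ : (ι → Y) → ℤ) (y : ι → Y) :
    marg I (Φ + Ψ) y = marg I Φ y + marg I Ψ y := by
  simp only [marg, ← sum_add_distrib, Pi.add_apply]
  exact sum_congr rfl fun z _ => by split_ifs <;> simp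

theorem marg_sub (I : Finset ι) (Φ Ψ : (ι → Y) → ℤ) (y : ι → Y) :
    marg I (Φ - Ψ) y = marg I Φ y - marg I Ψ y := by
  simp only [marg, ← sum_sub_distrib, Pi.sub_apply]
  exact sum_congr rfl fun z _ => by split_ifs <;> simp

theorem marg_zero (I : Finset ι) (y : ι → Y) : marg I (0 : (ι → Y) → ℤ) y = 0 := by
  simp [marg]

theorem marg_sum {α : Type} (S : Finset α) (I : Finset ι) (Φ : α → (ι → Y) → ℤ) (y : ι → Y) :
    marg I (∑ a ∈ S, Φ a) y = ∑ a ∈ S, marg I (Φ a) y := by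
  simp only [marg, Finset.sum_apply]
  rw [sum_comm]
  exact sum_congr rfl fun z _ => by split_ifs <;> simp

theorem marg_dl (I : Finset ι) (g y : ι → Y) :
    marg I (dl g) y = if Ag I g y then 1 else 0 := by
  rw [marg, sum_eq_single g]
  · simp [dl]
  · intro z _ hz
    simp [dl, hz]
  · simp

theorem marg_sum_dl {α : Type} (S : Finset α) (I : Finset ι) (g : α → ι → Y) (y : ι → Y) :
    marg I (∑ a ∈ S, dl (g a)) y = (S.filter fun a => Ag I (g a) y).card := by
  rw [marg_sum]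
  simp only [marg_dl, sum_boole]

theorem marg_congr {I : Finset ι} (Φ : (ι → Y) → ℤ) {y y' : ι → Y} (h : Ag I y y') :
    marg I Φ y = marg I Φ y' :=
  sum_congr rfl fun _ _ => if_congr
    ⟨fun a i hi => (a i hi).trans (h i hi), fun a i hi => (a i hi).trans (h i hi).symm⟩ rfl rfl

theorem marg_eq_zero_of_supp {A : ι → Finset Y} {Φ : (ι → Y) → ℤ} (h : Supp A Φ) {I : Finset ι}
    {y : ι → Y} {i : ι} (hi : i ∈ I) (hy : y i ∉ A i) : marg I Φ y = 0 :=
  sum_eq_zero fun z _ => by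
    split_ifs with hz
    · by_contra h0
      exact hy (hz i hi ▸ h z h0 i)
    · rfl

theorem abs_marg_le (I : Finset ι) (Φ : (ι → Y) → ℤ) (y : ι → Y) :
    |(marg I Φ y : ℝ)| ≤ mass I Φ y := by
  rw [marg, mass]
  push_cast
  refine (abs_sum_le_sum_abs _ _).trans (sum_le_sum fun z _ => ?_)
  split_ifs <;> simp

theorem mass_nonneg (I : Finset ι) (Φ : (ι → Y) → ℤ) (y : ι → Y) : 0 ≤ mass I Φ y :=
  sum_nonneg fun z _ => by split_ifs <;> simp

theorem mass_add_le (I : Finset ι) (Φ Ψ : (ι → Y) → ℤ) (y : ι → Y) :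
    mass I (Φ + Ψ) y ≤ mass I Φ y + mass I Ψ y := by
  simp only [mass, ← sum_add_distrib, Pi.add_apply]
  refine sum_le_sum fun z _ => ?_
  split_ifs
  · push_cast
    exact abs_add_le _ _
  · simp

theorem mass_sum_le {α : Type} (S : Finset α) (I : Finset ι) (Φ : α → (ι → Y) → ℤ) (y : ι → Y) :
    mass I (∑ a ∈ S, Φ a) y ≤ ∑ a ∈ S, mass I (Φ a) y := by
  simp only [mass, Finset.sum_apply]
  rw [sum_comm]
  refine sum_le_sum fun z _ => ?_
  split_ifs
  · push_cast
    exact abs_sum_le_sum_abs _ _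
  · simp

/-- Splitting a sum over the rows that agree on `I` according to the entry in column `i`. -/
theorem sum_ag_insert {β : Type} [AddCommMonoid β] {I : Finset ι} {i : ι} (hi : i ∉ I)
    (f : (ι → Y) → β) (y : ι → Y) :
    (∑ z, if Ag I z y then f z else 0) =
      ∑ x, ∑ z, if Ag (insert i I) z (update y i x) then f z else 0 := by
  rw [sum_comm]
  refine sum_congr rfl fun z _ => ?_
  rw [sum_eq_single (z i)]
  · refine if_congr ⟨fun h j hj => ?_, fun h j hj => ?_⟩ rfl rfl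
    · rcases mem_insert.1 hj with rfl | hj
      · simp
      · rw [update_of_ne (ne_of_mem_of_not_mem hj hi), h j hj]
    · rw [h j (mem_insert_of_mem hj), update_of_ne (ne_of_mem_of_not_mem hj hi)]
  · intro x _ hx
    exact if_neg fun h => hx (by simpa using (h i (mem_insert_self _ _)).symm)
  · simp

/-- A sum over all rows vanishes when it vanishes on all lines of one direction. -/
theorem sum_eq_zero_of_lines (j : ι) (f : (ι → Y) → ℤ) (h : ∀ y, ∑ x, f (update y j x) = 0) :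
    ∑ z, f z = 0 := by
  rw [← (Equiv.piSplitAt j fun _ => Y).symm.sum_comp, Fintype.sum_prod_type_right]
  refine sum_eq_zero fun w _ => ?_
  rcases isEmpty_or_nonempty Y with hY | ⟨⟨x₀⟩⟩
  · simp
  rw [← h ((Equiv.piSplitAt j fun _ => Y).symm (x₀, w))]
  refine sum_congr rfl fun x _ => congrArg f (funext fun i => ?_)
  by_cases hi : i = j
  · subst hi
    simp
  · simp [hi]

omit [Fintype ι] [DecidableEq ι] [Fintype Y] [DecidableEq Y] in
theorem Supp.add {A : ι → Finset Y} {Φ Ψ : (ι → Y) → ℤ} (h : Supp A Φ) (h' : Supp A Ψ) :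
    Supp A (Φ + Ψ) := fun z hz => by
  by_cases h0 : Φ z = 0
  · exact h' z (by simpa [h0] using hz)
  · exact h z h0

omit [Fintype ι] [DecidableEq ι] [Fintype Y] [DecidableEq Y] in
theorem Supp.sub {A : ι → Finset Y} {Φ Ψ : (ι → Y) → ℤ} (h : Supp A Φ) (h' : Supp A Ψ) :
    Supp A (Φ - Ψ) := fun z hz => by
  by_cases h0 : Φ z = 0
  · exact h' z (by simpa [h0] using hz)
  · exact h z h0

omit [Fintype ι] [DecidableEq ι] [Fintype Y] [DecidableEq Y] in
theorem Supp.sum {α : Type} {A : ι → Finset Y} {S : Finset α} {Φ : α → (ι → Y) → ℤ}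
    (h : ∀ a ∈ S, Supp A (Φ a)) : Supp A (∑ a ∈ S, Φ a) := fun z hz => by
  rw [Finset.sum_apply] at hz
  obtain ⟨a, ha, h0⟩ := exists_ne_zero_of_sum_ne_zero hz
  exact h a ha z h0

omit [DecidableEq ι] [Fintype Y] in
theorem supp_dl {A : ι → Finset Y} {g : ι → Y} (h : ∀ i, g i ∈ A i) : Supp A (dl g) :=
  fun z hz => by
    obtain rfl : z = g := by simpa [dl] using hz
    exact h

omit [DecidableEq ι] [Fintype Y] in
theorem dl_nonneg (g z : ι → Y) : 0 ≤ dl g z := by
  unfold dl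
  split_ifs <;> simp

omit [DecidableEq ι] [Fintype Y] in
/-- Removing an injective subfamily of rows leaves a nonnegative function. -/
theorem sum_dl_le {α β : Type} (S : Finset α) (T : Finset β) (g : β → ι → Y) (f : α → β)
    (hf : Set.InjOn f S) (hT : ∀ a ∈ S, f a ∈ T) (z : ι → Y) :
    (∑ a ∈ S, dl (g (f a))) z ≤ (∑ b ∈ T, dl (g b)) z := by
  classical
  rw [Finset.sum_apply, Finset.sum_apply, ← sum_image (f := fun b => dl (g b) z) hf]
  exact sum_le_sum_of_subset_of_nonneg (image_subset_iff.2 hT) fun b _ _ => dl_nonneg _ _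

/-- Two orthogonal arrays on the same labels cover the same edges after any relabelling. -/
theorem marg_fam {L H H' : Type} [Fintype H] [Fintype H'] {t : ℕ} {x : H → ι → L}
    {x' : H' → ι → L} (hx : IsFam t x) (hx' : IsFam t x') (e : ι → L → Y) {I : Finset ι}
    (hI : I.card = t) (y : ι → Y) :
    marg I (∑ h, dl fun i => e i (x h i)) y = marg I (∑ h, dl fun i => e i (x' h i)) y := by
  rw [marg_sum_dl, marg_sum_dl]
  choose f hf hf' using fun h => hx' I hI (x h)
  congr 1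
  refine card_bij (fun h _ => f h) (fun h hh => ?_) (fun h₁ _ h₂ _ e => ?_) fun h' hh => ?_
  · simp only [mem_filter, mem_univ, true_and] at hh ⊢
    exact fun i hi => (congrArg (e i) (hf h i hi)).trans (hh i hi)
  · exact (hx I hI (x h₂)).unique (fun i hi => by rw [← hf h₁ i hi, e, hf h₂ i hi]) fun _ _ => rfl
  · obtain ⟨h, h1, -⟩ := hx I hI (x' h')
    simp only [mem_filter, mem_univ, true_and] at hh ⊢
    exact ⟨h, fun i hi => (congrArg (e i) (h1 i hi)).trans (hh i hi),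
      (hf' h h' fun i hi => (h1 i hi).symm).symm⟩

theorem isOA_of_marg {t : ℕ} {A : ι → Finset Y} {Φ : (ι → Y) → ℤ} (h0 : ∀ z, 0 ≤ Φ z)
    (hs : Supp A Φ)
    (h1 : ∀ I : Finset ι, I.card = t → ∀ y, (∀ i ∈ I, y i ∈ A i) → marg I Φ y = 1) :
    IsOA t A (univ.filter fun z => Φ z ≠ 0) := by
  refine ⟨fun z hz => hs z (mem_filter.1 hz).2, fun I hI y hy => ?_⟩
  have h := h1 I hI y hy
  obtain ⟨z, -, hz⟩ := exists_ne_zero_of_sum_ne_zero (h.trans_ne one_ne_zero)
  have hz1 : Ag I z y := by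
    by_contra h2
    exact hz (if_neg h2)
  rw [if_pos hz1] at hz
  refine ⟨z, ⟨by simpa using hz, hz1⟩, fun z' hz' => ?_⟩
  by_contra hne
  have h2 := sum_le_sum_of_subset_of_nonneg (subset_univ {z', z})
    (f := fun z => if Ag I z y then Φ z else 0) fun w _ _ => by split_ifs <;> simp [h0]
  rw [sum_pair hne, if_pos hz1, if_pos hz'.2] at h2
  have h3 := (mem_filter.1 hz'.1).2
  have h4 := h0 z
  have h5 := h0 z'
  rw [marg] at h
  omega

theorem lmass_nonneg (j : ι) (h : (ι → Y) → ℤ) (y : ι → Y) : 0 ≤ lmass j h y :=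
  sum_nonneg fun _ _ => abs_nonneg _

theorem lmass_le_total (j : ι) (h : (ι → Y) → ℤ) (y : ι → Y) :
    lmass j h y ≤ ∑ z, |(h z : ℝ)| := by
  rw [lmass, ← sum_image (f := fun z => |(h z : ℝ)|) (update_injective y j).injOn]
  exact sum_le_sum_of_subset_of_nonneg (subset_univ _) fun _ _ _ => abs_nonneg _

/-- Line loads are bounded by point loads. -/
theorem sum_lmass_le {τ : Type} [Fintype τ] {D : ι → Finset Y} {g : τ → (ι → Y) → ℤ}
    (hs : ∀ b, Supp D (g b)) {P : ℝ} (hP : ∀ y, ∑ b, |(g b y : ℝ)| ≤ P) (j : ι) (y : ι → Y) :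
    ∑ b, lmass j (g b) y ≤ P * (D j).card := by
  simp only [lmass]
  rw [sum_comm, ← sum_subset (subset_univ (D j)), mul_comm, ← nsmul_eq_mul]
  · exact sum_le_card_nsmul _ _ _ fun x _ => hP _
  · intro x _ hx
    refine sum_eq_zero fun b _ => ?_
    by_contra h0
    have h1 := hs b (update y j x) (by simpa using h0) j
    rw [update_self] at h1
    exact hx h1

theorem Dec.mono {J : Finset ι} {D : ι → Finset Y} {h : (ι → Y) → ℤ} {G P Q G' P' Q' : ℝ}
    (hd : Dec J D h G P Q) (hG : G ≤ G') (hP : P ≤ P') (hQ : Q ≤ Q') : Dec J D h G' P' Q' := by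
  obtain ⟨τ, _, g, h1, h2, h3, h4, h5, h6⟩ := hd
  exact ⟨τ, _, g, h1, h2, h3, fun b => (h4 b).trans hG, fun y => (h5 y).trans hP,
    fun j hj y => (h6 j hj y).trans (mul_le_mul_of_nonneg_right hQ (Nat.cast_nonneg _))⟩

theorem Inp.mono {J : Finset ι} {D : ι → Finset Y} {h : (ι → Y) → ℤ} {B ρ B' ρ' : ℝ}
    (hd : Inp J D h B ρ) (hB : B ≤ B') (hρ : ρ ≤ ρ') : Inp J D h B' ρ' :=
  ⟨hd.1, hd.2.1, fun y => (hd.2.2.1 y).trans hB,
    fun j hj y => (hd.2.2.2 j hj y).trans (mul_le_mul_of_nonneg_right hρ (Nat.cast_nonneg _))⟩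

theorem dec_zero (J : Finset ι) (D : ι → Finset Y) {h : (ι → Y) → ℤ} (h0 : ∀ y, h y = 0)
    {G P Q : ℝ} (hP : 0 ≤ P) (hQ : 0 ≤ Q) : Dec J D h G P Q :=
  ⟨Empty, inferInstance, fun _ => 0, by simpa using h0, fun b => b.elim, fun b => b.elim,
    fun b => b.elim, by simpa using fun _ => hP,
    fun j _ y => by simpa using mul_nonneg hQ (Nat.cast_nonneg _)⟩

end Pool.Agent.Lib.MP_deca50_lc.CES
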