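import Pool.Agent.Lib.MP_deca50_lc.CES.Basic
import Pool.Agent.Lib.MP_deca50_lc.CES.RS

/-!
Occurrences of signed rows and the identity behind the two exchange rounds.
-/

open Finset Function

set_option linter.unusedSectionVars false

namespace Pool.Agent.Lib.MP_deca50_lc.CES

variable {ι Y : Type} [Fintype ι] [DecidableEq ι] [Fintype Y] [DecidableEq Y] {t : ℕ}

private theorem cid_emb {α β γ : Type} [Fintype α] [Fintype β] [DecidableEq γ] (f : α → γ)
    (g : β → γ)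
    (h : ∀ c, (univ.filter fun a => f a = c).card ≤ (univ.filter fun b => g b = c).card) :
    ∃ μ : α → β, Injective μ ∧ ∀ a, g (μ a) = f a := by
  have h1 : ∀ c, Nonempty ({a // f a = c} ↪ {b // g b = c}) := fun c =>
    Function.Embedding.nonempty_of_card_le (by
      rw [Fintype.card_subtype, Fintype.card_subtype]
      exact h c)
  let e := fun c => (h1 c).some
  have h2 : ∀ c a (ha : f a = c), (e (f a) ⟨a, rfl⟩).1 = (e c ⟨a, ha⟩).1 := by
    rintro c a rfl
    rfl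
  refine ⟨fun a => (e (f a) ⟨a, rfl⟩).1, fun a a' haa => ?_, fun a => (e (f a) ⟨a, rfl⟩).2⟩
  have h3 : f a' = f a := by
    have h4 := (e (f a) ⟨a, rfl⟩).2
    have h5 := (e (f a') ⟨a', rfl⟩).2
    simp only at haa
    rw [← h4, ← h5, haa]
  have h6 : (e (f a) ⟨a, rfl⟩).1 = (e (f a) ⟨a', h3⟩).1 := haa.trans (h2 _ a' h3)
  exact congrArg Subtype.val ((e (f a)).injective (Subtype.ext h6))

private theorem cid_sum_dl (f : (ι → Y) → ℕ) (w : ι → Y) :
    (∑ a : (Σ z : ι → Y, Fin (f z)), dl a.1) w = f w := by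
  rw [Finset.sum_apply, Fintype.sum_sigma, sum_eq_single w]
  · simp [dl]
  · intro z _ hz
    simp [dl, hz.symm]
  · simp

private theorem cid_count (f : (ι → Y) → ℕ) (P : (ι → Y) → Prop) [DecidablePred P] :
    (∑ a : (Σ z : ι → Y, Fin (f z)), if P a.1 then (1 : ℝ) else 0) =
      ∑ z, if P z then (f z : ℝ) else 0 := by
  rw [Fintype.sum_sigma]
  refine sum_congr rfl fun z _ => ?_
  split_ifs <;> simp

private theorem cid_match (f₁ f₂ : (ι → Y) → ℕ) (I : Finset ι)
    (h : ∀ y, 0 ≤ marg I (∑ a : (Σ z : ι → Y, Fin (f₁ z)), dl a.1 -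
      ∑ ν : (Σ z : ι → Y, Fin (f₂ z)), dl ν.1) y) :
    ∃ μ : (Σ z : ι → Y, Fin (f₂ z)) → (Σ z : ι → Y, Fin (f₁ z)),
      Injective μ ∧ ∀ ν, Ag I (μ ν).1 ν.1 := by
  obtain ⟨μ, h1, h2⟩ := cid_emb (fun ν : (Σ z : ι → Y, Fin (f₂ z)) => fun i : I => ν.1 i)
    (fun a : (Σ z : ι → Y, Fin (f₁ z)) => fun i : I => a.1 i) fun c => by
      by_cases hc : ∃ y : ι → Y, (fun i : I => y i) = c
      · obtain ⟨y, rfl⟩ := hc
        have h1 := h y
        rw [marg_sub, marg_sum_dl, marg_sum_dl] at h1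
        have h2 : ∀ z : ι → Y, ((fun i : I => z i) = fun i : I => y i) ↔ Ag I z y :=
          fun z => ⟨fun h i hi => congrFun h ⟨i, hi⟩, fun h => funext fun i => h i i.2⟩
        simp only [h2]
        omega
      · rw [filter_eq_empty_iff.2 fun ν _ h => hc ⟨ν.1, h⟩]
        simp
  exact ⟨μ, h1, fun ν i hi => congrFun (h2 ν) ⟨i, hi⟩⟩

/-- Signed rows as two families, with the negative ones matched to positive ones on each edge. -/
theorem occ (Ψ : (ι → Y) → ℤ) (hΨ : ∀ I : Finset ι, I.card = t → ∀ y, 0 ≤ marg I Ψ y) :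
    ∃ (τp τm : Type) (_ : Fintype τp) (_ : Fintype τm) (g : τp ⊕ τm → ι → Y)
      (μ : Ed ι t → τm → τp), Ψ = ∑ a, dl (g (.inl a)) - ∑ ν, dl (g (.inr ν)) ∧
      (∀ a, Ψ (g a) ≠ 0) ∧ (∀ I, Injective (μ I)) ∧
      (∀ I ν, Ag I.1 (g (.inl (μ I ν))) (g (.inr ν))) ∧
      ∀ (P : (ι → Y) → Prop) [DecidablePred P],
        ((univ.filter fun a => P (g a)).card : ℝ) = ∑ z, if P z then |(Ψ z : ℝ)| else 0 := by
  obtain ⟨f₁, hf₁⟩ : ∃ f : (ι → Y) → ℕ, ∀ z, f z = (Ψ z).toNat := ⟨_, fun _ => rfl⟩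
  obtain ⟨f₂, hf₂⟩ : ∃ f : (ι → Y) → ℕ, ∀ z, f z = (-Ψ z).toNat := ⟨_, fun _ => rfl⟩
  have hid : Ψ = ∑ a : (Σ z : ι → Y, Fin (f₁ z)), dl a.1 -
      ∑ ν : (Σ z : ι → Y, Fin (f₂ z)), dl ν.1 := by
    funext w
    rw [Pi.sub_apply, cid_sum_dl, cid_sum_dl, hf₁, hf₂]
    exact (Int.toNat_sub_toNat_neg _).symm
  choose μ hμ hμ' using fun I : Ed ι t => cid_match f₁ f₂ I.1 fun y => by
    rw [← hid]
    exact hΨ I.1 I.2 y
  refine ⟨Σ z : ι → Y, Fin (f₁ z), Σ z : ι → Y, Fin (f₂ z), inferInstance, inferInstance,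
    Sum.elim (fun a => a.1) (fun ν => ν.1), μ, hid, ?_, hμ, hμ', fun P _ => ?_⟩
  · rintro (⟨z, j⟩ | ⟨z, j⟩)
    · have h1 := j.2
      have h2 := hf₁ z
      show Ψ z ≠ 0
      omega
    · have h1 := j.2
      have h2 := hf₂ z
      show Ψ z ≠ 0
      omega
  · rw [card_filter]
    push_cast
    rw [Fintype.sum_sum_type]
    refine (congrArg₂ (· + ·) (cid_count f₁ P) (cid_count f₂ P)).trans ?_
    rw [← sum_add_distrib]
    refine sum_congr rfl fun z _ => ?_
    split_ifs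
    · rw [← Nat.cast_add, hf₁, hf₂, Int.toNat_add_toNat_neg_eq_natAbs, Nat.cast_natAbs,
        Int.cast_abs]
    · simp

private theorem cid_ite {H β : Type} [Fintype H] [DecidableEq H] [AddCommMonoid β] (p : H → Prop)
    [DecidablePred p] (T : Finset H) (h : ∀ x, p x ↔ x ∈ T) (f : H → β) :
    (∑ x, if p x then f x else 0) = ∑ x ∈ T, f x := by
  rw [← sum_filter]
  exact sum_congr (by ext x; simp [h]) fun _ _ => rfl

private theorem cid_trade {K : Type} [Field K] [Fintype K] [DecidableEq K] {s : ι → K}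
    (hs : Injective s) {α : Type} [Fintype α] (f : α → ι → K → Y) {I : Finset ι} (hI : I.card = t)
    (y : ι → Y) :
    marg I (∑ a, ∑ h : Fin t → K, dl fun i => f a i (sh s h i)) y =
      marg I (∑ a, ∑ h : Fin t → K, dl fun i => f a i (ev s h i)) y := by
  rw [marg_sum, marg_sum]
  refine sum_congr rfl fun a _ => ?_
  have h1 : IsFam t fun (h : Fin t → K) i => sh s h i :=
    ev_fam (unit_of_inj hs) fun i => s i ^ t
  have h2 : IsFam t fun (h : Fin t → K) i => ev s h i := by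
    simpa using ev_fam (t := t) (unit_of_inj hs) (0 : ι → K)
  exact marg_fam h1 h2 (f a) hI y

private theorem cid_nonneg {α H : Type} (S : Finset α) (T : α → Finset H) (x : α → H → ι → Y)
    (z : ι → Y) : 0 ≤ (∑ a ∈ S, ∑ h ∈ T a, dl (x a h)) z := by
  simp only [Finset.sum_apply]
  exact sum_nonneg fun _ _ => sum_nonneg fun _ _ => dl_nonneg _ _

theorem clean_id {K τp τm : Type} [Field K] [Fintype K] [DecidableEq K] [Fintype τp] [Fintype τm]
    {s : ι → K} (hs : Injective s) (sp : Ed ι t → Fin t → K)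
    (hsp : ∀ (I : Ed ι t) i, sh s (sp I) i = 0 ↔ i ∈ I.1) (g : τp ⊕ τm → ι → Y)
    (μ : Ed ι t → τm → τp) (hμ : ∀ I, Injective (μ I))
    (hμ' : ∀ I ν, Ag I.1 (g (.inl (μ I ν))) (g (.inr ν))) (e : τp ⊕ τm → ι → K → Y)
    (b : τm × Ed ι t → ι → Bool × K → Y) (he : ∀ a i, e a i 0 = g a i)
    (hb0 : ∀ a i, b a i (false, 0) = e (.inr a.1) i (sh s (sp a.2) i))
    (hb1 : ∀ a i, b a i (true, 0) = e (.inl (μ a.2 a.1)) i (sh s (sp a.2) i))
    (As : ι → Finset Y) (heA : ∀ a i l, e a i l ∈ As i) (hbA : ∀ a i l, b a i l ∈ As i)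
    (N : Finset (NegIx K ι τp τm t)) (hN : ∀ γ, γ ∈ N ↔ negAct sp γ) :
    ∃ Pos : (ι → Y) → ℤ, (∀ z, 0 ≤ Pos z) ∧ Supp As Pos ∧
      ∀ I : Finset ι, I.card = t → ∀ y, marg I (Pos - ∑ γ ∈ N, dl (negRow s sp e b γ)) y =
        marg I (∑ a, dl (g (.inl a)) - ∑ ν, dl (g (.inr ν))) y := by
  classical
  have hspi : Injective sp := fun I J h => Subtype.ext (by
    ext i
    rw [← hsp, ← hsp, h])
  let r1 : τp × (Fin t → K) → ι → Y := fun p i => e (.inl p.1) i (sh s p.2 i)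
  let b1 : τm × Ed ι t → ι → K → Y := fun a i x => b a i (false, x)
  let b2 : τm × Ed ι t → ι → K → Y := fun a i x => b a i (lab (sh s (sp a.2) i) x)
  have hf : Injective fun a : τm × Ed ι t => (μ a.2 a.1, sp a.2) := by
    rintro ⟨ν, I⟩ ⟨ν', I'⟩ h
    obtain rfl : I = I' := hspi (congrArg Prod.snd h)
    obtain rfl : ν = ν' := hμ I (congrArg Prod.fst h)
    rfl
  have e0 : ∀ a, (fun i => e a i (ev s (0 : Fin t → K) i)) = g a := fun a =>
    funext fun i => by rw [ev_zero, he]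
  have e1 : ∀ a : τm × Ed ι t, (fun i => b1 a i (ev s (0 : Fin t → K) i)) =
      fun i => e (.inr a.1) i (sh s (sp a.2) i) := fun a =>
    funext fun i => by rw [ev_zero]; exact hb0 a i
  have e2 : ∀ a : τm × Ed ι t, (fun i => b2 a i (ev s (0 : Fin t → K) i)) =
      r1 (μ a.2 a.1, sp a.2) := fun a =>
    funext fun i => by
      rw [ev_zero]
      have h1 : lab (sh s (sp a.2) i) 0 = (true, 0) := by simp [lab]
      simp only [b2, h1]
      exact hb1 a i
  have e3 : ∀ a : τm × Ed ι t, (fun i => b2 a i (sh s (sp a.2) i)) =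
      fun i => b1 a i (sh s (sp a.2) i) := fun a =>
    funext fun i => by
      by_cases h0 : sh s (sp a.2) i = 0
      · have h1 : lab (0 : K) 0 = (true, 0) := by simp [lab]
        simp only [b1, b2, h0, h1]
        rw [hb0, hb1, h0, he, he]
        exact hμ' a.2 a.1 i ((hsp _ _).1 h0)
      · have h1 : lab (sh s (sp a.2) i) (sh s (sp a.2) i) = (false, sh s (sp a.2) i) := by
          simp [lab, h0]
        simp only [b1, b2, h1]
  have hneg : ∑ γ ∈ N, dl (negRow s sp e b γ) =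
      (∑ a : τp, ∑ h ∈ univ.erase (0 : Fin t → K), dl fun i => e (.inl a) i (ev s h i)) +
      ((∑ ν : τm, ∑ h ∈ univ \ univ.image sp, dl fun i => e (.inr ν) i (sh s h i)) +
      ((∑ a : τm × Ed ι t, ∑ h ∈ univ.erase (sp a.2), dl fun i => b1 a i (sh s h i)) +
      (∑ a : τm × Ed ι t, ∑ h ∈ univ.erase (0 : Fin t → K), dl fun i => b2 a i (ev s h i)))) := by
    rw [← cid_ite (fun γ => negAct sp γ) N (fun γ => (hN γ).symm), Fintype.sum_sum_type,
      Fintype.sum_sum_type, Fintype.sum_sum_type]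
    congr 1
    · rw [Fintype.sum_prod_type]
      exact sum_congr rfl fun a _ => cid_ite _ _ (fun h => by simp [negAct]) _
    congr 1
    · rw [Fintype.sum_prod_type]
      exact sum_congr rfl fun a _ => cid_ite _ _ (fun h => by simp [negAct, eq_comm]) _
    congr 1
    · rw [Fintype.sum_prod_type]
      exact sum_congr rfl fun a _ => cid_ite _ _ (fun h => by simp [negAct]) _
    · rw [Fintype.sum_prod_type]
      exact sum_congr rfl fun a _ => cid_ite _ _ (fun h => by simp [negAct]) _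
  refine ⟨(∑ p, dl (r1 p) - ∑ a : τm × Ed ι t, dl (r1 (μ a.2 a.1, sp a.2))) +
      ((∑ ν : τm, ∑ h ∈ univ.erase (0 : Fin t → K), dl fun i => e (.inr ν) i (ev s h i)) +
      ((∑ a : τm × Ed ι t, ∑ h ∈ univ.erase (0 : Fin t → K), dl fun i => b1 a i (ev s h i)) +
      (∑ a : τm × Ed ι t, ∑ h ∈ univ.erase (sp a.2), dl fun i => b2 a i (sh s h i)))),
    fun z => ?_, ?_, fun I hI y => ?_⟩
  · exact add_nonneg (sub_nonneg.2 (sum_dl_le univ univ r1 _ hf.injOn (fun _ _ => mem_univ _) z))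
      (add_nonneg (cid_nonneg _ _ _ z) (add_nonneg (cid_nonneg _ _ _ z) (cid_nonneg _ _ _ z)))
  · exact ((Supp.sum fun p _ => supp_dl fun i => heA _ _ _).sub
      (Supp.sum fun p _ => supp_dl fun i => heA _ _ _)).add
      ((Supp.sum fun _ _ => Supp.sum fun _ _ => supp_dl fun i => heA _ _ _).add
      ((Supp.sum fun _ _ => Supp.sum fun _ _ => supp_dl fun i => hbA _ _ _).add
      (Supp.sum fun _ _ => Supp.sum fun _ _ => supp_dl fun i => hbA _ _ _)))
  · have t1 := cid_trade hs (fun a : τp => e (.inl a)) hI y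
    have t2 := cid_trade hs (fun ν : τm => e (.inr ν)) hI y
    have t3 := cid_trade hs b1 hI y
    have t4 := cid_trade hs b2 hI y
    have s1 : ∑ p, dl (r1 p) =
        ∑ a : τp, ∑ h : Fin t → K, dl fun i => e (.inl a) i (sh s h i) :=
      Fintype.sum_prod_type _
    have s2 : (∑ ν : τm, ∑ h ∈ univ \ univ.image sp, dl fun i => e (.inr ν) i (sh s h i)) =
        (∑ ν : τm, ∑ h : Fin t → K, dl fun i => e (.inr ν) i (sh s h i)) -
          ∑ a : τm × Ed ι t, dl fun i => e (.inr a.1) i (sh s (sp a.2) i) := by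
      rw [Fintype.sum_prod_type, ← sum_sub_distrib]
      refine sum_congr rfl fun ν _ => ?_
      rw [sum_sdiff_eq_sub (subset_univ _), sum_image hspi.injOn]
    rw [hneg, s1, s2]
    simp only [sum_erase_eq_sub (mem_univ _), sum_sub_distrib, e0, e1, e2, e3, marg_add, marg_sub]
    omega

end Pool.Agent.Lib.MP_deca50_lc.CES
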