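import Pool.Agent.Lib.MP_deca50_lc.CES.CleanF
import Pool.Agent.Lib.MP_deca50_lc.CES.CleanId

/-!
Cleaning a signed family of rows.
-/

open Finset Function

set_option linter.unusedSectionVars false

namespace Pool.Agent.Lib.MP_deca50_lc.CES

theorem clean (t : ℕ) (ht : 1 ≤ t) : ∃ c : ℕ, ∀ (K F ι R : Type) [Field K] [Fintype K]
    [DecidableEq K] [AddCommGroup F] [Module K F] [Fintype F] [DecidableEq F] [Fintype ι]
    [DecidableEq ι] [Fintype R] [DecidableEq R] [Nonempty R] (s : ι → K) (Γ β D : ℕ)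
    (A : ι → Finset F) (B : Finset (Fin t → F)) (As : ι → Finset (R × F))
    (Ψ : (ι → R × F) → ℤ), Injective s → t ≤ Fintype.card ι → Fintype.card K ≤ Γ →
    Fintype.card ι + 1 ≤ Γ → (Fintype.card F * Fintype.card K) ^ t ≤ 2 ^ Γ →
    (∀ i, Fintype.card F ≤ (A i).card + β) → LB K B β → (∀ i ρ x, x ∈ A i → (ρ, x) ∈ As i) →
    Supp As Ψ → (∀ I : Finset ι, I.card = t → ∀ y, 0 ≤ marg I Ψ y) →
    (∀ J : Finset ι, J.card + 1 = t → ∀ y : ι → F,
      (∑ z, if Ag J (fun i => (z i).2) y then |(Ψ z : ℝ)| else 0) ≤ D) →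
    Γ ^ c * (β + D + 1) ≤ Fintype.card F →
    ∃ (Pos : (ι → R × F) → ℤ) (τ : Type) (_ : Fintype τ) (g : τ → ι → R × F)
      (ψ : τ → Finset ι → Fin t → F) (R' : Finset (Fin t → F)),
      LB K R' (Γ ^ c * (D + 1)) ∧ (∀ z, 0 ≤ Pos z) ∧ Supp As Pos ∧ (∀ a i, g a i ∈ As i) ∧
      (∀ a J, J.card = t → Slot s A B R' J (fun i => (g a i).2) (ψ a J)) ∧
      (∀ a J a' J', J.card = t → J'.card = t → ψ a J = ψ a' J' → a = a' ∧ J = J') ∧
      ∀ I : Finset ι, I.card = t → ∀ y, marg I (Pos - ∑ a, dl (g a)) y = marg I Ψ y := by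
  refine ⟨(2 * t + 1) * (2 * t + 4) + 9, fun K F ι R _ _ _ _ _ _ _ _ _ _ _ hR s Γ β D A B As Ψ hs hk
    hK hι hΛ hA hB hAs hΨ h0 hD hN => ?_⟩
  classical
  obtain ⟨ρ₀⟩ := hR
  have hΓ : 2 ≤ Γ := by omega
  have hpw : ∀ a b : ℕ, a ≤ b → Γ ^ a ≤ Γ ^ b := fun a b h => Nat.pow_le_pow_right (by omega) h
  have h7 : ∀ n : ℕ, 2 ^ n ≤ Γ ^ n := fun n => Nat.pow_le_pow_left hΓ n
  obtain ⟨τp, τm, _, _, g, μ, hg1, hg2, hμ, hμ', hc⟩ := occ Ψ h0
  obtain ⟨sp, hsp⟩ := exists_sp (t := t) hs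
  obtain ⟨e, b, ψ, R', hR', he0, he1, hb0, hb1, hb2, hψ, hinj⟩ := cleanF ht hs hk sp hsp
    (fun a i => (g a i).2) μ hμ (fun I ν i hi => congrArg Prod.snd (hμ' I ν i hi)) D
    (fun J hJ y => by
      have h := (hc fun z => Ag J (fun i => (z i).2) y).trans_le (hD J hJ y)
      exact_mod_cast h) A B β Γ (Γ ^ (2 * t + 1)) hA hB hΛ
    (by
      have h1 := Nat.mul_le_mul (Nat.pow_le_pow_left hK t)
        (Nat.pow_le_pow_left (show Fintype.card ι ≤ Γ by omega) t)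
      calc _ ≤ Γ * (Γ ^ t * Γ ^ t) := Nat.mul_le_mul hΓ h1
        _ = _ := by ring)
    ((Nat.mul_le_mul hΓ hK).trans (by rw [← sq]; exact hpw _ _ (by omega)))
    (hι.trans (Nat.le_self_pow (by omega) _))
    (by
      refine le_trans ?_ hN
      have h1 : β + D + Γ + 1 ≤ Γ ^ 2 * (β + D + 1) := by
        have h2 : Γ + 1 ≤ Γ ^ 2 := by nlinarith
        nlinarith [Nat.mul_le_mul_right (β + D + 1) h2]
      calc _ ≤ Γ ^ 7 * (Γ ^ (2 * t + 1)) ^ (2 * t + 4) * (Γ ^ 2 * (β + D + 1)) :=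
            Nat.mul_le_mul (Nat.mul_le_mul_right _ (le_trans (by norm_num) (h7 7))) h1
        _ = _ := by ring)
  set e' : τp ⊕ τm → ι → K → R × F := fun a i l => if l = 0 then g a i else (ρ₀, e a i l) with he'
  have he2 : ∀ a i l, (e' a i l).2 = e a i l := fun a i l => by
    simp only [he']
    split_ifs with h
    · rw [h, he0]
    · rfl
  have heA : ∀ a i l, e' a i l ∈ As i := fun a i l => by
    simp only [he']
    split_ifs with h
    · exact hΨ _ (hg2 a) i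
    · exact hAs _ _ _ (he1 a i l h)
  set b' : τm × Ed ι t → ι → Bool × K → R × F := fun a i l =>
    if l.2 = 0 then (if l.1 then e' (.inl (μ a.2 a.1)) i (sh s (sp a.2) i)
      else e' (.inr a.1) i (sh s (sp a.2) i)) else (ρ₀, b a i l) with hb'
  have hb3 : ∀ a i l, (b' a i l).2 = b a i l := fun a i l => by
    obtain ⟨l₁, l₂⟩ := l
    simp only [hb']
    split_ifs with h h'
    · rw [he2, h, h', hb1]
    · rw [he2, h, Bool.eq_false_iff.2 h', hb0]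
    · rfl
  have hbA : ∀ a i l, b' a i l ∈ As i := fun a i l => by
    simp only [hb']
    split_ifs with h h'
    · exact heA _ _ _
    · exact heA _ _ _
    · exact hAs _ _ _ (hb2 a i l h)
  obtain ⟨Pos, hP0, hP1, hP2⟩ := clean_id hs sp hsp g μ hμ hμ' e' b' (fun a i => by simp [he'])
    (fun a i => by simp [hb']) (fun a i => by simp [hb']) As heA hbA (univ.filter (negAct sp))
    (by simp)
  have hrow : ∀ γ, (fun i => (negRow s sp e' b' γ i).2) = negRow s sp e b γ := by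
    rintro (⟨a, h⟩ | ⟨a, h⟩ | ⟨a, h⟩ | ⟨a, h⟩) <;> funext i <;> simp only [negRow, he2, hb3]
  refine ⟨Pos, {γ // negAct sp γ}, inferInstance, fun γ => negRow s sp e' b' γ.1,
    fun γ => ψ γ.1, R', hR'.mono ?_, hP0, hP1, ?_, fun γ J hJ => ?_,
    fun γ J γ' J' hJ hJ' h => ?_, fun I hI y => ?_⟩
  · have h1 : D + Γ ≤ Γ * (D + 1) := by nlinarith
    calc _ ≤ Γ ^ 5 * (Γ ^ (2 * t + 1)) ^ (2 * t + 3) * (Γ * (D + 1)) :=
          Nat.mul_le_mul (Nat.mul_le_mul_right _ (le_trans (by norm_num) (h7 5))) h1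
      _ = Γ ^ ((2 * t + 1) * (2 * t + 3) + 6) * (D + 1) := by ring
      _ ≤ _ := Nat.mul_le_mul_right _ (hpw _ _ (by nlinarith))
  · rintro ⟨⟨a, h⟩ | ⟨a, h⟩ | ⟨a, h⟩ | ⟨a, h⟩, -⟩ i <;> simp only [negRow, heA, hbA]
  · rw [hrow]
    exact hψ _ J γ.2 hJ
  · obtain ⟨h1, h2⟩ := hinj _ _ _ _ γ.2 hJ γ'.2 hJ' h
    exact ⟨Subtype.ext h1, h2⟩
  · rw [hg1, ← hP2 I hI y, sum_subtype (univ.filter (negAct sp)) (p := negAct sp) (by simp)]

end Pool.Agent.Lib.MP_deca50_lc.CES
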