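import Pool.Agent.Lib.MP_deca50_lc.CES.Fresh

/-!
The two exchange rounds, on the level of the linear part of the symbols.
-/

open Finset Function

set_option linter.unusedSectionVars false

namespace Pool.Agent.Lib.MP_deca50_lc.CES

variable {K F ι : Type} [Field K] [Fintype K] [DecidableEq K] [AddCommGroup F] [Module K F]
  [Fintype F] [DecidableEq F] [Fintype ι] [DecidableEq ι] {t : ℕ}

theorem cf_ev_ne {s : ι → K} (hs : Injective s) {J : Finset ι} (hJ : J.card = t)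
    {h : Fin t → K} (hh : h ≠ 0) : ∃ i ∈ J, ev s h i ≠ 0 := by
  by_contra hcon
  push Not at hcon
  exact hh (ev_ext hs hJ fun i hi => by rw [hcon i hi, ev_zero])

theorem cf_sh_ext {s : ι → K} (hs : Injective s) {J : Finset ι} (hJ : J.card = t)
    {h h' : Fin t → K} (hh : ∀ i ∈ J, sh s h i = sh s h' i) : h = h' :=
  ev_ext hs hJ fun i hi => add_right_cancel (hh i hi)

theorem cf_lab_snd (u x : K) : (lab u x).2 = x := by
  unfold lab
  split_ifs <;> rfl

theorem cf_lab_zero (u : K) : lab u 0 = (true, 0) := by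
  simp [lab]

theorem cf_lab_false {u x y : K} (h : (false, y) = lab u x) : y = u := by
  unfold lab at h
  split_ifs at h with h1
  · rw [← h1.1]
    exact congrArg Prod.snd h
  · simp at h

theorem cf_slot_mono {s : ι → K} {A : ι → Finset F} {B B' R R' : Finset (Fin t → F)}
    {J : Finset ι} {x x' : ι → F} {φ : Fin t → F} (h : Slot s A B R J x φ) (hB : B' ⊆ B)
    (hR : R ⊆ R') (hx : ∀ i ∈ J, x i = x' i) : Slot s A B' R' J x' φ :=
  ⟨fun i hi => (h.1 i hi).trans (hx i hi), hR h.2.1, fun hb => h.2.2.1 (hB hb), h.2.2.2⟩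

/-- First round: a box of new points on every row. -/
theorem round1 {τ : Type} [Fintype τ] {s : ι → K} (hs : Injective s) (hk : t ≤ Fintype.card ι)
    (g : τ → ι → F) (D : ℕ)
    (h3 : ∀ J : Finset ι, J.card + 1 = t → ∀ y, (univ.filter fun a => Ag J (g a) y).card ≤ D)
    (A : ι → Finset F) (B : Finset (Fin t → F)) (β Λ G : ℕ)
    (hA : ∀ i, Fintype.card F ≤ (A i).card + β) (hB : LB K B β)
    (hΛ : (Fintype.card F * Fintype.card K) ^ t ≤ 2 ^ Λ)
    (hS : Fintype.card K ^ t * Fintype.card ι ^ t ≤ G) (hL : Fintype.card K ≤ G)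
    (hι : Fintype.card ι + 1 ≤ G) (hN : 12 * G ^ (t + 2) * (β + D + Λ + 1) ≤ Fintype.card F) :
    ∃ (ω : τ → ι → K → F) (χ : τ → Finset ι → (ι → K) → Fin t → F) (R : Finset (Fin t → F)),
      LB K R (3 * G ^ (t + 1) * (D + Λ)) ∧ (∀ a i, ω a i 0 = g a i) ∧
      (∀ a i l, l ≠ 0 → ω a i l ∈ A i) ∧
      (∀ a J c, J.card = t → (∃ i ∈ J, c i ≠ 0) →
        Slot s A B R J (fun i => ω a i (c i)) (χ a J c)) ∧
      ∀ a J c a' J' c', J.card = t → (∃ i ∈ J, c i ≠ 0) → J'.card = t → (∃ i ∈ J', c' i ≠ 0) →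
        χ a J c = χ a' J' c' → a = a' ∧ J = J' ∧ Ag J c c' := by
  classical
  have hcard : Fintype.card ((Fin t → K) × Ed ι t) ≤ G := by
    rw [Fintype.card_prod, Fintype.card_fun, Fintype.card_fin]
    exact (Nat.mul_le_mul_left _ (card_ed ι t)).trans hS
  obtain ⟨ω, φ, R, hR, hroot, hfresh, hslot, hinj⟩ :=
    fresh (τ := τ) (S := (Fin t → K) × Ed ι t) (L := K) hs hk (fun _ _ l => l = 0)
      (fun a i _ => g a i) (fun _ σ => σ.1 ≠ 0) (fun _ σ => σ.2.1) (fun _ σ => ev s σ.1)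
      (fun a _ => g a) (fun _ σ _ => σ.2.2) (fun _ σ h => cf_ev_ne hs σ.2.2 h)
      (fun _ σ σ' _ _ hI h => by
        refine Prod.ext (ev_ext hs σ.2.2 fun i hi => ?_) (Subtype.ext hI)
        rcases h i hi with h | h
        · exact h.2
        · exact h.1.trans h.2.1.symm)
      (fun _ _ _ _ _ _ => rfl) D (fun _ J hJ y => h3 J hJ y) A B β Λ G hA hB hΛ hcard hL hι hN
  have hex : ∀ (J : Ed ι t) (c : ι → K), ∃ h : Fin t → K, ∀ i ∈ J.1, ev s h i = c i :=
    fun J c => (ev_exu (unit_of_inj hs) J.2 c).exists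
  choose itp hitp using hex
  have hne : ∀ (J : Ed ι t) (c : ι → K), (∃ i ∈ J.1, c i ≠ 0) → itp J c ≠ 0 := by
    rintro J c ⟨i, hi, hc⟩ h0
    apply hc
    rw [← hitp J c i hi, h0, ev_zero]
  refine ⟨ω, fun a J c => if hJ : J.card = t then φ a (itp ⟨J, hJ⟩ c, ⟨J, hJ⟩) else 0, R, hR,
    fun a i => hroot a i 0 rfl, fun a i l hl => hfresh a i l hl, ?_, ?_⟩
  · intro a J c hJ hc
    simp only [dif_pos hJ]
    refine cf_slot_mono (hslot a (itp ⟨J, hJ⟩ c, ⟨J, hJ⟩) (hne ⟨J, hJ⟩ c hc)) Subset.rfl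
      Subset.rfl fun i hi => ?_
    simp only [hitp ⟨J, hJ⟩ c i hi]
  · intro a J c a' J' c' hJ hc hJ' hc' heq
    simp only [dif_pos hJ, dif_pos hJ'] at heq
    obtain ⟨h1, h2⟩ := hinj a _ a' _ (hne ⟨J, hJ⟩ c hc) (hne ⟨J', hJ'⟩ c' hc') heq
    have h4 : J = J' := congrArg (fun σ : (Fin t → K) × Ed ι t => σ.2.1) h2
    subst h4
    have h5 : itp ⟨J, hJ⟩ c = itp ⟨J, hJ'⟩ c' := congrArg Prod.fst h2
    refine ⟨h1, rfl, fun i hi => ?_⟩
    rw [← hitp ⟨J, hJ⟩ c i hi, h5, hitp ⟨J, hJ'⟩ c' i hi]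

/-- Rows read off from the first round along a fixed pattern rarely agree on `t - 1` columns. -/
theorem cf_count {τ τ' : Type} [Fintype τ] [Fintype τ'] {s : ι → K} (hs : Injective s)
    (hk : t ≤ Fintype.card ι) (g : τ → ι → F) (D q : ℕ)
    (h3 : ∀ J : Finset ι, J.card + 1 = t → ∀ y, (univ.filter fun a => Ag J (g a) y).card ≤ D)
    {A : ι → Finset F} {B R : Finset (Fin t → F)} (hR : LB K R q) (e : τ → ι → K → F)
    (χ : τ → Finset ι → (ι → K) → Fin t → F) (he : ∀ a i, e a i 0 = g a i)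
    (hslot : ∀ a J c, J.card = t → (∃ i ∈ J, c i ≠ 0) →
      Slot s A B R J (fun i => e a i (c i)) (χ a J c))
    (hinj : ∀ a J c a' J' c', J.card = t → (∃ i ∈ J, c i ≠ 0) → J'.card = t →
      (∃ i ∈ J', c' i ≠ 0) → χ a J c = χ a' J' c' → a = a' ∧ J = J' ∧ Ag J c c')
    (f : τ' → τ) (hf : Injective f) (u : ι → K) {J : Finset ι} (hJ : J.card + 1 = t)
    (y : ι → F) :
    (univ.filter fun ν => Ag J (fun i => e (f ν) i (u i)) y).card ≤ D + q := by
  classical
  by_cases hu : ∃ i ∈ J, u i ≠ 0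
  · obtain ⟨i₃, hi₃⟩ : ∃ i, i ∉ J := by
      by_contra hcon
      push Not at hcon
      have h1 : J = univ := eq_univ_of_forall hcon
      rw [h1, card_univ] at hJ
      omega
    have hJ' : (insert i₃ J).card = t := by rw [card_insert_of_notMem hi₃, hJ]
    have hu' : ∃ i ∈ insert i₃ J, u i ≠ 0 := by
      obtain ⟨i, hi, h⟩ := hu
      exact ⟨i, mem_insert_of_mem hi, h⟩
    refine le_trans ?_ ((LB.card_agree hs hk hR hJ y).trans (Nat.le_add_left q D))
    refine card_le_card_of_injOn (fun ν => χ (f ν) (insert i₃ J) u) ?_ ?_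
    · intro ν hν
      have h1 := hslot (f ν) _ u hJ' hu'
      simp only [coe_filter, mem_univ, true_and, Set.mem_ofPred_eq] at hν ⊢
      exact ⟨h1.2.1, fun i hi => (h1.1 i (mem_insert_of_mem hi)).trans (hν i hi)⟩
    · intro ν _ ν' _ h
      exact hf (hinj _ _ _ _ _ _ hJ' hu' hJ' hu' h).1
  · push Not at hu
    refine le_trans ?_ ((h3 J hJ y).trans (Nat.le_add_right D q))
    refine card_le_card_of_injOn f ?_ hf.injOn
    intro ν hν
    simp only [coe_filter, mem_univ, true_and, Set.mem_ofPred_eq] at hν ⊢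
    intro i hi
    have h1 := hν i hi
    simp only [hu i hi, he] at h1
    exact h1

/-- The common points of the two boxes of the second round. -/
def cfRoot {τp τm : Type} (s : ι → K) (sp : Ed ι t → Fin t → K) (μ : Ed ι t → τm → τp)
    (e : τp ⊕ τm → ι → K → F) (a : τm × Ed ι t) (b : Bool) (i : ι) : F :=
  match b with
  | true => e (.inl (μ a.2 a.1)) i (sh s (sp a.2) i)
  | false => e (.inr a.1) i (sh s (sp a.2) i)

/-- The active slots of the second round. -/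
def cfAct (s : ι → K) (sp : Ed ι t → Fin t → K) (I : Ed ι t) :
    Bool × (Fin t → K) × Ed ι t → Prop
  | (false, h, J) => h ≠ sp I ∧ ∃ i ∈ J.1, sh s h i ≠ 0
  | (true, h, _) => h ≠ 0

/-- The labels used by a slot of the second round. -/
def cfLab (s : ι → K) (sp : Ed ι t → Fin t → K) (I : Ed ι t) :
    Bool × (Fin t → K) × Ed ι t → ι → Bool × K
  | (false, h, _) => fun i => (false, sh s h i)
  | (true, h, _) => fun i => lab (sh s (sp I) i) (ev s h i)

/-- The two common points differ outside the shared edge. -/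
theorem cf_root_ne (ht : 1 ≤ t) {τp τm : Type} {s : ι → K} (hs : Injective s)
    (sp : Ed ι t → Fin t → K) (hsp : ∀ (I : Ed ι t) i, sh s (sp I) i = 0 ↔ i ∈ I.1)
    (g : τp ⊕ τm → ι → F) (μ : Ed ι t → τm → τp)
    (hμ' : ∀ I ν, Ag I.1 (g (.inl (μ I ν))) (g (.inr ν)))
    {A : ι → Finset F} {B R : Finset (Fin t → F)} (e : τp ⊕ τm → ι → K → F)
    (χ : τp ⊕ τm → Finset ι → (ι → K) → Fin t → F) (he : ∀ a i, e a i 0 = g a i)
    (hslot : ∀ a J c, J.card = t → (∃ i ∈ J, c i ≠ 0) →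
      Slot s A B R J (fun i => e a i (c i)) (χ a J c))
    (hinj : ∀ a J c a' J' c', J.card = t → (∃ i ∈ J, c i ≠ 0) → J'.card = t →
      (∃ i ∈ J', c' i ≠ 0) → χ a J c = χ a' J' c' → a = a' ∧ J = J' ∧ Ag J c c')
    (a : τm × Ed ι t) (i : ι) (hi : i ∉ a.2.1) :
    cfRoot s sp μ e a false i ≠ cfRoot s sp μ e a true i := by
  intro heq
  obtain ⟨ν, I⟩ := a
  obtain ⟨i₀, hi₀⟩ : I.1.Nonempty := card_pos.1 (by rw [I.2]; omega)
  have hJ : (insert i (I.1.erase i₀)).card = t := by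
    rw [card_insert_of_notMem fun h => hi (mem_of_mem_erase h), card_erase_of_mem hi₀, I.2]
    omega
  have hu : ∃ j ∈ insert i (I.1.erase i₀), sh s (sp I) j ≠ 0 :=
    ⟨i, mem_insert_self _ _, fun h => hi ((hsp I i).1 h)⟩
  have h1 := hslot (.inr ν) _ _ hJ hu
  have h2 := hslot (.inl (μ I ν)) _ _ hJ hu
  have h3 : χ (.inr ν) (insert i (I.1.erase i₀)) (sh s (sp I)) =
      χ (.inl (μ I ν)) (insert i (I.1.erase i₀)) (sh s (sp I)) := by
    refine ev_ext hs hJ fun j hj => ?_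
    rw [h1.1 j hj, h2.1 j hj]
    rcases mem_insert.1 hj with rfl | hj'
    · exact heq
    · have hjI := mem_of_mem_erase hj'
      simp only [(hsp I j).2 hjI, he]
      exact (hμ' I ν j hjI).symm
  exact Sum.inr_ne_inl (hinj _ _ _ _ _ _ hJ hu hJ hu h3).1

/-- Slots of the two different boxes never have the same labels. -/
theorem cf_mixed {τp τm : Type} {s : ι → K} (hs : Injective s)
    (sp : Ed ι t → Fin t → K) (hsp : ∀ (I : Ed ι t) i, sh s (sp I) i = 0 ↔ i ∈ I.1)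
    (μ : Ed ι t → τm → τp) (e : τp ⊕ τm → ι → K → F) (a : τm × Ed ι t)
    (hne : ∀ i, i ∉ a.2.1 → cfRoot s sp μ e a false i ≠ cfRoot s sp μ e a true i)
    {h h' : Fin t → K} {J : Finset ι} (hJ : J.card = t)
    (hc : ∀ i ∈ J, (false, sh s h i) = lab (sh s (sp a.2) i) (ev s h' i) ∨
      (sh s h i = 0 ∧ cfRoot s sp μ e a false i = cfRoot s sp μ e a true i)) : h = sp a.2 := by
  refine cf_sh_ext hs hJ fun i hi => ?_
  rcases hc i hi with h1 | h1
  · exact cf_lab_false h1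
  · by_cases hiI : i ∈ a.2.1
    · rw [h1.1, (hsp a.2 i).2 hiI]
    · exact absurd h1.2 (hne i hiI)

/-- Second round: two glued boxes of new points for every negative row and every edge. -/
theorem cf_round2 (ht : 1 ≤ t) {τp τm : Type} [Fintype τp] [Fintype τm] {s : ι → K}
    (hs : Injective s) (hk : t ≤ Fintype.card ι) (sp : Ed ι t → Fin t → K)
    (hsp : ∀ (I : Ed ι t) i, sh s (sp I) i = 0 ↔ i ∈ I.1) (g : τp ⊕ τm → ι → F)
    (μ : Ed ι t → τm → τp) (hμ : ∀ I, Injective (μ I))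
    (hμ' : ∀ I ν, Ag I.1 (g (.inl (μ I ν))) (g (.inr ν))) (D q : ℕ)
    (h3 : ∀ J : Finset ι, J.card + 1 = t → ∀ y, (univ.filter fun a => Ag J (g a) y).card ≤ D)
    (A : ι → Finset F) (B R : Finset (Fin t → F)) (β Λ G : ℕ)
    (hA : ∀ i, Fintype.card F ≤ (A i).card + β) (hB : LB K B β) (hR : LB K R q)
    (e : τp ⊕ τm → ι → K → F)
    (χ : τp ⊕ τm → Finset ι → (ι → K) → Fin t → F) (he : ∀ a i, e a i 0 = g a i)
    (hslot : ∀ a J c, J.card = t → (∃ i ∈ J, c i ≠ 0) →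
      Slot s A B R J (fun i => e a i (c i)) (χ a J c))
    (hinj : ∀ a J c a' J' c', J.card = t → (∃ i ∈ J, c i ≠ 0) → J'.card = t →
      (∃ i ∈ J', c' i ≠ 0) → χ a J c = χ a' J' c' → a = a' ∧ J = J' ∧ Ag J c c')
    (hΛ : (Fintype.card F * Fintype.card K) ^ t ≤ 2 ^ Λ)
    (hS : 2 * (Fintype.card K ^ t * Fintype.card ι ^ t) ≤ G) (hL : 2 * Fintype.card K ≤ G)
    (hι : Fintype.card ι + 1 ≤ G)
    (hN : 12 * G ^ (t + 2) * (β + q + G * (D + q) + Λ + 1) ≤ Fintype.card F) :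
    ∃ (b : τm × Ed ι t → ι → Bool × K → F)
      (φ : τm × Ed ι t → Bool × (Fin t → K) × Ed ι t → Fin t → F) (R' : Finset (Fin t → F)),
      LB K R' (3 * G ^ (t + 1) * (G * (D + q) + Λ)) ∧
      (∀ a i c, b a i (c, 0) = cfRoot s sp μ e a c i) ∧ (∀ a i l, l.2 ≠ 0 → b a i l ∈ A i) ∧
      (∀ a σ, cfAct s sp a.2 σ →
        Slot s A (B ∪ R) R' σ.2.2.1 (fun i => b a i (cfLab s sp a.2 σ i)) (φ a σ)) ∧
      ∀ a σ a' σ', cfAct s sp a.2 σ → cfAct s sp a'.2 σ' → φ a σ = φ a' σ' →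
        a = a' ∧ σ = σ' := by
  classical
  have hne := cf_root_ne ht hs sp hsp g μ hμ' e χ he hslot hinj
  have hK : 1 ≤ Fintype.card K ^ t := Nat.one_le_pow _ _ Fintype.card_pos
  have hE : Fintype.card (Ed ι t) ≤ G := by
    have h1 := card_ed ι t
    have h2 : Fintype.card ι ^ t ≤ Fintype.card K ^ t * Fintype.card ι ^ t :=
      Nat.le_mul_of_pos_left _ hK
    omega
  have hcard : Fintype.card (Bool × (Fin t → K) × Ed ι t) ≤ G := by
    rw [Fintype.card_prod, Fintype.card_prod, Fintype.card_fun, Fintype.card_fin,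
      Fintype.card_bool]
    exact (Nat.mul_le_mul_left _ (Nat.mul_le_mul_left _ (card_ed ι t))).trans hS
  have hcardL : Fintype.card (Bool × K) ≤ G := by
    rw [Fintype.card_prod, Fintype.card_bool]
    exact hL
  have hcount : ∀ (c : Bool) (J : Finset ι), J.card + 1 = t → ∀ y,
      (univ.filter fun a : τm × Ed ι t => Ag J (cfRoot s sp μ e a c) y).card ≤ G * (D + q) := by
    intro c J hJ y
    have h1 : ∀ I : Ed ι t,
        (univ.filter fun ν : τm => Ag J (cfRoot s sp μ e (ν, I) c) y).card ≤ D + q := by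
      intro I
      cases c
      · exact cf_count hs hk g D q h3 hR e χ he hslot hinj Sum.inr Sum.inr_injective
          (sh s (sp I)) hJ y
      · exact cf_count hs hk g D q h3 hR e χ he hslot hinj (fun ν => Sum.inl (μ I ν))
          (Sum.inl_injective.comp (hμ I)) (sh s (sp I)) hJ y
    calc (univ.filter fun a : τm × Ed ι t => Ag J (cfRoot s sp μ e a c) y).card
        = ∑ I : Ed ι t, (univ.filter fun ν : τm => Ag J (cfRoot s sp μ e (ν, I) c) y).card := by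
          simp only [card_filter]
          rw [Fintype.sum_prod_type_right]
      _ ≤ ∑ _I : Ed ι t, (D + q) := sum_le_sum fun I _ => h1 I
      _ ≤ G * (D + q) := by
          rw [sum_const, card_univ, smul_eq_mul]
          exact Nat.mul_le_mul_right _ hE
  obtain ⟨b, φ, R', hR', hroot, hfresh, hslot', hinj'⟩ :=
    fresh (τ := τm × Ed ι t) (S := Bool × (Fin t → K) × Ed ι t) (L := Bool × K) hs hk
      (fun _ _ l => l.2 = 0) (fun a i l => cfRoot s sp μ e a l.1 i)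
      (fun a σ => cfAct s sp a.2 σ) (fun _ σ => σ.2.2.1) (fun a σ => cfLab s sp a.2 σ)
      (fun a σ => cfRoot s sp μ e a σ.1) (fun _ σ _ => σ.2.2.2)
      (by
        rintro a ⟨c, h, J⟩ hact
        cases c
        · exact hact.2
        · obtain ⟨i, hi, h1⟩ := cf_ev_ne hs J.2 hact
          exact ⟨i, hi, by simpa only [cfLab, cf_lab_snd] using h1⟩)
      (by
        rintro a ⟨c, h, J⟩ ⟨c', h', J'⟩ hact hact' hI hc
        have hJJ : J = J' := Subtype.ext hI
        subst hJJ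
        cases c <;> cases c'
        · have h1 : h = h' := by
            refine cf_sh_ext hs J.2 fun i hi => ?_
            rcases hc i hi with h1 | h1
            · exact congrArg Prod.snd h1.2
            · exact h1.1.trans h1.2.1.symm
          rw [h1]
        · exfalso
          refine hact.1 (cf_mixed (h' := h') hs sp hsp μ e a (hne a) J.2 fun i hi => ?_)
          rcases hc i hi with h1 | h1
          · exact Or.inl h1.2
          · refine Or.inr ⟨h1.1, ?_⟩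
            have h2 : ev s h' i = 0 := by simpa only [cfLab, cf_lab_snd] using h1.2.1
            simpa only [cfLab, h2, cf_lab_zero] using h1.2.2
        · exfalso
          refine hact'.1 (cf_mixed (h' := h) hs sp hsp μ e a (hne a) J.2 fun i hi => ?_)
          rcases hc i hi with h1 | h1
          · exact Or.inl h1.2.symm
          · refine Or.inr ⟨h1.2.1, ?_⟩
            have h2 : ev s h i = 0 := by simpa only [cfLab, cf_lab_snd] using h1.1
            simpa only [cfLab, h2, cf_lab_zero] using h1.2.2.symm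
        · have h1 : h = h' := by
            refine ev_ext hs J.2 fun i hi => ?_
            rcases hc i hi with h1 | h1
            · simpa only [cfLab, cf_lab_snd] using congrArg Prod.snd h1.2
            · have h2 : ev s h i = 0 := by simpa only [cfLab, cf_lab_snd] using h1.1
              have h3 : ev s h' i = 0 := by simpa only [cfLab, cf_lab_snd] using h1.2.1
              rw [h2, h3]
          rw [h1])
      (by
        rintro a ⟨c, h, J⟩ _ i _ hr
        cases c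
        · rfl
        · have h2 : ev s h i = 0 := by simpa only [cfLab, cf_lab_snd] using hr
          simp only [cfLab, h2, cf_lab_zero])
      (G * (D + q)) (fun σ J hJ y => hcount σ.1 J hJ y) A (B ∪ R) (β + q) Λ G
      (fun i => (hA i).trans (by omega)) (hB.union hR) hΛ hcard hcardL hι hN
  exact ⟨b, φ, R', hR', fun a i c => hroot a i (c, 0) rfl, fun a i l hl => hfresh a i l hl,
    hslot', hinj'⟩

/-- The template row assigned to an edge of a negative row. -/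
noncomputable def cfPsi {τp τm : Type} (s : ι → K) (sp : Ed ι t → Fin t → K)
    (χ : τp ⊕ τm → Finset ι → (ι → K) → Fin t → F)
    (φ : τm × Ed ι t → Bool × (Fin t → K) × Ed ι t → Fin t → F) :
    NegIx K ι τp τm t → Ed ι t → Fin t → F
  | .inl (a, h), J => χ (.inl a) J.1 (ev s h)
  | .inr (.inl (ν, h)), J => χ (.inr ν) J.1 (sh s h)
  | .inr (.inr (.inl (a, h))), J =>
      if ∃ i ∈ J.1, sh s h i ≠ 0 then φ a (false, h, J) else χ (.inr a.1) J.1 (sh s (sp a.2))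
  | .inr (.inr (.inr (a, h))), J => φ a (true, h, J)

/-- The edges served by the first round. -/
def cfOne {τp τm : Type} (s : ι → K) (sp : Ed ι t → Fin t → K) :
    NegIx K ι τp τm t → Ed ι t → τp ⊕ τm → (ι → K) → Prop
  | .inl (a, h), _, a', c => a' = .inl a ∧ c = ev s h
  | .inr (.inl (ν, h)), _, a', c => a' = .inr ν ∧ c = sh s h
  | .inr (.inr (.inl (a, h))), J, a', c =>
      a' = .inr a.1 ∧ c = sh s (sp a.2) ∧ ∀ i ∈ J.1, sh s h i = 0
  | .inr (.inr (.inr _)), _, _, _ => False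

/-- The edges served by the second round. -/
def cfTwo {τp τm : Type} : NegIx K ι τp τm t → τm × Ed ι t → Bool → (Fin t → K) → Prop
  | .inl _, _, _, _ => False
  | .inr (.inl _), _, _, _ => False
  | .inr (.inr (.inl x)), a, c, h => x = (a, h) ∧ c = false
  | .inr (.inr (.inr x)), a, c, h => x = (a, h) ∧ c = true

theorem cf_two_inj {τp τm : Type} {γ γ' : NegIx K ι τp τm t} {a : τm × Ed ι t} {c : Bool}
    {h : Fin t → K} (h1 : cfTwo γ a c h) (h2 : cfTwo γ' a c h) : γ = γ' := by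
  rcases γ with _ | _ | x | x <;> rcases γ' with _ | _ | x' | x' <;>
    simp only [cfTwo] at h1 h2
  · rw [h1.1, h2.1]
  · exact absurd (h1.2.symm.trans h2.2) (by simp)
  · exact absurd (h1.2.symm.trans h2.2) (by simp)
  · rw [h1.1, h2.1]

theorem cf_one_inj {τp τm : Type} {s : ι → K} (hs : Injective s) (sp : Ed ι t → Fin t → K)
    (hsp : ∀ (I : Ed ι t) i, sh s (sp I) i = 0 ↔ i ∈ I.1) {γ γ' : NegIx K ι τp τm t}
    (hγ : negAct sp γ) (hγ' : negAct sp γ') {J : Ed ι t} {a : τp ⊕ τm} {c c' : ι → K}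
    (h1 : cfOne s sp γ J a c) (h2 : cfOne s sp γ' J a c') (hc : Ag J.1 c c') : γ = γ' := by
  rcases γ with ⟨x, h⟩ | ⟨x, h⟩ | ⟨x, h⟩ | _ <;>
    rcases γ' with ⟨x', h'⟩ | ⟨x', h'⟩ | ⟨x', h'⟩ | _ <;>
    simp only [cfOne, negAct] at h1 h2 hγ hγ'
  · obtain ⟨rfl, rfl⟩ := h1
    obtain ⟨h3, rfl⟩ := h2
    rw [Sum.inl_injective h3, ev_ext hs J.2 hc]
  · exact absurd (h1.1.symm.trans h2.1) Sum.inl_ne_inr
  · exact absurd (h1.1.symm.trans h2.1) Sum.inl_ne_inr
  · exact absurd (h1.1.symm.trans h2.1) Sum.inr_ne_inl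
  · obtain ⟨rfl, rfl⟩ := h1
    obtain ⟨h3, rfl⟩ := h2
    rw [Sum.inr_injective h3, cf_sh_ext hs J.2 hc]
  · obtain ⟨rfl, rfl⟩ := h1
    obtain ⟨_, rfl, _⟩ := h2
    exact absurd (cf_sh_ext hs J.2 hc) (hγ _)
  · exact absurd (h1.1.symm.trans h2.1) Sum.inr_ne_inl
  · obtain ⟨rfl, rfl, _⟩ := h1
    obtain ⟨_, rfl⟩ := h2
    exact absurd (cf_sh_ext hs J.2 hc).symm (hγ' _)
  · obtain ⟨rfl, rfl, h4⟩ := h1
    obtain ⟨h3, rfl, h5⟩ := h2
    have h6 : sp x.2 = sp x'.2 := cf_sh_ext hs J.2 hc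
    have h7 : x.2 = x'.2 := by
      refine Subtype.ext (Finset.ext fun i => ?_)
      rw [← hsp, ← hsp, h6]
    have h8 : h = h' := cf_sh_ext hs J.2 fun i hi => by rw [h4 i hi, h5 i hi]
    rw [Prod.ext (Sum.inr_injective h3) h7, h8]

/-- Every edge of an active negative row is served by one of the two rounds. -/
theorem cf_cases {τp τm : Type} {s : ι → K} (hs : Injective s) (sp : Ed ι t → Fin t → K)
    (hsp : ∀ (I : Ed ι t) i, sh s (sp I) i = 0 ↔ i ∈ I.1) (μ : Ed ι t → τm → τp)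
    (e : τp ⊕ τm → ι → K → F) (b : τm × Ed ι t → ι → Bool × K → F)
    (hb : ∀ a i c, b a i (c, 0) = cfRoot s sp μ e a c i)
    (χ : τp ⊕ τm → Finset ι → (ι → K) → Fin t → F)
    (φ : τm × Ed ι t → Bool × (Fin t → K) × Ed ι t → Fin t → F) (γ : NegIx K ι τp τm t)
    (hγ : negAct sp γ) (J : Ed ι t) :
    (∃ a c, cfOne s sp γ J a c ∧ (∃ i ∈ J.1, c i ≠ 0) ∧ cfPsi s sp χ φ γ J = χ a J.1 c ∧
      ∀ i ∈ J.1, e a i (c i) = negRow s sp e b γ i) ∨
    (∃ a c h, cfTwo γ a c h ∧ cfAct s sp a.2 (c, h, J) ∧ cfPsi s sp χ φ γ J = φ a (c, h, J) ∧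
      ∀ i ∈ J.1, b a i (cfLab s sp a.2 (c, h, J) i) = negRow s sp e b γ i) := by
  rcases γ with ⟨x, h⟩ | ⟨x, h⟩ | ⟨x, h⟩ | ⟨x, h⟩
  · exact Or.inl ⟨.inl x, ev s h, ⟨rfl, rfl⟩, cf_ev_ne hs J.2 hγ, rfl, fun _ _ => rfl⟩
  · refine Or.inl ⟨.inr x, sh s h, ⟨rfl, rfl⟩, ?_, rfl, fun _ _ => rfl⟩
    by_contra hcon
    push Not at hcon
    exact hγ J (cf_sh_ext hs J.2 fun i hi => by rw [hcon i hi, (hsp J i).2 hi])
  · by_cases hh : ∃ i ∈ J.1, sh s h i ≠ 0
    · exact Or.inr ⟨x, false, h, ⟨rfl, rfl⟩, ⟨hγ, hh⟩, if_pos hh, fun _ _ => rfl⟩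
    · have hh' : ∀ i ∈ J.1, sh s h i = 0 := by
        intro i hi
        by_contra hcon
        exact hh ⟨i, hi, hcon⟩
      refine Or.inl ⟨.inr x.1, sh s (sp x.2), ⟨rfl, rfl, hh'⟩, ?_, if_neg hh, fun i hi => ?_⟩
      · by_contra hcon
        push Not at hcon
        exact hγ (cf_sh_ext hs J.2 fun i hi => by rw [hcon i hi, hh' i hi])
      · simp only [negRow, hh' i hi, hb, cfRoot]
  · exact Or.inr ⟨x, true, h, ⟨rfl, rfl⟩, hγ, rfl, fun _ _ => rfl⟩

theorem cf_num1 {G t β D Λ : ℕ} (hG : 1 ≤ G) :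
    12 * G ^ (t + 2) * (β + D + Λ + 1) ≤ 100 * G ^ (2 * t + 4) * (β + D + Λ + 1) :=
  Nat.mul_le_mul_right _ (Nat.mul_le_mul (by norm_num) (Nat.pow_le_pow_right hG (by omega)))

theorem cf_num2 {G t β D Λ : ℕ} (hG : 1 ≤ G) :
    12 * G ^ (t + 2) * (β + 3 * G ^ (t + 1) * (D + Λ) + G * (D + 3 * G ^ (t + 1) * (D + Λ)) +
      Λ + 1) ≤ 100 * G ^ (2 * t + 4) * (β + D + Λ + 1) := by
  set X := β + D + Λ + 1 with hX
  set P := G ^ (t + 2) with hP
  have h1 : G ^ (t + 1) ≤ P := Nat.pow_le_pow_right hG (by omega)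
  have h2 : G ≤ P := Nat.le_self_pow (by omega) G
  have h3 : G * G ^ (t + 1) = P := by rw [hP]; ring
  have h4 : G ^ (2 * t + 4) = P * P := by rw [hP]; ring
  have h5 : 3 * G ^ (t + 1) * (D + Λ) ≤ 3 * (P * X) := by
    rw [mul_assoc]
    exact Nat.mul_le_mul_left _ (Nat.mul_le_mul h1 (by omega))
  have h6 : G * (D + 3 * G ^ (t + 1) * (D + Λ)) ≤ P * X + 3 * (P * X) := by
    have h7 : G * (D + 3 * G ^ (t + 1) * (D + Λ)) = G * D + 3 * (P * (D + Λ)) := by
      rw [← h3]; ring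
    have h8 : G * D ≤ P * X := Nat.mul_le_mul h2 (by omega)
    have h9 : P * (D + Λ) ≤ P * X := Nat.mul_le_mul_left _ (by omega)
    omega
  have h7 : X ≤ P * X := Nat.le_mul_of_pos_left _ (by omega)
  calc 12 * P * (β + 3 * G ^ (t + 1) * (D + Λ) + G * (D + 3 * G ^ (t + 1) * (D + Λ)) + Λ + 1)
      ≤ 12 * P * (8 * (P * X)) := Nat.mul_le_mul_left _ (by omega)
    _ = 96 * (P * P * X) := by ring
    _ ≤ 100 * (P * P * X) := Nat.mul_le_mul_right _ (by norm_num)
    _ = 100 * G ^ (2 * t + 4) * X := by rw [h4]; ring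

theorem cf_num3 {G t D Λ : ℕ} (hG : 1 ≤ G) :
    3 * G ^ (t + 1) * (D + Λ) + 3 * G ^ (t + 1) * (G * (D + 3 * G ^ (t + 1) * (D + Λ)) + Λ) ≤
      20 * G ^ (2 * t + 3) * (D + Λ) := by
  set X := D + Λ with hX
  set P := G ^ (t + 1) with hP
  have hP1 : 1 ≤ P := Nat.one_le_pow _ _ hG
  have h4 : G ^ (2 * t + 3) = G * P * P := by rw [hP]; ring
  have h1 : X ≤ G * P * X := Nat.le_mul_of_pos_left _ (Nat.mul_pos hG hP1)
  have h2 : G * D ≤ G * P * X := by
    rw [mul_assoc]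
    exact Nat.mul_le_mul_left _ (le_trans (by omega) (Nat.le_mul_of_pos_left X hP1))
  have h3 : G * (D + 3 * P * X) = G * D + 3 * (G * P * X) := by ring
  calc 3 * P * X + 3 * P * (G * (D + 3 * P * X) + Λ)
      = 3 * P * (X + (G * (D + 3 * P * X) + Λ)) := by ring
    _ ≤ 3 * P * (6 * (G * P * X)) := Nat.mul_le_mul_left _ (by omega)
    _ = 18 * (G * P * P * X) := by ring
    _ ≤ 20 * (G * P * P * X) := Nat.mul_le_mul_right _ (by norm_num)
    _ = 20 * G ^ (2 * t + 3) * X := by rw [h4]; ring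

/-- Both rounds: every edge of a remaining negative row gets its own good template row. -/
theorem cleanF (ht : 1 ≤ t) {τp τm : Type} [Fintype τp] [Fintype τm] {s : ι → K}
    (hs : Injective s) (hk : t ≤ Fintype.card ι) (sp : Ed ι t → Fin t → K)
    (hsp : ∀ (I : Ed ι t) i, sh s (sp I) i = 0 ↔ i ∈ I.1) (g : τp ⊕ τm → ι → F)
    (μ : Ed ι t → τm → τp) (hμ : ∀ I, Injective (μ I))
    (hμ' : ∀ I ν, Ag I.1 (g (.inl (μ I ν))) (g (.inr ν))) (D : ℕ)
    (h3 : ∀ J : Finset ι, J.card + 1 = t → ∀ y, (univ.filter fun a => Ag J (g a) y).card ≤ D)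
    (A : ι → Finset F) (B : Finset (Fin t → F)) (β Λ G : ℕ)
    (hA : ∀ i, Fintype.card F ≤ (A i).card + β) (hB : LB K B β)
    (hΛ : (Fintype.card F * Fintype.card K) ^ t ≤ 2 ^ Λ)
    (hS : 2 * (Fintype.card K ^ t * Fintype.card ι ^ t) ≤ G) (hL : 2 * Fintype.card K ≤ G)
    (hι : Fintype.card ι + 1 ≤ G)
    (hN : 100 * G ^ (2 * t + 4) * (β + D + Λ + 1) ≤ Fintype.card F) :
    ∃ (e : τp ⊕ τm → ι → K → F) (b : τm × Ed ι t → ι → Bool × K → F)
      (ψ : NegIx K ι τp τm t → Finset ι → Fin t → F) (R : Finset (Fin t → F)),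
      LB K R (20 * G ^ (2 * t + 3) * (D + Λ)) ∧ (∀ a i, e a i 0 = g a i) ∧
      (∀ a i l, l ≠ 0 → e a i l ∈ A i) ∧
      (∀ a i, b a i (false, 0) = e (.inr a.1) i (sh s (sp a.2) i)) ∧
      (∀ a i, b a i (true, 0) = e (.inl (μ a.2 a.1)) i (sh s (sp a.2) i)) ∧
      (∀ a i l, l.2 ≠ 0 → b a i l ∈ A i) ∧
      (∀ γ J, negAct sp γ → J.card = t → Slot s A B R J (negRow s sp e b γ) (ψ γ J)) ∧
      ∀ γ J γ' J', negAct sp γ → J.card = t → negAct sp γ' → J'.card = t →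
        ψ γ J = ψ γ' J' → γ = γ' ∧ J = J' := by
  have hG : 1 ≤ G := by omega
  obtain ⟨e, χ, R₁, hR₁, he, heA, hslot, hinj⟩ := round1 hs hk g D h3 A B β Λ G hA hB hΛ
    (by omega) (by omega) hι ((cf_num1 hG).trans hN)
  obtain ⟨b, φ, R₂, hR₂, hb, hbA, hslot', hinj'⟩ := cf_round2 ht hs hk sp hsp g μ hμ hμ' D _ h3
    A B R₁ β Λ G hA hB hR₁ e χ he hslot hinj hΛ hS hL hι ((cf_num2 hG).trans hN)
  have hcases := cf_cases hs sp hsp μ e b hb χ φ
  refine ⟨e, b, fun γ J => if hJ : J.card = t then cfPsi s sp χ φ γ ⟨J, hJ⟩ else 0, R₁ ∪ R₂,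
    (hR₁.union hR₂).mono (cf_num3 hG), he, heA, fun a i => hb a i false,
    fun a i => hb a i true, hbA, ?_, ?_⟩
  · intro γ J hγ hJ
    simp only [dif_pos hJ]
    rcases hcases γ hγ ⟨J, hJ⟩ with ⟨a, c, _, hc, hψ, hrow⟩ | ⟨a, c, h, _, hact, hψ, hrow⟩
    · rw [hψ]
      exact cf_slot_mono (hslot a J c hJ hc) Subset.rfl subset_union_left hrow
    · rw [hψ]
      exact cf_slot_mono (hslot' a _ hact) subset_union_left subset_union_right hrow
  · intro γ J γ' J' hγ hJ hγ' hJ' heq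
    simp only [dif_pos hJ, dif_pos hJ'] at heq
    rcases hcases γ hγ ⟨J, hJ⟩ with ⟨a, c, h1, hc, hψ, -⟩ | ⟨a, c, h, h1, hact, hψ, -⟩ <;>
      rcases hcases γ' hγ' ⟨J', hJ'⟩ with
        ⟨a', c', h1', hc', hψ', -⟩ | ⟨a', c', h', h1', hact', hψ', -⟩ <;>
      rw [hψ, hψ'] at heq
    · obtain ⟨rfl, h2, h4⟩ := hinj _ _ _ _ _ _ hJ hc hJ' hc' heq
      have h2' : J = J' := h2
      subst h2'
      exact ⟨cf_one_inj hs sp hsp hγ hγ' h1 h1' h4, rfl⟩
    · exfalso
      refine (hslot' a' _ hact').2.2.1 (mem_union_right _ ?_)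
      rw [← heq]
      exact (hslot a J c hJ hc).2.1
    · exfalso
      refine (hslot' a _ hact).2.2.1 (mem_union_right _ ?_)
      rw [heq]
      exact (hslot a' J' c' hJ' hc').2.1
    · obtain ⟨rfl, h2⟩ := hinj' _ _ _ _ hact hact' heq
      simp only [Prod.mk.injEq, Subtype.mk.injEq] at h2
      obtain ⟨rfl, rfl, rfl⟩ := h2
      exact ⟨cf_two_inj h1 h1', rfl⟩

end Pool.Agent.Lib.MP_deca50_lc.CES
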