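import Mathlib

/-!
Definitions for the construction of orthogonal arrays of arbitrary strength by absorption.
-/

open Finset Function

namespace Pool.Agent.Lib.MP_deca50_lc.CES

/-- The rows `z` and `y` agree on the columns in `I`. -/
def Ag {ι Y : Type} (I : Finset ι) (z y : ι → Y) : Prop := ∀ i ∈ I, z i = y i

instance {ι Y : Type} [DecidableEq Y] (I : Finset ι) (z y : ι → Y) : Decidable (Ag I z y) :=
  inferInstanceAs (Decidable (∀ i ∈ I, z i = y i))

/-- An orthogonal array of strength `t` and index one with symbol set `A i` in column `i`. -/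
def IsOA {ι Y : Type} (t : ℕ) (A : ι → Finset Y) (T : Finset (ι → Y)) : Prop :=
  (∀ z ∈ T, ∀ i, z i ∈ A i) ∧ ∀ I : Finset ι, I.card = t → ∀ y : ι → Y, (∀ i ∈ I, y i ∈ A i) →
    ∃! z, z ∈ T ∧ Ag I z y

/-- An indexed orthogonal array of strength `t` and index one on the full symbol type. -/
def IsFam {ι Y H : Type} (t : ℕ) (x : H → ι → Y) : Prop :=
  ∀ I : Finset ι, I.card = t → ∀ y : ι → Y, ∃! h, Ag I (x h) y

/-- The function `Φ` vanishes outside the box `A`. -/
def Supp {ι Y : Type} (A : ι → Finset Y) (Φ : (ι → Y) → ℤ) : Prop :=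
  ∀ z, Φ z ≠ 0 → ∀ i, z i ∈ A i

section Arrays

variable {ι Y : Type} [Fintype ι] [DecidableEq ι] [Fintype Y] [DecidableEq Y]

/-- The signed number of rows that agree with `y` on `I`. -/
def marg (I : Finset ι) (Φ : (ι → Y) → ℤ) (y : ι → Y) : ℤ :=
  ∑ z, if Ag I z y then Φ z else 0

/-- The total number of rows that agree with `y` on `I`. -/
noncomputable def mass (I : Finset ι) (Φ : (ι → Y) → ℤ) (y : ι → Y) : ℝ :=
  ∑ z, if Ag I z y then |(Φ z : ℝ)| else 0

/-- The indicator of one row. -/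
def dl (g : ι → Y) : (ι → Y) → ℤ := fun z => if z = g then 1 else 0

/-- All line sums in the directions of `J` vanish. -/
def Null (J : Finset ι) (h : (ι → Y) → ℤ) : Prop :=
  ∀ j ∈ J, ∀ y, ∑ x, h (update y j x) = 0

/-- The absolute line sum in direction `j`. -/
noncomputable def lmass (j : ι) (h : (ι → Y) → ℤ) (y : ι → Y) : ℝ :=
  ∑ x, |(h (update y j x) : ℝ)|

/-- A null function on the box `D` with values at most `B` and line density at most `ρ`. -/
def Inp (J : Finset ι) (D : ι → Finset Y) (h : (ι → Y) → ℤ) (B ρ : ℝ) : Prop :=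
  Supp D h ∧ Null J h ∧ (∀ y, |(h y : ℝ)| ≤ B) ∧ ∀ i ∈ J, ∀ y, lmass i h y ≤ ρ * (D i).card

/-- `h` is a sum of null pieces of size at most `G`, with load at most `P` at each point and
load density at most `Q` on each line. -/
def Dec (J : Finset ι) (D : ι → Finset Y) (h : (ι → Y) → ℤ) (G P Q : ℝ) : Prop :=
  ∃ (τ : Type) (_ : Fintype τ) (g : τ → (ι → Y) → ℤ),
    (∀ y, h y = ∑ b, g b y) ∧ (∀ b, Supp D (g b)) ∧ (∀ b, Null J (g b)) ∧
    (∀ b, ∑ y, |(g b y : ℝ)| ≤ G) ∧ (∀ y, ∑ b, |(g b y : ℝ)| ≤ P) ∧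
    ∀ j ∈ J, ∀ y, ∑ b, lmass j (g b) y ≤ Q * (D j).card

variable (Y) in
/-- Every bounded null function splits into small pieces with loss `C`. -/
def WProp (J : Finset ι) (C : ℝ) : Prop :=
  ∀ (D : ι → Finset Y) (h : (ι → Y) → ℤ) (B : ℝ), 0 ≤ B → Supp D h → Null J h →
    (∀ y, |(h y : ℝ)| ≤ B) → Dec J D h (2 ^ J.card) (C * B) (C * B)

variable (ι Y) in
/-- The parameter `Λ` dominates all logarithms. -/
def Big (Λ : ℕ) : Prop :=
  2 ≤ Λ ∧ Fintype.card ι ≤ Λ ∧ Fintype.card Y ≤ 2 ^ Λ ∧
    8 * 2 ^ Fintype.card ι * Fintype.card Y ^ Fintype.card ι ≤ 2 ^ Λ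

end Arrays

/-- The box with the sets `A i` for `i` in `J` and one dummy symbol elsewhere. -/
def box {ι Y : Type} [DecidableEq ι] (A : ι → Finset Y) (x₀ : Y) (J : Finset ι) : ι → Finset Y :=
  fun i => if i ∈ J then A i else {x₀}

/-- Reset the columns outside `J` to the dummy symbol. -/
def res {ι Y : Type} [DecidableEq ι] (x₀ : Y) (J : Finset ι) (y : ι → Y) : ι → Y :=
  fun i => if i ∈ J then y i else x₀

section Linear

variable {K M ι : Type} [CommRing K] [AddCommGroup M] [Module K M] {t : ℕ}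

/-- Evaluation at `s i` of the polynomial with coefficients `φ`. -/
def ev (s : ι → K) (φ : Fin t → M) (i : ι) : M := ∑ j : Fin t, s i ^ (j : ℕ) • φ j

/-- Evaluation at `s i` of the monic polynomial of degree `t` with lower coefficients `h`. -/
def sh (s : ι → K) (h : Fin t → K) (i : ι) : K := ev s h i + s i ^ t

/-- The point with parameter `z` of the rational line through `φ` with direction `π`. -/
def ln (φ : Fin t → M) (π : Fin t → K) (z : M) : Fin t → M := fun j => φ j + π j • z

variable (K) in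
/-- The set `S` has at most `q` points on each rational line. -/
def LB [Fintype M] [DecidableEq M] (S : Finset (Fin t → M)) (q : ℕ) : Prop :=
  ∀ (φ : Fin t → M) (π : Fin t → K), π ≠ 0 → (univ.filter fun z => ln φ π z ∈ S).card ≤ q

/-- The template row `φ` passes through `x` on `J`, lies in `R` and not in `B`, and has its other
entries in `A`. -/
def Slot (s : ι → K) (A : ι → Finset M) (B R : Finset (Fin t → M)) (J : Finset ι) (x : ι → M)
    (φ : Fin t → M) : Prop :=
  (∀ i ∈ J, ev s φ i = x i) ∧ φ ∈ R ∧ φ ∉ B ∧ ∀ i, i ∉ J → ev s φ i ∈ A i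

/-- The template rows used by the absorber. -/
def foot [Fintype ι] (s : ι → K) (g : ι → M) (P : Fin t → M) (π : ι → Fin t → K) : Fin t → M :=
  fun l => P l + ∑ j, π j l • (g j - ev s P j)

end Linear

/-- Sets of `t` columns. -/
abbrev Ed (ι : Type) (t : ℕ) : Type := {I : Finset ι // I.card = t}

/-- The label in the second box of the position `x`, glued to the first box at `u`. -/
def lab {K : Type} [Zero K] [DecidableEq K] (u x : K) : Bool × K :=
  if x = u ∧ x ≠ 0 then (false, x) else (true, x)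

/-- Indices of the negative rows left by the two exchange rounds. -/
abbrev NegIx (K ι τp τm : Type) (t : ℕ) : Type :=
  (τp × (Fin t → K)) ⊕ (τm × (Fin t → K)) ⊕ ((τm × Ed ι t) × (Fin t → K)) ⊕
    ((τm × Ed ι t) × (Fin t → K))

section Neg

variable {K ι τp τm Z : Type} [CommRing K] [DecidableEq K] {t : ℕ}

/-- The negative rows left by the two exchange rounds. -/
def negRow (s : ι → K) (sp : Ed ι t → Fin t → K) (e : τp ⊕ τm → ι → K → Z)
    (b : τm × Ed ι t → ι → Bool × K → Z) : NegIx K ι τp τm t → ι → Z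
  | .inl (a, h) => fun i => e (.inl a) i (ev s h i)
  | .inr (.inl (ν, h)) => fun i => e (.inr ν) i (sh s h i)
  | .inr (.inr (.inl (a, h))) => fun i => b a i (false, sh s h i)
  | .inr (.inr (.inr (a, h))) => fun i => b a i (lab (sh s (sp a.2) i) (ev s h i))

/-- The indices of negative rows that are not cancelled. -/
def negAct (sp : Ed ι t → Fin t → K) : NegIx K ι τp τm t → Prop
  | .inl (_, h) => h ≠ 0
  | .inr (.inl (_, h)) => ∀ I, h ≠ sp I
  | .inr (.inr (.inl (a, h))) => h ≠ sp a.2
  | .inr (.inr (.inr (_, h))) => h ≠ 0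

end Neg

end Pool.Agent.Lib.MP_deca50_lc.CES
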