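import Pool.Agent.Lib.MP_deca50_lc.CES.Integral
import Pool.Agent.Lib.MP_deca50_lc.CES.Clean
import Pool.Agent.Lib.MP_deca50_lc.CES.AbsA
import Pool.Agent.Lib.MP_deca50_lc.CES.AbsB

/-!
Deleting a few symbols from a product array.
-/

open Finset Function

set_option linter.unusedSectionVars false

namespace Pool.Agent.Lib.MP_deca50_lc.CES

section DelAux

variable {ι Y : Type} [Fintype ι] [DecidableEq ι] [Fintype Y] [DecidableEq Y] {t : ℕ}

/-- The indicator of the rows of `P` that avoid the deleted symbols. -/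
def delPhi (P : Finset (ι → Y)) (U : ι → Finset Y) : (ι → Y) → ℤ :=
  fun z => if z ∈ P ∧ ∀ i, z i ∉ U i then 1 else 0

theorem del_supp {A U : ι → Finset Y} {P : Finset (ι → Y)} (hP : IsOA t A P) :
    Supp (fun i => A i \ U i) (delPhi P U) := fun z hz i => by
  unfold delPhi at hz
  split_ifs at hz with h
  · exact mem_sdiff.2 ⟨hP.1 z h.1 i, h.2 i⟩
  · exact absurd rfl hz

theorem del_marg {A U : ι → Finset Y} {P : Finset (ι → Y)} (hP : IsOA t A P) {I : Finset ι}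
    (hI : I.card = t) {y z : ι → Y} (hz : z ∈ P) (hzy : Ag I z y) :
    marg I (delPhi P U) y = if ∀ i, z i ∉ U i then 1 else 0 := by
  have hy : ∀ i ∈ I, y i ∈ A i := fun i hi => hzy i hi ▸ hP.1 z hz i
  rw [marg, sum_eq_single z]
  · simp [delPhi, hz, hzy]
  · intro w _ hw
    split_ifs with h
    · unfold delPhi
      rw [if_neg]
      exact fun h' => hw ((hP.2 I hI y hy).unique ⟨h'.1, h⟩ ⟨hz, hzy⟩)
    · rfl
  · simp

theorem del_marg01 {A U : ι → Finset Y} {P : Finset (ι → Y)} (hP : IsOA t A P) {I : Finset ι}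
    (hI : I.card = t) {y : ι → Y} (hy : ∀ i ∈ I, y i ∈ A i) :
    marg I (delPhi P U) y = 0 ∨ marg I (delPhi P U) y = 1 := by
  obtain ⟨z, ⟨hz, hzy⟩, -⟩ := hP.2 I hI y hy
  rw [del_marg hP hI hz hzy]
  split_ifs <;> simp

theorem del_line {A U : ι → Finset Y} {P : Finset (ι → Y)} (hP : IsOA t A P) {u : ℕ}
    (hU : ∀ i, (U i).card = u) {I : Finset ι} (hI : I.card = t) {j : ι} (hj : j ∈ I)
    {y : ι → Y} (hy : ∀ i ∈ I, y i ∈ A i \ U i) :
    ∑ x ∈ A j \ U j, |1 - marg I (delPhi P U) (update y j x)| ≤ (Fintype.card ι * u : ℕ) := by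
  classical
  have hup : ∀ x ∈ A j \ U j, ∀ i ∈ I, update y j x i ∈ A i \ U i := fun x hx i hi => by
    by_cases hij : i = j
    · subst hij
      simpa using hx
    · rw [update_of_ne hij]
      exact hy i hi
  have hex : ∀ x, ∃ z, x ∈ A j \ U j → z ∈ P ∧ Ag I z (update y j x) := fun x => by
    by_cases hx : x ∈ A j \ U j
    · obtain ⟨z, hz, -⟩ := hP.2 I hI (update y j x) fun i hi => (mem_sdiff.1 (hup x hx i hi)).1
      exact ⟨z, fun _ => hz⟩
    · exact ⟨y, fun h => absurd h hx⟩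
  choose zz hzz using hex
  have h1 : ∑ x ∈ A j \ U j, |1 - marg I (delPhi P U) (update y j x)| =
      (((A j \ U j).filter fun x => ∃ i, zz x i ∈ U i).card : ℤ) := by
    rw [← sum_boole]
    refine sum_congr rfl fun x hx => ?_
    rw [del_marg hP hI (hzz x hx).1 (hzz x hx).2]
    by_cases h : ∃ i, zz x i ∈ U i
    · rw [if_pos h, if_neg (by simpa using h)]
      simp
    · rw [if_neg h, if_pos (by simpa using h)]
      simp
  rw [h1]
  have h2 : ((A j \ U j).filter fun x => ∃ i, zz x i ∈ U i) ⊆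
      univ.biUnion fun i => (A j \ U j).filter fun x => zz x i ∈ U i := fun x hx => by
    obtain ⟨hx1, i, hi⟩ := mem_filter.1 hx
    exact mem_biUnion.2 ⟨i, mem_univ _, mem_filter.2 ⟨hx1, hi⟩⟩
  have h3 : ∀ i, ((A j \ U j).filter fun x => zz x i ∈ U i).card ≤ u := fun i => by
    rw [← hU i]
    refine card_le_card_of_injOn (fun x => zz x i) (fun x hx => (mem_filter.1 hx).2) ?_
    intro x hx x' hx' e
    obtain ⟨hx1, hx2⟩ := mem_filter.1 hx
    obtain ⟨hx1', -⟩ := mem_filter.1 hx'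
    have hiI : i ∉ I := fun hi => by
      have := hup x hx1 i hi
      rw [← (hzz x hx1).2 i hi] at this
      exact (mem_sdiff.1 this).2 hx2
    have hc : (insert i (I.erase j)).card = t := by
      rw [card_insert_of_notMem fun h => hiI (mem_of_mem_erase h), card_erase_of_mem hj]
      have := card_pos.2 ⟨j, hj⟩
      omega
    have hag : Ag (insert i (I.erase j)) (zz x) (zz x') := fun l hl => by
      rcases mem_insert.1 hl with rfl | hl
      · exact e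
      · obtain ⟨hl1, hl2⟩ := mem_erase.1 hl
        rw [(hzz x hx1).2 l hl2, (hzz x' hx1').2 l hl2, update_of_ne hl1, update_of_ne hl1]
    have he : zz x = zz x' :=
      (hP.2 _ hc (zz x') fun l _ => hP.1 _ (hzz x' hx1').1 l).unique ⟨(hzz x hx1).1, hag⟩
        ⟨(hzz x' hx1').1, fun _ _ => rfl⟩
    have e1 := (hzz x hx1).2 j hj
    have e2 := (hzz x' hx1').2 j hj
    rw [update_self] at e1 e2
    rw [← e1, ← e2, he]
  have h4 := (card_le_card h2).trans (card_biUnion_le.trans (sum_le_sum fun i _ => h3 i))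
  simp only [sum_const, card_univ, smul_eq_mul] at h4
  exact_mod_cast h4

theorem del_sum_dl {κ : Type} [Fintype κ] {x : κ → ι → Y} (hx : Injective x) (c : κ) :
    (∑ c, dl (x c)) (x c) = 1 := by
  rw [Finset.sum_apply, sum_eq_single c]
  · simp [dl]
  · intro c' _ hc
    exact if_neg fun h => hc (hx h).symm
  · simp

theorem del_sum_dl_zero {κ : Type} [Fintype κ] {x : κ → ι → Y} {z : ι → Y} (hz : ∀ c, z ≠ x c) :
    (∑ c, dl (x c)) z = 0 := by
  rw [Finset.sum_apply]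
  exact sum_eq_zero fun c _ => if_neg (hz c)

variable {R F : Type} [Fintype R] [DecidableEq R] [Fintype F] [DecidableEq F]

theorem del_prod {A : ι → Finset F} {TR : Finset (ι → R)} {T : Finset (ι → F)}
    (hR : IsOA t (fun _ => univ) TR) (hT : IsOA t A T) :
    IsOA t (fun i => (univ : Finset R) ×ˢ A i)
      (univ.filter fun z : ι → R × F => (fun i => (z i).1) ∈ TR ∧ (fun i => (z i).2) ∈ T) := by
  refine ⟨fun z hz i => mem_product.2 ⟨mem_univ _, hT.1 _ (mem_filter.1 hz).2.2 i⟩,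
    fun I hI y hy => ?_⟩
  obtain ⟨z1, ⟨h1, h1'⟩, e1⟩ := hR.2 I hI (fun i => (y i).1) fun _ _ => mem_univ _
  obtain ⟨z2, ⟨h2, h2'⟩, e2⟩ := hT.2 I hI (fun i => (y i).2) fun i hi => (mem_product.1 (hy i hi)).2
  refine ⟨fun i => (z1 i, z2 i), ⟨mem_filter.2 ⟨mem_univ _, h1, h2⟩,
    fun i hi => Prod.ext (h1' i hi) (h2' i hi)⟩, fun z hz => ?_⟩
  obtain ⟨-, hz1, hz2⟩ := mem_filter.1 hz.1
  have a1 := e1 _ ⟨hz1, fun i hi => congrArg Prod.fst (hz.2 i hi)⟩
  have a2 := e2 _ ⟨hz2, fun i hi => congrArg Prod.snd (hz.2 i hi)⟩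
  funext i
  exact Prod.ext (congrFun a1 i) (congrFun a2 i)

theorem del_proj (ρ₀ : R) (Ψ : (ι → R × F) → ℤ) (J : Finset ι) {M : ℝ}
    (h : ∀ y, mass J Ψ y ≤ M) (y : ι → F) :
    (∑ z, if Ag J (fun i => (z i).2) y then |(Ψ z : ℝ)| else 0) ≤
      (Fintype.card R : ℝ) ^ J.card * M := by
  classical
  let yy : (J → R) → ι → R × F := fun ρ i => (if hi : i ∈ J then ρ ⟨i, hi⟩ else ρ₀, y i)
  have h1 : (∑ z, if Ag J (fun i => (z i).2) y then |(Ψ z : ℝ)| else 0) ≤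
      ∑ ρ : J → R, mass J Ψ (yy ρ) := by
    simp only [mass]
    rw [sum_comm]
    refine sum_le_sum fun z _ => ?_
    have hn : ∀ ρ ∈ (univ : Finset (J → R)),
        0 ≤ if Ag J z (yy ρ) then |(Ψ z : ℝ)| else 0 := fun ρ _ => by split_ifs <;> simp
    split_ifs with hz
    · refine le_trans (le_of_eq ?_) (single_le_sum hn (mem_univ fun i : J => (z i).1))
      rw [if_pos]
      intro i hi
      refine Prod.ext ?_ (hz i hi)
      simp [yy, hi]
    · exact sum_nonneg hn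
  refine h1.trans ((sum_le_card_nsmul _ _ M fun ρ _ => h _).trans (le_of_eq ?_))
  simp

end DelAux

theorem del_num1 {Γ W N e a b : ℕ} (hΓ : 2 ≤ Γ) (h : Γ ^ e * W ≤ N) (hb : b ≤ 2 ^ a * W)
    {c : ℕ} (hc : c + a ≤ e) : Γ ^ c * b ≤ N :=
  calc Γ ^ c * b ≤ Γ ^ c * (Γ ^ a * W) :=
        Nat.mul_le_mul_left _ (hb.trans (Nat.mul_le_mul_right _ (Nat.pow_le_pow_left hΓ a)))
    _ = Γ ^ (c + a) * W := by ring
    _ ≤ Γ ^ e * W := Nat.mul_le_mul_right _ (Nat.pow_le_pow_right (by omega) hc)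
    _ ≤ N := h

theorem del_num2 {Γ β u D N X κ cZ e : ℕ} (hΓ : 2 ≤ Γ) (hX : 0 < X)
    (h1 : Γ ^ (cZ + (e + 1)) * X ≤ κ) (h2 : κ * D ≤ X * Γ ^ cZ * N)
    (h3 : Γ ^ (cZ + (e + 1)) * (β + u + 1) ≤ N) : Γ ^ e * (β + u + 1 + D) ≤ N := by
  have hp : 0 < Γ ^ cZ := by positivity
  have a1 : Γ ^ (e + 1) * D ≤ N := by
    refine Nat.le_of_mul_le_mul_left (c := X * Γ ^ cZ) ?_ (by positivity)
    calc X * Γ ^ cZ * (Γ ^ (e + 1) * D) = Γ ^ (cZ + (e + 1)) * X * D := by ring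
      _ ≤ κ * D := Nat.mul_le_mul_right _ h1
      _ ≤ _ := h2
  have a2 : Γ ^ (e + 1) * (β + u + 1) ≤ N :=
    (Nat.mul_le_mul_right _ (Nat.pow_le_pow_right (by omega) (by omega))).trans h3
  refine Nat.le_of_mul_le_mul_left (c := 2) ?_ (by norm_num)
  calc 2 * (Γ ^ e * (β + u + 1 + D)) ≤ Γ * (Γ ^ e * (β + u + 1 + D)) :=
        Nat.mul_le_mul_right _ hΓ
    _ = Γ ^ (e + 1) * (β + u + 1) + Γ ^ (e + 1) * D := by ring
    _ ≤ 2 * N := by omega

theorem del_num3 {Γ β u D N cC n e : ℕ} (hΓ : 2 ≤ Γ) (h : Γ ^ e * (β + u + 1 + D) ≤ N)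
    (he : 2 * n + cC + 7 ≤ e) :
    16 * (Γ ^ n) ^ 2 * (β + u + Γ ^ cC * (D + 1 + 1) + Γ + 1) ≤ N := by
  have a0 : 1 ≤ Γ ^ cC := Nat.one_le_pow _ _ (by omega)
  obtain ⟨W, hW⟩ : ∃ W, W = β + u + 1 + D := ⟨_, rfl⟩
  rw [← hW] at h
  have hW1 : 1 ≤ W := by omega
  have a1 : β + u + 1 ≤ Γ ^ cC * Γ * W :=
    le_trans (by omega : β + u + 1 ≤ W) (Nat.le_mul_of_pos_left _ (by positivity))
  have a2 : Γ ^ cC * (D + 1 + 1) ≤ Γ ^ cC * Γ * W := by
    rw [mul_assoc]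
    exact Nat.mul_le_mul_left _ (le_trans (by omega : D + 1 + 1 ≤ 2 * W)
      (Nat.mul_le_mul_right _ hΓ))
  have a3 : Γ ≤ Γ ^ cC * Γ * W := by
    calc Γ = 1 * Γ * 1 := by ring
      _ ≤ _ := Nat.mul_le_mul (Nat.mul_le_mul_right _ a0) hW1
  calc 16 * (Γ ^ n) ^ 2 * (β + u + Γ ^ cC * (D + 1 + 1) + Γ + 1)
      ≤ 16 * (Γ ^ n) ^ 2 * (4 * (Γ ^ cC * Γ * W)) := Nat.mul_le_mul_left _ (by omega)
    _ = Γ ^ (2 * n + cC + 1) * (2 ^ 6 * W) := by ring
    _ ≤ N := del_num1 hΓ h le_rfl (by omega)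

theorem del_num4 {Γ D X κ cC cZ n c : ℕ} (hΓ : 2 ≤ Γ) (h1 : κ * D ≤ Γ ^ cZ * X) (h2 : κ ≤ X)
    (hc : n + cC + cZ + 5 ≤ c) :
    κ * (4 * Γ ^ n * (Γ ^ cC * (D + 1 + 1) + Γ)) ≤ Γ ^ c * X := by
  have a0 : 1 ≤ Γ ^ cC := Nat.one_le_pow _ _ (by omega)
  have a1 : 1 ≤ Γ ^ cZ := Nat.one_le_pow _ _ (by omega)
  obtain ⟨Z, hZ⟩ : ∃ Z, Z = Γ ^ cC * Γ ^ cZ * Γ * X := ⟨_, rfl⟩
  have b1 : Γ ^ cC * (κ * D) ≤ Z := by
    calc Γ ^ cC * (κ * D) ≤ Γ ^ cC * (Γ ^ cZ * X) := Nat.mul_le_mul_left _ h1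
      _ = Γ ^ cC * Γ ^ cZ * 1 * X := by ring
      _ ≤ Z := hZ ▸ Nat.mul_le_mul_right _ (Nat.mul_le_mul_left _ (by omega))
  have b2 : Γ ^ cC * (2 * κ) ≤ Z := by
    calc Γ ^ cC * (2 * κ) = Γ ^ cC * 1 * 2 * κ := by ring
      _ ≤ Z := hZ ▸ Nat.mul_le_mul (Nat.mul_le_mul (Nat.mul_le_mul_left _ a1) hΓ) h2
  have b3 : Γ * κ ≤ Z := by
    calc Γ * κ = 1 * 1 * Γ * κ := by ring
      _ ≤ Z := hZ ▸ Nat.mul_le_mul (Nat.mul_le_mul_right _ (Nat.mul_le_mul a0 a1)) h2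
  calc κ * (4 * Γ ^ n * (Γ ^ cC * (D + 1 + 1) + Γ))
      = 4 * Γ ^ n * (Γ ^ cC * (κ * D) + Γ ^ cC * (2 * κ) + Γ * κ) := by ring
    _ ≤ 4 * Γ ^ n * (4 * Z) := Nat.mul_le_mul_left _ (by omega)
    _ = Γ ^ (n + cC + cZ + 1) * (2 ^ 4 * X) := by rw [hZ]; ring
    _ ≤ Γ ^ c * X := del_num1 hΓ le_rfl le_rfl (by omega)

theorem del (t : ℕ) (ht : 1 ≤ t) : ∃ c : ℕ, ∀ (K F ι R : Type) [Field K] [Fintype K]
    [DecidableEq K] [AddCommGroup F] [Module K F] [Fintype F] [DecidableEq F] [Fintype ι]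
    [DecidableEq ι] [Fintype R] [DecidableEq R] (s : ι → K) (Γ β u m₀ κ : ℕ)
    (TR : Finset (ι → R)) (A : ι → Finset F) (T : Finset (ι → F)) (B : Finset (Fin t → F))
    (U : ι → Finset (R × F)), Injective s → t ≤ Fintype.card ι →
    (Fintype.card ι).choose (t + 1) < Fintype.card K → Fintype.card K ≤ Γ →
    Fintype.card ι + 1 ≤ Γ →
    8 * (2 * Fintype.card R * Fintype.card F * Fintype.card K) ^ Fintype.card ι ≤ 2 ^ Γ →
    IsOA t (fun _ => univ) TR → IsOA t A T → (∀ i, (A i).card = m₀) →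
    Fintype.card F ≤ m₀ + β → LB K B β →
    (∀ φ, φ ∉ B → (∀ i, ev s φ i ∈ A i) → ev s φ ∈ T) →
    (∀ i, U i ⊆ univ ×ˢ A i ∧ (U i).card = u) → 1 ≤ κ →
    κ * (Fintype.card ι * u) + u ≤ Fintype.card R * m₀ →
    Γ ^ c * κ ^ (t + 1) + u ≤ Fintype.card R * m₀ → Γ ^ c * Fintype.card R ^ t ≤ κ →
    Γ ^ c * (β + u + 1) ≤ Fintype.card F →
    ∃ (T' : Finset (ι → R × F)) (B' : Finset (Fin t → F)) (β' : ℕ),
      IsOA t (fun i => (univ ×ˢ A i) \ U i) T' ∧ LB K B' β' ∧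
      κ * β' ≤ κ * β + Γ ^ c * Fintype.card R ^ t * Fintype.card F ∧
      ∀ ρ ∈ TR, ∀ φ, φ ∉ B' → (∀ i, (ρ i, ev s φ i) ∈ (univ ×ˢ A i) \ U i) →
        (fun i => (ρ i, ev s φ i)) ∈ T' := by
  obtain ⟨cZ, hZ⟩ := integral t ht
  obtain ⟨cC, hC⟩ := clean t ht
  refine ⟨cZ + (2 * (2 * t + t * t) + cC + 7 + 1), ?_⟩
  intro K F ι R _ _ _ _ _ _ _ _ _ _ _ s Γ β u m₀ κ TR A T B U hs hk hp hK hι hbig hTR hT hA hF hB
    hev hU hκ h1 h2 h3 h4
  have hΓ : 2 ≤ Γ := by omega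
  have hk1 : 1 ≤ Fintype.card ι := ht.trans hk
  have hN1 : 1 ≤ Fintype.card F := Fintype.card_pos
  have hp1 : 1 ≤ Fintype.card K := Fintype.card_pos
  have hΓc : ∀ n, 1 ≤ Γ ^ n := fun n => Nat.one_le_pow _ _ (by omega)
  have hκt : κ ≤ Fintype.card R * m₀ := by
    calc κ = 1 * κ ^ 1 := by ring
      _ ≤ Γ ^ (cZ + (2 * (2 * t + t * t) + cC + 7 + 1)) * κ ^ (t + 1) :=
        Nat.mul_le_mul (hΓc _) (Nat.pow_le_pow_right hκ (by omega))
      _ ≤ _ := le_trans (Nat.le_add_right _ _) h2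
  have hr1 : 1 ≤ Fintype.card R := Nat.pos_of_ne_zero fun h0 => by
    rw [h0] at hκt
    omega
  have hne : Nonempty R := Fintype.card_pos_iff.1 hr1
  obtain ⟨i₀⟩ : Nonempty ι := Fintype.card_pos_iff.1 hk1
  have hm₀ : m₀ ≤ Fintype.card F := hA i₀ ▸ card_le_univ _
  have hP := del_prod hTR hT
  obtain ⟨P, hPdef⟩ : ∃ P, P = univ.filter fun z : ι → R × F =>
    (fun i => (z i).1) ∈ TR ∧ (fun i => (z i).2) ∈ T := ⟨_, rfl⟩
  rw [← hPdef] at hP
  obtain ⟨m, hm⟩ : ∃ m, m + u = Fintype.card R * m₀ := ⟨Fintype.card R * m₀ - u, by omega⟩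
  have hAs : ∀ i, (((univ : Finset R) ×ˢ A i) \ U i).card = m := fun i => by
    have := card_sdiff_add_card_eq_card (hU i).1
    rw [card_product, card_univ, hA i, (hU i).2] at this
    omega
  have hb1 : (2 * (Fintype.card R * Fintype.card F)) ^ Fintype.card ι ≤
      (2 * Fintype.card R * Fintype.card F * Fintype.card K) ^ Fintype.card ι :=
    Nat.pow_le_pow_left (by rw [← mul_assoc]; exact Nat.le_mul_of_pos_right _ hp1) _
  have hBig : Big ι (R × F) Γ := by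
    refine ⟨hΓ, by omega, ?_, ?_⟩
    · rw [Fintype.card_prod]
      have a1 : 2 * (Fintype.card R * Fintype.card F) ≤
          (2 * (Fintype.card R * Fintype.card F)) ^ Fintype.card ι :=
        Nat.le_self_pow (by omega) _
      omega
    · rw [Fintype.card_prod, mul_assoc, ← mul_pow]
      omega
  have hΛ : (Fintype.card F * Fintype.card K) ^ t ≤ 2 ^ Γ := by
    have a1 : (Fintype.card F * Fintype.card K) ^ t ≤
        (Fintype.card F * Fintype.card K) ^ Fintype.card ι :=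
      Nat.pow_le_pow_right (Nat.mul_pos hN1 hp1) hk
    have a2 : (Fintype.card F * Fintype.card K) ^ Fintype.card ι ≤
        (2 * Fintype.card R * Fintype.card F * Fintype.card K) ^ Fintype.card ι :=
      Nat.pow_le_pow_left (by
        rw [mul_assoc (2 * _)]
        exact Nat.le_mul_of_pos_left _ (by omega)) _
    omega
  have h01 : ∀ I : Finset ι, I.card = t → ∀ y, (∀ i ∈ I, y i ∈ (univ ×ˢ A i) \ U i) →
      marg I (delPhi P U) y = 0 ∨ marg I (delPhi P U) y = 1 :=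
    fun I hI y hy => del_marg01 hP hI fun i hi => (mem_sdiff.1 (hy i hi)).1
  obtain ⟨Ψ, hΨs, hΨ1, hΨm⟩ := hZ ι (R × F) Γ m κ (fun i => (univ ×ˢ A i) \ U i) (delPhi P U) hBig
    hk hAs (del_supp hP) hκ
    (le_trans (Nat.mul_le_mul_right _ (Nat.pow_le_pow_right (by omega) (Nat.le_add_right _ _)))
      (by omega : Γ ^ (cZ + (2 * (2 * t + t * t) + cC + 7 + 1)) * κ ^ (t + 1) ≤ m))
    (fun I hI y hy => by rcases h01 I hI y hy with h | h <;> simp [h])
    (fun I hI j hj y hy => by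
      refine (mul_le_mul_of_nonneg_left (del_line hP (fun i => (hU i).2) hI hj hy)
        (Nat.cast_nonneg _)).trans ?_
      exact_mod_cast (by omega : κ * (Fintype.card ι * u) ≤ m))
  obtain ⟨D, hD⟩ : ∃ D, D = Fintype.card R ^ t * Γ ^ cZ * Fintype.card F / κ := ⟨_, rfl⟩
  have hD1 : κ * D ≤ Fintype.card R ^ t * Γ ^ cZ * Fintype.card F := hD ▸ Nat.mul_div_le _ _
  have hD2 : Fintype.card R ^ t * Γ ^ cZ * Fintype.card F ≤ κ * (D + 1) :=
    hD ▸ (Nat.lt_mul_div_succ _ hκ).le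
  have hW := del_num2 hΓ (by positivity) h3 hD1 h4
  have hA' : ∀ i, Fintype.card F ≤ (A i \ (U i).image Prod.snd).card + (β + u) := fun i => by
    have a1 := le_card_sdiff ((U i).image Prod.snd) (A i)
    have a2 : ((U i).image Prod.snd).card ≤ u := (hU i).2 ▸ card_image_le
    rw [hA i] at a1
    omega
  have hAs' : ∀ i ρ x, x ∈ A i \ (U i).image Prod.snd →
      (ρ, x) ∈ ((univ : Finset R) ×ˢ A i) \ U i := fun i ρ x hx => by
    obtain ⟨a1, a2⟩ := mem_sdiff.1 hx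
    exact mem_sdiff.2 ⟨mem_product.2 ⟨mem_univ _, a1⟩, fun h => a2 (mem_image_of_mem _ h)⟩
  have hB' : LB K B (β + u) := hB.mono (Nat.le_add_right _ _)
  obtain ⟨Pos, τ, _, g, ψ, R₁, hR₁, hPos0, hPoss, hg, hψ, hψi, hPm⟩ :=
    hC K F ι R s Γ (β + u) (D + 1) (fun i => A i \ (U i).image Prod.snd) B
      (fun i => (univ ×ˢ A i) \ U i) Ψ hs hk hK hι hΛ hA' hB' hAs' hΨs
      (fun I hI y => by
        by_cases hy : ∀ i ∈ I, y i ∈ (univ ×ˢ A i) \ U i
        · have a1 := hΨ1 I hI y hy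
          rw [marg_add] at a1
          rcases h01 I hI y hy with h | h <;> omega
        · push Not at hy
          obtain ⟨i, hi, hy⟩ := hy
          exact (marg_eq_zero_of_supp hΨs hi hy).ge)
      (fun J hJ y => by
        have hκ' : (0 : ℝ) < κ := by exact_mod_cast hκ
        obtain ⟨ρ₀⟩ := hne
        refine (del_proj ρ₀ Ψ J (M := Γ ^ cZ * m / κ) (fun y => ?_) y).trans ?_
        · rw [le_div_iff₀' hκ']
          exact hΨm J hJ y
        · rw [← mul_div_assoc, div_le_iff₀' hκ']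
          have a1 : Fintype.card R ^ J.card * (Γ ^ cZ * m) ≤ κ * (D + 1) := by
            refine le_trans ?_ hD2
            calc Fintype.card R ^ J.card * (Γ ^ cZ * m)
                ≤ Fintype.card R ^ J.card * (Γ ^ cZ * (Fintype.card R * Fintype.card F)) :=
                  Nat.mul_le_mul_left _ (Nat.mul_le_mul_left _
                    (le_trans (by omega) (Nat.mul_le_mul_left _ hm₀)))
              _ = _ := by rw [← hJ]; ring
          exact_mod_cast a1)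
      (del_num1 (a := 1) hΓ hW (by omega) (by omega))
  obtain ⟨w, f, z, R', hR', hw1, hw2⟩ := abs_slots ht hs hk hp (fun a i => (g a i).2) ψ
    (fun i => A i \ (U i).image Prod.snd) B R₁ (β + u) _ Γ (Γ ^ (2 * t + t * t)) hA' hB' hR₁ hψ hψi
    hΛ
    (by
      calc Fintype.card K ^ t * (Fintype.card ι ^ t * Fintype.card K ^ (t * t))
          ≤ Γ ^ t * (Γ ^ t * Γ ^ (t * t)) := by gcongr; omega
        _ = _ := by ring)
    (le_trans (by omega) (Nat.le_self_pow (by omega) Γ))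
    (del_num3 hΓ hW le_rfl)
  obtain ⟨Pos', κ', _, x, hPos0', hPoss', hx, hx1, hxm⟩ := abs_id ht hs hk TR hTR g
    (fun i => A i \ (U i).image Prod.snd) (fun i => (univ ×ˢ A i) \ U i) hAs' hg w f z
    (fun φ => φ ∈ R' ∧ φ ∉ B)
    (fun a h π hπ => ⟨⟨(hw1 a h π hπ).1, (hw1 a h π hπ).2.1⟩, (hw1 a h π hπ).2.2⟩) hw2
  have hrow : ∀ (y : ι → R × F) (φ : Fin t → F), (fun i => (y i).1) ∈ TR → φ ∉ B →
      (∀ i, y i ∈ (univ ×ˢ A i) \ U i) → (∀ i, (y i).2 = ev s φ i) → delPhi P U y = 1 := by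
    intro y φ a1 a2 a3 a4
    refine if_pos ⟨hPdef ▸ mem_filter.2 ⟨mem_univ _, a1, ?_⟩, fun i => (mem_sdiff.1 (a3 i)).2⟩
    rw [show (fun i => (y i).2) = ev s φ from funext a4]
    exact hev φ a2 fun i => a4 i ▸ (mem_product.1 (mem_sdiff.1 (a3 i)).1).2
  have hΦ0 : ∀ y, 0 ≤ (delPhi P U - ∑ c, dl (x c)) y := fun y => by
    rw [Pi.sub_apply]
    by_cases hy : ∃ c, y = x c
    · obtain ⟨c, rfl⟩ := hy
      obtain ⟨a1, a2, φ, a3, a4⟩ := hx1 c
      rw [del_sum_dl hx c, hrow _ φ a1 a3.2 a2 a4]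
      simp
    · rw [del_sum_dl_zero (by simpa using hy)]
      unfold delPhi
      split_ifs <;> simp
  refine ⟨univ.filter fun y => (delPhi P U - ∑ c, dl (x c) + Pos + Pos') y ≠ 0, B ∪ R', _,
    isOA_of_marg (fun y => ?_) ?_ (fun I hI y hy => ?_), hB.union hR', ?_, fun ρ hρ φ hφ hy => ?_⟩
  · have a1 := hΦ0 y
    have a2 := hPos0 y
    have a3 := hPos0' y
    simp only [Pi.add_apply] at a1 ⊢
    omega
  · exact (((del_supp hP).sub (Supp.sum fun c _ => supp_dl (hx1 c).2.1)).add hPoss).add hPoss'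
  · have a1 := hΨ1 I hI y hy
    have a2 := hPm I hI y
    have a3 := hxm I hI y
    simp only [marg_add, marg_sub] at a1 a2 a3 ⊢
    omega
  · rw [mul_add, mul_assoc (Γ ^ _)]
    refine Nat.add_le_add_left (del_num4 (cZ := cZ) hΓ (hD1.trans (le_of_eq (by ring))) ?_
      (by omega)) _
    exact hκt.trans (Nat.mul_le_mul (Nat.le_self_pow (by omega) _) hm₀)
  · rw [mem_union, not_or] at hφ
    obtain ⟨I, -, hI⟩ := exists_subset_card_eq (s := (univ : Finset ι)) (n := t) (by simpa using hk)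
    have a1 := hrow (fun i => (ρ i, ev s φ i)) φ hρ hφ.1 hy fun _ => rfl
    have a2 : (∑ c, dl (x c)) (fun i => (ρ i, ev s φ i)) = 0 := del_sum_dl_zero fun c e => by
      obtain ⟨-, -, φ', a3, a4⟩ := hx1 c
      have : φ = φ' := ev_ext hs hI fun i _ => by rw [← a4 i, ← e]
      exact hφ.2 (this ▸ a3.1)
    have a3 := hPos0 fun i => (ρ i, ev s φ i)
    have a4 := hPos0' fun i => (ρ i, ev s φ i)
    simp only [mem_filter, mem_univ, true_and, Pi.add_apply, Pi.sub_apply]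
    omega

end Pool.Agent.Lib.MP_deca50_lc.CES
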