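import Pool.Agent.Lib.MP_deca50_lc.CES.Defs

/-!
Greedy choice with an exponential potential, and a discrepancy bound.
-/

open Finset Function

set_option linter.unusedSectionVars false

namespace Pool.Agent.Lib.MP_deca50_lc.CES

private theorem potG_two {x : ℝ} (h0 : 0 ≤ x) (h1 : x ≤ 1) :
    Real.exp (Real.log 2 * x) ≤ 1 + x := by
  have h := rpow_one_add_le_one_add_mul_self (s := 1) (by norm_num) h0 h1
  rw [show (1 : ℝ) + 1 = 2 by norm_num, Real.rpow_def_of_pos (by norm_num), mul_one] at h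
  exact h

private theorem potG_avg {Ω : Type} (C T : Finset Ω) (hC : C.Nonempty) (hT : T ⊆ C)
    (hc : C.card ≤ 2 * T.card) (x : Ω → ℝ) (G : ℝ) (hG : 0 < G) (h0 : ∀ ω, 0 ≤ x ω)
    (h1 : ∀ ω ∈ C, x ω ≤ G) :
    ∑ ω ∈ T, Real.exp ((Real.log 2 * x ω - 2 * ((∑ ω ∈ C, x ω) / C.card)) / G) ≤ T.card := by
  obtain ⟨m, hm⟩ : ∃ m, m = (∑ ω ∈ C, x ω) / C.card := ⟨_, rfl⟩
  rw [← hm]
  have hCp : (0 : ℝ) < C.card := by exact_mod_cast hC.card_pos
  have hm0 : 0 ≤ m := hm ▸ div_nonneg (sum_nonneg fun ω _ => h0 ω) hCp.le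
  have hs : ∑ ω ∈ C, x ω = C.card * m := by rw [hm]; field_simp
  have hc' : (C.card : ℝ) ≤ 2 * T.card := by exact_mod_cast hc
  have e1 : ∀ ω ∈ T, Real.exp ((Real.log 2 * x ω - 2 * m) / G) ≤
      (1 + x ω / G) * Real.exp (-(2 * m / G)) := by
    intro ω hω
    have : (Real.log 2 * x ω - 2 * m) / G = Real.log 2 * (x ω / G) + -(2 * m / G) := by ring
    rw [this, Real.exp_add]
    exact mul_le_mul_of_nonneg_right
      (potG_two (div_nonneg (h0 ω) hG.le) ((div_le_one hG).2 (h1 ω (hT hω)))) (Real.exp_pos _).le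
  refine (sum_le_sum e1).trans ?_
  rw [← sum_mul, sum_add_distrib, sum_const, nsmul_eq_mul, mul_one, ← sum_div]
  have e2 : ∑ ω ∈ T, x ω ≤ 2 * T.card * m := by
    refine (sum_le_sum_of_subset_of_nonneg hT fun ω _ _ => h0 ω).trans ?_
    rw [hs]
    exact mul_le_mul_of_nonneg_right hc' hm0
  have e3 : (T.card : ℝ) + (∑ ω ∈ T, x ω) / G ≤ T.card * Real.exp (2 * m / G) := by
    have h3 := Real.add_one_le_exp (2 * m / G)
    have h4 : (∑ ω ∈ T, x ω) / G ≤ T.card * (2 * m / G) := by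
      rw [← mul_div_assoc]
      exact div_le_div_of_nonneg_right (by linarith) hG.le
    have h5 := mul_le_mul_of_nonneg_left h3 (Nat.cast_nonneg (α := ℝ) T.card)
    linarith
  refine (mul_le_mul_of_nonneg_right e3 (Real.exp_pos _).le).trans ?_
  rw [mul_assoc, ← Real.exp_add, add_neg_cancel, Real.exp_zero, mul_one]

private theorem potG_load {σ : Type} [Fintype σ] (l r μ : σ → ℝ) (G : ℝ) (hG : 0 < G)
    (hr : ∀ s, 0 ≤ r s) (hμ : ∀ s, 0 ≤ μ s) (Λ : ℕ) (hΛ : Fintype.card σ ≤ 2 ^ Λ)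
    (h : ∑ s, Real.exp ((Real.log 2 * l s + 2 * (r s - μ s)) / G) ≤ Fintype.card σ) (s : σ) :
    l s ≤ 3 * μ s + G * Λ := by
  have h1 : Real.exp ((Real.log 2 * l s + 2 * (r s - μ s)) / G) ≤ Real.exp (Λ * Real.log 2) := by
    refine (single_le_sum (f := fun s => Real.exp ((Real.log 2 * l s + 2 * (r s - μ s)) / G))
      (fun s _ => (Real.exp_pos _).le) (mem_univ s)).trans (h.trans ?_)
    rw [Real.exp_nat_mul, Real.exp_log (by norm_num)]
    exact_mod_cast hΛ
  rw [Real.exp_le_exp, div_le_iff₀ hG] at h1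
  have h2 := Real.log_two_gt_d9
  have h3 : Real.log 2 * l s ≤ Real.log 2 * (3 * μ s + G * Λ) := by
    have := hr s
    have h4 := hμ s
    nlinarith
  exact le_of_mul_le_mul_left h3 (by linarith)

private theorem potG_mgf {M : Type} [Fintype M] [DecidableEq M] (d : M → ℝ) (l : ℝ) :
    ∑ ε : M → Bool, Real.exp (l * ∑ m, if ε m then d m else -d m) ≤
      2 ^ Fintype.card M * Real.exp (l ^ 2 * (∑ m, d m ^ 2) / 2) := by
  have e1 : ∑ ε : M → Bool, Real.exp (l * ∑ m, if ε m then d m else -d m) =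
      ∏ m, ∑ b : Bool, Real.exp (l * if b then d m else -d m) := by
    rw [Finset.prod_univ_sum, Fintype.piFinset_univ]
    refine sum_congr rfl fun ε _ => ?_
    rw [mul_sum, Real.exp_sum]
  have e2 : 2 ^ Fintype.card M * Real.exp (l ^ 2 * (∑ m, d m ^ 2) / 2) =
      ∏ m, 2 * Real.exp ((l * d m) ^ 2 / 2) := by
    rw [prod_mul_distrib, prod_const, card_univ, ← Real.exp_sum, mul_sum, sum_div]
    congr 2
    exact sum_congr rfl fun m _ => by ring
  rw [e1, e2]
  refine prod_le_prod (fun m _ => sum_nonneg fun b _ => (Real.exp_pos _).le) fun m _ => ?_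
  have h := Real.cosh_le_exp_half_sq (l * d m)
  rw [Real.cosh_eq] at h
  rw [Fintype.sum_bool]
  simp only [if_true, Bool.false_eq_true, if_false, mul_neg]
  linarith

/-- Greedy choice without conflicts and with controlled loads. -/
theorem potG {τ Ω σ : Type} [Fintype τ] [Fintype σ] (C : τ → Finset Ω) (hC : ∀ a, (C a).Nonempty)
    (X : τ → Ω → σ → ℝ) (G : ℝ) (hG : 0 < G) (hX0 : ∀ a ω s, 0 ≤ X a ω s)
    (hXG : ∀ a, ∀ ω ∈ C a, ∀ s, X a ω s ≤ G) (μ : σ → ℝ)
    (hμ : ∀ s, ∑ a, (∑ ω ∈ C a, X a ω s) / (C a).card ≤ μ s) (Λ : ℕ)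
    (hΛ : Fintype.card σ ≤ 2 ^ Λ) (ok : τ → Ω → Prop) (cf : τ → Ω → τ → Ω → Prop)
    (hcf : ∀ a ω b ω', cf a ω b ω' → cf b ω' a ω)
    (H : ∀ (S : Finset τ) (w : τ → Ω) (a : τ), a ∉ S →
      (∀ s, ∑ b ∈ S, X b (w b) s ≤ 3 * μ s + G * Λ) →
      ∃ T ⊆ C a, (C a).card ≤ 2 * T.card ∧ ∀ ω ∈ T, ok a ω ∧ ∀ b ∈ S, ¬ cf a ω b (w b)) :
    ∃ w : τ → Ω, (∀ a, w a ∈ C a ∧ ok a (w a)) ∧ (∀ a b, a ≠ b → ¬ cf a (w a) b (w b)) ∧
      ∀ s, ∑ a, X a (w a) s ≤ 3 * μ s + G * Λ := by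
  classical
  obtain ⟨m, hm⟩ : ∃ m : τ → σ → ℝ, ∀ a s, m a s = (∑ ω ∈ C a, X a ω s) / (C a).card :=
    ⟨_, fun _ _ => rfl⟩
  have hm0 : ∀ a s, 0 ≤ m a s := fun a s =>
    hm a s ▸ div_nonneg (sum_nonneg fun ω _ => hX0 a ω s) (Nat.cast_nonneg _)
  have hμ' : ∀ s, ∑ a, m a s ≤ μ s := fun s => by simpa only [hm] using hμ s
  have hμ0 : ∀ s, 0 ≤ μ s := fun s => (sum_nonneg fun a _ => hm0 a s).trans (hμ' s)
  have key : ∀ S : Finset τ, ∃ w : τ → Ω, (∀ a ∈ S, w a ∈ C a ∧ ok a (w a)) ∧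
      (∀ a ∈ S, ∀ b ∈ S, a ≠ b → ¬ cf a (w a) b (w b)) ∧
      ∑ s, Real.exp ((Real.log 2 * (∑ b ∈ S, X b (w b) s) + 2 * ((∑ a ∈ Sᶜ, m a s) - μ s)) / G)
        ≤ Fintype.card σ := by
    intro S
    induction S using Finset.induction_on with
    | empty =>
      refine ⟨fun a => (hC a).choose, by simp, by simp, ?_⟩
      have h1 : (Fintype.card σ : ℝ) = ∑ _s : σ, (1 : ℝ) := by simp
      rw [h1]
      refine sum_le_sum fun s _ => Real.exp_le_one_iff.2 ?_
      rw [sum_empty, mul_zero, zero_add, compl_empty]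
      have := hμ' s
      exact div_nonpos_of_nonpos_of_nonneg (by linarith) hG.le
    | insert a S ha ih =>
      obtain ⟨w, h1, h2, h3⟩ := ih
      obtain ⟨T, hT, hc, hT2⟩ := H S w a ha (potG_load _ _ μ G hG
        (fun s => sum_nonneg fun a _ => hm0 a s) hμ0 Λ hΛ h3)
      have hTn : T.Nonempty := by
        have := (hC a).card_pos
        exact card_pos.1 (by omega)
      have hr : ∀ s, ∑ b ∈ (insert a S)ᶜ, m b s = (∑ b ∈ Sᶜ, m b s) - m a s := by
        intro s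
        rw [compl_insert, sum_erase_eq_sub (mem_compl.2 ha)]
      have hl : ∀ ω s, ∑ b ∈ insert a S, X b (update w a ω b) s =
          X a ω s + ∑ b ∈ S, X b (w b) s := by
        intro ω s
        rw [sum_insert ha, update_self]
        congr 1
        refine sum_congr rfl fun b hb => ?_
        rw [update_of_ne (ne_of_mem_of_not_mem hb ha)]
      have hsum : ∑ ω ∈ T, ∑ s, Real.exp ((Real.log 2 * (∑ b ∈ insert a S, X b (update w a ω b) s)
          + 2 * ((∑ b ∈ (insert a S)ᶜ, m b s) - μ s)) / G) ≤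
          ∑ _ω ∈ T, (Fintype.card σ : ℝ) := by
        rw [sum_comm, sum_const, nsmul_eq_mul]
        refine le_trans ?_ (mul_le_mul_of_nonneg_left h3 (Nat.cast_nonneg _))
        rw [mul_sum]
        refine sum_le_sum fun s _ => ?_
        have h4 := potG_avg (C a) T (hC a) hT hc (fun ω => X a ω s) G hG (fun ω => hX0 a ω s)
          fun ω hω => hXG a ω hω s
        rw [← hm] at h4
        refine le_trans (le_of_eq ?_) (mul_le_mul_of_nonneg_right h4 (Real.exp_pos _).le)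
        rw [sum_mul]
        refine sum_congr rfl fun ω _ => ?_
        rw [← Real.exp_add, hl, hr]
        congr 1
        ring
      obtain ⟨ω, hω, h5⟩ := exists_le_of_sum_le hTn hsum
      refine ⟨update w a ω, fun b hb => ?_, fun b hb c hc' hbc => ?_, h5⟩
      · rcases mem_insert.1 hb with rfl | hb
        · rw [update_self]
          exact ⟨hT hω, (hT2 ω hω).1⟩
        · rw [update_of_ne (ne_of_mem_of_not_mem hb ha)]
          exact h1 b hb
      · rcases mem_insert.1 hb with rfl | hb1 <;> rcases mem_insert.1 hc' with rfl | hc1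
        · exact absurd rfl hbc
        · rw [update_self, update_of_ne (ne_of_mem_of_not_mem hc1 ha)]
          exact (hT2 ω hω).2 c hc1
        · rw [update_self, update_of_ne (ne_of_mem_of_not_mem hb1 ha)]
          exact fun h => (hT2 ω hω).2 b hb1 (hcf _ _ _ _ h)
        · rw [update_of_ne (ne_of_mem_of_not_mem hb1 ha),
            update_of_ne (ne_of_mem_of_not_mem hc1 ha)]
          exact h2 b hb1 c hc1 hbc
  obtain ⟨w, h1, h2, h3⟩ := key univ
  exact ⟨w, fun a => h1 a (mem_univ a), fun a b => h2 a (mem_univ a) b (mem_univ b),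
    potG_load _ _ μ G hG (fun s => sum_nonneg fun a _ => hm0 a s) hμ0 Λ hΛ h3⟩

/-- The same without conflicts. -/
theorem potG0 {τ Ω σ : Type} [Fintype τ] [Fintype σ] (C : τ → Finset Ω) (hC : ∀ a, (C a).Nonempty)
    (X : τ → Ω → σ → ℝ) (G : ℝ) (hG : 0 < G) (hX0 : ∀ a ω s, 0 ≤ X a ω s)
    (hXG : ∀ a, ∀ ω ∈ C a, ∀ s, X a ω s ≤ G) (μ : σ → ℝ)
    (hμ : ∀ s, ∑ a, (∑ ω ∈ C a, X a ω s) / (C a).card ≤ μ s) (Λ : ℕ)
    (hΛ : Fintype.card σ ≤ 2 ^ Λ) :
    ∃ w : τ → Ω, (∀ a, w a ∈ C a) ∧ ∀ s, ∑ a, X a (w a) s ≤ 3 * μ s + G * Λ := by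
  obtain ⟨w, h1, -, h2⟩ := potG C hC X G hG hX0 hXG μ hμ Λ hΛ (fun _ _ => True)
    (fun _ _ _ _ => False) (fun _ _ _ _ h => h)
    fun S w a _ _ => ⟨C a, Subset.rfl, by omega, by simp⟩
  exact ⟨w, fun a => (h1 a).1, h2⟩

/-- Signs with small discrepancy for finitely many vectors. -/
theorem disc {M σ : Type} [Fintype M] [Fintype σ] (d : σ → M → ℝ) (V : ℝ)
    (hV : ∀ s, ∑ m, d s m ^ 2 ≤ V) (Λ : ℕ) (hΛ : 4 * Fintype.card σ ≤ 2 ^ Λ) (u : ℝ) (hu : 0 ≤ u)
    (hu2 : 2 * V * Λ ≤ u ^ 2) :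
    ∃ ε : M → Bool, ∀ s, |∑ m, if ε m then d s m else -d s m| ≤ u := by
  classical
  rcases isEmpty_or_nonempty σ with hσ | hσ
  · exact ⟨fun _ => true, fun s => isEmptyElim s⟩
  have hcp : 0 < Fintype.card σ := Fintype.card_pos
  have hΛp : (0 : ℝ) < Λ := by
    rcases Nat.eq_zero_or_pos Λ with rfl | h
    · omega
    · exact_mod_cast h
  rcases hu.eq_or_lt with rfl | hu'
  · have hV0 : V ≤ 0 := by nlinarith
    refine ⟨fun _ => true, fun s => ?_⟩
    have h1 : ∑ m, d s m ^ 2 = 0 :=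
      le_antisymm ((hV s).trans hV0) (sum_nonneg fun m _ => sq_nonneg _)
    rw [sum_eq_zero_iff_of_nonneg fun m _ => sq_nonneg _] at h1
    have h2 : ∀ m, d s m = 0 := fun m => pow_eq_zero_iff (two_ne_zero) |>.1 (h1 m (mem_univ m))
    simp [h2]
  by_contra hne
  push Not at hne
  obtain ⟨l, hl⟩ : ∃ l : ℝ, l = 2 * Λ / u := ⟨_, rfl⟩
  have hlu : l * u = 2 * Λ := by rw [hl]; field_simp
  have hl0 : 0 < l := by rw [hl]; positivity
  have hlV : l ^ 2 * V / 2 ≤ Λ := by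
    have h1 : (l ^ 2 * V / 2) * u ^ 2 ≤ Λ * u ^ 2 := by
      have h2 : (l ^ 2 * V / 2) * u ^ 2 = Λ * (2 * V * Λ) := by
        have : (l ^ 2 * V / 2) * u ^ 2 = (l * u) ^ 2 * V / 2 := by ring
        rw [this, hlu]
        ring
      rw [h2]
      exact mul_le_mul_of_nonneg_left hu2 hΛp.le
    exact le_of_mul_le_mul_right h1 (by positivity)
  have hup : ∀ s (l' : ℝ), l' ^ 2 = l ^ 2 →
      ∑ ε : M → Bool, Real.exp (l' * ∑ m, if ε m then d s m else -d s m) ≤
        2 ^ Fintype.card M * Real.exp Λ := by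
    intro s l' h
    refine (potG_mgf (d s) l').trans (mul_le_mul_of_nonneg_left ?_ (by positivity))
    rw [Real.exp_le_exp, h]
    have := mul_le_mul_of_nonneg_left (hV s) (sq_nonneg l)
    linarith
  have hlow : ∀ ε : M → Bool, Real.exp (2 * Λ) ≤
      ∑ s, (Real.exp (l * ∑ m, if ε m then d s m else -d s m) +
        Real.exp (-l * ∑ m, if ε m then d s m else -d s m)) := by
    intro ε
    obtain ⟨s, hs⟩ := hne ε
    refine le_trans ?_ (single_le_sum (f := fun s =>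
      Real.exp (l * ∑ m, if ε m then d s m else -d s m) +
        Real.exp (-l * ∑ m, if ε m then d s m else -d s m))
      (fun s _ => by positivity) (mem_univ s))
    generalize (∑ m, if ε m then d s m else -d s m) = x at hs ⊢
    have p1 := Real.exp_pos (l * x)
    have p2 := Real.exp_pos (-l * x)
    rcases lt_abs.1 hs with h | h
    · have : Real.exp (2 * Λ) ≤ Real.exp (l * x) := Real.exp_le_exp.2 (by nlinarith)
      linarith
    · have : Real.exp (2 * Λ) ≤ Real.exp (-l * x) := Real.exp_le_exp.2 (by nlinarith)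
      linarith
  have hall := sum_le_sum fun ε (_ : ε ∈ (univ : Finset (M → Bool))) => hlow ε
  rw [sum_comm, sum_const, card_univ, Fintype.card_fun, Fintype.card_bool, nsmul_eq_mul] at hall
  have hall2 : ∑ s : σ, ∑ ε : M → Bool, (Real.exp (l * ∑ m, if ε m then d s m else -d s m) +
        Real.exp (-l * ∑ m, if ε m then d s m else -d s m)) ≤
      ∑ _s : σ, 2 * (2 ^ Fintype.card M * Real.exp Λ) := by
    refine sum_le_sum fun s _ => ?_
    rw [sum_add_distrib]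
    have h1 := hup s l rfl
    have h2 := hup s (-l) (neg_sq l)
    linarith
  rw [sum_const, card_univ, nsmul_eq_mul] at hall2
  have h3 : (4 : ℝ) * Fintype.card σ ≤ Real.exp Λ := by
    have h4 : ((4 * Fintype.card σ : ℕ) : ℝ) ≤ ((2 ^ Λ : ℕ) : ℝ) := Nat.cast_le.2 hΛ
    push_cast at h4
    refine h4.trans ?_
    rw [← mul_one (Λ : ℝ), Real.exp_nat_mul]
    refine pow_le_pow_left₀ (by norm_num) ?_ Λ
    have := Real.add_one_le_exp 1
    linarith
  have h5 := hall.trans hall2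
  have hE := Real.exp_pos (Λ : ℝ)
  have h6 : Real.exp (2 * Λ) = Real.exp Λ * Real.exp Λ := by rw [← Real.exp_add, two_mul]
  have hP : (0 : ℝ) < 2 ^ Fintype.card M := by positivity
  push_cast at h5
  rw [h6] at h5
  have h7 : 2 ^ Fintype.card M * Real.exp Λ * Real.exp Λ ≤
      2 ^ Fintype.card M * Real.exp Λ * (2 * Fintype.card σ) := by linarith
  have h8 := le_of_mul_le_mul_left h7 (by positivity)
  linarith

end Pool.Agent.Lib.MP_deca50_lc.CES
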