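import Pool.Agent.Lib.MP_deca50_lc.CES.Basic
import Pool.Agent.Lib.MP_deca50_lc.CES.PotG

/-!
Extension of null pieces to signed rows.
-/

open Finset Function

set_option linter.unusedSectionVars false

namespace Pool.Agent.Lib.MP_deca50_lc.CES

variable {ι Y : Type} [Fintype ι] [DecidableEq ι] [Fintype Y] [DecidableEq Y]

/-- The piece `g` on the columns of `J`, completed by the entries of `b` elsewhere. -/
private def extRow (x₀ : Y) (J : Finset ι) (g : (ι → Y) → ℤ) (b : ι → Y) : (ι → Y) → ℤ :=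
  fun z => if Ag Jᶜ z b then g (res x₀ J z) else 0

private theorem ext_supp {A : ι → Finset Y} {x₀ : Y} {J : Finset ι} {g : (ι → Y) → ℤ}
    (hg : Supp (box A x₀ J) g) {b : ι → Y} (hb : b ∈ Fintype.piFinset A) :
    Supp A (extRow x₀ J g b) := fun z hz i => by
  unfold extRow at hz
  split_ifs at hz with h1
  · by_cases hi : i ∈ J
    · simpa [box, res, hi] using hg _ hz i
    · rw [h1 i (mem_compl.2 hi)]
      exact Fintype.mem_piFinset.1 hb i
  · exact absurd rfl hz

private theorem ext_ag_update {I : Finset ι} {j : ι} (hj : j ∉ I) (w y : ι → Y) (x : Y) :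
    Ag I (update w j x) y ↔ Ag I w y :=
  forall₂_congr fun i hi => by rw [update_of_ne (ne_of_mem_of_not_mem hi hj)]

private theorem ext_marg_zero (x₀ : Y) {J I : Finset ι} {g : (ι → Y) → ℤ} (hg : Null J g)
    (b : ι → Y) {j : ι} (hj : j ∈ J) (hI : j ∉ I) (y : ι → Y) :
    marg I (extRow x₀ J g b) y = 0 := by
  refine sum_eq_zero_of_lines j _ fun w => ?_
  have h1 : ∀ x, res x₀ J (update w j x) = update (res x₀ J w) j x := fun x => funext fun i => by
    by_cases hi : i = j
    · subst hi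
      simp [res, hj]
    · simp [res, hi]
  have h2 : j ∉ Jᶜ := by simpa using hj
  simp only [extRow, ext_ag_update hI, ext_ag_update h2, h1]
  split_ifs
  · exact hg j hj _
  · simp
  · simp

private theorem ext_marg_self (x₀ : Y) (J : Finset ι) (g : (ι → Y) → ℤ) (b y : ι → Y) :
    marg J (extRow x₀ J g b) y = g (res x₀ J y) := by
  rw [marg, sum_eq_single fun i => if i ∈ J then y i else b i]
  · have h1 : Ag J (fun i => if i ∈ J then y i else b i) y := fun i hi => if_pos hi
    have h2 : Ag Jᶜ (fun i => if i ∈ J then y i else b i) b :=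
      fun i hi => if_neg (mem_compl.1 hi)
    rw [if_pos h1, extRow, if_pos h2]
    exact congrArg g (funext fun i => by by_cases hi : i ∈ J <;> simp [res, hi])
  · intro z _ hz
    unfold extRow
    split_ifs with h1 h2
    · refine absurd (funext fun i => ?_) hz
      split_ifs with hi
      · exact h1 i hi
      · exact h2 i (mem_compl.2 hi)
    · rfl
    · rfl
  · simp

private theorem ext_mass_le (x₀ : Y) (J I : Finset ι) (g : (ι → Y) → ℤ) (b y : ι → Y) :
    mass I (extRow x₀ J g b) y ≤ if Ag (I \ J) b y then mass (I ∩ J) g y else 0 := by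
  have h0 : mass I (extRow x₀ J g b) y =
      ∑ z ∈ univ.filter fun z => Ag I z y ∧ Ag Jᶜ z b, |(g (res x₀ J z) : ℝ)| := by
    rw [mass, sum_filter]
    refine sum_congr rfl fun z _ => ?_
    unfold extRow
    by_cases h1 : Ag I z y <;> by_cases h2 : Ag Jᶜ z b <;> simp [h1, h2]
  rw [h0]
  split_ifs with h
  · rw [mass, ← sum_filter, ← sum_image (f := fun w => |(g w : ℝ)|) (g := res x₀ J)]
    · refine sum_le_sum_of_subset_of_nonneg (image_subset_iff.2 fun z hz => ?_)
        fun _ _ _ => abs_nonneg _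
      simp only [mem_filter, mem_univ, true_and] at hz ⊢
      intro i hi
      rw [res, if_pos (mem_inter.1 hi).2]
      exact hz.1 i (mem_inter.1 hi).1
    · intro z hz z' hz' e
      simp only [coe_filter, mem_univ, true_and, Set.mem_ofPred_eq] at hz hz'
      funext i
      by_cases hi : i ∈ J
      · simpa [res, hi] using congrFun e i
      · rw [hz.2 i (mem_compl.2 hi), hz'.2 i (mem_compl.2 hi)]
  · refine (sum_eq_zero fun z hz => absurd (fun i hi => ?_) h).le
    simp only [mem_filter, mem_univ, true_and] at hz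
    rw [← hz.2 i (mem_compl.2 (mem_sdiff.1 hi).2), hz.1 i (mem_sdiff.1 hi).1]

private theorem ext_mass_le_total (I : Finset ι) (g : (ι → Y) → ℤ) (y : ι → Y) :
    mass I g y ≤ ∑ z, |(g z : ℝ)| :=
  sum_le_sum fun z _ => by split_ifs <;> simp

/-- A bounded function that vanishes outside a box has a bounded sum. -/
private theorem ext_sum_box (F : (ι → Y) → ℝ) (E : ι → Finset Y) (P : ℝ)
    (hE : ∀ z, F z ≠ 0 → ∀ i, z i ∈ E i) (hP : ∀ z, F z ≤ P) :
    ∑ z, F z ≤ P * ∏ i, ((E i).card : ℝ) := by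
  rw [← sum_subset (subset_univ (Fintype.piFinset E)), ← Nat.cast_prod, ← Fintype.card_piFinset,
    mul_comm, ← nsmul_eq_mul]
  · exact sum_le_card_nsmul _ _ _ fun z _ => hP z
  · intro z _ hz
    by_contra h0
    exact hz (Fintype.mem_piFinset.2 (hE z h0))

private theorem ext_sum_lines (F : (ι → Y) → ℝ) (j : ι) (x₀ : Y) :
    ∑ z, F z = ∑ w : ι → Y, if w j = x₀ then ∑ x, F (update w j x) else 0 := by
  have hinv : Involutive fun p : (ι → Y) × Y => (update p.1 j p.2, p.1 j) := fun p => by simp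
  have h := hinv.bijective.sum_comp fun p : (ι → Y) × Y => if p.2 = x₀ then F p.1 else 0
  simp only [Fintype.sum_prod_type, sum_ite_eq', mem_univ, if_true] at h
  rw [← h]
  exact sum_congr rfl fun w _ => by split_ifs <;> simp

private theorem ext_prod_ite (K : Finset ι) (m : ℝ) :
    ∏ i, (if i ∈ K then m else 1) = m ^ K.card := by
  rw [prod_ite_mem, univ_inter, prod_const]

private theorem ext_avg {m : ℕ} {A : ι → Finset Y} (hA : ∀ i, (A i).card = m) (hm : 0 < m)
    (K : Finset ι) (y : ι → Y) {c : ℝ} (hc : 0 ≤ c) :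
    (∑ b ∈ Fintype.piFinset A, if Ag K b y then c else 0) / (Fintype.piFinset A).card ≤
      c / m ^ K.card := by
  have hm' : (0 : ℝ) < m := by exact_mod_cast hm
  have h1 : (∑ b ∈ Fintype.piFinset A, if Ag K b y then c else 0) ≤ c * m ^ Kᶜ.card := by
    have h2 := ext_sum_box (fun b => if b ∈ Fintype.piFinset A then if Ag K b y then c else 0
      else 0) (fun i => if i ∈ Kᶜ then A i else {y i}) c (fun z hz i => ?_) fun z => ?_
    · rw [sum_ite_mem, univ_inter] at h2
      refine h2.trans_eq (congrArg _ ?_)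
      rw [← ext_prod_ite]
      exact prod_congr rfl fun i _ => by split_ifs <;> simp [hA]
    · split_ifs at hz with h3 h4
      · split_ifs with hi
        · exact Fintype.mem_piFinset.1 h3 i
        · exact mem_singleton.2 (h4 i (by simpa using hi))
      · exact absurd rfl hz
      · exact absurd rfl hz
    · split_ifs <;> simp [hc]
  have h3 : ((Fintype.piFinset A).card : ℝ) = m ^ K.card * m ^ Kᶜ.card := by
    rw [Fintype.card_piFinset, ← pow_add, card_add_card_compl]
    simp [hA]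
  rw [h3, div_le_div_iff₀ (by positivity) (by positivity)]
  calc _ ≤ c * m ^ Kᶜ.card * m ^ K.card := by gcongr
    _ = _ := by ring

private theorem ext_load {τ : Type} [Fintype τ] {m : ℕ} {A : ι → Finset Y}
    (hA : ∀ i, (A i).card = m) {x₀ : Y} {J : Finset ι} {g : τ → (ι → Y) → ℤ}
    (hs : ∀ b, Supp (box A x₀ J) (g b)) {P : ℝ} (hP0 : 0 ≤ P)
    (hP : ∀ y, ∑ b, |(g b y : ℝ)| ≤ P) (I : Finset ι) (y : ι → Y) :
    ∑ b, mass (I ∩ J) (g b) y ≤ P * m ^ (J \ I).card := by
  simp only [mass]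
  rw [sum_comm]
  refine (ext_sum_box _ (fun i => if i ∈ I ∩ J then {y i} else box A x₀ J i) P
    (fun z hz i => ?_) fun z => ?_).trans_eq (congrArg _ ?_)
  · obtain ⟨b, -, hb⟩ := exists_ne_zero_of_sum_ne_zero hz
    split_ifs at hb with h1
    · split_ifs with hi
      · exact mem_singleton.2 (h1 i hi)
      · exact hs b z (by simpa using hb) i
    · exact absurd rfl hb
  · split_ifs
    · exact hP z
    · simpa using hP0
  · rw [← ext_prod_ite]
    exact prod_congr rfl fun i _ => by
      by_cases h1 : i ∈ I <;> by_cases h2 : i ∈ J <;> simp [box, hA, h1, h2]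

private theorem ext_load_line {τ : Type} [Fintype τ] {m : ℕ} {A : ι → Finset Y}
    (hA : ∀ i, (A i).card = m) {x₀ : Y} {J : Finset ι} {g : τ → (ι → Y) → ℤ}
    (hs : ∀ b, Supp (box A x₀ J) (g b)) {Q : ℝ} (hQ0 : 0 ≤ Q) {j : ι} (hj : j ∈ J)
    (hQ : ∀ y, ∑ b, lmass j (g b) y ≤ Q * (box A x₀ J j).card) {I : Finset ι} (hI : j ∉ I)
    (y : ι → Y) : ∑ b, mass (I ∩ J) (g b) y ≤ Q * m ^ (J \ I).card := by
  have h0 : j ∉ I ∩ J := fun h => hI (mem_inter.1 h).1
  have h2 : j ∈ J \ I := mem_sdiff.2 ⟨hj, hI⟩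
  simp only [box, if_pos hj, hA, lmass] at hQ
  simp only [mass]
  rw [sum_comm, ext_sum_lines _ j x₀]
  simp only [ext_ag_update h0]
  refine (ext_sum_box _
    (fun i => if i = j then {x₀} else if i ∈ I ∩ J then {y i} else box A x₀ J i) (Q * m)
    (fun z hz i => ?_) fun z => ?_).trans_eq ?_
  · split_ifs at hz with h3 h1
    · obtain ⟨x, -, hx⟩ := exists_ne_zero_of_sum_ne_zero hz
      obtain ⟨b, -, hb⟩ := exists_ne_zero_of_sum_ne_zero hx
      split_ifs with hi hi'
      · exact mem_singleton.2 (hi ▸ h3)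
      · exact mem_singleton.2 (h1 i hi')
      · simpa [update_of_ne hi] using hs b (update z j x) (by simpa using hb) i
    · simp at hz
    · exact absurd rfl hz
  · split_ifs
    · rw [sum_comm]
      exact hQ z
    · simpa using mul_nonneg hQ0 (Nat.cast_nonneg m)
    · exact mul_nonneg hQ0 (Nat.cast_nonneg m)
  · rw [← card_erase_add_one h2, pow_succ', mul_assoc, ← ext_prod_ite]
    refine congrArg _ (congrArg _ (prod_congr rfl fun i _ => ?_))
    by_cases h : i = j
    · simp [h]
    · by_cases h1 : i ∈ I <;> by_cases h2 : i ∈ J <;> simp [box, hA, h1, h2, h]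

theorem extend {Λ m : ℕ} (hΛ : Big ι Y Λ) (A : ι → Finset Y) (hA : ∀ i, (A i).card = m)
    (hm : 0 < m) (x₀ : Y) (j : ℕ) (h : Finset ι → (ι → Y) → ℤ) (G P Q : ℝ) (hG : 0 < G)
    (hP : 0 ≤ P) (hQ : 0 ≤ Q) (hd : ∀ J : Finset ι, J.card = j → Dec J (box A x₀ J) (h J) G P Q) :
    ∃ Ψ : (ι → Y) → ℤ, Supp A Ψ ∧
      (∀ I : Finset ι, I.card = j → ∀ y, marg I Ψ y = h I (res x₀ I y)) ∧
      (∀ I : Finset ι, I.card < j → ∀ y, marg I Ψ y = 0) ∧
      (∀ (I : Finset ι) y, mass I Ψ y ≤ 3 * (Λ ^ j * P * m ^ j / m ^ I.card) + G * Λ) ∧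
      ∀ I : Finset ι, I.card < j → ∀ y,
        mass I Ψ y ≤ 3 * (Λ ^ j * Q * m ^ j / m ^ I.card) + G * Λ := by
  have hm' : (0 : ℝ) < m := by exact_mod_cast hm
  choose τ inst g h1 h2 h3 h4 h5 h6 using fun J : Ed ι j => hd J.1 J.2
  have hlt : ∀ (J : Ed ι j) (I : Finset ι), I.card < j → ∃ i ∈ J.1, i ∉ I := fun J I hI =>
    exists_mem_notMem_of_card_lt_card (hI.trans_eq J.2.symm)
  have hE : (Fintype.card (Ed ι j) : ℝ) ≤ Λ ^ j := by
    rw [Fintype.card_finset_len]
    exact_mod_cast (Nat.choose_le_pow _ _).trans (Nat.pow_le_pow_left hΛ.2.1 j)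
  have hσ : Fintype.card (Finset ι × (ι → Y)) ≤ 2 ^ Λ := by
    have := hΛ.2.2.2
    rw [Fintype.card_prod, Fintype.card_finset, Fintype.card_fun]
    rw [mul_assoc] at this
    omega
  have hμ : ∀ s : Finset ι × (ι → Y), ∑ a : Σ J, τ J, (∑ b ∈ Fintype.piFinset A,
      mass s.1 (extRow x₀ a.1.1 (g a.1 a.2) b) s.2) / (Fintype.piFinset A).card ≤
      Λ ^ j * (if s.1.card < j then min P Q else P) * m ^ j / m ^ s.1.card := by
    rintro ⟨I, y⟩
    have hR : 0 ≤ if I.card < j then min P Q else P := by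
      split_ifs
      · exact le_min hP hQ
      · exact hP
    rw [Fintype.sum_sigma]
    calc _ ≤ ∑ _J : Ed ι j, (if I.card < j then min P Q else P) * m ^ j / m ^ I.card :=
          sum_le_sum fun J _ => ?_
      _ ≤ _ := by
          rw [sum_const, card_univ, nsmul_eq_mul, mul_assoc, mul_div_assoc ((Λ : ℝ) ^ j)]
          gcongr
    have e1 : ∑ b, mass (I ∩ J.1) (g J b) y ≤
        (if I.card < j then min P Q else P) * m ^ (J.1 \ I).card := by
      have e2 := ext_load hA (h2 J) hP (h5 J) I y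
      split_ifs with hI
      · obtain ⟨i, hi, hi'⟩ := hlt J I hI
        rw [min_mul_of_nonneg _ _ (by positivity)]
        exact le_min e2 (ext_load_line hA (h2 J) hQ hi (h6 J i hi) hi' y)
      · exact e2
    calc _ ≤ ∑ b, mass (I ∩ J.1) (g J b) y / m ^ (I \ J.1).card := sum_le_sum fun b _ =>
          le_trans (div_le_div_of_nonneg_right (sum_le_sum fun _ _ => ext_mass_le _ _ _ _ _ _)
            (Nat.cast_nonneg _)) (ext_avg hA hm _ _ (mass_nonneg _ _ _))
      _ ≤ (if I.card < j then min P Q else P) * m ^ (J.1 \ I).card / m ^ (I \ J.1).card := by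
          rw [← sum_div]
          gcongr
      _ = _ := by
          have e3 := card_sdiff_add_card_inter I J.1
          have e4 := card_sdiff_add_card_inter J.1 I
          rw [inter_comm, J.2] at e4
          rw [div_eq_div_iff (by positivity) (by positivity), mul_assoc, mul_assoc, ← pow_add,
            ← pow_add]
          congr 2
          omega
  obtain ⟨w, hw, hX⟩ := potG0 (τ := Σ J, τ J) (σ := Finset ι × (ι → Y))
    (fun _ => Fintype.piFinset A)
    (fun _ => Fintype.piFinset_nonempty.2 fun i => card_pos.1 (hA i ▸ hm))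
    (fun a b s => mass s.1 (extRow x₀ a.1.1 (g a.1 a.2) b) s.2) G hG
    (fun _ _ _ => mass_nonneg _ _ _)
    (fun a b _ s => (ext_mass_le _ _ _ _ _ _).trans (by
      split_ifs
      · exact (ext_mass_le_total _ _ _).trans (h4 _ _)
      · exact hG.le))
    _ hμ Λ hσ
  have hM : ∀ (I : Finset ι) y, mass I (∑ a : Σ J, τ J, extRow x₀ a.1.1 (g a.1 a.2) (w a)) y ≤
      3 * (Λ ^ j * (if I.card < j then min P Q else P) * m ^ j / m ^ I.card) + G * Λ :=
    fun I y => (mass_sum_le _ _ _ _).trans (hX (I, y))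
  refine ⟨∑ a : Σ J, τ J, extRow x₀ a.1.1 (g a.1 a.2) (w a),
    Supp.sum fun a _ => ext_supp (h2 _ _) (hw a), fun I hI y => ?_, fun I hI y => ?_,
    fun I y => (hM I y).trans ?_, fun I hI y => (hM I y).trans ?_⟩
  · rw [marg_sum, Fintype.sum_sigma, sum_eq_single (⟨I, hI⟩ : Ed ι j)]
    · simp only [ext_marg_self]
      exact (h1 ⟨I, hI⟩ _).symm
    · intro J _ hJ
      obtain ⟨i, hi, hi'⟩ := not_subset.1 fun hs : J.1 ⊆ I =>
        hJ (Subtype.ext (eq_of_subset_of_card_le hs (hI.trans J.2.symm).le))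
      exact sum_eq_zero fun b _ => ext_marg_zero _ (h3 _ _) _ hi hi' _
    · simp
  · rw [marg_sum]
    refine sum_eq_zero fun a _ => ?_
    obtain ⟨i, hi, hi'⟩ := hlt a.1 I hI
    exact ext_marg_zero _ (h3 _ _) _ hi hi' _
  · gcongr
    split_ifs <;> simp
  · rw [if_pos hI]
    gcongr
    exact min_le_right _ _

end Pool.Agent.Lib.MP_deca50_lc.CES
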