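import Pool.Agent.Lib.MP_deca50_lc.CES.Round

/-!
A round of gadgets whose new points are chosen independently.
-/

open Finset Function

set_option linter.unusedSectionVars false

namespace Pool.Agent.Lib.MP_deca50_lc.CES

variable {K F ι : Type} [Field K] [Fintype K] [DecidableEq K] [AddCommGroup F] [Module K F]
  [Fintype F] [DecidableEq F] [Fintype ι] [DecidableEq ι] {t : ℕ}

section Aux

variable {L : Type}

/-- The point with label `l` in column `i`. -/
private noncomputable def freshPt (rt : ι → L → Prop) (root : ι → L → F) (ω : ι × L → F)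
    (i : ι) (l : L) : F := by
  classical
  exact if rt i l then root i l else ω (i, l)

private theorem freshPt_rt {rt : ι → L → Prop} (root : ι → L → F) (ω : ι × L → F) {i : ι} {l : L}
    (h : rt i l) : freshPt rt root ω i l = root i l := by
  simp [freshPt, h]

private theorem freshPt_not {rt : ι → L → Prop} (root : ι → L → F) (ω : ι × L → F) {i : ι} {l : L}
    (h : ¬ rt i l) : freshPt rt root ω i l = ω (i, l) := by
  simp [freshPt, h]

private theorem freshPt_ne [DecidableEq L] (rt : ι → L → Prop) (root : ι → L → F) (ω : ι × L → F)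
    {i : ι} {l : L} {m : ι × L} (h : (i, l) ≠ m) (z : F) :
    freshPt rt root (update ω m z) i l = freshPt rt root ω i l := by
  by_cases h' : rt i l
  · rw [freshPt_rt _ _ h', freshPt_rt _ _ h']
  · rw [freshPt_not _ _ h', freshPt_not _ _ h', update_of_ne h]

private theorem freshPt_same [DecidableEq L] {rt : ι → L → Prop} (root : ι → L → F)
    (ω : ι × L → F) {i : ι} {l : L} (h : ¬ rt i l) (z : F) :
    freshPt rt root (update ω (i, l) z) i l = z := by
  rw [freshPt_not _ _ h, update_self]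

private theorem fresh_union {Ω J : Type} [Fintype Ω] [Fintype J] (P : J → Ω → Prop)
    [∀ j, DecidablePred (P j)] (N q : ℕ)
    (h : ∀ j, (univ.filter (P j)).card * N ≤ q) :
    ∃ T : Finset Ω, T.card * N ≤ Fintype.card J * q ∧ ∀ ω, ω ∉ T → ∀ j, ¬ P j ω := by
  classical
  refine ⟨univ.biUnion fun j => univ.filter (P j), ?_, ?_⟩
  · calc (univ.biUnion fun j => univ.filter (P j)).card * N
        ≤ (∑ j, (univ.filter (P j)).card) * N := Nat.mul_le_mul_right _ card_biUnion_le
      _ = ∑ j, (univ.filter (P j)).card * N := sum_mul _ _ _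
      _ ≤ ∑ _j : J, q := sum_le_sum fun j _ => h j
      _ = Fintype.card J * q := by simp
  · intro ω hω j hj
    exact hω (mem_biUnion.2 ⟨j, mem_univ _, mem_filter.2 ⟨mem_univ _, hj⟩⟩)

private theorem fresh_compl {A : Finset F} {β : ℕ} (hA : Fintype.card F ≤ A.card + β)
    (f : F → F) (hf : Injective f) : (univ.filter fun z => f z ∉ A).card ≤ β := by
  have h1 : (univ.filter fun z => f z ∉ A).card ≤ (Aᶜ).card :=
    card_le_card_of_injOn f (fun z hz => by
      simpa using (mem_filter.1 (mem_coe.1 hz)).2) hf.injOn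
  rw [card_compl] at h1
  omega

private theorem fresh_aff_inj (x : F) {u : K} (hu : u ≠ 0) : Injective fun z : F => x + u • z := by
  intro z z' h
  have h' : u • z = u • z' := add_left_cancel h
  have := congrArg (fun w => u⁻¹ • w) h'
  simpa [smul_smul, inv_mul_cancel₀ hu] using this

variable [Fintype L] [DecidableEq L] {s : ι → K} {rt : ι → L → Prop} {root : ι → L → F}

private theorem fresh_line (hs : Injective s) {I : Finset ι} (hI : I.card = t) {c : ι → L}
    {row : (ι × L → F) → Fin t → F}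
    (hrow : ∀ ω, ∀ i ∈ I, ev s (row ω) i = freshPt rt root ω i (c i))
    {i₀ : ι} (hi : i₀ ∈ I) (hf : ¬ rt i₀ (c i₀)) :
    ∃ π : Fin t → K, π ≠ 0 ∧ (∀ i, i ∉ I → ev s π i ≠ 0) ∧
      ∀ ω z, row (update ω (i₀, c i₀) z) = ln (row (update ω (i₀, c i₀) 0)) π z := by
  obtain ⟨π, hπ, h1, h0, hn⟩ := exists_lag hs hI hi
  refine ⟨π, hπ, hn, fun ω z => ev_ext hs hI fun i hi' => ?_⟩
  rw [ev_ln, hrow _ i hi', hrow _ i hi']
  by_cases h : i = i₀
  · subst h
    rw [freshPt_same _ _ hf, freshPt_same _ _ hf, h1, one_smul, zero_add]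
  · have hne : (i, c i) ≠ (i₀, c i₀) := fun e => h (congrArg Prod.fst e)
    rw [freshPt_ne _ _ _ hne, freshPt_ne _ _ _ hne, h0 i hi' h, zero_smul, add_zero]

private theorem fresh_hi (hs : Injective s) {I : Finset ι} (hI : I.card = t) {c : ι → L}
    {row : (ι × L → F) → Fin t → F}
    (hrow : ∀ ω, ∀ i ∈ I, ev s (row ω) i = freshPt rt root ω i (c i))
    (h1 : ∃ i ∈ I, ¬ rt i (c i)) (T : Finset (Fin t → F)) (q : ℕ) (hT : LB K T q) :
    (univ.filter fun ω => row ω ∈ T).card * Fintype.card F ≤ q * Fintype.card (ι × L → F) := by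
  obtain ⟨i₀, hi, hf⟩ := h1
  obtain ⟨π, hπ, -, hl⟩ := fresh_line hs hI hrow hi hf
  refine fib (fun ω => row ω ∈ T) (i₀, c i₀) q fun ω => ?_
  refine le_trans (le_of_eq ?_) (hT (row (update ω (i₀, c i₀) 0)) π hπ)
  congr 1
  ext z
  simp only [mem_filter, mem_univ, true_and]
  rw [hl ω z]

private theorem fresh_out (hs : Injective s) {I : Finset ι} (hI : I.card = t) {c : ι → L}
    {row : (ι × L → F) → Fin t → F}
    (hrow : ∀ ω, ∀ i ∈ I, ev s (row ω) i = freshPt rt root ω i (c i))
    (h1 : ∃ i ∈ I, ¬ rt i (c i)) {A : Finset F} {β : ℕ} (hA : Fintype.card F ≤ A.card + β)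
    {i : ι} (hi' : i ∉ I) :
    (univ.filter fun ω => ev s (row ω) i ∉ A).card * Fintype.card F ≤
      β * Fintype.card (ι × L → F) := by
  obtain ⟨i₀, hi, hf⟩ := h1
  obtain ⟨π, -, hn, hl⟩ := fresh_line hs hI hrow hi hf
  refine fib (fun ω => ev s (row ω) i ∉ A) (i₀, c i₀) β fun ω => ?_
  have := fresh_compl hA _ (fresh_aff_inj (ev s (row (update ω (i₀, c i₀) 0)) i) (hn i hi'))
  refine le_trans (le_of_eq ?_) this
  congr 1
  ext z
  simp only [mem_filter, mem_univ, true_and]
  rw [hl ω z, ev_ln]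

private theorem fresh_coord {A : Finset F} {β : ℕ} (hA : Fintype.card F ≤ A.card + β)
    (m : ι × L) :
    (univ.filter fun ω : ι × L → F => ω m ∉ A).card * Fintype.card F ≤
      β * Fintype.card (ι × L → F) := by
  refine fib (fun ω : ι × L → F => ω m ∉ A) m β fun ω => ?_
  have := fresh_compl hA id injective_id
  refine le_trans (le_of_eq ?_) this
  congr 1
  ext z
  simp

private theorem fresh_col (hs : Injective s) {I I' : Finset ι} (hI : I.card = t)
    (hI' : I'.card = t) {c c' : ι → L} {row row' : (ι × L → F) → Fin t → F}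
    (hrow : ∀ ω, ∀ i ∈ I, ev s (row ω) i = freshPt rt root ω i (c i))
    (hrow' : ∀ ω, ∀ i ∈ I', ev s (row' ω) i = freshPt rt root ω i (c' i))
    (h1 : ∃ i ∈ I, ¬ rt i (c i))
    (h2 : I = I' → ¬ ∀ i ∈ I, (¬ rt i (c i) ∧ c i = c' i) ∨
      (rt i (c i) ∧ rt i (c' i) ∧ root i (c i) = root i (c' i))) :
    (univ.filter fun ω => row ω = row' ω).card * Fintype.card F ≤
      1 * Fintype.card (ι × L → F) := by
  by_cases hII : I = I'
  · have h2' := h2 hII
    subst hII
    simp only [not_forall, not_or] at h2'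
    obtain ⟨i, hi, ha, hb⟩ := h2'
    have key : ∀ ω, row ω = row' ω →
        freshPt rt root ω i (c i) = freshPt rt root ω i (c' i) := fun ω h => by
      rw [← hrow ω i hi, ← hrow' ω i hi, h]
    by_cases hr : rt i (c i)
    · by_cases hr' : rt i (c' i)
      · have : (univ.filter fun ω => row ω = row' ω) = ∅ := by
          refine filter_eq_empty_iff.2 fun ω _ h => hb ⟨hr, hr', ?_⟩
          have := key ω h
          rwa [freshPt_rt _ _ hr, freshPt_rt _ _ hr'] at this
        rw [this]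
        simp
      · refine fib (fun ω => row ω = row' ω) (i, c' i) 1 fun ω => card_le_one.2 ?_
        intro z hz z' hz'
        have e1 := key _ (mem_filter.1 hz).2
        have e2 := key _ (mem_filter.1 hz').2
        rw [freshPt_rt _ _ hr, freshPt_same _ _ hr'] at e1 e2
        exact e1.symm.trans e2
    · have hc : c i ≠ c' i := fun e => ha ⟨hr, e⟩
      have hne : (i, c' i) ≠ (i, c i) := fun e => hc (congrArg Prod.snd e).symm
      refine fib (fun ω => row ω = row' ω) (i, c i) 1 fun ω => card_le_one.2 ?_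
      intro z hz z' hz'
      have e1 := key _ (mem_filter.1 hz).2
      have e2 := key _ (mem_filter.1 hz').2
      rw [freshPt_same _ _ hr, freshPt_ne _ _ _ hne] at e1 e2
      exact e1.trans e2.symm
  · have hex : ∃ i₁ ∈ I', i₁ ∉ I := by
      by_contra hcon
      simp only [not_exists, not_and, not_not] at hcon
      exact hII (eq_of_subset_of_card_le (fun i hi => hcon i hi) (by omega)).symm
    obtain ⟨i₁, hi₁, hn₁⟩ := hex
    obtain ⟨i₀, hi, hf⟩ := h1
    obtain ⟨π, -, hn, hl⟩ := fresh_line hs hI hrow hi hf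
    have hne : (i₁, c' i₁) ≠ (i₀, c i₀) := fun e => hn₁ (by
      have : i₁ = i₀ := congrArg Prod.fst e
      rw [this]; exact hi)
    refine fib (fun ω => row ω = row' ω) (i₀, c i₀) 1 fun ω => card_le_one.2 ?_
    have key : ∀ z, row (update ω (i₀, c i₀) z) = row' (update ω (i₀, c i₀) z) →
        ev s (row (update ω (i₀, c i₀) 0)) i₁ + ev s π i₁ • z =
          freshPt rt root ω i₁ (c' i₁) := fun z h => by
      rw [← ev_ln, ← hl ω z, h, hrow' _ i₁ hi₁, freshPt_ne _ _ _ hne]
    intro z hz z' hz'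
    exact fresh_aff_inj _ (hn i₁ hn₁)
      ((key z (mem_filter.1 hz).2).trans (key z' (mem_filter.1 hz').2).symm)

private theorem fresh_eq {I : Finset ι} (hI : I.card = t) {c : ι → L}
    {row : (ι × L → F) → Fin t → F}
    (hrow : ∀ ω, ∀ i ∈ I, ev s (row ω) i = freshPt rt root ω i (c i))
    (h1 : ∃ i ∈ I, ¬ rt i (c i)) {anc : ι → F}
    (hanc : ∀ i ∈ I, rt i (c i) → root i (c i) = anc i) (φ : Fin t → F) :
    (univ.filter fun ω => row ω = φ).card * Fintype.card F ≤
      ∑ Z ∈ univ.filter (fun Z : Finset ι => Z.card < t),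
        if Ag Z anc (ev s φ) then
          Fintype.card (ι × L → F) / Fintype.card F ^ (t - 1 - Z.card) else 0 := by
  classical
  by_cases hemp : (univ.filter fun ω => row ω = φ) = ∅
  · rw [hemp]
    simp
  obtain ⟨ω₀, hω₀⟩ := nonempty_iff_ne_empty.2 hemp
  have hω₀' : row ω₀ = φ := (mem_filter.1 hω₀).2
  set Z := I.filter fun i => rt i (c i) with hZ
  set U := I.filter fun i => ¬ rt i (c i) with hU
  have hZU : Z.card + U.card = t := by
    rw [← hI]
    exact card_filter_add_card_filter_not _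
  have hU1 : 1 ≤ U.card := by
    obtain ⟨i, hi, hf⟩ := h1
    exact card_pos.2 ⟨i, mem_filter.2 ⟨hi, hf⟩⟩
  have hAg : Ag Z anc (ev s φ) := fun i hi => by
    obtain ⟨hi1, hi2⟩ := mem_filter.1 hi
    rw [← hω₀', hrow _ i hi1, freshPt_rt _ _ hi2, hanc i hi1 hi2]
  have hT : (U.image fun i => (i, c i)).card = U.card :=
    card_image_of_injective _ fun i j e => congrArg Prod.fst e
  have hm := card_agree_mul (U.image fun i => (i, c i)) (fun m : ι × L => ev s φ m.1)
  have hsub : (univ.filter fun ω => row ω = φ).card ≤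
      (univ.filter fun ω : ι × L → F =>
        Ag (U.image fun i => (i, c i)) ω fun m : ι × L => ev s φ m.1).card := by
    refine card_le_card fun ω hω => mem_filter.2 ⟨mem_univ _, fun m hm => ?_⟩
    obtain ⟨i, hi, rfl⟩ := mem_image.1 hm
    obtain ⟨hi1, hi2⟩ := mem_filter.1 hi
    have := hrow ω i hi1
    rw [freshPt_not _ _ hi2, (mem_filter.1 hω).2] at this
    exact this.symm
  have hpos : 0 < Fintype.card F ^ (t - 1 - Z.card) := pow_pos Fintype.card_pos _
  have hle : (univ.filter fun ω => row ω = φ).card * Fintype.card F ≤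
      Fintype.card (ι × L → F) / Fintype.card F ^ (t - 1 - Z.card) := by
    rw [Nat.le_div_iff_mul_le hpos, ← hm, hT, mul_assoc, ← pow_succ']
    have : t - 1 - Z.card + 1 = U.card := by omega
    rw [this]
    exact Nat.mul_le_mul_right _ hsub
  have hmem : Z ∈ univ.filter (fun Z : Finset ι => Z.card < t) :=
    mem_filter.2 ⟨mem_univ _, by omega⟩
  refine le_trans ?_ (single_le_sum (f := fun Z : Finset ι => if Ag Z anc (ev s φ) then
    Fintype.card (ι × L → F) / Fintype.card F ^ (t - 1 - Z.card) else 0)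
    (fun _ _ => Nat.zero_le _) hmem)
  simp only [if_pos hAg]
  exact hle

private theorem fresh_sum {τ : Type} [Fintype τ] (hk : t ≤ Fintype.card ι) (x : τ → ι → F)
    {D : ℕ}
    (h : ∀ J : Finset ι, J.card + 1 = t → ∀ y, (univ.filter fun a => Ag J (x a) y).card ≤ D)
    (y : ι → F) (W : ℕ) :
    (∑ a, ∑ Z ∈ univ.filter (fun Z : Finset ι => Z.card < t),
        if Ag Z (x a) y then W / Fintype.card F ^ (t - 1 - Z.card) else 0) ≤
      (Fintype.card ι + 1) ^ t * (D * W) := by
  rw [sum_comm]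
  calc _ ≤ ∑ _Z ∈ univ.filter (fun Z : Finset ι => Z.card < t), D * W := by
        refine sum_le_sum fun Z hZ => ?_
        rw [← sum_filter, sum_const, smul_eq_mul]
        calc _ ≤ D * Fintype.card F ^ (t - 1 - Z.card) *
              (W / Fintype.card F ^ (t - 1 - Z.card)) :=
              Nat.mul_le_mul_right _ (count_agree hk x h (mem_filter.1 hZ).2 y)
          _ ≤ D * W := by
              rw [mul_assoc]
              exact Nat.mul_le_mul_left _ (Nat.mul_div_le _ _)
    _ ≤ _ := by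
        rw [sum_const, smul_eq_mul]
        exact Nat.mul_le_mul_right _ (card_small_sets ι t)

end Aux

private theorem fresh_num {G β D Λ N : ℕ} (t : ℕ) (hG : 1 ≤ G)
    (hN : 12 * G ^ (t + 2) * (β + D + Λ + 1) ≤ N) :
    4 * G * (β + 3 * (G ^ (t + 1) * D) + G * Λ) ≤ N ∧ 4 * (G * G * (2 * β + 1)) ≤ N ∧
      3 * (G ^ (t + 1) * D) + G * Λ ≤ 3 * G ^ (t + 1) * (D + Λ) := by
  have h0 : 1 ≤ G ^ t := Nat.one_le_pow _ _ hG
  have e1 : G ^ (t + 1) = G ^ t * G := pow_succ _ _
  have e2 : G ^ (t + 2) = G ^ t * G * G := by rw [pow_succ, e1]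
  rw [e2] at hN
  rw [e1]
  generalize G ^ t = P at *
  have a1 : G ≤ P * G := Nat.le_mul_of_pos_left _ h0
  have a2 : P * G ≤ P * G * G := Nat.le_mul_of_pos_right _ hG
  have a3 : G * G ≤ P * G * G := Nat.mul_le_mul_right _ a1
  have b1 : G * β ≤ P * G * G * β := Nat.mul_le_mul_right _ (a1.trans a2)
  have b2 : G * G * β ≤ P * G * G * β := Nat.mul_le_mul_right _ a3
  have b3 : G * G * Λ ≤ P * G * G * Λ := Nat.mul_le_mul_right _ a3
  have b4 : G * Λ ≤ P * G * Λ := Nat.mul_le_mul_right _ a1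
  refine ⟨?_, ?_, ?_⟩ <;> nlinarith

theorem fresh {τ S L : Type} [Fintype τ] [Fintype S] [Fintype L] {s : ι → K} (hs : Injective s)
    (hk : t ≤ Fintype.card ι) (rt : τ → ι → L → Prop) (root : τ → ι → L → F)
    (act : τ → S → Prop) (I : τ → S → Finset ι) (c : τ → S → ι → L) (anc : τ → S → ι → F)
    (hI : ∀ a σ, act a σ → (I a σ).card = t)
    (h1 : ∀ a σ, act a σ → ∃ i ∈ I a σ, ¬ rt a i (c a σ i))
    (h2 : ∀ a σ σ', act a σ → act a σ' → I a σ = I a σ' →
      (∀ i ∈ I a σ, (¬ rt a i (c a σ i) ∧ c a σ i = c a σ' i) ∨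
        (rt a i (c a σ i) ∧ rt a i (c a σ' i) ∧ root a i (c a σ i) = root a i (c a σ' i))) →
      σ = σ')
    (hanc : ∀ a σ, act a σ → ∀ i ∈ I a σ, rt a i (c a σ i) → root a i (c a σ i) = anc a σ i)
    (D : ℕ) (h3 : ∀ σ (J : Finset ι), J.card + 1 = t → ∀ y,
      (univ.filter fun a => Ag J (anc a σ) y).card ≤ D)
    (A : ι → Finset F) (B : Finset (Fin t → F)) (β Λ G : ℕ)
    (hA : ∀ i, Fintype.card F ≤ (A i).card + β) (hB : LB K B β)
    (hΛ : (Fintype.card F * Fintype.card K) ^ t ≤ 2 ^ Λ) (hS : Fintype.card S ≤ G)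
    (hL : Fintype.card L ≤ G) (hι : Fintype.card ι + 1 ≤ G)
    (hN : 12 * G ^ (t + 2) * (β + D + Λ + 1) ≤ Fintype.card F) :
    ∃ (ω : τ → ι → L → F) (φ : τ → S → Fin t → F) (R : Finset (Fin t → F)),
      LB K R (3 * G ^ (t + 1) * (D + Λ)) ∧ (∀ a i l, rt a i l → ω a i l = root a i l) ∧
      (∀ a i l, ¬ rt a i l → ω a i l ∈ A i) ∧
      (∀ a σ, act a σ → Slot s A B R (I a σ) (fun i => ω a i (c a σ i)) (φ a σ)) ∧
      ∀ a σ a' σ', act a σ → act a' σ' → φ a σ = φ a' σ' → a = a' ∧ σ = σ' := by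
  classical
  have hG : 1 ≤ G := by omega
  obtain ⟨n1, n2, n3⟩ := fresh_num t hG hN
  have hex : ∀ a σ (ω : ι × L → F), ∃ φ : Fin t → F, act a σ →
      ∀ i ∈ I a σ, ev s φ i = freshPt (rt a) (root a) ω i (c a σ i) := fun a σ ω => by
    by_cases h : act a σ
    · obtain ⟨φ, hφ, -⟩ := ev_exu (unit_of_inj hs) (hI a σ h)
        fun i => freshPt (rt a) (root a) ω i (c a σ i)
      exact ⟨φ, fun _ => hφ⟩
    · exact ⟨0, fun h' => absurd h' h⟩
  choose row hrow using hex
  have hact : ∀ a σ, σ ∈ univ.filter (act a) ↔ act a σ := fun a σ => by simp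
  obtain ⟨w, R, hR, hok, hmem, hne⟩ := round (K := K) (fun a => univ.filter (act a)) row
    (fun a ω => (∀ m : ι × L, ω m ∈ A m.1) ∧
      (∀ σ, act a σ → ∀ i, i ∉ I a σ → ev s (row a σ ω) i ∈ A i) ∧
      ∀ σ σ', act a σ → act a σ' → row a σ ω = row a σ' ω → σ = σ')
    B β (G ^ (t + 1) * D) Λ G hG hS hΛ hB
    (fun a σ hσ T q hT => fresh_hi hs (hI a σ ((hact a σ).1 hσ))
      (fun ω => hrow a σ ω ((hact a σ).1 hσ)) (h1 a σ ((hact a σ).1 hσ)) T q hT)
    (fun φ => by
      rw [sum_mul]
      calc _ ≤ ∑ a, ∑ σ, ∑ Z ∈ univ.filter (fun Z : Finset ι => Z.card < t),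
              if Ag Z (anc a σ) (ev s φ) then
                Fintype.card (ι × L → F) / Fintype.card F ^ (t - 1 - Z.card) else 0 := by
            refine sum_le_sum fun a _ => ?_
            rw [sum_mul]
            refine le_trans (sum_le_sum fun σ hσ => fresh_eq (hI a σ ((hact a σ).1 hσ))
              (fun ω => hrow a σ ω ((hact a σ).1 hσ)) (h1 a σ ((hact a σ).1 hσ))
              (hanc a σ ((hact a σ).1 hσ)) φ) ?_
            exact sum_le_sum_of_subset (subset_univ _)
        _ ≤ ∑ _σ : S, (Fintype.card ι + 1) ^ t * (D * Fintype.card (ι × L → F)) := by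
            rw [sum_comm]
            exact sum_le_sum fun σ _ => fresh_sum hk (fun a => anc a σ) (h3 σ) _ _
        _ ≤ G * (G ^ t * (D * Fintype.card (ι × L → F))) := by
            rw [sum_const, smul_eq_mul, card_univ]
            exact Nat.mul_le_mul hS (Nat.mul_le_mul_right _ (Nat.pow_le_pow_left hι _))
        _ = _ := by ring)
    (fun a => by
      obtain ⟨T1, c1, p1⟩ := fresh_union (fun (m : ι × L) (ω : ι × L → F) => ω m ∉ A m.1)
        (Fintype.card F) (β * Fintype.card (ι × L → F)) fun m => fresh_coord (hA m.1) m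
      obtain ⟨T2, c2, p2⟩ := fresh_union (fun (m : S × ι) (ω : ι × L → F) =>
          act a m.1 ∧ m.2 ∉ I a m.1 ∧ ev s (row a m.1 ω) m.2 ∉ A m.2)
        (Fintype.card F) (β * Fintype.card (ι × L → F)) fun m => by
          by_cases h : act a m.1 ∧ m.2 ∉ I a m.1
          · refine le_trans (Nat.mul_le_mul_right _ (card_le_card ?_))
              (fresh_out hs (hI a m.1 h.1) (fun ω => hrow a m.1 ω h.1) (h1 a m.1 h.1)
                (hA m.2) h.2)
            intro ω hω
            exact mem_filter.2 ⟨mem_univ _, (mem_filter.1 hω).2.2.2⟩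
          · rw [filter_eq_empty_iff.2 fun ω _ h' => h ⟨h'.1, h'.2.1⟩]
            simp
      obtain ⟨T3, c3, p3⟩ := fresh_union (fun (m : S × S) (ω : ι × L → F) =>
          act a m.1 ∧ act a m.2 ∧ m.1 ≠ m.2 ∧ row a m.1 ω = row a m.2 ω)
        (Fintype.card F) (1 * Fintype.card (ι × L → F)) fun m => by
          by_cases h : act a m.1 ∧ act a m.2 ∧ m.1 ≠ m.2
          · refine le_trans (Nat.mul_le_mul_right _ (card_le_card ?_))
              (fresh_col hs (hI a m.1 h.1) (hI a m.2 h.2.1) (fun ω => hrow a m.1 ω h.1)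
                (fun ω => hrow a m.2 ω h.2.1) (h1 a m.1 h.1)
                fun e e' => h.2.2 (h2 a m.1 m.2 h.1 h.2.1 e e'))
            intro ω hω
            exact mem_filter.2 ⟨mem_univ _, (mem_filter.1 hω).2.2.2.2⟩
          · rw [filter_eq_empty_iff.2 fun ω _ h' => h ⟨h'.1, h'.2.1, h'.2.2.1⟩]
            simp
      refine ⟨T1 ∪ T2 ∪ T3, ?_, fun ω hω => ?_⟩
      · have hι' : Fintype.card ι ≤ G := by omega
        have d1 : Fintype.card (ι × L) ≤ G * G := by
          rw [Fintype.card_prod]; exact Nat.mul_le_mul hι' hL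
        have d2 : Fintype.card (S × ι) ≤ G * G := by
          rw [Fintype.card_prod]; exact Nat.mul_le_mul hS hι'
        have d3 : Fintype.card (S × S) ≤ G * G := by
          rw [Fintype.card_prod]; exact Nat.mul_le_mul hS hS
        have c1' := c1.trans (Nat.mul_le_mul_right _ d1)
        have c2' := c2.trans (Nat.mul_le_mul_right _ d2)
        have c3' := c3.trans (Nat.mul_le_mul_right _ d3)
        have hu : (T1 ∪ T2 ∪ T3).card ≤ T1.card + T2.card + T3.card :=
          (card_union_le _ _).trans (Nat.add_le_add_right (card_union_le _ _) _)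
        have hNpos : 0 < Fintype.card F := Fintype.card_pos
        refine Nat.le_of_mul_le_mul_right ?_ hNpos
        have hu' := Nat.mul_le_mul_right (Fintype.card F) hu
        have n2' := Nat.mul_le_mul_right (Fintype.card (ι × L → F)) n2
        generalize Fintype.card (ι × L → F) = W at *
        generalize Fintype.card F = N at *
        nlinarith
      · simp only [mem_union, not_or] at hω
        refine ⟨fun m => not_not.1 (p1 ω hω.1.1 m), fun σ hσ i hi => ?_, fun σ σ' hσ hσ' e => ?_⟩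
        · by_contra hc
          exact p2 ω hω.1.2 (σ, i) ⟨hσ, hi, hc⟩
        · by_contra hc
          exact p3 ω hω.2 (σ, σ') ⟨hσ, hσ', hc, e⟩)
    n1
  refine ⟨fun a i l => freshPt (rt a) (root a) (w a) i l, fun a σ => row a σ (w a), R,
    hR.mono n3, fun a i l h => freshPt_rt _ _ h, fun a i l h => ?_, fun a σ h => ?_,
    fun a σ a' σ' h h' e => ?_⟩
  · show freshPt (rt a) (root a) (w a) i l ∈ A i
    rw [freshPt_not _ _ h]
    exact (hok a).1 (i, l)
  · exact ⟨hrow a σ (w a) h, (hmem a σ ((hact a σ).2 h)).1, (hmem a σ ((hact a σ).2 h)).2,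
      (hok a).2.1 σ h⟩
  · by_cases ha : a = a'
    · subst ha
      exact ⟨rfl, (hok a).2.2 σ σ' h h' e⟩
    · exact absurd e (hne a a' ha σ ((hact a σ).2 h) σ' ((hact a' σ').2 h'))

end Pool.Agent.Lib.MP_deca50_lc.CES
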