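import Pool.Agent.Lib.MP_deca50_lc.CES.Basic
import Pool.Agent.Lib.MP_deca50_lc.CES.PotG

/-!
One halving step for a null function.
-/

open Finset Function

set_option linter.unusedSectionVars false

namespace Pool.Agent.Lib.MP_deca50_lc.CES

variable {ι Y : Type} [Fintype ι] [DecidableEq ι] [Fintype Y] [DecidableEq Y]

private theorem hv_pairs (s : Finset Y) :
    ∃ a a' : Fin (s.card / 2) → Y, Injective a ∧ Injective a' ∧ (∀ k l, a k ≠ a' l) ∧
      (∀ k, a k ∈ s) ∧ ∀ k, a' k ∈ s := by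
  have h1 : ∀ k : Fin (s.card / 2), k.1 < s.card := fun k => by have := k.2; omega
  have h2 : ∀ k : Fin (s.card / 2), s.card / 2 + k.1 < s.card := fun k => by have := k.2; omega
  refine ⟨fun k => (s.equivFin.symm ⟨k.1, h1 k⟩).1,
    fun k => (s.equivFin.symm ⟨s.card / 2 + k.1, h2 k⟩).1, fun k l e => ?_, fun k l e => ?_,
    fun k l e => ?_, fun k => (s.equivFin.symm _).2, fun k => (s.equivFin.symm _).2⟩
  · have := s.equivFin.symm.injective (Subtype.ext e)
    exact Fin.ext (by simpa using this)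
  · have := s.equivFin.symm.injective (Subtype.ext e)
    exact Fin.ext (by simpa using this)
  · have h3 := s.equivFin.symm.injective (Subtype.ext e)
    have h4 : k.1 = s.card / 2 + l.1 := by simpa using h3
    have := k.2
    omega

private theorem hv_sum_pairs {M : Type} [Fintype M] {s : Finset Y} {a a' : M → Y}
    (ha : Injective a) (ha' : Injective a') (hd : ∀ k l, a k ≠ a' l) (h1 : ∀ k, a k ∈ s)
    (h2 : ∀ k, a' k ∈ s) (f : Y → ℝ) :
    ∑ x ∈ s, f x = ∑ k, f (a k) + ∑ k, f (a' k) +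
      ∑ x ∈ (s \ univ.image a') \ univ.image a, f x := by
  have e1 : univ.image a' ⊆ s := image_subset_iff.2 fun k _ => h2 k
  have e2 : univ.image a ⊆ s \ univ.image a' := image_subset_iff.2 fun k _ =>
    mem_sdiff.2 ⟨h1 k, fun h => by
      obtain ⟨l, -, hl⟩ := mem_image.1 h
      exact hd k l hl.symm⟩
  rw [← sum_sdiff e1, ← sum_sdiff e2, sum_image ha.injOn, sum_image ha'.injOn]
  ring

private theorem hv_swap {σ : Type} [Fintype σ] (s : Finset Y) (f : σ → Y → ℝ) (B R u : ℝ)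
    (hB : 0 ≤ B) (hf : ∀ t x, |f t x| ≤ B) (hR : ∀ t, ∑ x ∈ s, |f t x| ≤ R) (Λ : ℕ)
    (hΛ : 8 * Fintype.card σ ≤ 2 ^ Λ) (hu : 0 ≤ u) (hu2 : 4 * B * R * Λ ≤ u ^ 2) :
    ∃ b b' : Fin (s.card / 2) → Y, Injective b ∧ Injective b' ∧ (∀ k l, b k ≠ b' l) ∧
      (∀ k, b k ∈ s) ∧ (∀ k, b' k ∈ s) ∧ ∀ t, |∑ k, f t (b k) - ∑ k, f t (b' k)| ≤ u ∧
        abs (∑ k, |f t (b k)| - ∑ k, |f t (b' k)|) ≤ u := by
  obtain ⟨a, a', ha, ha', hd, h1, h2⟩ := hv_pairs s
  let F : σ × Bool → Y → ℝ := fun p x => if p.2 then |f p.1 x| else f p.1 x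
  have hF : ∀ p x, |F p x| = |f p.1 x| := fun p x => by
    simp only [F]
    split_ifs <;> simp
  obtain ⟨ε, hε⟩ := disc (fun (p : σ × Bool) k => F p (a k) - F p (a' k)) (2 * B * R)
    (fun p => by
      have e1 := hv_sum_pairs ha ha' hd h1 h2 fun x => |f p.1 x|
      have e2 : 0 ≤ ∑ x ∈ (s \ univ.image a') \ univ.image a, |f p.1 x| :=
        sum_nonneg fun _ _ => abs_nonneg _
      have e3 := hR p.1
      calc ∑ k, (F p (a k) - F p (a' k)) ^ 2
          ≤ ∑ k, 2 * B * (|f p.1 (a k)| + |f p.1 (a' k)|) := sum_le_sum fun k _ => by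
            have e4 : |F p (a k) - F p (a' k)| ≤ |f p.1 (a k)| + |f p.1 (a' k)| := by
              rw [← hF, ← hF]
              exact abs_sub _ _
            have e5 := hf p.1 (a k)
            have e6 := hf p.1 (a' k)
            have e7 := abs_nonneg (F p (a k) - F p (a' k))
            rw [← sq_abs]
            nlinarith
        _ = 2 * B * (∑ k, |f p.1 (a k)| + ∑ k, |f p.1 (a' k)|) := by
            rw [← mul_sum, sum_add_distrib]
        _ ≤ 2 * B * R := mul_le_mul_of_nonneg_left (by linarith) (by linarith))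
    Λ (by rw [Fintype.card_prod, Fintype.card_bool]; omega) u hu (by linarith)
  have key : ∀ p : σ × Bool, |∑ k, F p (if ε k then a k else a' k) -
      ∑ k, F p (if ε k then a' k else a k)| ≤ u := fun p => by
    rw [← sum_sub_distrib]
    refine le_of_eq_of_le (congrArg abs (sum_congr rfl fun k _ => ?_)) (hε p)
    split_ifs <;> ring
  refine ⟨fun k => if ε k then a k else a' k, fun k => if ε k then a' k else a k,
    fun k l e => ?_, fun k l e => ?_, fun k l e => ?_, fun k => ?_, fun k => ?_, fun t => ⟨?_, ?_⟩⟩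
  · dsimp only at e
    split_ifs at e
    exacts [ha e, absurd e (hd _ _), absurd e.symm (hd _ _), ha' e]
  · dsimp only at e
    split_ifs at e
    exacts [ha' e, absurd e.symm (hd _ _), absurd e (hd _ _), ha e]
  · dsimp only at e
    split_ifs at e with e1 e2 e2
    · exact hd _ _ e
    · exact e2 (ha e ▸ e1)
    · exact e1 (ha' e ▸ e2)
    · exact hd _ _ e.symm
  · dsimp only
    split_ifs
    exacts [h1 k, h2 k]
  · dsimp only
    split_ifs
    exacts [h2 k, h1 k]
  · simpa [F] using key (t, false)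
  · simpa [F] using key (t, true)

private theorem hv_sets {σ : Type} [Fintype σ] (s : Finset Y) (f : σ → Y → ℝ) (B R u : ℝ)
    (hB : 0 ≤ B) (hf : ∀ t x, |f t x| ≤ B) (hR : ∀ t, ∑ x ∈ s, |f t x| ≤ R)
    (h0 : ∀ t, ∑ x ∈ s, f t x = 0) (Λ : ℕ)
    (hΛ : 8 * Fintype.card σ ≤ 2 ^ Λ) (hu : 0 ≤ u) (hu2 : 4 * B * R * Λ ≤ u ^ 2) :
    ∃ (b b' : Fin (s.card / 2) → Y) (D₁ D₂ : Finset Y), Injective b ∧ Injective b' ∧
      (∀ k, b k ∈ D₁) ∧ (∀ k, b' k ∈ D₂) ∧ Disjoint D₁ D₂ ∧ D₁ ∪ D₂ = s ∧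
      D₁.card = (s.card + 1) / 2 ∧ D₂.card = s.card / 2 ∧
      ∀ t, |∑ x ∈ D₁, f t x| ≤ B / 2 + u / 2 ∧ ∑ x ∈ D₁, |f t x| ≤ R / 2 + B / 2 + u / 2 ∧
        ∑ x ∈ D₂, |f t x| ≤ R / 2 + u / 2 := by
  obtain ⟨b, b', hb, hb', hd, h1, h2, h3⟩ := hv_swap s f B R u hB hf hR Λ hΛ hu hu2
  have e1 : univ.image b' ⊆ s := image_subset_iff.2 fun k _ => h2 k
  have e0 : ∀ k, b k ∈ s \ univ.image b' := fun k => mem_sdiff.2 ⟨h1 k, fun h => by
    obtain ⟨l, -, hl⟩ := mem_image.1 h
    exact hd k l hl.symm⟩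
  have e2 : univ.image b ⊆ s \ univ.image b' := image_subset_iff.2 fun k _ => e0 k
  have c2 : (univ.image b').card = s.card / 2 := by
    rw [card_image_of_injective _ hb', card_univ, Fintype.card_fin]
  have c3 : (univ.image b).card = s.card / 2 := by
    rw [card_image_of_injective _ hb, card_univ, Fintype.card_fin]
  have c1 : (s \ univ.image b').card = (s.card + 1) / 2 := by
    rw [card_sdiff_of_subset e1, c2]
    omega
  have c4 : ((s \ univ.image b') \ univ.image b).card ≤ 1 := by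
    rw [card_sdiff_of_subset e2, c1, c3]
    omega
  refine ⟨b, b', s \ univ.image b', univ.image b', hb, hb', e0,
    fun k => mem_image_of_mem _ (mem_univ k), sdiff_disjoint, sdiff_union_of_subset e1, c1, c2,
    fun t => ?_⟩
  have l1 : ∑ x ∈ (s \ univ.image b') \ univ.image b, |f t x| ≤ B := by
    refine (sum_le_card_nsmul _ _ B fun x _ => hf t x).trans ?_
    rw [nsmul_eq_mul]
    have : (((s \ univ.image b') \ univ.image b).card : ℝ) ≤ 1 := by exact_mod_cast c4
    nlinarith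
  have l2 := (abs_sum_le_sum_abs (f t) ((s \ univ.image b') \ univ.image b)).trans l1
  have l3 : 0 ≤ ∑ x ∈ (s \ univ.image b') \ univ.image b, |f t x| :=
    sum_nonneg fun _ _ => abs_nonneg _
  have p1 := hv_sum_pairs hb hb' hd h1 h2 (f t)
  have p2 := hv_sum_pairs hb hb' hd h1 h2 fun x => |f t x|
  have p3 := hR t
  have p4 := h0 t
  obtain ⟨q1, q2⟩ := h3 t
  rw [← sum_sdiff e2, ← sum_sdiff e2, sum_image hb.injOn, sum_image hb.injOn,
    sum_image hb'.injOn]
  rw [abs_le] at l2 q1 q2 ⊢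
  refine ⟨⟨?_, ?_⟩, ?_, ?_⟩ <;> linarith [l2.1, l2.2, q1.1, q1.2, q2.1, q2.2]

/-- The difference of two point masses. -/
private def hvE (b b' x : Y) : ℤ := (if x = b then 1 else 0) - if x = b' then 1 else 0

private theorem hvE_sum (b b' : Y) (s : Finset Y) :
    ∑ x ∈ s, hvE b b' x = (if b ∈ s then 1 else 0) - if b' ∈ s then 1 else 0 := by
  simp only [hvE, sum_sub_distrib, sum_ite_eq']

private theorem hvE_abs (b b' x : Y) :
    |(hvE b b' x : ℝ)| ≤ (if x = b then 1 else 0) + if x = b' then 1 else 0 := by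
  unfold hvE
  split_ifs <;> simp

private theorem hvE_abs_sum (b b' : Y) : ∑ x, |(hvE b b' x : ℝ)| ≤ 2 := by
  refine (sum_le_sum fun x _ => hvE_abs b b' x).trans ?_
  simp only [sum_add_distrib, sum_ite_eq', mem_univ, if_true]
  norm_num

private theorem hvE_ne {b b' x : Y} (h : hvE b b' x ≠ 0) : x = b ∨ x = b' := by
  by_contra h1
  push Not at h1
  exact h (by simp [hvE, h1.1, h1.2])

private theorem hvE_avg {M : Type} [Fintype M] {b b' : M → Y} (hb : Injective b)
    (hb' : Injective b') (hd : ∀ k l, b k ≠ b' l) (x : Y) :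
    ∑ k, |(hvE (b k) (b' k) x : ℝ)| ≤ 1 := by
  refine (sum_le_sum fun k _ => hvE_abs (b k) (b' k) x).trans ?_
  rw [sum_add_distrib]
  have e : ∀ c : M → Y, Injective c → ∀ k, x = c k →
      (∑ l, if x = c l then (1 : ℝ) else 0) = 1 := fun c hc k hk => by
    rw [sum_eq_single k, if_pos hk]
    · exact fun l _ hl => if_neg fun h => hl (hc (h.symm.trans hk))
    · simp
  have e' : ∀ c : M → Y, (∀ k, x ≠ c k) → (∑ l, if x = c l then (1 : ℝ) else 0) = 0 :=
    fun c hc => sum_eq_zero fun l _ => if_neg (hc l)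
  by_cases h1 : ∃ k, x = b k
  · obtain ⟨k, hk⟩ := h1
    rw [e b hb k hk, e' b' fun l hl => hd k l (hk.symm.trans hl)]
    norm_num
  · push Not at h1
    rw [e' b h1]
    by_cases h2 : ∃ k, x = b' k
    · obtain ⟨k, hk⟩ := h2
      rw [e b' hb' k hk]
      norm_num
    · push Not at h2
      rw [e' b' h2]
      norm_num

/-- A piece of the slice moved to a pair of symbols. -/
private def hvG (j : ι) (x₀ : Y) (O : (ι → Y) → ℤ) (b b' : Y) : (ι → Y) → ℤ :=
  fun y => O (update y j x₀) * hvE b b' (y j)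

private theorem hvG_upd (j : ι) (x₀ : Y) (O : (ι → Y) → ℤ) (b b' : Y) (y : ι → Y) (x : Y) :
    hvG j x₀ O b b' (update y j x) = O (update y j x₀) * hvE b b' x := by
  simp [hvG]

private theorem hvG_upd' {i j : ι} (hi : i ≠ j) (x₀ : Y) (O : (ι → Y) → ℤ) (b b' : Y)
    (y : ι → Y) (x : Y) :
    hvG j x₀ O b b' (update y i x) = O (update (update y j x₀) i x) * hvE b b' (y j) := by
  rw [hvG, update_comm hi, update_of_ne hi.symm]

private theorem hvG_abs (j : ι) (x₀ : Y) (O : (ι → Y) → ℤ) (b b' : Y) (y : ι → Y) :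
    |(hvG j x₀ O b b' y : ℝ)| = |(O (update y j x₀) : ℝ)| * |(hvE b b' (y j) : ℝ)| := by
  rw [hvG]
  push_cast
  exact abs_mul _ _

private theorem hvG_lmass (j : ι) (x₀ : Y) (O : (ι → Y) → ℤ) (b b' : Y) (y : ι → Y) :
    lmass j (hvG j x₀ O b b') y ≤ 2 * |(O (update y j x₀) : ℝ)| := by
  simp only [lmass, hvG_upd]
  push_cast
  simp only [abs_mul]
  rw [← mul_sum, mul_comm]
  exact mul_le_mul_of_nonneg_right (hvE_abs_sum b b') (abs_nonneg _)

private theorem hvG_lmass' {i j : ι} (hi : i ≠ j) (x₀ : Y) (O : (ι → Y) → ℤ) (b b' : Y)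
    (y : ι → Y) :
    lmass i (hvG j x₀ O b b') y = lmass i O (update y j x₀) * |(hvE b b' (y j) : ℝ)| := by
  simp only [lmass, hvG_upd' hi]
  push_cast
  simp only [abs_mul]
  rw [← sum_mul]

private theorem hv_slice (j : ι) (x₀ b : Y) (O : (ι → Y) → ℤ) :
    (∑ y : ι → Y, |(O (update y j x₀) : ℝ)| * if y j = b then 1 else 0) ≤ ∑ z, |(O z : ℝ)| := by
  simp only [mul_ite, mul_one, mul_zero]
  rw [← sum_filter, ← sum_image (f := fun z => |(O z : ℝ)|) (g := fun y : ι → Y => update y j x₀)]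
  · exact sum_le_sum_of_subset_of_nonneg (subset_univ _) fun _ _ _ => abs_nonneg _
  · intro y hy y' hy' e
    funext i
    by_cases hi : i = j
    · subst hi
      exact (mem_filter.1 hy).2.trans (mem_filter.1 hy').2.symm
    · simpa [hi] using congrFun e i

private theorem hvG_total (j : ι) (x₀ : Y) (O : (ι → Y) → ℤ) (b b' : Y) :
    ∑ y, |(hvG j x₀ O b b' y : ℝ)| ≤ 2 * ∑ z, |(O z : ℝ)| := by
  have h1 := hv_slice j x₀ b O
  have h2 := hv_slice j x₀ b' O
  refine le_trans (sum_le_sum fun y _ => ?_) ((sum_add_distrib.le.trans (add_le_add h1 h2)).trans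
    (by linarith))
  rw [hvG_abs, ← mul_add]
  exact mul_le_mul_of_nonneg_left (hvE_abs _ _ _) (abs_nonneg _)

private theorem hvG_supp {j : ι} {x₀ : Y} {O : (ι → Y) → ℤ} {b b' : Y} {D : ι → Finset Y}
    {E : Finset Y} (hO : Supp (update D j E) O) (hb : b ∈ D j) (hb' : b' ∈ D j) :
    Supp D (hvG j x₀ O b b') := fun y hy i => by
  rw [hvG, mul_ne_zero_iff] at hy
  by_cases hi : i = j
  · subst hi
    rcases hvE_ne hy.2 with h | h <;> rwa [h]
  · simpa [hi] using hO _ hy.1 i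

private theorem hvG_null {J : Finset ι} {j : ι} {x₀ : Y} {O : (ι → Y) → ℤ} {b b' : Y}
    (hO : Null (J.erase j) O) : Null J (hvG j x₀ O b b') := fun i hi y => by
  by_cases hij : i = j
  · subst hij
    simp only [hvG_upd]
    rw [← mul_sum, hvE_sum]
    simp
  · simp only [hvG_upd' hij]
    rw [← sum_mul, hO i (mem_erase.2 ⟨hij, hi⟩), zero_mul]

private theorem hv_line {D : ι → Finset Y} {h : (ι → Y) → ℤ} (hs : Supp D h) {β : Type}
    [AddCommMonoid β] (F : ℤ → β) (hF : F 0 = 0) (j : ι) (y : ι → Y) :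
    ∑ x ∈ D j, F (h (update y j x)) = ∑ x, F (h (update y j x)) :=
  sum_subset (subset_univ _) fun x _ hx => by
    have : h (update y j x) = 0 := by
      by_contra h0
      exact hx (by simpa using hs _ h0 j)
    rw [this, hF]

private theorem hv_child {J : Finset ι} {j : ι} {D : ι → Finset Y} {h h₀ : (ι → Y) → ℤ}
    {B ρ P Q : ℝ} (hh : Inp J D h B ρ) (hs : Supp D h₀) (hn : Null J h₀)
    (hP : ∀ y, |(h₀ y : ℝ)| ≤ P) (hQ : ∀ i ∈ J, ∀ y, lmass i h₀ y ≤ Q * (D i).card)
    (E : Finset Y) (h1 : ∀ y, ∑ x ∈ E, h (update y j x) = ∑ x ∈ E, h₀ (update y j x))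
    (h2 : ∀ y, ∑ x ∈ E, |(h (update y j x) : ℝ)| + lmass j h₀ y ≤ (ρ + Q) * E.card) :
    Inp J (update D j E) (fun y => if y j ∈ E then h y - h₀ y else 0) (B + P) (ρ + Q) := by
  have tri : ∀ y, |((h y - h₀ y : ℤ) : ℝ)| ≤ |(h y : ℝ)| + |(h₀ y : ℝ)| := fun y => by
    push_cast
    exact abs_sub _ _
  refine ⟨fun y hy i => ?_, fun i hi y => ?_, fun y => ?_, fun i hi y => ?_⟩
  · dsimp only at hy
    split_ifs at hy with h3
    · by_cases hi : i = j
      · subst hi
        simpa using h3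
      · simpa [hi] using (hh.1.sub hs) y hy i
    · exact absurd rfl hy
  · by_cases hij : i = j
    · subst hij
      simp only [update_self]
      rw [← sum_filter, filter_mem_eq_inter, univ_inter, sum_sub_distrib, h1, sub_self]
    · simp only [update_of_ne (Ne.symm hij)]
      split_ifs
      · rw [sum_sub_distrib, hh.2.1 i hi, hn i hi, sub_self]
      · simp
  · have e1 := hh.2.2.1 y
    have e2 := hP y
    dsimp only
    split_ifs
    · linarith [tri y]
    · have e3 := abs_nonneg (h y : ℝ)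
      have e4 := abs_nonneg (h₀ y : ℝ)
      simp only [Int.cast_zero, abs_zero]
      linarith
  · by_cases hij : i = j
    · subst hij
      rw [update_self]
      refine le_trans ?_ (h2 y)
      simp only [lmass, update_self]
      calc ∑ x, |((if x ∈ E then h (update y i x) - h₀ (update y i x) else 0 : ℤ) : ℝ)|
          ≤ ∑ x, ((if x ∈ E then |(h (update y i x) : ℝ)| else 0) +
            |(h₀ (update y i x) : ℝ)|) := sum_le_sum fun x _ => by
            split_ifs
            · exact tri _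
            · simp
        _ = _ := by rw [sum_add_distrib, ← sum_filter, filter_mem_eq_inter, univ_inter]
    · have e1 := hh.2.2.2 i hi y
      have e2 := hQ i hi y
      rw [update_of_ne hij, add_mul]
      refine le_trans ?_ (add_le_add e1 e2)
      simp only [lmass, update_of_ne (Ne.symm hij), ← sum_add_distrib]
      refine sum_le_sum fun x _ => ?_
      split_ifs
      · exact tri _
      · simp only [Int.cast_zero, abs_zero]
        positivity

private theorem hv_lmass_sum {τ : Type} [Fintype τ] (g : τ → (ι → Y) → ℤ) (i : ι) (y : ι → Y) :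
    lmass i (fun z => ∑ b, g b z) y ≤ ∑ b, lmass i (g b) y := by
  simp only [lmass]
  rw [sum_comm]
  refine sum_le_sum fun x _ => ?_
  push_cast
  exact abs_sum_le_sum_abs _ _

theorem halve {J : Finset ι} {j : ι} (hj : j ∈ J) {Λ : ℕ} (hΛ : Big ι Y Λ) {C : ℝ} (hC : 1 ≤ C)
    (hW : WProp Y (J.erase j) C) (D : ι → Finset Y) (h : (ι → Y) → ℤ) (B ρ ζ : ℝ) (hB : 0 ≤ B)
    (hρ : 0 ≤ ρ) (hζ : 0 ≤ ζ) (hh : Inp J D h B ρ) (h2 : 2 ≤ (D j).card)
    (c1 : 18 * C * B ≤ ζ * (D j).card) (c2 : 324 * C ^ 2 * B * ρ * Λ ≤ ζ ^ 2 * (D j).card)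
    (c3 : 3 * ρ ≤ ζ * (D j).card) (c4 : ∀ i ∈ J, (2 : ℝ) ^ J.card * Λ ≤ ζ * (D i).card) :
    ∃ (D₁ D₂ : Finset Y) (h₁ h₂ h₀ : (ι → Y) → ℤ), Disjoint D₁ D₂ ∧ D₁ ∪ D₂ = D j ∧
      D₁.card = ((D j).card + 1) / 2 ∧ D₂.card = (D j).card / 2 ∧
      (∀ y, h y = h₁ y + h₂ y + h₀ y) ∧
      Dec J D h₀ (2 ^ J.card) (ζ + 2 ^ J.card * Λ) (2 * ζ) ∧
      Inp J (update D j D₁) h₁ (B + (ζ + 2 ^ J.card * Λ)) (ρ + 2 * ζ) ∧
      Inp J (update D j D₂) h₂ (B + (ζ + 2 ^ J.card * Λ)) (ρ + 2 * ζ) := by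
  have hC0 : 0 < C := by linarith
  obtain ⟨n, hn⟩ : ∃ n : ℝ, n = (D j).card := ⟨_, rfl⟩
  have hn0 : 0 ≤ n := hn ▸ Nat.cast_nonneg _
  rw [← hn] at c1 c2 c3
  obtain ⟨σ, hσ⟩ : ∃ σ : ℝ, 18 * C * σ = ζ * n := ⟨ζ * n / (18 * C), by field_simp⟩
  have hBσ : B ≤ σ := le_of_mul_le_mul_left (c1.trans hσ.ge) (by positivity)
  have hσ0 : 0 ≤ σ := hB.trans hBσ
  have hσ2 : 4 * B * (ρ * n) * Λ ≤ (2 * σ) ^ 2 := by
    refine le_of_mul_le_mul_left ?_ (show 0 < 81 * C ^ 2 by positivity)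
    have e1 := mul_le_mul_of_nonneg_right c2 hn0
    have e2 : (18 * C * σ) ^ 2 = (ζ * n) ^ 2 := by rw [hσ]
    nlinarith
  have hcard : (Fintype.card ι + 1) * Fintype.card Y ^ Fintype.card ι ≤ 2 ^ Λ ∧
      8 * Fintype.card Y ^ Fintype.card ι ≤ 2 ^ Λ := by
    have e1 : Fintype.card ι + 1 ≤ 2 ^ Fintype.card ι := Nat.lt_two_pow_self
    have e2 := hΛ.2.2.2
    constructor <;> refine le_trans (Nat.mul_le_mul_right _ ?_) e2 <;> omega
  have hz : ∀ y, ∑ x ∈ D j, h (update y j x) = 0 := fun y =>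
    (hv_line hh.1 id rfl j y).trans (hh.2.1 j hj y)
  obtain ⟨b, b', D₁, D₂, hb, hb', m1, m2, hd, hu, k1, k2, hs⟩ :=
    hv_sets (D j) (fun (y : ι → Y) x => (h (update y j x) : ℝ)) B (ρ * n) (2 * σ) hB
      (fun y x => hh.2.2.1 _)
      (fun y => (hv_line hh.1 (fun a => |(a : ℝ)|) (by simp) j y).le.trans
        (hn ▸ hh.2.2.2 j hj y))
      (fun y => by exact_mod_cast hz y) Λ (by rw [Fintype.card_fun]; exact hcard.2)
      (by linarith) hσ2
  have hbb : ∀ k l, b k ≠ b' l := fun k l e => disjoint_left.1 hd (m1 k) (e ▸ m2 l)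
  have s1 : D₁ ⊆ D j := hu ▸ subset_union_left
  have s2 : D₂ ⊆ D j := hu ▸ subset_union_right
  obtain ⟨x₀, -⟩ : (D j).Nonempty := card_pos.1 (by omega)
  obtain ⟨τ, _, O, o1, o2, o3, o4, o5, o6⟩ := hW (update D j {x₀})
    (fun y => if y j = x₀ then ∑ x ∈ D₁, h (update y j x) else 0) (2 * σ) (by linarith)
    (fun y hy i => by
      dsimp only at hy
      split_ifs at hy with h3
      · by_cases hi : i = j
        · subst hi
          simpa using h3
        · obtain ⟨x, -, hx⟩ := exists_ne_zero_of_sum_ne_zero hy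
          simpa [hi] using hh.1 _ hx i
      · exact absurd rfl hy)
    (fun i hi y => by
      obtain ⟨hij, hi⟩ := mem_erase.1 hi
      simp only [update_of_ne (Ne.symm hij)]
      split_ifs
      · rw [sum_comm]
        refine sum_eq_zero fun x _ => ?_
        simp only [update_comm hij]
        exact hh.2.1 i hi _
      · simp)
    (fun y => by
      split_ifs
      · push_cast
        linarith [(hs y).1]
      · simp only [Int.cast_zero, abs_zero]
        linarith)
  obtain ⟨m, hm⟩ : ∃ m : ℝ, m = ((D j).card / 2 : ℕ) := ⟨_, rfl⟩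
  have hm1 : n ≤ 3 * m := by
    rw [hn, hm]
    exact_mod_cast (by omega : (D j).card ≤ 3 * ((D j).card / 2))
  have hm2 : n ≤ 2 * m + 1 := by
    rw [hn, hm]
    exact_mod_cast (by omega : (D j).card ≤ 2 * ((D j).card / 2) + 1)
  have hm0 : 0 < m := by
    rw [hm]
    exact_mod_cast (by omega : 0 < (D j).card / 2)
  have hm3 : n ≤ 2 * (D₁.card : ℝ) := by
    rw [hn, k1]
    exact_mod_cast (by omega : (D j).card ≤ 2 * (((D j).card + 1) / 2))
  have hσm : C * (2 * σ) ≤ ζ / 3 * m := by nlinarith [mul_le_mul_of_nonneg_left hm1 hζ]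
  have hG : ∀ a k, ∑ y, |(hvG j x₀ (O a) (b k) (b' k) y : ℝ)| ≤ 2 ^ J.card := fun a k => by
    refine (hvG_total _ _ _ _ _).trans ?_
    rw [← card_erase_add_one hj, pow_succ]
    linarith [o4 a]
  have : Nonempty (Fin ((D j).card / 2)) := ⟨⟨0, by omega⟩⟩
  obtain ⟨w, -, hw⟩ := potG0 (τ := τ) (σ := Option ι × (ι → Y))
    (fun _ => (univ : Finset (Fin ((D j).card / 2)))) (fun _ => univ_nonempty)
    (fun a k s => s.1.elim |(hvG j x₀ (O a) (b k) (b' k) s.2 : ℝ)| fun i =>
      if i ∈ J.erase j then lmass i (hvG j x₀ (O a) (b k) (b' k)) s.2 else 0)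
    (2 ^ J.card) (by positivity)
    (by
      rintro a k ⟨_ | i, y⟩
      · exact abs_nonneg _
      · dsimp only [Option.elim]
        split_ifs
        exacts [lmass_nonneg _ _ _, le_rfl])
    (by
      rintro a k - ⟨_ | i, y⟩
      · exact (single_le_sum (f := fun y => |(hvG j x₀ (O a) (b k) (b' k) y : ℝ)|)
          (fun _ _ => abs_nonneg _) (mem_univ y)).trans (hG a k)
      · dsimp only [Option.elim]
        split_ifs
        · exact (lmass_le_total _ _ _).trans (hG a k)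
        · positivity)
    (fun s => s.1.elim (ζ / 3) fun i => ζ / 3 * (D i).card)
    (by
      rintro ⟨_ | i, y⟩
      · dsimp only [Option.elim]
        rw [card_univ, Fintype.card_fin, ← hm, ← sum_div, div_le_iff₀ hm0]
        refine le_trans (sum_le_sum fun a _ => ?_) ((o5 (update y j x₀)).trans hσm)
        simp only [hvG_abs]
        rw [← mul_sum]
        exact mul_le_of_le_one_right (abs_nonneg _) (hvE_avg hb hb' hbb _)
      · dsimp only [Option.elim]
        rw [card_univ, Fintype.card_fin, ← hm, ← sum_div, div_le_iff₀ hm0]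
        split_ifs with hi
        · have hij := (mem_erase.1 hi).1
          have e1 := o6 i hi (update y j x₀)
          rw [update_of_ne hij] at e1
          have e2 := mul_le_mul_of_nonneg_right hσm (Nat.cast_nonneg (α := ℝ) (D i).card)
          refine le_trans (sum_le_sum fun a _ => ?_) (e1.trans (e2.trans (by linarith)))
          simp only [hvG_lmass' hij]
          rw [← mul_sum]
          exact mul_le_of_le_one_right (lmass_nonneg _ _ _) (hvE_avg hb hb' hbb _)
        · simp only [sum_const_zero]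
          positivity)
    Λ (by rw [Fintype.card_prod, Fintype.card_option, Fintype.card_fun]; exact hcard.1)
  obtain ⟨g, hg⟩ : ∃ g : τ → (ι → Y) → ℤ, g = fun a => hvG j x₀ (O a) (b (w a)) (b' (w a)) :=
    ⟨_, rfl⟩
  have g1 : ∀ a, Supp D (g a) := fun a => hg ▸ hvG_supp (o2 a) (s1 (m1 _)) (s2 (m2 _))
  have g2 : ∀ a, Null J (g a) := fun a => hg ▸ hvG_null (o3 a)
  have g3 : ∀ y, ∑ a, |(g a y : ℝ)| ≤ ζ + 2 ^ J.card * Λ := fun y => by
    have e1 := hw (none, y)
    dsimp only [Option.elim] at e1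
    rw [hg]
    linarith
  have g4 : ∀ y, ∑ a, lmass j (g a) y ≤ 4 * C * σ := fun y => by
    rw [hg]
    refine (sum_le_sum fun a _ => hvG_lmass _ _ _ _ _ _).trans ?_
    rw [← mul_sum]
    linarith [o5 (update y j x₀)]
  have hζn : 0 ≤ ζ * n := mul_nonneg hζ hn0
  have g5 : ∀ i ∈ J, ∀ y, ∑ a, lmass i (g a) y ≤ 2 * ζ * (D i).card := fun i hi y => by
    by_cases hij : i = j
    · subst hij
      rw [← hn]
      linarith [g4 y]
    · have e1 := hw (some i, y)
      dsimp only [Option.elim] at e1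
      simp only [if_pos (mem_erase.2 ⟨hij, hi⟩)] at e1
      rw [hg]
      linarith [c4 i hi]
  have t1 : Supp D fun y => ∑ a, g a y := fun y hy => by
    obtain ⟨a, -, ha⟩ := exists_ne_zero_of_sum_ne_zero hy
    exact g1 a y ha
  have t2 : Null J fun y => ∑ a, g a y := fun i hi y => by
    rw [sum_comm]
    exact sum_eq_zero fun a _ => g2 a i hi y
  have t3 : ∀ y, |((∑ a, g a y : ℤ) : ℝ)| ≤ ζ + 2 ^ J.card * Λ := fun y => by
    push_cast
    exact (abs_sum_le_sum_abs _ _).trans (g3 y)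
  have t4 : ∀ i ∈ J, ∀ y, lmass i (fun y => ∑ a, g a y) y ≤ 2 * ζ * (D i).card :=
    fun i hi y => (hv_lmass_sum g i y).trans (g5 i hi y)
  have t5 : ∀ y, lmass j (fun y => ∑ a, g a y) y ≤ 4 * C * σ :=
    fun y => (hv_lmass_sum g j y).trans (g4 y)
  have t6 : ∀ y (E : Finset Y) (c : ℤ), (∀ k, ∑ x ∈ E, hvE (b k) (b' k) x = c) →
      ∑ x ∈ E, ∑ a, g a (update y j x) = (∑ x ∈ D₁, h (update y j x)) * c := fun y E c hc => by
    have e1 := o1 (update y j x₀)
    simp only [update_self, if_true, update_idem] at e1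
    rw [sum_comm, e1, sum_mul, hg]
    refine sum_congr rfl fun a _ => ?_
    simp only [hvG_upd]
    rw [← mul_sum, hc]
  have hCσ : σ ≤ C * σ := le_mul_of_one_le_left hσ0 hC
  refine ⟨D₁, D₂, fun y => if y j ∈ D₁ then h y - ∑ a, g a y else 0,
    fun y => if y j ∈ D₂ then h y - ∑ a, g a y else 0, fun y => ∑ a, g a y, hd, hu, k1, k2,
    fun y => ?_, ⟨τ, _, g, fun _ => rfl, g1, g2, fun a => hg ▸ hG a (w a), g3, g5⟩,
    hv_child hh t1 t2 t3 t4 D₁ (fun y => ?_) fun y => ?_,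
    hv_child hh t1 t2 t3 t4 D₂ (fun y => ?_) fun y => ?_⟩
  · dsimp only
    split_ifs with e1 e2 e2
    · exact absurd e2 (disjoint_left.1 hd e1)
    · ring
    · ring
    · have e3 : y j ∉ D j := by
        rw [← hu, mem_union]
        tauto
      have e4 : h y = 0 := by
        by_contra h0
        exact e3 (hh.1 y h0 j)
      have e5 : ∑ a, g a y = 0 := by
        by_contra h0
        exact e3 (t1 y h0 j)
      rw [e4, e5]
      rfl
  · rw [t6 y D₁ 1 fun k => by
      rw [hvE_sum, if_pos (m1 k), if_neg (disjoint_right.1 hd (m2 k)), sub_zero], mul_one]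
  · have e1 := mul_le_mul_of_nonneg_left hm3 hρ
    have e2 := mul_le_mul_of_nonneg_left hm3 hζ
    linarith [(hs y).2.1, t5 y]
  · rw [t6 y D₂ (-1) fun k => by
      rw [hvE_sum, if_neg (disjoint_left.1 hd (m1 k)), if_pos (m2 k), zero_sub]]
    have e1 := hz y
    rw [← hu, sum_union hd] at e1
    linarith
  · have e1 := mul_le_mul_of_nonneg_left hm2 hρ
    have e2 := mul_le_mul_of_nonneg_left hm1 hζ
    rw [k2, ← hm]
    linarith [(hs y).2.2, t5 y]

end Pool.Agent.Lib.MP_deca50_lc.CES
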