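import Pool.Agent.Lib.MP_deca50_lc.CES.WF
import Pool.Agent.Lib.MP_deca50_lc.CES.Ext

/-!
Bounded integral completion of an array with a sparse defect.
-/

open Finset Function

set_option linter.unusedSectionVars false

namespace Pool.Agent.Lib.MP_deca50_lc.CES

section Aux

variable {ι Y : Type} [Fintype ι] [DecidableEq ι] [Fintype Y] [DecidableEq Y]

/-- The defect of a marginal. -/
def intDfc (t m : ℕ) (J : Finset ι) (Θ : (ι → Y) → ℤ) (y : ι → Y) : ℤ :=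
  (m : ℤ) ^ (t - J.card) - marg J Θ y

/-- Restriction of a function to a box. -/
def intCut (D : ι → Finset Y) (g : (ι → Y) → ℤ) (y : ι → Y) : ℤ :=
  if ∀ i, y i ∈ D i then g y else 0

theorem intCut_supp (D : ι → Finset Y) (g : (ι → Y) → ℤ) : Supp D (intCut D g) := fun z hz => by
  by_contra h
  exact hz (if_neg h)

theorem intCut_line {β : Type} [AddCommMonoid β] (f : ℤ → β) (hf : f 0 = 0) (D : ι → Finset Y)
    (g : (ι → Y) → ℤ) (i : ι) (y : ι → Y) :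
    ∑ x, f (intCut D g (update y i x)) =
      if ∀ i', i' ≠ i → y i' ∈ D i' then ∑ x ∈ D i, f (g (update y i x)) else 0 := by
  split_ifs with h
  · rw [← sum_subset (subset_univ (D i))]
    · refine sum_congr rfl fun x hx => ?_
      rw [intCut, if_pos]
      intro i'
      by_cases hi : i' = i
      · subst hi
        simpa using hx
      · rw [update_of_ne hi]
        exact h i' hi
    · intro x _ hx
      rw [intCut, if_neg, hf]
      intro h1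
      exact hx (by simpa using h1 i)
  · refine sum_eq_zero fun x _ => ?_
    rw [intCut, if_neg, hf]
    intro h1
    refine h fun i' hi => ?_
    have h2 := h1 i'
    rwa [update_of_ne hi] at h2

theorem intDfc_split {t m : ℕ} {A : ι → Finset Y} (hA : ∀ i, (A i).card = m)
    {Θ : (ι → Y) → ℤ} (hΘ : Supp A Θ) {J : Finset ι} {i : ι} (hi : i ∉ J) (hJ : J.card < t)
    (y : ι → Y) :
    intDfc t m J Θ y = ∑ x ∈ A i, intDfc t m (insert i J) Θ (update y i x) := by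
  have h1 : marg J Θ y = ∑ x ∈ A i, marg (insert i J) Θ (update y i x) := by
    rw [marg, sum_ag_insert hi, ← sum_subset (subset_univ (A i))]
    · rfl
    · intro x _ hx
      exact marg_eq_zero_of_supp hΘ (mem_insert_self i J) (by simpa using hx)
  simp only [intDfc, sum_sub_distrib, sum_const, hA, card_insert_of_notMem hi, nsmul_eq_mul]
  rw [h1, show t - J.card = (t - (J.card + 1)) + 1 by omega, pow_succ']

theorem intMass_split {J : Finset ι} {i : ι} (hi : i ∈ J) (Ψ : (ι → Y) → ℤ) (y : ι → Y)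
    (S : Finset Y) : ∑ x ∈ S, mass J Ψ (update y i x) ≤ mass (J.erase i) Ψ y := by
  have h1 : mass (J.erase i) Ψ y = ∑ x, mass J Ψ (update y i x) := by
    rw [mass, sum_ag_insert (notMem_erase i J), insert_erase hi]
    rfl
  rw [h1]
  exact sum_le_sum_of_subset_of_nonneg (subset_univ _) fun x _ _ => mass_nonneg _ _ _

theorem intDfc_add (t m : ℕ) (J : Finset ι) (Φ Ψ : (ι → Y) → ℤ) (y : ι → Y) :
    intDfc t m J (Φ + Ψ) y = intDfc t m J Φ y - marg J Ψ y := by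
  simp only [intDfc, marg_add]
  ring

theorem intDfc_abs_add (t m : ℕ) (J : Finset ι) (Φ Ψ : (ι → Y) → ℤ) (y : ι → Y) :
    |(intDfc t m J (Φ + Ψ) y : ℝ)| ≤ |(intDfc t m J Φ y : ℝ)| + mass J Ψ y := by
  rw [intDfc_add]
  push_cast
  exact (abs_sub _ _).trans (add_le_add le_rfl (abs_marg_le _ _ _))

/-- The bound for the absolute defect on the lines of the top level. -/
def IntLine (t m : ℕ) (A : ι → Finset Y) (Θ : (ι → Y) → ℤ) (L : ℝ) : Prop :=
  ∀ I : Finset ι, I.card = t → ∀ j ∈ I, ∀ y : ι → Y, (∀ i ∈ I, y i ∈ A i) →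
    ∑ x ∈ A j, |(intDfc t m I Θ (update y j x) : ℝ)| ≤ L

theorem IntLine.add {t m : ℕ} {A : ι → Finset Y} {Φ Ψ : (ι → Y) → ℤ} {L M : ℝ}
    (h : IntLine t m A Φ L) (hM : ∀ I : Finset ι, I.card + 1 = t → ∀ y, mass I Ψ y ≤ M) :
    IntLine t m A (Φ + Ψ) (L + M) := by
  intro I hI j hj y hy
  refine (sum_le_sum fun x _ => intDfc_abs_add t m I Φ Ψ _).trans ?_
  rw [sum_add_distrib]
  exact add_le_add (h I hI j hj y hy)
    ((intMass_split hj Ψ y _).trans (hM _ (by rw [card_erase_add_one hj, hI]) y))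

theorem intUpdate_mem {A : ι → Finset Y} {J : Finset ι} {i : ι} {y : ι → Y} {x : Y}
    (hy : ∀ i' ∈ J, i' ≠ i → y i' ∈ A i') (hx : x ∈ A i) :
    ∀ i' ∈ insert i J, update y i x i' ∈ A i' := by
  intro i' hi'
  by_cases h : i' = i
  · subst h
    simpa using hx
  · rw [update_of_ne h]
    exact hy i' ((mem_insert.1 hi').resolve_left h) h

theorem intDfc_bound {t m : ℕ} {A : ι → Finset Y} (hA : ∀ i, (A i).card = m) (hm : 0 < m)
    (hk : t ≤ Fintype.card ι) {Θ : (ι → Y) → ℤ} (hΘ : Supp A Θ) {L : ℝ} (hL : IntLine t m A Θ L)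
    (d : ℕ) : ∀ J : Finset ι, J.card + 1 + d = t → ∀ y : ι → Y, (∀ i ∈ J, y i ∈ A i) →
      |(intDfc t m J Θ y : ℝ)| ≤ (m : ℝ) ^ d * L := by
  induction d with
  | zero =>
    intro J hJ y hy
    obtain ⟨i, -, hi⟩ := exists_mem_notMem_of_card_lt_card (s := J) (t := univ)
      (by rw [card_univ]; omega)
    obtain ⟨x₀, hx₀⟩ := card_pos.1 (show 0 < (A i).card by rw [hA]; exact hm)
    have h1 := hL (insert i J) (by rw [card_insert_of_notMem hi]; omega) i (mem_insert_self _ _)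
      (update y i x₀) (intUpdate_mem (fun i' h _ => hy i' h) hx₀)
    simp only [update_idem] at h1
    rw [intDfc_split hA hΘ hi (by omega), pow_zero, one_mul]
    push_cast
    exact (abs_sum_le_sum_abs _ _).trans h1
  | succ d ih =>
    intro J hJ y hy
    obtain ⟨i, -, hi⟩ := exists_mem_notMem_of_card_lt_card (s := J) (t := univ)
      (by rw [card_univ]; omega)
    rw [intDfc_split hA hΘ hi (by omega)]
    push_cast
    refine (abs_sum_le_sum_abs _ _).trans ?_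
    refine (sum_le_card_nsmul _ _ ((m : ℝ) ^ d * L) fun x hx => ?_).trans ?_
    · exact ih (insert i J) (by rw [card_insert_of_notMem hi]; omega) _
        (intUpdate_mem (fun i' h _ => hy i' h) hx)
    · rw [hA, nsmul_eq_mul, pow_succ']
      exact le_of_eq (by ring)

theorem intBox_mem {A : ι → Finset Y} {x₀ : Y} {J : Finset ι} {i : ι} (hi : i ∈ J) :
    box A x₀ J i = A i := if_pos hi

theorem intCut_null {t m : ℕ} {A : ι → Finset Y} (hA : ∀ i, (A i).card = m)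
    {Θ : (ι → Y) → ℤ} (hΘ : Supp A Θ) (x₀ : Y) {J : Finset ι} (hJ : J.card ≤ t)
    (h0 : ∀ J' : Finset ι, J'.card < J.card → ∀ y : ι → Y, (∀ i ∈ J', y i ∈ A i) →
      intDfc t m J' Θ y = 0) : Null J (intCut (box A x₀ J) (intDfc t m J Θ)) := by
  intro i hi y
  have h1 := intCut_line (fun a : ℤ => a) rfl (box A x₀ J) (intDfc t m J Θ) i y
  rw [h1]
  split_ifs with h2
  · have h3 := intDfc_split hA hΘ (notMem_erase i J)
      (lt_of_lt_of_le (card_erase_lt_of_mem hi) hJ) y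
    rw [insert_erase hi] at h3
    rw [intBox_mem hi, ← h3]
    refine h0 _ (card_erase_lt_of_mem hi) y fun i' hi' => ?_
    have h4 := h2 i' (ne_of_mem_erase hi')
    rwa [intBox_mem (mem_of_mem_erase hi')] at h4
  · rfl

theorem intCut_abs {A : ι → Finset Y} (x₀ : Y) {J : Finset ι} {g : (ι → Y) → ℤ} {B : ℝ}
    (hB : 0 ≤ B) (h : ∀ y : ι → Y, (∀ i ∈ J, y i ∈ A i) → |(g y : ℝ)| ≤ B) (y : ι → Y) :
    |(intCut (box A x₀ J) g y : ℝ)| ≤ B := by
  unfold intCut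
  split_ifs with h1
  · exact h y fun i hi => intBox_mem (A := A) (x₀ := x₀) hi ▸ h1 i
  · simpa using hB

theorem intCut_res {t m : ℕ} {A : ι → Finset Y} (x₀ : Y) (J : Finset ι) (Θ : (ι → Y) → ℤ)
    {y : ι → Y} (hy : ∀ i ∈ J, y i ∈ A i) :
    intCut (box A x₀ J) (intDfc t m J Θ) (res x₀ J y) = intDfc t m J Θ y := by
  rw [intCut, if_pos]
  · unfold intDfc
    rw [marg_congr Θ (y := res x₀ J y) (y' := y) fun i hi => if_pos hi]
  · intro i
    unfold res box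
    split_ifs with hi
    · exact hy i hi
    · exact mem_singleton_self _

theorem intCut_lmass {t m : ℕ} {A : ι → Finset Y} (hA : ∀ i, (A i).card = m) (hm : 0 < m)
    (x₀ : Y) {Θ : (ι → Y) → ℤ} {L : ℝ} (hL0 : 0 ≤ L) (hL : IntLine t m A Θ L) {J : Finset ι}
    (hJ : J.card = t) {i : ι} (hi : i ∈ J) (y : ι → Y) :
    lmass i (intCut (box A x₀ J) (intDfc t m J Θ)) y ≤ L := by
  have h1 := intCut_line (fun a : ℤ => |(a : ℝ)|) (by simp) (box A x₀ J) (intDfc t m J Θ) i y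
  rw [lmass, h1]
  split_ifs with h2
  · obtain ⟨x₁, hx₁⟩ := card_pos.1 (show 0 < (A i).card by rw [hA]; exact hm)
    have h3 := hL J hJ i hi (update y i x₁) fun i' hi' =>
      intUpdate_mem (J := J) (fun i'' h h' => intBox_mem (A := A) (x₀ := x₀) h ▸ h2 i'' h') hx₁ i'
        (mem_insert_of_mem hi')
    simp only [update_idem] at h3
    rw [intBox_mem hi]
    exact h3
  · exact hL0

theorem intPow_five {Λ μ : ℝ} (hΛ : 2 ≤ Λ) (hμ : 0 ≤ μ) {a b c e : ℕ} (ha : a ≤ e) (hb : b ≤ e)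
    (hc : c ≤ e) : Λ ^ a * μ + (3 * (Λ ^ b * μ) + Λ ^ c * μ) ≤ Λ ^ (e + 3) * μ := by
  have h1 : (1 : ℝ) ≤ Λ := by linarith
  have h2 := mul_le_mul_of_nonneg_right (pow_le_pow_right₀ h1 ha) hμ
  have h3 := mul_le_mul_of_nonneg_right (pow_le_pow_right₀ h1 hb) hμ
  have h4 := mul_le_mul_of_nonneg_right (pow_le_pow_right₀ h1 hc) hμ
  have h5 : (2 : ℝ) ^ 3 ≤ Λ ^ 3 := pow_le_pow_left₀ (by norm_num) hΛ 3
  have h6 : 0 ≤ Λ ^ e * μ := by positivity
  have h7 : Λ ^ (e + 3) * μ = Λ ^ 3 * (Λ ^ e * μ) := by ring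
  rw [h7]
  nlinarith

theorem intOne_add {Λ : ℝ} (hΛ : 2 ≤ Λ) (c : ℕ) : 1 + Λ ^ c ≤ Λ ^ (c + 1) := by
  have h1 : (1 : ℝ) ≤ Λ ^ c := one_le_pow₀ (by linarith)
  rw [pow_succ]
  nlinarith

end Aux

theorem intLevel (t j : ℕ) (hj : j ≤ t) : ∃ c : ℕ, ∀ (ι Y : Type) [Fintype ι]
    [DecidableEq ι] [Fintype Y] [DecidableEq Y] (Λ m : ℕ) (μ : ℝ) (A : ι → Finset Y)
    (Φ : (ι → Y) → ℤ), Big ι Y Λ → t ≤ Fintype.card ι → (∀ i, (A i).card = m) → Supp A Φ →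
    1 ≤ μ → μ ≤ m → IntLine t m A Φ μ →
    ∃ Ψ : (ι → Y) → ℤ, Supp A Ψ ∧
      (∀ J : Finset ι, J.card < j → ∀ y : ι → Y, (∀ i ∈ J, y i ∈ A i) →
        intDfc t m J (Φ + Ψ) y = 0) ∧
      (∀ I : Finset ι, I.card + 1 = t → ∀ y, mass I Ψ y ≤ (Λ : ℝ) ^ c * μ) ∧
      ∀ I : Finset ι, I.card = t → ∀ y, mass I Ψ y ≤ (Λ : ℝ) ^ c := by
  induction j with
  | zero =>
    refine ⟨0, fun ι Y _ _ _ _ Λ m μ A Φ _ _ _ _ hμ _ _ => ⟨0, fun z hz => absurd rfl hz,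
      fun J hJ => absurd hJ (Nat.not_lt_zero _), fun I _ y => ?_, fun I _ y => ?_⟩⟩
    · simp only [mass, Pi.zero_apply, Int.cast_zero, abs_zero, ite_self, sum_const_zero]
      positivity
    · simp [mass]
  | succ j ih =>
    obtain ⟨c, hc⟩ := ih (by omega)
    obtain ⟨cw, hw⟩ := wprop j
    refine ⟨j + cw + c + 1 + 3, fun ι Y _ _ _ _ Λ m μ A Φ hΛ hk hA hΦ hμ hμm hL => ?_⟩
    obtain ⟨Ψ, s1, s2, s3, s4⟩ := hc ι Y Λ m μ A Φ hΛ hk hA hΦ hμ hμm hL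
    have hΛ2 : (2 : ℝ) ≤ Λ := by exact_mod_cast hΛ.1
    have hm1 : (1 : ℝ) ≤ m := hμ.trans hμm
    have hm : 0 < m := by exact_mod_cast (show (0 : ℝ) < m by linarith)
    obtain ⟨i₀⟩ : Nonempty ι := Fintype.card_pos_iff.1 (by omega)
    obtain ⟨x₀, -⟩ := card_pos.1 (show 0 < (A i₀).card by rw [hA]; exact hm)
    obtain ⟨d, hd⟩ : ∃ d, j + 1 + d = t := ⟨t - (j + 1), by omega⟩
    have hL' : IntLine t m A (Φ + Ψ) ((Λ : ℝ) ^ (c + 1) * μ) := by
      intro I hI i hi y hy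
      refine (hL.add s3 I hI i hi y hy).trans ?_
      have h1 := mul_le_mul_of_nonneg_right (intOne_add hΛ2 c) (show 0 ≤ μ by linarith)
      linarith
    have hB0 : 0 ≤ (m : ℝ) ^ d * ((Λ : ℝ) ^ (c + 1) * μ) := by positivity
    obtain ⟨Ψ', e1, e2, e3, e4, -⟩ := extend hΛ A hA hm x₀ j
      (fun J => intCut (box A x₀ J) (intDfc t m J (Φ + Ψ))) (2 ^ j)
      ((Λ : ℝ) ^ cw * ((m : ℝ) ^ d * ((Λ : ℝ) ^ (c + 1) * μ)))
      ((Λ : ℝ) ^ cw * ((m : ℝ) ^ d * ((Λ : ℝ) ^ (c + 1) * μ))) (by positivity) (by positivity)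
      (by positivity) fun J hJ => by
        have h1 := hw ι Y Λ J hΛ hJ (box A x₀ J) _ _ hB0 (intCut_supp _ _)
          (intCut_null hA (hΦ.add s1) x₀ (by omega) fun J' h => s2 J' (by omega))
          (intCut_abs x₀ hB0 (intDfc_bound hA hm hk (hΦ.add s1) hL' d J (by omega)))
        rwa [hJ] at h1
    have hG : (2 : ℝ) ^ j * Λ ≤ (Λ : ℝ) ^ (j + 1) := by
      rw [pow_succ]
      exact mul_le_mul_of_nonneg_right (pow_le_pow_left₀ (by norm_num) hΛ2 j) (by linarith)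
    refine ⟨Ψ + Ψ', s1.add e1, fun J hJ y hy => ?_, fun I hI y => ?_, fun I hI y => ?_⟩
    · rw [← add_assoc, intDfc_add]
      rcases Nat.lt_succ_iff_lt_or_eq.1 hJ with h1 | h1
      · rw [s2 J h1 y hy, e3 J h1 y, sub_zero]
      · rw [e2 J h1 y, intCut_res x₀ J _ hy, sub_self]
    · refine (mass_add_le _ _ _ _).trans ((add_le_add (s3 I hI y) (e4 I y)).trans ?_)
      have h1 : (Λ : ℝ) ^ j * ((Λ : ℝ) ^ cw * ((m : ℝ) ^ d * ((Λ : ℝ) ^ (c + 1) * μ))) * m ^ j /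
          m ^ I.card = (Λ : ℝ) ^ (j + cw + c + 1) * μ := by
        rw [show I.card = d + j by omega]
        field_simp
        ring
      have h2 : (Λ : ℝ) ^ (j + 1) * 1 ≤ (Λ : ℝ) ^ (j + 1) * μ :=
        mul_le_mul_of_nonneg_left hμ (by positivity)
      have h3 := intPow_five hΛ2 (show 0 ≤ μ by linarith) (a := c) (b := j + cw + c + 1)
        (c := j + 1) (e := j + cw + c + 1) (by omega) le_rfl (by omega)
      rw [h1]
      linarith
    · refine (mass_add_le _ _ _ _).trans ((add_le_add (s4 I hI y) (e4 I y)).trans ?_)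
      have h1 : (Λ : ℝ) ^ j * ((Λ : ℝ) ^ cw * ((m : ℝ) ^ d * ((Λ : ℝ) ^ (c + 1) * μ))) * m ^ j /
          m ^ I.card = (Λ : ℝ) ^ (j + cw + c + 1) * (μ / m) := by
        rw [show I.card = d + j + 1 by omega]
        field_simp
        ring
      have h2 : (Λ : ℝ) ^ (j + cw + c + 1) * (μ / m) ≤ (Λ : ℝ) ^ (j + cw + c + 1) * 1 :=
        mul_le_mul_of_nonneg_left ((div_le_one (by linarith)).2 hμm) (by positivity)
      have h3 := intPow_five hΛ2 zero_le_one (a := c) (b := j + cw + c + 1)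
        (c := j + 1) (e := j + cw + c + 1) (by omega) le_rfl (by omega)
      rw [h1]
      linarith

theorem integral (t : ℕ) (ht : 1 ≤ t) : ∃ c : ℕ, ∀ (ι Y : Type) [Fintype ι] [DecidableEq ι]
    [Fintype Y] [DecidableEq Y] (Λ m κ : ℕ) (A : ι → Finset Y) (Φ : (ι → Y) → ℤ),
    Big ι Y Λ → t ≤ Fintype.card ι → (∀ i, (A i).card = m) → Supp A Φ → 1 ≤ κ →
    Λ ^ c * κ ^ (t + 1) ≤ m →
    (∀ I : Finset ι, I.card = t → ∀ y, (∀ i ∈ I, y i ∈ A i) → |1 - marg I Φ y| ≤ 1) →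
    (∀ I : Finset ι, I.card = t → ∀ j ∈ I, ∀ y, (∀ i ∈ I, y i ∈ A i) →
      κ * ∑ x ∈ A j, |1 - marg I Φ (update y j x)| ≤ m) →
    ∃ Ψ : (ι → Y) → ℤ, Supp A Ψ ∧
      (∀ I : Finset ι, I.card = t → ∀ y, (∀ i ∈ I, y i ∈ A i) → marg I (Φ + Ψ) y = 1) ∧
      ∀ I : Finset ι, I.card + 1 = t → ∀ y, κ * mass I Ψ y ≤ Λ ^ c * m := by
  obtain ⟨c, hc⟩ := intLevel t t le_rfl
  obtain ⟨cf, hf⟩ := frag t ht
  refine ⟨t + cf + c + 1 + 3, fun ι Y _ _ _ _ Λ m κ A Φ hΛ hk hA hΦ hκ hmκ H1 H2 => ?_⟩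
  have hΛ2 : (2 : ℝ) ≤ Λ := by exact_mod_cast hΛ.1
  have hκ1 : (1 : ℝ) ≤ κ := by exact_mod_cast hκ
  have hmκ' : (Λ : ℝ) ^ (t + cf + c + 1 + 3) * (κ : ℝ) ^ (t + 1) ≤ m := by exact_mod_cast hmκ
  have hκt : (1 : ℝ) ≤ (κ : ℝ) ^ t := one_le_pow₀ hκ1
  have hκ2 : (κ : ℝ) ≤ (κ : ℝ) ^ (t + 1) := by
    rw [pow_succ]
    nlinarith
  have hΛ1 : (1 : ℝ) ≤ (Λ : ℝ) ^ (t + cf + c + 1 + 3) := one_le_pow₀ (by linarith)
  have hκm : (κ : ℝ) ^ (t + 1) ≤ m := by nlinarith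
  have hfm : (Λ : ℝ) ^ cf * κ ≤ m :=
    (mul_le_mul (pow_le_pow_right₀ (by linarith) (by omega)) hκ2 (by linarith)
      (by linarith)).trans hmκ'
  have hm1 : (1 : ℝ) ≤ m := by linarith
  have hm : 0 < m := by exact_mod_cast (show (0 : ℝ) < m by linarith)
  have hμt : (κ : ℝ) ^ t ≤ m / κ := by
    rw [le_div_iff₀ (by linarith), ← pow_succ]
    exact hκm
  have hμ : (1 : ℝ) ≤ m / κ := hκt.trans hμt
  have hdf : ∀ I : Finset ι, I.card = t → ∀ (Θ : (ι → Y) → ℤ) y,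
      intDfc t m I Θ y = 1 - marg I Θ y := fun I hI Θ y => by
    rw [intDfc, hI, Nat.sub_self, pow_zero]
  have hL : IntLine t m A Φ (m / κ) := fun I hI j hj y hy => by
    have h1 : (κ : ℝ) * ∑ x ∈ A j, |((1 - marg I Φ (update y j x) : ℤ) : ℝ)| ≤ m := by
      exact_mod_cast H2 I hI j hj y hy
    simp only [hdf I hI]
    rw [le_div_iff₀ (by linarith), mul_comm]
    exact h1
  obtain ⟨Ψ, s1, s2, s3, s4⟩ := hc ι Y Λ m (m / κ) A Φ hΛ hk hA hΦ hμ
    (div_le_self (by linarith) hκ1) hL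
  obtain ⟨i₀⟩ : Nonempty ι := Fintype.card_pos_iff.1 (by omega)
  obtain ⟨x₀, -⟩ := card_pos.1 (show 0 < (A i₀).card by rw [hA]; exact hm)
  have hP : (0 : ℝ) < (Λ : ℝ) ^ c := by positivity
  obtain ⟨Ψ', e1, e2, -, -, e5⟩ := extend hΛ A hA hm x₀ t
    (fun J => intCut (box A x₀ J) (intDfc t m J (Φ + Ψ)))
    ((Λ : ℝ) ^ cf * (1 + (Λ : ℝ) ^ c) * (κ : ℝ) ^ t) ((Λ : ℝ) ^ cf * (1 + (Λ : ℝ) ^ c))
    ((Λ : ℝ) ^ cf * ((1 + (Λ : ℝ) ^ c) / κ)) (by positivity) (by positivity) (by positivity)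
    fun J hJ => by
      refine hf ι Y Λ m J (box A x₀ J) _ _ κ hΛ hJ (fun i hi => by rw [intBox_mem hi, hA])
        (fun i hi => by simp [box, hi]) (by linarith) hκ1 hfm
        ⟨intCut_supp _ _, intCut_null hA (hΦ.add s1) x₀ hJ.le fun J' h => s2 J' (by omega),
          intCut_abs x₀ (by linarith) fun y hy => ?_, fun i hi y => ?_⟩
      · refine (intDfc_abs_add t m J Φ Ψ y).trans (add_le_add ?_ (s4 J hJ y))
        rw [hdf J hJ]
        exact_mod_cast H1 J hJ y hy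
      · refine (intCut_lmass hA hm x₀ (by positivity) (hL.add s3) hJ hi y).trans (le_of_eq ?_)
        rw [intBox_mem hi, hA]
        ring
  refine ⟨Ψ + Ψ', s1.add e1, fun I hI y hy => ?_, fun I hI y => ?_⟩
  · rw [← add_assoc, marg_add, e2 I hI y, intCut_res x₀ I _ hy, hdf I hI]
    ring
  · have h0 := (mass_add_le I Ψ Ψ' y).trans (add_le_add (s3 I hI y) (e5 I (by omega) y))
    have h1 : (Λ : ℝ) ^ t * ((Λ : ℝ) ^ cf * ((1 + (Λ : ℝ) ^ c) / κ)) * m ^ t / m ^ I.card =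
        (Λ : ℝ) ^ (t + cf) * (m / κ) * (1 + (Λ : ℝ) ^ c) := by
      have h2 : (m : ℝ) ^ t = m ^ I.card * m := by rw [← pow_succ, hI]
      rw [h2]
      field_simp
      ring
    have h2 : (Λ : ℝ) ^ (t + cf) * (m / κ) * (1 + (Λ : ℝ) ^ c) ≤
        (Λ : ℝ) ^ (t + cf) * (m / κ) * (Λ : ℝ) ^ (c + 1) :=
      mul_le_mul_of_nonneg_left (intOne_add hΛ2 c) (by positivity)
    have h3 : (Λ : ℝ) ^ (cf + 1) * ((1 + (Λ : ℝ) ^ c) * (κ : ℝ) ^ t) ≤
        (Λ : ℝ) ^ (cf + 1) * ((Λ : ℝ) ^ (c + 1) * (m / κ)) :=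
      mul_le_mul_of_nonneg_left (mul_le_mul (intOne_add hΛ2 c) hμt (by linarith) (by positivity))
        (by positivity)
    have h4 := intPow_five hΛ2 (show (0 : ℝ) ≤ m / κ by linarith) (a := c) (b := t + cf + c + 1)
      (c := cf + 1 + (c + 1)) (e := t + cf + c + 1) (by omega) le_rfl (by omega)
    have h5 : mass I (Ψ + Ψ') y ≤ (Λ : ℝ) ^ (t + cf + c + 1 + 3) * (m / κ) := by
      rw [h1] at h0
      have h6 : (Λ : ℝ) ^ (t + cf) * (m / κ) * (Λ : ℝ) ^ (c + 1) =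
          (Λ : ℝ) ^ (t + cf + c + 1) * (m / κ) := by ring
      have h7 : (Λ : ℝ) ^ (cf + 1) * ((Λ : ℝ) ^ (c + 1) * (m / κ)) =
          (Λ : ℝ) ^ (cf + 1 + (c + 1)) * (m / κ) := by ring
      have h8 : (Λ : ℝ) ^ cf * (1 + (Λ : ℝ) ^ c) * (κ : ℝ) ^ t * Λ =
          (Λ : ℝ) ^ (cf + 1) * ((1 + (Λ : ℝ) ^ c) * (κ : ℝ) ^ t) := by ring
      linarith
    have h6 := mul_le_mul_of_nonneg_left h5 (show (0 : ℝ) ≤ κ by linarith)
    refine h6.trans (le_of_eq ?_)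
    field_simp

end Pool.Agent.Lib.MP_deca50_lc.CES
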