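import Pool.Agent.Lib.MP_deca50_lc.CES.RS
import Pool.Agent.Lib.MP_458f0b_nt.Pois.BH
import Pool.Agent.Lib.MP_458f0b_nt.Pois.Arith

/-!
Rough numbers in short intervals, and the choice of the parameters.
-/

open Finset Function

set_option linter.unusedSectionVars false

namespace Pool.Agent.Lib.MP_deca50_lc.CES

private lemma num_count (x H q : ℕ) (hq : 0 < q) :
    |(((Ioc x (x + H)).filter (fun n => q ∣ n)).card : ℝ) - (H : ℝ) / q| ≤ 1 := by
  have h1 := Nat.Ioc_filter_dvd_card_eq_div (x + H) q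
  have h2 := Nat.Ioc_filter_dvd_card_eq_div x q
  have h3 : Ioc 0 (x + H) = Ioc 0 x ∪ Ioc x (x + H) :=
    (Finset.Ioc_union_Ioc_eq_Ioc (Nat.zero_le _) (Nat.le_add_right _ _)).symm
  have h4 : Disjoint ((Ioc 0 x).filter (fun n => q ∣ n))
      ((Ioc x (x + H)).filter (fun n => q ∣ n)) := by
    rw [Finset.disjoint_left]
    intro n hn hn'
    have a1 := (Finset.mem_Ioc.mp (Finset.mem_filter.mp hn).1).2
    have a2 := (Finset.mem_Ioc.mp (Finset.mem_filter.mp hn').1).1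
    omega
  rw [h3, Finset.filter_union, Finset.card_union_of_disjoint h4, h2] at h1
  have hq' : (0 : ℝ) < q := by exact_mod_cast hq
  have hl : ∀ n : ℕ, ((n / q : ℕ) : ℝ) ≤ (n : ℝ) / q := fun n => Nat.cast_div_le
  have hu : ∀ n : ℕ, (n : ℝ) / q < ((n / q : ℕ) : ℝ) + 1 := by
    intro n
    rw [div_lt_iff₀ hq']
    have := Nat.lt_div_mul_add (a := n) hq
    have h : (n : ℝ) < ((n / q * q + q : ℕ) : ℝ) := by exact_mod_cast this
    push_cast at h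
    linarith
  have h5 : ((x / q : ℕ) : ℝ) + (((Ioc x (x + H)).filter (fun n => q ∣ n)).card : ℝ) =
      (((x + H) / q : ℕ) : ℝ) := by exact_mod_cast h1
  have a1 := hl x
  have a2 := hu x
  have a3 := hl (x + H)
  have a4 := hu (x + H)
  have a5 : ((x + H : ℕ) : ℝ) / q = (x : ℝ) / q + (H : ℝ) / q := by
    push_cast
    ring
  rw [abs_le]
  constructor <;> linarith

theorem rough : ∃ C : ℕ, ∀ k x : ℕ, 2 ≤ k →
    ∃ r, x ≤ r ∧ r < x + k ^ C ∧ ∀ p, p.Prime → p ∣ r → k ≤ p := by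
  obtain ⟨C0, hC0, hblk⟩ := Pool.Agent.Lib.MP_458f0b_nt.Pois.block_sum
  set m : ℕ := ⌈5 * C0⌉₊ + 2 with hm
  refine ⟨4 * m + 12, fun k x hk => ?_⟩
  set H : ℕ := k ^ (4 * m + 11) with hH
  have hH0 : 0 < H := by positivity
  have hHr : (0 : ℝ) < H := by exact_mod_cast hH0
  have hkr : (2 : ℝ) ≤ k := by exact_mod_cast hk
  have hcard : ((Ioc x (x + H)).card : ℝ) = H := by simp
  have hbh := Pool.Agent.Lib.MP_458f0b_nt.Pois.brun_hooley (Ioc x (x + H)) k.primesLE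
    (fun p hp => Nat.prime_of_mem_primesLE hp) (fun p n => p ∣ n) (fun p => (p : ℝ)⁻¹)
    (fun p _ => by positivity)
    (fun p hp => by
      have h2 : (2 : ℝ) ≤ p := by exact_mod_cast (Nat.prime_of_mem_primesLE hp).two_le
      rw [one_div]
      exact inv_anti₀ (by norm_num) h2)
    k m (fun p hp => Nat.le_of_mem_primesLE hp) C0 (1 / H) (fun i => hblk k i)
    (by
      have := Nat.le_ceil (5 * C0)
      rw [hm]
      push_cast
      linarith)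
    (by omega)
    (fun S hS _ => by
      have hSp : ∀ p ∈ S, p.Prime := fun p hp => Nat.prime_of_mem_primesLE (hS hp)
      have hq : 0 < ∏ p ∈ S, p := Finset.prod_pos fun p hp => (hSp p hp).pos
      have hf : (Ioc x (x + H)).filter (fun n => ∀ p ∈ S, p ∣ n) =
          (Ioc x (x + H)).filter (fun n => (∏ p ∈ S, p) ∣ n) := by
        refine Finset.filter_congr fun n _ => ⟨fun h => ?_, fun h p hp => ?_⟩
        · exact Finset.prod_primes_dvd n (fun p hp => (hSp p hp).prime) h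
        · exact (Finset.dvd_prod_of_mem _ hp).trans h
      have hp : ∏ p ∈ S, (p : ℝ)⁻¹ = (((∏ p ∈ S, p : ℕ) : ℝ))⁻¹ := by
        rw [Finset.prod_inv_distrib, Nat.cast_prod]
      rw [hf, hp, hcard]
      have hc := num_count x H _ hq
      have hq' : (0 : ℝ) < ((∏ p ∈ S, p : ℕ) : ℝ) := by exact_mod_cast hq
      generalize ((∏ p ∈ S, p : ℕ) : ℝ) = Q at *
      generalize (((Ioc x (x + H)).filter (fun n => (∏ p ∈ S, p) ∣ n)).card : ℝ) = N at *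
      have he : N / H - Q⁻¹ = (N - H / Q) / H := by
        field_simp
      rw [he, abs_div, abs_of_pos hHr]
      exact div_le_div_of_nonneg_right hc hHr.le)
  have hV : (k : ℝ)⁻¹ ≤ ∏ p ∈ k.primesLE, (1 - (p : ℝ)⁻¹) := by
    have h1 := Pool.Agent.Lib.MP_458f0b_nt.Pois.inv_V_le (z := k) (by omega) (Finset.Subset.refl _)
    have h2 := Pool.Agent.Lib.MP_458f0b_nt.Pois.V_pos (S := k.primesLE)
      (fun p hp => Nat.prime_of_mem_primesLE hp)
    exact inv_le_of_inv_le₀ h2 h1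
  have hexp : 3 * Real.exp (-(m : ℝ)) ≤ 1 / 2 := by
    have h1 : Real.exp (-(m : ℝ)) ≤ Real.exp (-2) := by
      rw [Real.exp_le_exp, hm]
      push_cast
      have : (0 : ℝ) ≤ (⌈5 * C0⌉₊ : ℝ) := Nat.cast_nonneg _
      linarith
    have h2 : (6 : ℝ) ≤ Real.exp 2 := by
      have h3 : Real.exp 2 = Real.exp 1 * Real.exp 1 := by rw [← Real.exp_add]; norm_num
      have h4 := Real.exp_one_gt_d9
      rw [h3]
      nlinarith
    have h3 : Real.exp (-2) ≤ 1 / 6 := by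
      rw [Real.exp_neg, inv_eq_one_div]
      exact one_div_le_one_div_of_le (by norm_num) h2
    linarith
  have herr : ((k : ℝ) + 2) * (k : ℝ) ^ (4 * m + 6) * (1 / H) < (k : ℝ)⁻¹ / 2 := by
    have hk0 : (0 : ℝ) < k := by linarith
    have e1 : (H : ℝ) = (k : ℝ) ^ (4 * m + 6) * k ^ 5 := by
      rw [hH]
      push_cast
      ring
    have e2 : ((k : ℝ) + 2) * (k : ℝ) ^ (4 * m + 6) * (1 / H) = ((k : ℝ) + 2) / k ^ 5 := by
      rw [e1]
      field_simp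
    rw [e2, div_lt_iff₀ (by positivity)]
    have e3 : (k : ℝ)⁻¹ / 2 * k ^ 5 = k ^ 4 / 2 := by
      field_simp
    rw [e3]
    have e4 : (8 : ℝ) ≤ (k : ℝ) ^ 3 := by
      calc (8 : ℝ) = 2 ^ 3 := by norm_num
        _ ≤ _ := pow_le_pow_left₀ (by norm_num) hkr 3
    have e5 : (k : ℝ) ^ 4 = k ^ 3 * k := by ring
    nlinarith
  by_contra hcon
  have hemp : (Ioc x (x + H)).filter (fun n => ∀ p ∈ k.primesLE, ¬ p ∣ n) = ∅ := by
    rw [Finset.filter_eq_empty_iff]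
    intro n hn hall
    apply hcon
    have hn' := Finset.mem_Ioc.mp hn
    refine ⟨n, hn'.1.le, ?_, fun p hp hpn => ?_⟩
    · have : H < k ^ (4 * m + 12) := Nat.pow_lt_pow_right (by omega) (by omega)
      omega
    · by_contra hlt
      exact hall p (Nat.mem_primesLE.mpr ⟨by omega, hp⟩) hpn
  rw [hemp] at hbh
  simp only [Finset.card_empty, Nat.cast_zero, zero_div, zero_sub, abs_neg] at hbh
  have hk0 : (0 : ℝ) < (k : ℝ)⁻¹ := by positivity
  generalize ∏ p ∈ k.primesLE, (1 - (p : ℝ)⁻¹) = W at *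
  have hW : 0 < W := by linarith
  rw [abs_of_pos hW] at hbh
  nlinarith

theorem oa_rough {k r : ℕ} [NeZero r] (h : ∀ p, p.Prime → p ∣ r → k ≤ p) (t : ℕ) :
    ∃ T : Finset (Fin k → ZMod r), IsOA t (fun _ => univ) T := by
  have key : ∀ i j : Fin k, (j : ℕ) < i → IsUnit (((i : ℕ) : ZMod r) - ((j : ℕ) : ZMod r)) := by
    intro i j hij
    rw [← Nat.cast_sub hij.le, ZMod.isUnit_iff_coprime]
    refine Nat.Coprime.symm (Nat.coprime_of_dvd fun p hp h1 h2 => ?_)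
    have a1 := h p hp h1
    have a2 := Nat.le_of_dvd (by omega) h2
    have a3 := i.2
    omega
  refine ⟨_, isOA_ev (K := ZMod r) (M := ZMod r) (s := fun i : Fin k => ((i : ℕ) : ZMod r))
    (t := t) fun i j hij => ?_⟩
  have hne : (i : ℕ) ≠ j := fun h => hij (Fin.ext h)
  rcases lt_or_gt_of_ne hne with h' | h'
  · have := (key j i h').neg
    rwa [neg_sub] at this
  · exact key i j h'

private lemma num_two {p A B n n' : ℕ} (hp : 2 ≤ p) (hA : A ≤ p ^ n) (hB : B ≤ p ^ n)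
    (hn : n + 1 ≤ n') : A + B ≤ p ^ n' := by
  calc A + B ≤ p ^ n * 2 := by omega
    _ ≤ p ^ n * p := Nat.mul_le_mul_left _ hp
    _ = p ^ (n + 1) := (pow_succ p n).symm
    _ ≤ p ^ n' := Nat.pow_le_pow_right (by omega) hn

private lemma num_mul {p A B n₁ n₂ : ℕ} (hA : A ≤ p ^ n₁) (hB : B ≤ p ^ n₂) :
    A * B ≤ p ^ (n₁ + n₂) := by
  rw [pow_add]
  exact Nat.mul_le_mul hA hB

private lemma num_pow {p A n : ℕ} (hA : A ≤ p ^ n) (j : ℕ) : A ^ j ≤ p ^ (n * j) := by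
  rw [pow_mul]
  exact Nat.pow_le_pow_left hA j

private lemma num_core {t c d p k r v u₁ u₂ : ℕ} (hp : 2 ≤ p) (hk1 : 1 ≤ k) (hk : k ≤ p)
    (hr : r ≤ p ^ (6 * c + 9)) (hu₁ : u₁ ≤ p ^ d) (hu₂ : u₂ ≤ r)
    (hv : p ^ (d + 6 * c + 6) ≤ v) (hd0 : d + 12 * c + 20 ≤ p)
    (hd1 : 3 * c + (6 * c + 3) * (t + 1) ≤ d) (hd2 : (6 * c + 9) * t + (6 * c + 9) ≤ d)
    (hd3 : (3 * c + (6 * c + 9) * t) * (t + 1) ≤ d) :
    8 * (2 * r * p ^ (d + 6 * c + 6) * p) ^ k ≤ 2 ^ p ^ 3 ∧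
      p ^ (6 * c + 3) * (k * u₁) + u₁ ≤ p ^ (d + 6 * c + 6) ∧
      (p ^ 3) ^ c * (p ^ (6 * c + 3)) ^ (t + 1) + u₁ ≤ p ^ (d + 6 * c + 6) ∧
      (p ^ 3) ^ c ≤ p ^ (6 * c + 3) ∧
      (p ^ 3) ^ c * (u₁ + 1) ≤ p ^ (d + 6 * c + 6) ∧ (p ^ 3) ^ c * r ^ t * (k * u₂) ≤ v ∧
      (p ^ 3) ^ c * ((p ^ 3) ^ c * r ^ t) ^ (t + 1) ≤ v ∧
      ∀ β, p ^ (6 * c + 3) * β ≤ (p ^ 3) ^ c * p ^ (d + 6 * c + 6) →
        (p ^ 3) ^ c * (β + u₁ + u₂ + 1) ≤ p ^ (d + 6 * c + 6) := by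
  have hp0 : 0 < p := by omega
  have mono : ∀ {n n' : ℕ}, n ≤ n' → p ^ n ≤ p ^ n' := fun h => Nat.pow_le_pow_right hp0 h
  have hG : (p ^ 3) ^ c = p ^ (3 * c) := (pow_mul p 3 c).symm
  have hk' : k ≤ p ^ 1 := by rwa [pow_one]
  have h2' : 2 ≤ p ^ 1 := by rwa [pow_one]
  have hp' : p ≤ p ^ 1 := by rw [pow_one]
  have hone : ∀ n, 1 ≤ p ^ n := fun n => Nat.one_le_pow _ _ hp0
  rw [hG]
  refine ⟨?_, ?_, ?_, mono (by omega), ?_, ?_, ?_, fun β hβ => ?_⟩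
  · have a1 : 2 * r * p ^ (d + 6 * c + 6) * p ≤ p ^ (1 + (6 * c + 9) + (d + 6 * c + 6) + 1) :=
      num_mul (num_mul (num_mul h2' hr) le_rfl) hp'
    have a2 : 8 ≤ p ^ (3 * k) := by
      calc 8 = 2 ^ 3 := by norm_num
        _ ≤ p ^ 3 := Nat.pow_le_pow_left hp 3
        _ ≤ _ := mono (by omega)
    have a3 := num_mul a2 (num_pow a1 k)
    have a4 : 3 * k + (1 + (6 * c + 9) + (d + 6 * c + 6) + 1) * k = (d + 12 * c + 20) * k := by
      ring
    rw [a4] at a3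
    have a5 : (d + 12 * c + 20) * k ≤ p * p := Nat.mul_le_mul hd0 hk
    calc _ ≤ p ^ ((d + 12 * c + 20) * k) := a3
      _ ≤ p ^ (p * p) := mono a5
      _ ≤ (2 ^ p) ^ (p * p) := Nat.pow_le_pow_left (Nat.lt_two_pow_self).le _
      _ = 2 ^ p ^ 3 := by
        rw [← pow_mul]
        congr 1
        ring
  · have a1 : p ^ (6 * c + 3) * (k * u₁) ≤ p ^ (6 * c + 3 + (1 + d)) :=
      num_mul le_rfl (num_mul hk' hu₁)
    exact num_two hp a1 (hu₁.trans (mono (by omega))) (by omega)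
  · have a1 : p ^ (3 * c) * (p ^ (6 * c + 3)) ^ (t + 1) ≤ p ^ (3 * c + (6 * c + 3) * (t + 1)) :=
      num_mul le_rfl (num_pow le_rfl _)
    exact num_two hp (a1.trans (mono hd1)) hu₁ (by omega)
  · have a1 : u₁ + 1 ≤ p ^ (d + 1) := num_two hp hu₁ (hone d) le_rfl
    exact (num_mul le_rfl a1).trans (mono (by omega))
  · have a1 : p ^ (3 * c) * r ^ t * (k * u₂) ≤
        p ^ (3 * c + (6 * c + 9) * t + (1 + (6 * c + 9))) :=
      num_mul (num_mul le_rfl (num_pow hr t)) (num_mul hk' (hu₂.trans hr))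
    exact (a1.trans (mono (by omega))).trans hv
  · have a1 : p ^ (3 * c) * (p ^ (3 * c) * r ^ t) ^ (t + 1) ≤
        p ^ (3 * c + (3 * c + (6 * c + 9) * t) * (t + 1)) :=
      num_mul le_rfl (num_pow (num_mul le_rfl (num_pow hr t)) _)
    exact (a1.trans (mono (by omega))).trans hv
  · have a1 : β ≤ p ^ (d + 3 * c + 3) := by
      have e : p ^ (3 * c) * p ^ (d + 6 * c + 6) = p ^ (6 * c + 3) * p ^ (d + 3 * c + 3) := by
        rw [← pow_add, ← pow_add]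
        congr 1
        ring
      rw [e] at hβ
      exact Nat.le_of_mul_le_mul_left hβ (by positivity)
    have a2 : β + u₁ ≤ p ^ (d + 3 * c + 4) :=
      num_two hp a1 (hu₁.trans (mono (by omega))) le_rfl
    have a3 : u₂ + 1 ≤ p ^ (d + 3 * c + 4) :=
      num_two hp ((hu₂.trans hr).trans (mono (n' := d + 3 * c + 3) (by omega))) (hone _) le_rfl
    have a4 : β + u₁ + u₂ + 1 ≤ p ^ (d + 3 * c + 5) := by
      rw [add_assoc (β + u₁)]
      exact num_two hp a2 a3 le_rfl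
    exact (num_mul le_rfl a4).trans (mono (by omega))

private lemma num_prime {n e k v : ℕ} (hn : 1 ≤ n) (hne : n ≤ e) (hk : 2 ≤ k)
    (hv : k ^ (n * (e + 1)) ≤ v) : ∃ p, p.Prime ∧ k ^ e < p ∧ p ^ n ≤ v ∧ v < p ^ (n + 1) := by
  classical
  have hex : ∃ y, v < (2 * (y + 1)) ^ n := by
    refine ⟨v, ?_⟩
    calc v < 2 * (v + 1) := by omega
      _ ≤ (2 * (v + 1)) ^ n := Nat.le_self_pow (by omega) _
  set y := Nat.find hex with hy
  have hy1 : v < (2 * (y + 1)) ^ n := Nat.find_spec hex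
  have hke : 1 ≤ k ^ e := Nat.one_le_pow _ _ (by omega)
  have hy2 : k ^ e ≤ y := by
    by_contra hlt
    have a1 : 2 * (y + 1) ≤ k ^ (e + 1) := by
      calc 2 * (y + 1) ≤ k * k ^ e := Nat.mul_le_mul hk (by omega)
        _ = k ^ (e + 1) := by ring
    have a2 : (2 * (y + 1)) ^ n ≤ k ^ (n * (e + 1)) := by
      rw [mul_comm n, pow_mul]
      exact Nat.pow_le_pow_left a1 n
    omega
  have hy3 : (2 * y) ^ n ≤ v := by
    have := Nat.find_min hex (m := y - 1) (by omega)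
    have e1 : y - 1 + 1 = y := by omega
    rw [e1] at this
    omega
  obtain ⟨p, hp, h1, h2⟩ := Nat.exists_prime_lt_and_le_two_mul y (by omega)
  refine ⟨p, hp, by omega, (Nat.pow_le_pow_left h2 n).trans hy3, ?_⟩
  have a1 : 2 ^ n ≤ p := by
    calc 2 ^ n ≤ k ^ n := Nat.pow_le_pow_left hk n
      _ ≤ k ^ e := Nat.pow_le_pow_right (by omega) hne
      _ ≤ p := by omega
  calc v < (2 * (y + 1)) ^ n := hy1
    _ ≤ (2 * p) ^ n := Nat.pow_le_pow_left (by omega) n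
    _ = 2 ^ n * p ^ n := mul_pow _ _ _
    _ ≤ p * p ^ n := Nat.mul_le_mul_right _ a1
    _ = p ^ (n + 1) := by ring

/-- The numerical choices: a prime `p`, the order `p ^ a` of the template, and the window for the
rough factor `r`. -/
theorem params (t c C₀ : ℕ) : ∃ C : ℕ, ∀ k v : ℕ, 2 ≤ k → k ^ C ≤ v →
    ∃ p a x κ : ℕ, p.Prime ∧ k ^ (t + 1) < p ∧ 1 ≤ κ ∧ 1 ≤ x ∧
      ∀ r, x ≤ r → r < x + k ^ C₀ → ∃ m u₁ u₂ : ℕ, m + u₁ = p ^ a ∧ v + u₂ = r * m ∧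
        8 * (2 * r * p ^ a * p) ^ k ≤ 2 ^ p ^ 3 ∧ κ * (k * u₁) + u₁ ≤ p ^ a ∧
        (p ^ 3) ^ c * κ ^ (t + 1) + u₁ ≤ p ^ a ∧ (p ^ 3) ^ c ≤ κ ∧
        (p ^ 3) ^ c * (u₁ + 1) ≤ p ^ a ∧ (p ^ 3) ^ c * r ^ t * (k * u₂) ≤ v ∧
        (p ^ 3) ^ c * ((p ^ 3) ^ c * r ^ t) ^ (t + 1) ≤ v ∧
        ∀ β, κ * β ≤ (p ^ 3) ^ c * p ^ a → (p ^ 3) ^ c * (β + u₁ + u₂ + 1) ≤ p ^ a := by
  obtain ⟨d, hd1, hd2, hd3⟩ : ∃ d, 3 * c + (6 * c + 3) * (t + 1) ≤ d ∧
      (6 * c + 9) * t + (6 * c + 9) ≤ d ∧ (3 * c + (6 * c + 9) * t) * (t + 1) ≤ d :=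
    ⟨3 * c + (6 * c + 3) * (t + 1) + ((6 * c + 9) * t + (6 * c + 9)) +
      (3 * c + (6 * c + 9) * t) * (t + 1), by omega, by omega, by omega⟩
  refine ⟨(d + 6 * c + 6 + (6 * c + 7)) * (d + 12 * c + 20 + (t + 1) + C₀ + 1),
    fun k v hk hv => ?_⟩
  obtain ⟨p, hp, hkp, hv1, hv2⟩ := num_prime (by omega) (by omega) hk hv
  have hp2 := hp.two_le
  have hp0 : 0 < p := hp.pos
  have kmono : ∀ n, n ≤ d + 12 * c + 20 + (t + 1) + C₀ → k ^ n < p := fun n hn =>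
    (Nat.pow_le_pow_right (by omega) hn).trans_lt hkp
  have hk1 : k ≤ p := by
    have := kmono 1 (by omega)
    rw [pow_one] at this
    exact this.le
  have hd0 : d + 12 * c + 20 ≤ p := by
    have a1 := kmono (d + 12 * c + 20) (by omega)
    have a2 : d + 12 * c + 20 < k ^ (d + 12 * c + 20) := Nat.lt_pow_self (by omega)
    omega
  have hC := kmono C₀ (by omega)
  set N := p ^ (d + 6 * c + 6) with hN
  have hN0 : 0 < N := by positivity
  have hv1' : N * p ^ (6 * c + 7) ≤ v := by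
    rw [hN, ← pow_add]
    exact hv1
  have hv2' : v < N * p ^ (6 * c + 8) := by
    rw [hN, ← pow_add]
    exact hv2
  have hx1 : p ^ (6 * c + 7) ≤ v / N := (Nat.le_div_iff_mul_le hN0).2 (by rwa [mul_comm])
  have hx2 : v / N < p ^ (6 * c + 8) := (Nat.div_lt_iff_lt_mul hN0).2 (by rwa [mul_comm])
  refine ⟨p, d + 6 * c + 6, v / N + 1, p ^ (6 * c + 3), hp, kmono _ (by omega),
    Nat.one_le_pow _ _ hp0, by omega, fun r hr1 hr2 => ?_⟩
  have hr0 : 0 < r := by omega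
  have hm1 : v / r < N := by
    rw [Nat.div_lt_iff_lt_mul hr0]
    calc v < N * (v / N + 1) := Nat.lt_mul_div_succ v hN0
      _ ≤ N * r := Nat.mul_le_mul_left _ hr1
  have hm2 : v < r * (v / r + 1) := Nat.lt_mul_div_succ v hr0
  have hm3 : r * (v / r + 1) ≤ v + r := by
    have := Nat.mul_div_le v r
    rw [Nat.mul_add, Nat.mul_one]
    omega
  obtain ⟨u₁, hu₁⟩ : ∃ u₁, v / r + 1 + u₁ = N := ⟨N - (v / r + 1), by omega⟩
  obtain ⟨u₂, hu₂⟩ : ∃ u₂, v + u₂ = r * (v / r + 1) := ⟨r * (v / r + 1) - v, by omega⟩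
  refine ⟨v / r + 1, u₁, u₂, hu₁, hu₂, ?_⟩
  have hr3 : r ≤ p ^ (6 * c + 9) := by
    have a1 : p ≤ p ^ (6 * c + 8) := Nat.le_self_pow (by omega) _
    have a2 : p ^ (6 * c + 8) + p ≤ p ^ (6 * c + 9) := num_two hp2 le_rfl a1 le_rfl
    omega
  have hu3 : u₁ ≤ p ^ d := by
    have a1 : r * N = r * (v / r + 1) + r * u₁ := by
      rw [← hu₁]
      ring
    have a2 : r * N ≤ (v / N + p) * N := Nat.mul_le_mul_right _ (by omega)
    have a3 : v / N * N ≤ v := Nat.div_mul_le_self v N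
    rw [Nat.add_mul] at a2
    have a4 : r * u₁ ≤ p * N := by omega
    have a5 : p ^ (6 * c + 7) * u₁ ≤ r * u₁ := Nat.mul_le_mul_right _ (by omega)
    have a6 : p * N = p ^ (6 * c + 7) * p ^ d := by
      rw [hN]
      ring
    have a7 : p ^ (6 * c + 7) * u₁ ≤ p ^ (6 * c + 7) * p ^ d := a6 ▸ a5.trans a4
    exact Nat.le_of_mul_le_mul_left a7 (by positivity)
  have hv3 : N ≤ v := (Nat.le_mul_of_pos_right N (by positivity)).trans hv1'
  exact num_core hp2 (by omega) hk1 hr3 hu3 (by omega) hv3 hd0 hd1 hd2 hd3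

end Pool.Agent.Lib.MP_deca50_lc.CES
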