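import Pool.Agent.Lib.MP_deca50_lc.CES.Del
import Pool.Agent.Lib.MP_deca50_lc.CES.Num

/-!
Orthogonal arrays of every strength for polynomially large orders.
-/

open Finset Function

set_option linter.unusedSectionVars false

namespace Pool.Agent.Lib.MP_deca50_lc.CES

/-- Relabelling the symbols of each column. -/
theorem IsOA.map {ι Y Z : Type} [Fintype ι] [DecidableEq ι] [DecidableEq Z] [Nonempty Y] {t : ℕ}
    {A : ι → Finset Y} {T : Finset (ι → Y)} (h : IsOA t A T) (f : ι → Y → Z)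
    (hf : ∀ i, Set.InjOn (f i) (A i)) :
    IsOA t (fun i => (A i).image (f i)) (T.image fun z i => f i (z i)) := by
  classical
  refine ⟨fun z hz i => ?_, fun I hI y hy => ?_⟩
  · obtain ⟨w, hw, rfl⟩ := mem_image.1 hz
    exact mem_image_of_mem _ (h.1 w hw i)
  choose! x hx hx' using fun i hi => mem_image.1 (hy i hi)
  obtain ⟨w, hw, hu⟩ := h.2 I hI x hx
  refine ⟨_, ⟨mem_image_of_mem _ hw.1, fun i hi => ?_⟩, fun z hz => ?_⟩
  · show f i (w i) = y i
    rw [hw.2 i hi, hx' i hi]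
  · obtain ⟨w', hw', rfl⟩ := mem_image.1 hz.1
    rw [hu w' ⟨hw', fun i hi =>
      hf i (h.1 w' hw' i) (hx i hi) ((hz.2 i hi).trans (hx' i hi).symm)⟩]

theorem exists_oa (t : ℕ) (ht : 1 ≤ t) : ∃ C : ℕ, ∀ k v : ℕ, 2 ≤ k → t ≤ k → k ^ C ≤ v →
    ∃ (Y : Type) (A : Fin k → Finset Y) (T : Finset (Fin k → Y)),
      (∀ i, (A i).card = v) ∧ IsOA t A T := by
  obtain ⟨c, hdel⟩ := del t ht
  obtain ⟨C₀, hrough⟩ := rough
  obtain ⟨C, hC⟩ := params t c C₀
  refine ⟨C, fun k v hk htk hv => ?_⟩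
  obtain ⟨p, a, x, κ, hp, hkp, hκ, hx, H⟩ := hC k v hk hv
  obtain ⟨r, hr1, hr2, hr3⟩ := hrough k x hk
  obtain ⟨m, u₁, u₂, e1, e2, b1, b2, b3, b4, b5, b6, b7, b8⟩ := H r hr1 hr2
  have := Fact.mk hp
  have : NeZero r := ⟨by omega⟩
  obtain ⟨TR, hTR⟩ := oa_rough hr3 t
  have hkp' : k < p := (Nat.le_self_pow (by omega) k).trans_lt hkp
  have hp3 : p ≤ p ^ 3 := Nat.le_self_pow (by omega) p
  set s : Fin k → ZMod p := fun i => ((i : ℕ) : ZMod p) with hsdef
  have hs : Injective s := fun i j h => Fin.ext (by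
    have := (ZMod.natCast_eq_natCast_iff' _ _ _).1 h
    rwa [Nat.mod_eq_of_lt (i.2.trans hkp'), Nat.mod_eq_of_lt (j.2.trans hkp')] at this)
  have hF : Fintype.card (Fin a → ZMod p) = p ^ a := by simp
  have hch : (Fintype.card (Fin k)).choose (t + 1) < Fintype.card (ZMod p) := by
    rw [Fintype.card_fin, ZMod.card]
    exact (Nat.choose_le_pow _ _).trans_lt hkp
  obtain ⟨U₁, hU₁, hU₁'⟩ := exists_subset_card_eq
    (s := (univ : Finset Unit) ×ˢ (univ : Finset (Fin a → ZMod p))) (n := u₁) (by simp; omega)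
  obtain ⟨T₁, B₁, β₁, hT₁, hB₁, hβ₁, hS₁⟩ := hdel (ZMod p) (Fin a → ZMod p) (Fin k) Unit s (p ^ 3)
    0 u₁ (p ^ a) κ univ (fun _ => univ) _ ∅ (fun _ => U₁) hs (by simpa using htk) hch
    (by simpa using hp3) (by simp; omega)
    (by
      refine le_trans ?_ b1
      simp only [Fintype.card_unit, hF, ZMod.card, Fintype.card_fin]
      gcongr
      omega)
    ⟨by simp, fun _ _ y _ => ⟨y, ⟨mem_univ _, fun _ _ => rfl⟩, fun _ _ => Subsingleton.elim _ _⟩⟩
    (isOA_ev (unit_of_inj hs)) (by simp) (by simp) LB.empty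
    (fun φ _ _ => mem_image_of_mem _ (mem_univ φ)) (fun _ => ⟨hU₁, hU₁'⟩) hκ (by simpa using b2)
    (by simpa using b3) (by simpa using b4) (by simpa using b5)
  have hinj : Set.InjOn (Prod.snd : Unit × (Fin a → ZMod p) → _) Set.univ :=
    fun _ _ _ _ h => Prod.ext rfl h
  have hT₂ := hT₁.map (fun _ => Prod.snd) fun _ => hinj.mono (Set.subset_univ _)
  have hA₂ : (((univ : Finset Unit) ×ˢ (univ : Finset (Fin a → ZMod p)) \ U₁).image
      Prod.snd).card = m := by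
    rw [card_image_of_injOn (hinj.mono (Set.subset_univ _)), card_sdiff_of_subset hU₁, hU₁']
    simp
    omega
  obtain ⟨U₂, hU₂, hU₂'⟩ := exists_subset_card_eq (s := (univ : Finset (ZMod r)) ×ˢ
    (((univ : Finset Unit) ×ˢ (univ : Finset (Fin a → ZMod p)) \ U₁).image Prod.snd)) (n := u₂)
    (by rw [card_product, hA₂, card_univ, ZMod.card]; omega)
  obtain ⟨T₂, -, -, hT, -⟩ := hdel (ZMod p) (Fin a → ZMod p) (Fin k) (ZMod r) s (p ^ 3)
    (β₁ + u₁) u₂ m ((p ^ 3) ^ c * r ^ t) TR _ _ B₁ (fun _ => U₂) hs (by simpa using htk) hch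
    (by simpa using hp3) (by simp; omega) (by simpa using b1) hTR hT₂ (fun _ => hA₂)
    (by rw [hF]; omega) (hB₁.mono (by omega))
    (fun φ h1 h2 => mem_image.2 ⟨_, hS₁ (fun _ => ()) (mem_univ _) φ h1 fun i => by
      obtain ⟨⟨_, w⟩, hw, rfl⟩ := mem_image.1 (h2 i)
      exact hw, rfl⟩)
    (fun _ => ⟨hU₂, hU₂'⟩) (Nat.mul_pos (by positivity [hp.pos]) (Nat.pow_pos (by omega)))
    (by rw [ZMod.card, Fintype.card_fin]; omega) (by rw [ZMod.card]; omega) (by rw [ZMod.card])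
    (by rw [hF]; exact b8 β₁ (by simpa using hβ₁))
  refine ⟨_, _, T₂, fun i => ?_, hT⟩
  rw [card_sdiff_of_subset hU₂, hU₂', card_product, hA₂, card_univ, ZMod.card]
  omega

theorem code_of_oa {t n q : ℕ} (ht : 1 ≤ t) (hn : t ≤ n) (hq : 2 ≤ q) {Y : Type}
    {A : Fin n → Finset Y} {T : Finset (Fin n → Y)} (hA : ∀ i, (A i).card = q) (h : IsOA t A T) :
    ∃ C : Finset (Fin n → Fin q), C.card = q ^ t ∧
      (∀ c ∈ C, ∀ c' ∈ C, c ≠ c' → n - t + 1 ≤ hammingDist c c') ∧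
      ∃ c ∈ C, ∃ c' ∈ C, c ≠ c' ∧ hammingDist c c' = n - t + 1 := by
  classical
  have i₁ : Fin n := ⟨0, by omega⟩
  have : Nonempty Y := ⟨(card_pos.1 (by rw [hA i₁]; omega : 0 < (A i₁).card)).choose⟩
  set f : Fin n → Y → Fin q := fun i y =>
    if hy : y ∈ A i then equivFinOfCardEq (hA i) ⟨y, hy⟩ else ⟨0, by omega⟩ with hf
  have hfi : ∀ i, Set.InjOn (f i) (A i) := fun i x hx y hy e => by
    simp only [hf, dif_pos (mem_coe.1 hx), dif_pos (mem_coe.1 hy)] at e
    exact congrArg Subtype.val ((equivFinOfCardEq (hA i)).injective e)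
  have h' := h.map f hfi
  have hu : (fun i => (A i).image (f i)) = fun _ => univ := funext fun i =>
    eq_univ_of_card _ (by rw [card_image_of_injOn (hfi i), hA, Fintype.card_fin])
  rw [hu] at h'
  generalize (T.image fun z i => f i (z i)) = C at h'
  have hex := fun I hI y => h'.2 I hI y fun _ _ => mem_univ _
  have hd : ∀ c ∈ C, ∀ c' ∈ C, c ≠ c' → n - t + 1 ≤ hammingDist c c' := fun c hc c' hc' hne => by
    by_contra hlt
    have h1 := card_filter_add_card_filter_not (s := (univ : Finset (Fin n))) fun i => c i ≠ c' i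
    rw [card_univ, Fintype.card_fin] at h1
    obtain ⟨I, hI, hIc⟩ := exists_subset_card_eq (s := univ.filter fun i => ¬ c i ≠ c' i) (n := t)
      (by unfold hammingDist at hlt; omega)
    exact hne ((hex I hIc c').unique ⟨hc, fun i hi => by simpa using hI hi⟩ ⟨hc', fun _ _ => rfl⟩)
  obtain ⟨I, -, hI⟩ := exists_subset_card_eq (s := (univ : Finset (Fin n))) (n := t) (by simpa)
  obtain ⟨i₀, hi₀⟩ := card_pos.1 (by omega : 0 < I.card)
  refine ⟨C, ?_, hd, ?_⟩
  · have : C.card = (univ : Finset (I → Fin q)).card := by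
      refine card_bij (fun c _ i => c i) (fun _ _ => mem_univ _) (fun c hc c' hc' e => ?_)
        fun y _ => ?_
      · exact (hex I hI c').unique ⟨hc, fun i hi => congrFun e ⟨i, hi⟩⟩ ⟨hc', fun _ _ => rfl⟩
      · obtain ⟨c, hc, -⟩ := hex I hI fun i => if hi : i ∈ I then y ⟨i, hi⟩ else ⟨0, by omega⟩
        exact ⟨c, hc.1, funext fun i => by simpa using hc.2 i i.2⟩
    simpa [hI] using this
  · obtain ⟨c, hc, -⟩ := hex I hI fun _ => ⟨0, by omega⟩
    obtain ⟨c', hc', -⟩ := hex I hI (update (fun _ => ⟨0, by omega⟩) i₀ ⟨1, by omega⟩)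
    have hne : c ≠ c' := fun e => by
      have h1 := hc'.2 i₀ hi₀
      rw [← e, hc.2 i₀ hi₀] at h1
      simp at h1
    refine ⟨c, hc.1, c', hc'.1, hne, le_antisymm ?_ (hd c hc.1 c' hc'.1 hne)⟩
    refine (card_le_card (t := (I.erase i₀)ᶜ) fun i hi => mem_compl.2 fun h1 => ?_).trans ?_
    · refine (mem_filter.1 hi).2 ?_
      rw [hc.2 i (mem_of_mem_erase h1), hc'.2 i (mem_of_mem_erase h1),
        update_of_ne (ne_of_mem_erase h1)]
    · rw [card_compl, card_erase_of_mem hi₀, Fintype.card_fin]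
      omega

end Pool.Agent.Lib.MP_deca50_lc.CES
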