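import Pool.Agent.Lib.MP_deca50_lc.CES.Halve

/-!
Repeated halving, and the star decomposition.
-/

open Finset Function

set_option linter.unusedSectionVars false

namespace Pool.Agent.Lib.MP_deca50_lc.CES

variable {ι Y : Type} [Fintype ι] [DecidableEq ι] [Fintype Y] [DecidableEq Y]

theorem wprop_empty : WProp Y (∅ : Finset ι) 1 := by
  intro D h B _ hs _ hB
  refine ⟨Σ y : ι → Y, Fin (h y).natAbs, inferInstance,
    fun b z => if z = b.1 then (h b.1).sign else 0, fun z => ?_, fun b z hz => ?_,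
    fun b j hj => absurd hj (notMem_empty _), fun b => ?_, fun z => ?_,
    fun j hj => absurd hj (notMem_empty _)⟩
  · rw [Fintype.sum_sigma, sum_eq_single z]
    · simp only [if_true, sum_const, card_univ, Fintype.card_fin, nsmul_eq_mul, Int.natCast_natAbs]
      rcases lt_trichotomy (h z) 0 with h0 | h0 | h0
      · simp [Int.sign_eq_neg_one_of_neg h0, abs_of_neg h0]
      · simp [h0]
      · simp [Int.sign_eq_one_of_pos h0, abs_of_pos h0]
    · intro y _ hy
      simp [Ne.symm hy]
    · simp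
  · have e : z = b.1 := by
      by_contra hne
      exact hz (if_neg hne)
    simp only [e, if_true, ne_eq, Int.sign_eq_zero_iff_zero] at hz
    rw [e]
    exact hs _ hz
  · rw [sum_eq_single b.1]
    · simp only [if_true, card_empty, pow_zero]
      rw [← Int.cast_abs]
      rcases lt_trichotomy (h b.1) 0 with h0 | h0 | h0
      · simp [Int.sign_eq_neg_one_of_neg h0]
      · simp [h0]
      · simp [Int.sign_eq_one_of_pos h0]
    · intro y _ hy
      simp [hy]
    · simp
  · rw [Fintype.sum_sigma, sum_eq_single z]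
    · refine le_trans ?_ ((hB z).trans_eq (one_mul B).symm)
      simp only [if_true, sum_const, card_univ, Fintype.card_fin, nsmul_eq_mul,
        Nat.cast_natAbs, Int.cast_abs]
      rw [← abs_mul, ← Int.cast_mul, Int.mul_sign_self]
      simp
    · intro y _ hy
      simp [Ne.symm hy]
    · simp

theorem rec_fiber (j : ι) (x c : Y) (f : (ι → Y) → ℝ) (hf : ∀ z, 0 ≤ f z) :
    (∑ y : ι → Y, if y j = x then f (update y j c) else 0) ≤ ∑ z, f z := by
  rw [← sum_filter, ← sum_image (f := f) (g := fun y : ι → Y => update y j c)]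
  · exact sum_le_sum_of_subset_of_nonneg (subset_univ _) fun z _ _ => hf z
  · intro y hy y' hy' e
    have h1 : y j = x := by simpa using hy
    have h2 : y' j = x := by simpa using hy'
    funext i
    by_cases hi : i = j
    · rw [hi, h1, h2]
    · simpa [update_of_ne hi] using congrFun e i

theorem rec_abs_le (a : ℤ) (p q : Prop) [Decidable p] [Decidable q] :
    |((a * ((if p then 1 else 0) - (if q then 1 else 0)) : ℤ) : ℝ)| ≤
      (if p then |(a : ℝ)| else 0) + (if q then |(a : ℝ)| else 0) := by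
  split_ifs <;> simp

theorem star {J : Finset ι} {j : ι} (hj : j ∈ J) {C : ℝ} (hC : 0 ≤ C)
    (hW : WProp Y (J.erase j) C) (D : ι → Finset Y) (h : (ι → Y) → ℤ) (B : ℝ) (hB0 : 0 ≤ B)
    (hs : Supp D h) (hn : Null J h) (hB : ∀ y, |(h y : ℝ)| ≤ B) :
    Dec J D h (2 ^ J.card) (((D j).card + 1) * C * B) (((D j).card + 1) * C * B) := by
  have hCB : 0 ≤ C * B := mul_nonneg hC hB0
  rcases (D j).eq_empty_or_nonempty with he | ⟨c, hc⟩
  · refine dec_zero J D (fun y => ?_) (by positivity) (by positivity)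
    by_contra h0
    have := hs y h0 j
    rw [he] at this
    exact notMem_empty _ this
  have hdec : ∀ x : Y, Dec (J.erase j) (update D j {c})
      (fun y => if y j = c then h (update y j x) else 0) (2 ^ (J.erase j).card) (C * B)
      (C * B) := by
    intro x
    refine hW _ _ B hB0 (fun y hy i => ?_) (fun i hi y => ?_) fun y => ?_
    · have e : y j = c := by
        by_contra hne
        exact hy (if_neg hne)
      rw [if_pos e] at hy
      by_cases hi : i = j
      · simp [hi, e]
      · have := hs _ hy i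
        rwa [update_of_ne hi, ← update_of_ne hi {c} D] at this
    · have hij : i ≠ j := ne_of_mem_erase hi
      simp only [update_of_ne hij.symm]
      split_ifs
      · simp only [update_comm hij]
        exact hn i (mem_of_mem_erase hi) _
      · simp
    · split_ifs
      · exact hB _
      · simpa using hB0
  choose τ hτ g h1 h2 h3 h4 h5 h6 using hdec
  have hsupp : ∀ b : Σ x : D j, τ x, Supp D (fun y => g b.1 b.2 (update y j c) *
      ((if y j = b.1 then 1 else 0) - (if y j = c then 1 else 0))) := by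
    intro b y hy i
    by_cases hi : i = j
    · rw [hi]
      by_cases e1 : y j = b.1
      · rw [e1]
        exact b.1.2
      · by_cases e2 : y j = c
        · rwa [e2]
        · simp [e1, e2] at hy
    · have := h2 _ _ _ (left_ne_zero_of_mul hy) i
      rwa [update_of_ne hi, update_of_ne hi] at this
  have hload : ∀ y : ι → Y, ∑ b : Σ x : D j, τ x, |((g b.1 b.2 (update y j c) *
      ((if y j = b.1 then 1 else 0) - (if y j = c then 1 else 0)) : ℤ) : ℝ)| ≤
      ((D j).card + 1) * C * B := by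
    intro y
    rw [Fintype.sum_sigma]
    have step : ∀ x : D j, ∑ b : τ x, |((g x b (update y j c) *
        ((if y j = x then 1 else 0) - (if y j = c then 1 else 0)) : ℤ) : ℝ)| ≤
        (if y j = x then C * B else 0) + C * B := by
      intro x
      refine (sum_le_sum fun b _ => rec_abs_le _ _ _).trans ?_
      rw [sum_add_distrib]
      refine add_le_add ?_ ?_
      · split_ifs
        · exact h5 _ _
        · simp
      · split_ifs
        · exact h5 _ _
        · simpa using hCB
    refine (sum_le_sum fun x _ => step x).trans ?_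
    rw [sum_add_distrib, sum_coe_sort (D j) (fun x => if y j = x then C * B else 0),
      sum_ite_eq]
    simp only [sum_const, card_univ, Fintype.card_coe, nsmul_eq_mul]
    split_ifs <;> nlinarith
  refine ⟨Σ x : D j, τ x, inferInstance, fun b y => g b.1 b.2 (update y j c) *
    ((if y j = b.1 then 1 else 0) - (if y j = c then 1 else 0)), fun y => ?_, hsupp,
    fun b i hi y => ?_, fun b => ?_, hload, fun i _ y => sum_lmass_le hsupp hload i y⟩
  · rw [Fintype.sum_sigma]
    have step : ∀ x : D j, ∑ b : τ x, g x b (update y j c) *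
        ((if y j = x then 1 else 0) - (if y j = c then 1 else 0)) =
        (if y j = x then h (update y j x) else 0) -
          h (update y j x) * (if y j = c then 1 else 0) := by
      intro x
      rw [← sum_mul, ← h1]
      simp only [update_self, if_true, update_idem]
      split_ifs <;> simp
    rw [sum_congr rfl fun x _ => step x, sum_sub_distrib, ← sum_mul,
      sum_coe_sort (D j) (fun x => if y j = x then h (update y j x) else 0),
      sum_coe_sort (D j) (fun x => h (update y j x)), sum_ite_eq]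
    have e0 : ∑ x ∈ D j, h (update y j x) = 0 := by
      rw [← hn j hj y]
      refine sum_subset (subset_univ _) fun x _ hx => ?_
      by_contra h0
      have := hs _ h0 j
      rw [update_self] at this
      exact hx this
    rw [e0, zero_mul, sub_zero, update_eq_self]
    split_ifs with hy
    · rfl
    · by_contra h0
      exact hy (hs _ h0 j)
  · by_cases hij : i = j
    · subst hij
      simp only [update_self, update_idem]
      rw [← mul_sum, sum_sub_distrib]
      simp
    · simp only [update_of_ne (Ne.symm hij), update_comm hij]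
      rw [← sum_mul, h3 _ _ i (mem_erase.2 ⟨hij, hi⟩), zero_mul]
  · refine (sum_le_sum fun y _ => rec_abs_le _ _ _).trans ?_
    rw [sum_add_distrib]
    have a1 := rec_fiber j (b.1 : Y) c (fun z => |(g b.1 b.2 z : ℝ)|) fun _ => abs_nonneg _
    have a2 := rec_fiber j c c (fun z => |(g b.1 b.2 z : ℝ)|) fun _ => abs_nonneg _
    have a3 := h4 b.1 b.2
    have a4 : (2 : ℝ) ^ J.card = 2 ^ (J.erase j).card * 2 := by
      rw [← pow_succ, card_erase_add_one hj]
    linarith

theorem rec_join {J : Finset ι} {D : ι → Finset Y} {j : ι} {D₁ D₂ : Finset Y}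
    {h h₁ h₂ h₀ : (ι → Y) → ℤ} {G P Q P₀ Q₀ : ℝ} (hd : Disjoint D₁ D₂) (hu : D₁ ∪ D₂ = D j)
    (hs : ∀ y, h y = h₁ y + h₂ y + h₀ y) (d1 : Dec J (update D j D₁) h₁ G P Q)
    (d2 : Dec J (update D j D₂) h₂ G P Q) (d0 : Dec J D h₀ G P₀ Q₀) :
    Dec J D h G (P + P₀) (Q + Q₀) := by
  obtain ⟨τ₁, _, g₁, a1, a2, a3, a4, a5, a6⟩ := d1
  obtain ⟨τ₂, _, g₂, b1, b2, b3, b4, b5, b6⟩ := d2
  obtain ⟨τ₀, _, g₀, c1, c2, c3, c4, c5, c6⟩ := d0
  have hsub : ∀ {E : Finset Y} {f : (ι → Y) → ℤ}, E ⊆ D j → Supp (update D j E) f → Supp D f := by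
    intro E f hE hf z hz i
    have := hf z hz i
    by_cases hi : i = j
    · subst hi
      rw [update_self] at this
      exact hE this
    · rwa [update_of_ne hi] at this
  have z1 : ∀ y : ι → Y, y j ∉ D₁ → ∀ b, g₁ b y = 0 := by
    intro y hy b
    by_contra h0
    have := a2 b y h0 j
    rw [update_self] at this
    exact hy this
  have z2 : ∀ y : ι → Y, y j ∈ D₁ → ∀ b, g₂ b y = 0 := by
    intro y hy b
    by_contra h0
    have := b2 b y h0 j
    rw [update_self] at this
    exact disjoint_left.1 hd hy this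
  refine ⟨τ₁ ⊕ τ₂ ⊕ τ₀, inferInstance, Sum.elim g₁ (Sum.elim g₂ g₀), fun y => ?_, ?_, ?_, ?_,
    fun y => ?_, fun i hi y => ?_⟩
  · simp only [Fintype.sum_sum_type, Sum.elim_inl, Sum.elim_inr]
    rw [hs, a1, b1, c1, add_assoc]
  · rintro (b | b | b)
    · exact hsub (hu ▸ subset_union_left) (a2 b)
    · exact hsub (hu ▸ subset_union_right) (b2 b)
    · exact c2 b
  · rintro (b | b | b)
    · exact a3 b
    · exact b3 b
    · exact c3 b
  · rintro (b | b | b)
    · exact a4 b
    · exact b4 b
    · exact c4 b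
  · simp only [Fintype.sum_sum_type, Sum.elim_inl, Sum.elim_inr]
    have t1 := a5 y
    have t2 := b5 y
    have t0 := c5 y
    by_cases hy : y j ∈ D₁
    · simp only [z2 y hy, Int.cast_zero, abs_zero, sum_const_zero]
      linarith
    · simp only [z1 y hy, Int.cast_zero, abs_zero, sum_const_zero]
      linarith
  · simp only [Fintype.sum_sum_type, Sum.elim_inl, Sum.elim_inr]
    have t1 := a6 i hi y
    have t2 := b6 i hi y
    have t0 := c6 i hi y
    by_cases hij : i = j
    · subst hij
      rw [update_self] at t1 t2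
      have e : ((D i).card : ℝ) = D₁.card + D₂.card := by
        rw [← hu, card_union_of_disjoint hd, Nat.cast_add]
      rw [e] at t0 ⊢
      linarith
    · rw [update_of_ne hij] at t1 t2
      by_cases hy : y j ∈ D₁
      · have : ∀ b, lmass i (g₂ b) y = 0 := fun b => sum_eq_zero fun x _ => by
          rw [z2 _ (by rwa [update_of_ne (Ne.symm hij)])]
          simp
        simp only [this, sum_const_zero]
        linarith
      · have : ∀ b, lmass i (g₁ b) y = 0 := fun b => sum_eq_zero fun x _ => by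
          rw [z1 _ (by rwa [update_of_ne (Ne.symm hij)])]
          simp
        simp only [this, sum_const_zero]
        linarith

theorem rec_clog {J : Finset ι} {j : ι} (hj : j ∈ J) (D : ι → Finset Y) (E : Finset Y)
    (h2 : 2 ≤ (D j).card) (hE : E.card ≤ ((D j).card + 1) / 2) :
    ∑ i ∈ J, Nat.clog 2 (update D j E i).card + 1 ≤ ∑ i ∈ J, Nat.clog 2 (D i).card := by
  rw [← add_sum_erase J _ hj, ← add_sum_erase J (fun i => Nat.clog 2 (D i).card) hj, update_self,
    sum_congr rfl (g := fun i => Nat.clog 2 (D i).card) fun i hi => by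
      rw [update_of_ne (ne_of_mem_erase hi)]]
  have e := Nat.clog_of_two_le (b := 2) (by norm_num) h2
  have e' : (D j).card + 2 - 1 = (D j).card + 1 := by omega
  rw [e'] at e
  have := Nat.clog_mono_right 2 hE
  omega

theorem halve_rec {J : Finset ι} {Λ : ℕ} (hΛ : Big ι Y Λ) {C : ℝ} (hC : 1 ≤ C)
    (hW : ∀ j ∈ J, WProp Y (J.erase j) C) (D₀ : ι → Finset Y) (n₀ n₁ : ℕ) (ζ Bm ρm G P Q : ℝ)
    (hζ : 0 ≤ ζ) (hn : 2 * n₁ ≤ n₀) (c1 : 18 * C * Bm ≤ ζ * n₀)
    (c2 : 324 * C ^ 2 * Bm * ρm * Λ ≤ ζ ^ 2 * n₀) (c3 : 3 * ρm ≤ ζ * n₀)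
    (c4 : (2 : ℝ) ^ J.card * Λ ≤ ζ * n₁) (hG : (2 : ℝ) ^ J.card ≤ G)
    (base : ∀ D : ι → Finset Y, (∀ i, D i ⊆ D₀ i) →
      (∀ i ∈ J, n₁ ≤ (D i).card ∧ (D i).card ≤ n₀) → ∀ h, Inp J D h Bm ρm → Dec J D h G P Q)
    (s : ℕ) (D : ι → Finset Y) (hD : ∀ i, D i ⊆ D₀ i) (hD₁ : ∀ i ∈ J, n₁ ≤ (D i).card)
    (hs : ∑ i ∈ J, Nat.clog 2 (D i).card ≤ s) (h : (ι → Y) → ℤ) (B ρ : ℝ) (hB0 : 0 ≤ B)
    (hρ0 : 0 ≤ ρ) (hB : B + s * (ζ + 2 ^ J.card * Λ) ≤ Bm) (hρ : ρ + s * (2 * ζ) ≤ ρm)
    (hh : Inp J D h B ρ) :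
    Dec J D h G (P + s * (ζ + 2 ^ J.card * Λ)) (Q + s * (2 * ζ)) := by
  have ha : (0 : ℝ) ≤ ζ + 2 ^ J.card * Λ := by positivity
  have hn₁ : 1 ≤ n₁ := by
    rcases Nat.eq_zero_or_pos n₁ with h0 | h0
    · have h2 : (2 : ℝ) ≤ Λ := by exact_mod_cast hΛ.1
      have h3 : (0 : ℝ) < 2 ^ J.card * Λ := by positivity
      rw [h0] at c4
      simp only [Nat.cast_zero, mul_zero] at c4
      linarith
    · exact h0
  induction s generalizing D h B ρ with
  | zero =>
    by_cases hall : ∀ i ∈ J, (D i).card ≤ n₀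
    · refine (base D hD (fun i hi => ⟨hD₁ i hi, hall i hi⟩) h (hh.mono ?_ ?_)).mono le_rfl ?_ ?_ <;>
        simp_all
    · push Not at hall
      obtain ⟨j, hj, hlt⟩ := hall
      have := rec_clog hj D ∅ (by omega) (by simp)
      omega
  | succ s ih =>
    have hs0 : (0 : ℝ) ≤ s := Nat.cast_nonneg s
    have p1 : (0 : ℝ) ≤ ((s + 1 : ℕ) : ℝ) * (ζ + 2 ^ J.card * Λ) := by positivity
    have p2 : (0 : ℝ) ≤ ((s + 1 : ℕ) : ℝ) * (2 * ζ) := by positivity
    have hBm : B ≤ Bm := by linarith
    have hρm : ρ ≤ ρm := by linarith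
    by_cases hall : ∀ i ∈ J, (D i).card ≤ n₀
    · exact (base D hD (fun i hi => ⟨hD₁ i hi, hall i hi⟩) h (hh.mono hBm hρm)).mono le_rfl
        (by linarith) (by linarith)
    push Not at hall
    obtain ⟨j, hj, hlt⟩ := hall
    have h2 : 2 ≤ (D j).card := by omega
    have hnj : (n₀ : ℝ) ≤ (D j).card := by exact_mod_cast hlt.le
    have q1 : ζ * n₀ ≤ ζ * (D j).card := mul_le_mul_of_nonneg_left hnj hζ
    have q2 : ζ ^ 2 * n₀ ≤ ζ ^ 2 * (D j).card := mul_le_mul_of_nonneg_left hnj (by positivity)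
    have hC0 : 0 ≤ C := by linarith
    have d1 : 18 * C * B ≤ ζ * (D j).card :=
      (mul_le_mul_of_nonneg_left hBm (by positivity)).trans (c1.trans q1)
    have d2 : 324 * C ^ 2 * B * ρ * Λ ≤ ζ ^ 2 * (D j).card := by
      refine le_trans ?_ (c2.trans q2)
      have : B * ρ ≤ Bm * ρm := mul_le_mul hBm hρm hρ0 (hB0.trans hBm)
      calc 324 * C ^ 2 * B * ρ * Λ = (324 * C ^ 2 * Λ) * (B * ρ) := by ring
        _ ≤ (324 * C ^ 2 * Λ) * (Bm * ρm) := mul_le_mul_of_nonneg_left this (by positivity)
        _ = 324 * C ^ 2 * Bm * ρm * Λ := by ring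
    have d3 : 3 * ρ ≤ ζ * (D j).card := by linarith
    have d4 : ∀ i ∈ J, (2 : ℝ) ^ J.card * Λ ≤ ζ * (D i).card := fun i hi =>
      c4.trans (mul_le_mul_of_nonneg_left (by exact_mod_cast hD₁ i hi) hζ)
    obtain ⟨D₁, D₂, h₁, h₂, h₀, e1, e2, e3, e4, e5, e6, e7, e8⟩ :=
      halve hj hΛ hC (hW j hj) D h B ρ ζ hB0 hρ0 hζ hh h2 d1 d2 d3 d4
    have child : ∀ (E : Finset Y) (f : (ι → Y) → ℤ), E ⊆ D j → n₁ ≤ E.card →
        E.card ≤ ((D j).card + 1) / 2 →
        Inp J (update D j E) f (B + (ζ + 2 ^ J.card * Λ)) (ρ + 2 * ζ) →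
        Dec J (update D j E) f G (P + s * (ζ + 2 ^ J.card * Λ)) (Q + s * (2 * ζ)) := by
      intro E f hE1 hE2 hE3 hf
      refine ih (update D j E) (fun i => ?_) (fun i hi => ?_) ?_ f _ _ (by positivity)
        (by positivity) ?_ ?_ hf
      · by_cases hi : i = j
        · subst hi
          rw [update_self]
          exact hE1.trans (hD i)
        · rw [update_of_ne hi]
          exact hD i
      · by_cases hij : i = j
        · subst hij
          rwa [update_self]
        · rw [update_of_ne hij]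
          exact hD₁ i hi
      · have := rec_clog hj D E h2 hE3
        omega
      · push_cast at hB
        linarith
      · push_cast at hρ
        linarith
    refine (rec_join e1 e2 e5 (child D₁ h₁ (e2 ▸ subset_union_left) (by omega) (by omega) e7)
      (child D₂ h₂ (e2 ▸ subset_union_right) (by omega) (by omega) e8)
      (e6.mono hG le_rfl le_rfl)).mono le_rfl ?_ ?_
    · push_cast
      linarith
    · push_cast
      linarith

end Pool.Agent.Lib.MP_deca50_lc.CES
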