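import Pool.Agent.Lib.MP_deca50_lc.CES.RS
import Pool.Agent.Lib.MP_deca50_lc.CES.PotG

/-!
One round of greedy choices of template rows.
-/

open Finset Function

set_option linter.unusedSectionVars false

namespace Pool.Agent.Lib.MP_deca50_lc.CES

variable {K F ι : Type} [Field K] [Fintype K] [DecidableEq K] [AddCommGroup F] [Module K F]
  [Fintype F] [DecidableEq F] [Fintype ι] [DecidableEq ι] {t : ℕ}

/-- The number of active rows on a rational line. -/
private def roundX {S : Type} (A : Finset S) (r : S → Fin t → F)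
    (s : (Fin t → F) × (Fin t → K)) : ℕ :=
  if s.2 ≠ 0 then (A.filter fun σ => ∃ z, r σ = ln s.1 s.2 z).card else 0

private lemma roundX_le {S : Type} (A : Finset S) (r : S → Fin t → F)
    (s : (Fin t → F) × (Fin t → K)) : roundX A r s ≤ A.card := by
  unfold roundX
  split_ifs
  · exact card_filter_le _ _
  · exact Nat.zero_le _

private lemma roundX_le_sum {S : Type} (A : Finset S) (r : S → Fin t → F)
    (s : (Fin t → F) × (Fin t → K)) :
    roundX A r s ≤ ∑ z, ∑ σ ∈ A, if r σ = ln s.1 s.2 z then 1 else 0 := by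
  classical
  unfold roundX
  split_ifs
  · rw [sum_comm, card_filter]
    refine sum_le_sum fun σ _ => ?_
    split_ifs with h
    · obtain ⟨z, hz⟩ := h
      refine le_trans ?_ (single_le_sum (f := fun z => if r σ = ln s.1 s.2 z then 1 else 0)
        (fun _ _ => Nat.zero_le _) (mem_univ z))
      simp [hz]
    · exact Nat.zero_le _
  · exact Nat.zero_le _

private lemma round_lb {τ S : Type} (P : Finset τ) (A : τ → Finset S) (r : τ → S → Fin t → F)
    (q : ℕ) (h : ∀ s : (Fin t → F) × (Fin t → K), ∑ b ∈ P, roundX (A b) (r b) s ≤ q) :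
    LB K (P.biUnion fun b => (A b).image (r b)) q := by
  classical
  intro φ π hπ
  refine le_trans ?_ (h (φ, π))
  have hsub : (univ.filter fun z => ln φ π z ∈ P.biUnion fun b => (A b).image (r b)) ⊆
      P.biUnion fun b => univ.filter fun z => ln φ π z ∈ (A b).image (r b) := by
    intro z hz
    obtain ⟨b, hb, hz⟩ := mem_biUnion.1 (mem_filter.1 hz).2
    exact mem_biUnion.2 ⟨b, hb, mem_filter.2 ⟨mem_univ _, hz⟩⟩
  refine (card_le_card hsub).trans (card_biUnion_le.trans (sum_le_sum fun b _ => ?_))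
  unfold roundX
  rw [if_pos hπ, ← card_image_of_injective _ (ln_inj φ hπ)]
  refine le_trans (card_le_card ?_) (card_image_le (f := r b))
  intro y hy
  obtain ⟨z, hz, rfl⟩ := mem_image.1 hy
  obtain ⟨σ, hσ, e⟩ := mem_image.1 (mem_filter.1 hz).2
  exact mem_image.2 ⟨σ, mem_filter.2 ⟨hσ, z, e⟩, e⟩

theorem round {τ S Ω : Type} [Fintype τ] [Fintype S] [Fintype Ω] [Nonempty Ω]
    (act : τ → Finset S) (row : τ → S → Ω → Fin t → F) (ok : τ → Ω → Prop)
    (B : Finset (Fin t → F)) (β D Λ G : ℕ) (hG1 : 1 ≤ G) (hG : Fintype.card S ≤ G)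
    (hΛ : (Fintype.card F * Fintype.card K) ^ t ≤ 2 ^ Λ) (hB : LB K B β)
    (hi : ∀ a, ∀ σ ∈ act a, ∀ (T : Finset (Fin t → F)) (q : ℕ), LB K T q →
      (univ.filter fun ω => row a σ ω ∈ T).card * Fintype.card F ≤ q * Fintype.card Ω)
    (hE : ∀ φ, (∑ a, ∑ σ ∈ act a, (univ.filter fun ω => row a σ ω = φ).card) * Fintype.card F ≤
      D * Fintype.card Ω)
    (hok : ∀ a, ∃ T : Finset Ω, 4 * T.card ≤ Fintype.card Ω ∧ ∀ ω, ω ∉ T → ok a ω)
    (hN : 4 * G * (β + 3 * D + G * Λ) ≤ Fintype.card F) :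
    ∃ (w : τ → Ω) (R : Finset (Fin t → F)), LB K R (3 * D + G * Λ) ∧ (∀ a, ok a (w a)) ∧
      (∀ a, ∀ σ ∈ act a, row a σ (w a) ∈ R ∧ row a σ (w a) ∉ B) ∧
      ∀ a b, a ≠ b → ∀ σ ∈ act a, ∀ σ' ∈ act b, row a σ (w a) ≠ row b σ' (w b) := by
  classical
  have hF : 0 < Fintype.card F := Fintype.card_pos
  have hΩ : 0 < Fintype.card Ω := Fintype.card_pos
  have hcast : ∀ (P : Finset τ) (w : τ → Ω),
      (∀ s : (Fin t → F) × (Fin t → K),
        ∑ b ∈ P, (roundX (act b) (fun σ => row b σ (w b)) s : ℝ) ≤ 3 * (D : ℝ) + (G : ℝ) * Λ) →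
      LB K (P.biUnion fun b => (act b).image fun σ => row b σ (w b)) (3 * D + G * Λ) :=
    fun P w h => round_lb P act (fun b σ => row b σ (w b)) _ fun s => by exact_mod_cast h s
  obtain ⟨w, h1, h2, h3⟩ := potG (σ := (Fin t → F) × (Fin t → K)) (fun _ : τ => (univ : Finset Ω))
    (fun _ => univ_nonempty) (fun a ω s => (roundX (act a) (fun σ => row a σ ω) s : ℝ)) G
    (by exact_mod_cast hG1) (fun _ _ _ => Nat.cast_nonneg _)
    (fun a ω _ s => by
      exact_mod_cast (roundX_le _ _ s).trans ((card_le_univ _).trans hG))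
    (fun _ => (D : ℝ))
    (fun s => by
      rw [← sum_div, card_univ, div_le_iff₀ (by exact_mod_cast hΩ)]
      have e1 : ∑ a, ∑ ω, roundX (act a) (fun σ => row a σ ω) s ≤
          ∑ z, ∑ a, ∑ σ ∈ act a, (univ.filter fun ω => row a σ ω = ln s.1 s.2 z).card := by
        rw [sum_comm (s := univ) (t := univ)
          (f := fun z a => ∑ σ ∈ act a, (univ.filter fun ω => row a σ ω = ln s.1 s.2 z).card)]
        refine sum_le_sum fun a _ => ?_
        refine (sum_le_sum fun ω _ => roundX_le_sum (act a) (fun σ => row a σ ω) s).trans_eq ?_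
        rw [sum_comm]
        refine sum_congr rfl fun z _ => ?_
        rw [sum_comm]
        exact sum_congr rfl fun σ _ => (card_filter _ _).symm
      have e2 : (∑ z, ∑ a, ∑ σ ∈ act a,
          (univ.filter fun ω => row a σ ω = ln s.1 s.2 z).card) * Fintype.card F ≤
          D * Fintype.card Ω * Fintype.card F := by
        rw [sum_mul]
        refine (sum_le_card_nsmul _ _ _ fun z _ => hE _).trans (le_of_eq ?_)
        rw [card_univ, smul_eq_mul, mul_comm]
      exact_mod_cast e1.trans (Nat.le_of_mul_le_mul_right e2 hF))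
    Λ (by simpa [mul_pow] using hΛ) (fun a ω => ok a ω ∧ ∀ σ ∈ act a, row a σ ω ∉ B)
    (fun a ω b ω' => ∃ σ ∈ act a, ∃ σ' ∈ act b, row a σ ω = row b σ' ω')
    (fun a ω b ω' ⟨σ, hσ, σ', hσ', e⟩ => ⟨σ', hσ', σ, hσ, e.symm⟩)
    (fun P w a _ hl => by
      obtain ⟨T₀, hT₀, hok'⟩ := hok a
      have hU := hB.union (hcast P w hl)
      set U := B ∪ P.biUnion fun b => (act b).image fun σ => row b σ (w b) with hUd
      set T₁ := (act a).biUnion fun σ => univ.filter fun ω => row a σ ω ∈ U with hT₁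
      have e1 : T₁.card * Fintype.card F ≤ G * ((β + (3 * D + G * Λ)) * Fintype.card Ω) := by
        refine (Nat.mul_le_mul_right _ card_biUnion_le).trans ?_
        rw [sum_mul]
        refine (sum_le_card_nsmul _ _ _ fun σ hσ => hi a σ hσ U _ hU).trans ?_
        rw [smul_eq_mul]
        exact Nat.mul_le_mul_right _ ((card_le_univ _).trans hG)
      have e2 : 4 * T₁.card ≤ Fintype.card Ω := by
        refine Nat.le_of_mul_le_mul_right ?_ hF
        calc 4 * T₁.card * Fintype.card F = 4 * (T₁.card * Fintype.card F) := by ring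
          _ ≤ 4 * (G * ((β + (3 * D + G * Λ)) * Fintype.card Ω)) := Nat.mul_le_mul_left _ e1
          _ = 4 * G * (β + 3 * D + G * Λ) * Fintype.card Ω := by ring
          _ ≤ Fintype.card F * Fintype.card Ω := Nat.mul_le_mul_right _ hN
          _ = _ := mul_comm _ _
      refine ⟨(T₀ ∪ T₁)ᶜ, subset_univ _, ?_, fun ω hω => ?_⟩
      · have e3 := card_union_le T₀ T₁
        have e4 := card_add_card_compl (T₀ ∪ T₁)
        rw [card_univ]
        omega
      · rw [mem_compl, mem_union, not_or] at hω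
        have e5 : ∀ σ ∈ act a, row a σ ω ∉ U := fun σ hσ h =>
          hω.2 (mem_biUnion.2 ⟨σ, hσ, mem_filter.2 ⟨mem_univ _, h⟩⟩)
        refine ⟨⟨hok' ω hω.1, fun σ hσ h => e5 σ hσ (mem_union_left _ h)⟩, ?_⟩
        rintro b hb ⟨σ, hσ, σ', hσ', e⟩
        exact e5 σ hσ (mem_union_right _ (mem_biUnion.2 ⟨b, hb, mem_image.2 ⟨σ', hσ', e.symm⟩⟩)))
  exact ⟨w, _, hcast univ w h3, fun a => (h1 a).2.1, fun a σ hσ =>
    ⟨mem_biUnion.2 ⟨a, mem_univ _, mem_image_of_mem _ hσ⟩, (h1 a).2.2 σ hσ⟩,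
    fun a b hab σ hσ σ' hσ' e => h2 a b hab ⟨σ, hσ, σ', hσ', e⟩⟩

end Pool.Agent.Lib.MP_deca50_lc.CES
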