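import Pool.Agent.Lib.MP_deca50_lc.CES.Rec

/-!
The dense and the sparse decomposition of null functions.
-/

open Finset Function

set_option linter.unusedSectionVars false

namespace Pool.Agent.Lib.MP_deca50_lc.CES

section Aux

variable {ι Y : Type} [Fintype ι] [DecidableEq ι] [Fintype Y] [DecidableEq Y]

private theorem wf_clog {Λ : ℕ} (hΛ : Big ι Y Λ) (J : Finset ι) (D : ι → Finset Y) :
    ∑ i ∈ J, Nat.clog 2 (D i).card ≤ J.card * Λ := by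
  rw [← smul_eq_mul]
  refine sum_le_card_nsmul _ _ _ fun i _ => ?_
  exact Nat.clog_le_of_le_pow ((card_le_univ _).trans hΛ.2.2.1)

private theorem wf_inp {J : Finset ι} {D : ι → Finset Y} {h : (ι → Y) → ℤ} {B : ℝ}
    (hs : Supp D h) (hn : Null J h) (hB : ∀ y, |(h y : ℝ)| ≤ B) : Inp J D h B B :=
  ⟨hs, hn, hB, fun i _ y => by
    simpa using sum_lmass_le (τ := Unit) (g := fun _ => h) (fun _ => hs) (P := B)
      (by simpa using hB) i y⟩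

private theorem wf_total {J : Finset ι} {D : ι → Finset Y} {h : (ι → Y) → ℤ} {B : ℝ} {n : ℕ}
    (hB0 : 0 ≤ B) (hs : Supp D h) (hB : ∀ y, |(h y : ℝ)| ≤ B) (h1 : ∀ i ∈ J, (D i).card ≤ n)
    (h2 : ∀ i, i ∉ J → (D i).card ≤ 1) : ∑ y, |(h y : ℝ)| ≤ B * (n : ℝ) ^ J.card := by
  have hc : (Fintype.piFinset D).card ≤ n ^ J.card := by
    rw [Fintype.card_piFinset]
    calc ∏ i, (D i).card ≤ ∏ i, if i ∈ J then n else 1 :=
          prod_le_prod' fun i _ => by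
            split_ifs with hi
            · exact h1 i hi
            · exact h2 i hi
      _ = n ^ J.card := by simp
  rw [← sum_subset (subset_univ (Fintype.piFinset D))]
  · refine (sum_le_card_nsmul _ _ _ fun y _ => hB y).trans ?_
    rw [nsmul_eq_mul, mul_comm]
    exact mul_le_mul_of_nonneg_left (by exact_mod_cast hc) hB0
  · intro y _ hy
    by_contra h0
    exact hy (Fintype.mem_piFinset.2 (hs y (by simpa using h0)))

private theorem wf_single {J : Finset ι} {D : ι → Finset Y} {h : (ι → Y) → ℤ} {B ρ G : ℝ}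
    (hh : Inp J D h B ρ) (hG : ∑ y, |(h y : ℝ)| ≤ G) : Dec J D h G B ρ :=
  ⟨Unit, inferInstance, fun _ => h, by simp, fun _ => hh.1, fun _ => hh.2.1, fun _ => hG,
    by simpa using hh.2.2.1, by simpa using hh.2.2.2⟩

end Aux

private theorem wf_two {L : ℝ} (hL : 2 ≤ L) {a : ℝ} (e : ℕ) (ha : a ≤ 2 ^ e) : a ≤ L ^ e :=
  ha.trans (pow_le_pow_left₀ (by norm_num) hL e)

private theorem wf_num1 {L C S W B : ℝ} {c k : ℕ} (hL : 2 ≤ L) (hC : C = L ^ c) (hS1 : 1 ≤ S)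
    (hS : S ≤ L ^ 2) (hW0 : 0 ≤ W) (hW : W ≤ L ^ k) (hB : 0 ≤ B) :
    (2916 * C ^ 2 * S ^ 2 * L + 1) * C * (3 * S * (W * L * B)) + S * (2 * (W * L * B)) ≤
      L ^ (3 * c + k + 23) * B := by
  have hL1 : 1 ≤ L := by linarith
  have hC1 : 1 ≤ C := hC ▸ one_le_pow₀ hL1
  have hN : 1 ≤ 2916 * C ^ 2 * S ^ 2 * L :=
    one_le_mul_of_one_le_of_one_le (one_le_mul_of_one_le_of_one_le
      (one_le_mul_of_one_le_of_one_le (by norm_num) (one_le_pow₀ hC1)) (one_le_pow₀ hS1)) hL1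
  set N := 2916 * C ^ 2 * S ^ 2 * L with hNd
  have hX : 0 ≤ S * (W * L * B) := by positivity
  have h1 : (N + 1) * C * 3 + 2 ≤ 8 * (N * C) := by nlinarith
  calc (N + 1) * C * (3 * S * (W * L * B)) + S * (2 * (W * L * B))
      = ((N + 1) * C * 3 + 2) * (S * (W * L * B)) := by ring
    _ ≤ 8 * (N * C) * (S * (W * L * B)) := mul_le_mul_of_nonneg_right h1 hX
    _ = 23328 * C ^ 3 * S ^ 3 * W * L ^ 2 * B := by rw [hNd]; ring
    _ ≤ L ^ 15 * C ^ 3 * (L ^ 2) ^ 3 * L ^ k * L ^ 2 * B := by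
        have := wf_two hL 15 (a := 23328) (by norm_num)
        gcongr
    _ = L ^ (3 * c + k + 23) * B := by rw [hC]; ring

theorem wprop (j : ℕ) : ∃ c : ℕ, ∀ (ι Y : Type) [Fintype ι] [DecidableEq ι] [Fintype Y]
    [DecidableEq Y] (Λ : ℕ) (J : Finset ι), Big ι Y Λ → J.card = j → WProp Y J ((Λ : ℝ) ^ c) := by
  induction j with
  | zero =>
    refine ⟨0, fun ι Y _ _ _ _ Λ J _ hJ => ?_⟩
    rw [card_eq_zero.1 hJ, pow_zero]
    exact wprop_empty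
  | succ j ih =>
    obtain ⟨c, hc⟩ := ih
    refine ⟨3 * c + (j + 1) + 23, fun ι Y _ _ _ _ Λ J hΛ hJ D h B hB0 hs hn hB => ?_⟩
    have hL : (2 : ℝ) ≤ Λ := by exact_mod_cast hΛ.1
    have hL1 : (1 : ℝ) ≤ Λ := by linarith
    have hP0 : 0 ≤ (Λ : ℝ) ^ (3 * c + (j + 1) + 23) * B := by positivity
    by_cases hB1 : B < 1
    · refine dec_zero J D (fun y => ?_) hP0 hP0
      have h1 : |h y| < 1 := by exact_mod_cast (hB y).trans_lt hB1
      exact Int.abs_lt_one_iff.1 h1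
    replace hB1 : 1 ≤ B := not_lt.1 hB1
    by_cases hD : ∃ i ∈ J, D i = ∅
    · obtain ⟨i, -, hi⟩ := hD
      refine dec_zero J D (fun y => ?_) hP0 hP0
      by_contra h0
      simpa [hi] using hs y h0 i
    have hD1 : ∀ i ∈ J, 1 ≤ (D i).card := fun i hi =>
      card_pos.2 (nonempty_iff_ne_empty.2 fun h0 => hD ⟨i, hi, h0⟩)
    have hW : ∀ i ∈ J, WProp Y (J.erase i) ((Λ : ℝ) ^ c) := fun i hi =>
      hc ι Y Λ _ hΛ (by rw [card_erase_of_mem hi, hJ]; rfl)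
    obtain ⟨j₀, hj₀⟩ : J.Nonempty := card_pos.1 (by omega)
    have hk : J.card ≤ Λ := (card_le_univ _).trans hΛ.2.1
    obtain ⟨C, hC⟩ : ∃ C : ℝ, C = (Λ : ℝ) ^ c := ⟨_, rfl⟩
    obtain ⟨S, hS⟩ : ∃ S : ℝ, S = ((J.card * Λ : ℕ) : ℝ) := ⟨_, rfl⟩
    obtain ⟨W, hWd⟩ : ∃ W : ℝ, W = 2 ^ J.card := ⟨_, rfl⟩
    have hC1 : 1 ≤ C := hC ▸ one_le_pow₀ hL1
    have hS1 : 1 ≤ S := by
      rw [hS]
      exact_mod_cast Nat.mul_pos (by omega) (by have := hΛ.1; omega)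
    have hS2 : S ≤ (Λ : ℝ) ^ 2 := by
      rw [hS, sq]
      exact_mod_cast Nat.mul_le_mul_right Λ hk
    have hW1 : 1 ≤ W := hWd ▸ one_le_pow₀ (by norm_num)
    have hW2 : W ≤ (Λ : ℝ) ^ (j + 1) := wf_two hL _ (by rw [hWd, hJ])
    have hWL : 1 ≤ W * Λ := one_le_mul_of_one_le_of_one_le hW1 hL1
    obtain ⟨ζ, hζ⟩ : ∃ ζ : ℝ, ζ = W * Λ * B := ⟨_, rfl⟩
    have hζ1 : W * Λ ≤ ζ := hζ ▸ le_mul_of_one_le_right (by linarith) hB1
    have hζ2 : B ≤ ζ := hζ ▸ le_mul_of_one_le_left hB0 hWL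
    have hζ3 : ζ ≤ S * ζ := le_mul_of_one_le_left (by linarith) hS1
    have hζ4 : S * (W * Λ) ≤ S * ζ := mul_le_mul_of_nonneg_left hζ1 (by linarith)
    obtain ⟨n₀, hn₀⟩ : ∃ n₀ : ℕ, (n₀ : ℝ) = 2916 * C ^ 2 * S ^ 2 * Λ :=
      ⟨2916 * (Λ ^ c) ^ 2 * (J.card * Λ) ^ 2 * Λ, by rw [hC, hS]; push_cast; ring⟩
    have hCS : 1 ≤ C * S := one_le_mul_of_one_le_of_one_le hC1 hS1
    have hCS1 : S ≤ C * S := le_mul_of_one_le_left (by linarith) hC1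
    have hn1 : 2916 * (C * S) ≤ n₀ := by
      rw [hn₀]
      calc 2916 * (C * S) = 2916 * (C * S) * 1 * 1 := by ring
        _ ≤ 2916 * (C * S) * (C * S) * Λ := by gcongr
        _ = _ := by ring
    have hζ0 : 0 ≤ ζ := by linarith
    have key := halve_rec hΛ (C := (Λ : ℝ) ^ c) (hC ▸ hC1) hW D n₀ 1 ζ (3 * S * ζ) (3 * S * ζ)
      (2 ^ J.card) ((n₀ + 1) * C * (3 * S * ζ)) ((n₀ + 1) * C * (3 * S * ζ)) hζ0
      (by
        have : (2 : ℝ) ≤ n₀ := by linarith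
        exact_mod_cast this)
      (by
        rw [← hC]
        calc 18 * C * (3 * S * ζ) = ζ * (54 * (C * S)) := by ring
          _ ≤ ζ * n₀ := mul_le_mul_of_nonneg_left (by linarith) hζ0)
      (by rw [← hC, hn₀]; exact le_of_eq (by ring))
      (by
        calc 3 * (3 * S * ζ) = ζ * (9 * S) := by ring
          _ ≤ ζ * n₀ := mul_le_mul_of_nonneg_left (by linarith) hζ0)
      (by rw [← hWd]; simpa using hζ1) le_rfl
      (fun D' _ hD' h' hh' => by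
        have hm : 0 ≤ 3 * S * ζ := by positivity
        have h1 : (((D' j₀).card : ℝ) + 1) * C * (3 * S * ζ) ≤ (n₀ + 1) * C * (3 * S * ζ) := by
          have : ((D' j₀).card : ℝ) ≤ n₀ := by exact_mod_cast (hD' j₀ hj₀).2
          gcongr
        exact (star hj₀ (by linarith) (hC ▸ hW j₀ hj₀) D' h' _ hm hh'.1 hh'.2.1 hh'.2.2.1).mono
          le_rfl h1 h1)
      (J.card * Λ) D (fun _ => Subset.rfl) hD1 (wf_clog hΛ J D) h B B hB0 hB0
      (by rw [← hS, ← hWd]; linarith) (by rw [← hS]; linarith) (wf_inp hs hn hB)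
    rw [← hS, ← hWd] at key
    have fin := wf_num1 hL hC hS1 hS2 (by linarith) hW2 hB0
    rw [← hζ, ← hn₀] at fin
    rw [← hWd]
    exact key.mono le_rfl (by linarith) fin

theorem frag (t : ℕ) (ht : 1 ≤ t) : ∃ c : ℕ, ∀ (ι Y : Type) [Fintype ι] [DecidableEq ι]
    [Fintype Y] [DecidableEq Y] (Λ m : ℕ) (J : Finset ι) (D : ι → Finset Y) (h : (ι → Y) → ℤ)
    (B κ : ℝ), Big ι Y Λ → J.card = t → (∀ i ∈ J, (D i).card = m) →
    (∀ i, i ∉ J → (D i).card ≤ 1) → 1 ≤ B → 1 ≤ κ → (Λ : ℝ) ^ c * κ ≤ m →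
    Inp J D h B (B / κ) → Dec J D h (Λ ^ c * B * κ ^ t) (Λ ^ c * B) (Λ ^ c * (B / κ)) := by
  obtain ⟨c, hc⟩ := wprop (t - 1)
  obtain ⟨e, he⟩ : ∃ e : ℕ, e = 2 * c + t + 17 := ⟨_, rfl⟩
  refine ⟨e + (e + 2) * t, fun ι Y _ _ _ _ Λ m J D h B κ hΛ hJ hm hD hB hκ hcm hh => ?_⟩
  have hL : (2 : ℝ) ≤ Λ := by exact_mod_cast hΛ.1
  have hL1 : (1 : ℝ) ≤ Λ := by linarith
  have hW : ∀ i ∈ J, WProp Y (J.erase i) ((Λ : ℝ) ^ c) := fun i hi =>
    hc ι Y Λ _ hΛ (by rw [card_erase_of_mem hi, hJ])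
  have hk : J.card ≤ Λ := (card_le_univ _).trans hΛ.2.1
  obtain ⟨C, hC⟩ : ∃ C : ℝ, C = (Λ : ℝ) ^ c := ⟨_, rfl⟩
  obtain ⟨S, hS⟩ : ∃ S : ℝ, S = ((J.card * Λ : ℕ) : ℝ) := ⟨_, rfl⟩
  obtain ⟨W, hWd⟩ : ∃ W : ℝ, W = 2 ^ J.card := ⟨_, rfl⟩
  have hC1 : 1 ≤ C := hC ▸ one_le_pow₀ hL1
  have hS1 : 1 ≤ S := by
    rw [hS]
    exact_mod_cast Nat.mul_pos (by omega) (by have := hΛ.1; omega)
  have hS2 : S ≤ (Λ : ℝ) ^ 2 := by
    rw [hS, sq]
    exact_mod_cast Nat.mul_le_mul_right Λ hk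
  have hW1 : 1 ≤ W := hWd ▸ one_le_pow₀ (by norm_num)
  have hW2 : W ≤ (Λ : ℝ) ^ t := wf_two hL _ (by rw [hWd, hJ])
  have hWL : 1 ≤ W * Λ := one_le_mul_of_one_le_of_one_le hW1 hL1
  obtain ⟨ρ, hρ⟩ : ∃ ρ : ℝ, ρ = B / κ := ⟨_, rfl⟩
  rw [← hρ] at hh ⊢
  have hBρ : B = ρ * κ := by rw [hρ]; field_simp
  have hρ0 : 0 ≤ ρ := by rw [hρ]; positivity
  have hρB : ρ ≤ B := hBρ ▸ le_mul_of_one_le_right hρ0 hκ
  obtain ⟨X, hX⟩ : ∃ X : ℝ, X = S * (W * Λ) := ⟨_, rfl⟩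
  have hX1 : S ≤ X := hX ▸ le_mul_of_one_le_right (by linarith) hWL
  have hX2 : W * Λ ≤ X := hX ▸ le_mul_of_one_le_left (by linarith) hS1
  have hX3 : X ≤ (Λ : ℝ) ^ (t + 3) := by
    calc X = S * W * Λ := by rw [hX]; ring
      _ ≤ (Λ : ℝ) ^ 2 * Λ ^ t * Λ := by gcongr
      _ = _ := by ring
  have hXB : X ≤ X * B := le_mul_of_one_le_right (by linarith) hB
  have hXB1 : B ≤ X * B := le_mul_of_one_le_left (by linarith) (by linarith)
  have hXB2 : S * ρ ≤ X * B := mul_le_mul hX1 hρB hρ0 (by linarith)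
  have hρS : ρ ≤ S * ρ := le_mul_of_one_le_left hρ0 hS1
  obtain ⟨a, ha⟩ : ∃ a : ℝ, a = 1458 * C ^ 2 * X * S * Λ := ⟨_, rfl⟩
  have ha1 : 1458 * (C * X) ≤ a := by
    calc 1458 * (C * X) = 1458 * (C * X) * 1 * 1 * 1 := by ring
      _ ≤ 1458 * (C * X) * C * S * Λ := by
          have : 0 ≤ X := by linarith
          gcongr
      _ = a := by rw [ha]; ring
  have hCX : X ≤ C * X := le_mul_of_one_le_left (by linarith) hC1
  have ha2 : a ≤ (Λ : ℝ) ^ e := by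
    calc a = 1458 * C ^ 2 * X * S * Λ := ha
      _ ≤ (Λ : ℝ) ^ 11 * C ^ 2 * Λ ^ (t + 3) * Λ ^ 2 * Λ := by
          have := wf_two hL 11 (a := 1458) (by norm_num)
          have : 0 ≤ X := by linarith
          gcongr
      _ = _ := by rw [hC, he]; ring
  have hpow : ∀ d : ℕ, d ≤ e + (e + 2) * t → (Λ : ℝ) ^ d ≤ Λ ^ (e + (e + 2) * t) :=
    fun d hd => pow_le_pow_right₀ hL1 hd
  have haκ : a ≤ a * κ := le_mul_of_one_le_right (by linarith) hκ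
  obtain ⟨n₁, hn₁⟩ : ∃ n₁ : ℕ, n₁ = ⌈a * κ⌉₊ := ⟨_, rfl⟩
  have hn1 : a * κ ≤ n₁ := hn₁ ▸ Nat.le_ceil _
  have hn2 : (n₁ : ℝ) ≤ a * κ + 1 := hn₁ ▸ (Nat.ceil_lt_add_one (by linarith)).le
  have hn3 : n₁ ≤ m := by
    rw [hn₁, Nat.ceil_le]
    exact (mul_le_mul_of_nonneg_right (ha2.trans (hpow e (Nat.le_add_right _ _)))
      (by linarith)).trans hcm
  have hn4 : B * a ≤ ρ * n₁ := by
    calc B * a = ρ * (a * κ) := by rw [hBρ]; ring
      _ ≤ ρ * n₁ := mul_le_mul_of_nonneg_left hn1 hρ0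
  have hn5 : 0 ≤ ρ * n₁ := by positivity
  have hn6 : B * (C * X) * 1458 ≤ B * a := by
    rw [mul_assoc, mul_comm _ (1458 : ℝ)]
    exact mul_le_mul_of_nonneg_left ha1 (by linarith)
  have hn7 : B * X ≤ B * (C * X) := mul_le_mul_of_nonneg_left hCX (by linarith)
  have key := halve_rec hΛ (C := (Λ : ℝ) ^ c) (hC ▸ hC1) hW D (2 * n₁) n₁ ρ (3 * (X * B))
    (3 * (S * ρ)) (3 * (X * B) * ((2 * n₁ : ℕ) : ℝ) ^ J.card) (3 * (X * B)) (3 * (S * ρ)) hρ0 le_rfl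
    (by rw [← hC]; push_cast; linarith)
    (by
      rw [← hC]
      calc 324 * C ^ 2 * (3 * (X * B)) * (3 * (S * ρ)) * Λ = 2 * ρ * (B * a) := by rw [ha]; ring
        _ ≤ 2 * ρ * (ρ * n₁) := mul_le_mul_of_nonneg_left hn4 (by linarith)
        _ = _ := by push_cast; ring)
    (by push_cast; linarith)
    (by rw [← hWd]; linarith)
    (by
      have h2 : (2 : ℝ) ≤ ((2 * n₁ : ℕ) : ℝ) := by push_cast; linarith
      exact (pow_le_pow_left₀ (by norm_num) h2 _).trans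
        (le_mul_of_one_le_left (by positivity) (by linarith)))
    (fun D' hs' hD' h' hh' => wf_single hh' (wf_total (by linarith) hh'.1 hh'.2.2.1
      (fun i hi => (hD' i hi).2) fun i hi => (card_le_card (hs' i)).trans (hD i hi)))
    (J.card * Λ) D (fun _ => Subset.rfl) (fun i hi => (hm i hi).symm ▸ hn3) (wf_clog hΛ J D) h B ρ
    (by linarith) hρ0 (by rw [← hS, ← hWd, mul_add, ← hX]; linarith) (by rw [← hS]; linarith) hh
  rw [← hS, ← hWd, mul_add, ← hX, hJ] at key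
  have hB0 : 0 ≤ B := by linarith
  have h8 : 8 * X ≤ (Λ : ℝ) ^ e := by linarith
  have h9 : ((2 * n₁ : ℕ) : ℝ) ≤ (Λ : ℝ) ^ (e + 2) * κ := by
    calc ((2 * n₁ : ℕ) : ℝ) ≤ 4 * a * κ := by push_cast; linarith
      _ ≤ (Λ : ℝ) ^ 2 * Λ ^ e * κ := by
          have := wf_two hL 2 (a := 4) (by norm_num)
          have : 0 ≤ a := by linarith
          gcongr
      _ = _ := by ring
  have hE := hpow e (Nat.le_add_right _ _)
  refine key.mono ?_ ?_ ?_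
  · calc 3 * (X * B) * ((2 * n₁ : ℕ) : ℝ) ^ t = 3 * X * B * ((2 * n₁ : ℕ) : ℝ) ^ t := by ring
      _ ≤ (Λ : ℝ) ^ e * B * ((Λ : ℝ) ^ (e + 2) * κ) ^ t := by
          have : 3 * X ≤ (Λ : ℝ) ^ e := by linarith
          gcongr
      _ = _ := by rw [mul_pow, ← pow_mul, pow_add]; ring
  · calc 3 * (X * B) + (S * ρ + X) ≤ 8 * X * B := by linarith
      _ ≤ _ := mul_le_mul_of_nonneg_right (h8.trans hE) hB0
  · calc 3 * (S * ρ) + S * (2 * ρ) = 5 * S * ρ := by ring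
      _ ≤ _ := mul_le_mul_of_nonneg_right (by linarith) hρ0

end Pool.Agent.Lib.MP_deca50_lc.CES
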